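import Pool.Agent.N172.CW.Ord

/-!
# The contraction, the orders, and the partners
-/

set_option autoImplicit false
set_option linter.unusedSectionVars false
set_option linter.deprecated false

namespace Pool.Agent.N172.CW

open NumberField Complex Filter Topology IsDedekindDomain Asymptotics
open Pool.Agent.N172.HS (IsHecke WRep EH vx_injective pc Bdd StNvq finset_isLittleO LL_not_littleO)
open Pool.Agent.W353.TP (HX sysH push res LL LL_tendsto bdd_isLittleO)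
open Pool.Agent.W353.NF (vx)
open scoped ComplexConjugate

/-- several small functions -/
theorem small_sum {κ κ' : Type} [Fintype κ] [Fintype κ'] (e : κ → κ' → ℝ → ℝ)
    (he : ∀ i k, e i k =o[𝓝[>] 0] LL) {δ : ℝ} (hδ : 0 < δ) :
    ∀ᶠ ε : ℝ in 𝓝[>] 0, ∑ i, ∑ k, |e i k ε| ≤ δ * LL ε := by
  have h1 : (fun ε => ∑ i, ∑ k, |e i k ε|) =o[𝓝[>] 0] LL :=
    finset_isLittleO Finset.univ fun i _ => finset_isLittleO Finset.univ fun k _ =>
      (he i k).norm_left.congr_left fun ε => Real.norm_eq_abs _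
  filter_upwards [(isLittleO_iff.1 h1) hδ, LL_tendsto.eventually_gt_atTop 0] with ε h2 h3
  rw [Real.norm_of_nonneg h3.le] at h2
  exact (Real.le_norm_self _).trans h2

theorem abs_le_sqrt_sum {κ : Type} [Fintype κ] (x : κ → ℝ) (i : κ) :
    |x i| ≤ Real.sqrt (∑ i, x i ^ 2) := by
  refine Real.le_sqrt_of_sq_le ?_
  rw [sq_abs]
  exact Finset.single_le_sum (f := fun i => x i ^ 2) (fun j _ => sq_nonneg _) (Finset.mem_univ i)

theorem bil_le {κ κ' : Type} [Fintype κ] [Fintype κ'] (e : κ → κ' → ℝ) (x : κ → ℝ) (y : κ' → ℝ)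
    {δ : ℝ} (he : ∑ i, ∑ k, |e i k| ≤ δ) :
    |∑ i, ∑ k, x i * y k * e i k| ≤
      δ * (Real.sqrt (∑ i, x i ^ 2) * Real.sqrt (∑ k, y k ^ 2)) := by
  calc |∑ i, ∑ k, x i * y k * e i k| ≤ ∑ i, ∑ k, |x i * y k * e i k| :=
        (Finset.abs_sum_le_sum_abs _ _).trans
          (Finset.sum_le_sum fun i _ => Finset.abs_sum_le_sum_abs _ _)
    _ ≤ ∑ i, ∑ k, |e i k| * (Real.sqrt (∑ i, x i ^ 2) * Real.sqrt (∑ k, y k ^ 2)) := by
        refine Finset.sum_le_sum fun i _ => Finset.sum_le_sum fun k _ => ?_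
        rw [abs_mul, abs_mul, mul_comm]
        exact mul_le_mul_of_nonneg_left (mul_le_mul (abs_le_sqrt_sum x i) (abs_le_sqrt_sum y k)
          (abs_nonneg _) (Real.sqrt_nonneg _)) (abs_nonneg _)
    _ = (∑ i, ∑ k, |e i k|) * (Real.sqrt (∑ i, x i ^ 2) * Real.sqrt (∑ k, y k ^ 2)) := by
        rw [Finset.sum_mul]
        exact Finset.sum_congr rfl fun i _ => (Finset.sum_mul _ _ _).symm
    _ ≤ _ := mul_le_mul_of_nonneg_right he (by positivity)

/-- an almost orthonormal quadratic form -/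
theorem quad_le {κ : Type} [Fintype κ] [DecidableEq κ] (A : κ → κ → ℝ → ℝ)
    (hA : ∀ i j, (fun ε => A i j ε - (if i = j then 1 else 0) * LL ε) =o[𝓝[>] 0] LL)
    {δ : ℝ} (hδ : 0 < δ) :
    ∀ᶠ ε : ℝ in 𝓝[>] 0, ∀ x : κ → ℝ, ∑ i, ∑ j, x i * x j * A i j ε ≤
      (1 + δ) * (∑ i, x i ^ 2) * LL ε := by
  filter_upwards [small_sum (fun i j ε => A i j ε - (if i = j then 1 else 0) * LL ε) hA hδ]
    with ε h1 x
  have h2 := (abs_le.1 (bil_le (fun i j => A i j ε - (if i = j then 1 else 0) * LL ε) x x h1)).2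
  have h3 : ∑ i, ∑ j, x i * x j * A i j ε = ∑ i, ∑ j, x i * x j *
      (A i j ε - (if i = j then 1 else 0) * LL ε) + (∑ i, x i ^ 2) * LL ε := by
    rw [Finset.sum_mul, ← Finset.sum_add_distrib]
    refine Finset.sum_congr rfl fun i _ => ?_
    have h4 : x i ^ 2 * LL ε = ∑ j, x i * x j * ((if i = j then 1 else 0) * LL ε) := by
      rw [Finset.sum_eq_single i]
      · rw [if_pos rfl]; ring
      · intro j _ hj
        rw [if_neg (fun h => hj h.symm)]
        ring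
      · intro h; exact absurd (Finset.mem_univ i) h
    rw [h4, ← Finset.sum_add_distrib]
    refine Finset.sum_congr rfl fun j _ => ?_
    ring
  rw [h3]
  rw [Real.mul_self_sqrt (Finset.sum_nonneg fun i _ => sq_nonneg _)] at h2
  calc _ ≤ δ * LL ε * (∑ i, x i ^ 2) + (∑ i, x i ^ 2) * LL ε := by linarith
    _ = _ := by ring

section

variable {K : Type} [Field K] [NumberField K]

/-- **The contraction.** -/
theorem contraction {κ κ' : Type} [Fintype κ] [Fintype κ'] (π : κ → Params K)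
    (h : ∀ i, (π i).IsCuspidal) (hne : ∀ i j, i ≠ j → HasOrd (RS (π i) (π j)) 1 0)
    (ρ : κ' → WRep K) (hρ : ∀ k, (ρ k).IsIrr) (hor : ∀ k l, k ≠ l → (ρ k).inner (ρ l) = 0)
    {η : ℝ} (hη : 0 < η) :
    ∀ᶠ ε : ℝ in 𝓝[>] 0, ∀ (x : κ → ℝ) (y : κ' → ℝ),
      |∑ i, ∑ k, x i * y k * Real.log ‖LWr (π i) (ρ k) (1 + ε)‖| ≤
        (1 + η) * (Real.sqrt (∑ i, x i ^ 2) * Real.sqrt (∑ k, y k ^ 2)) * LL ε := by
  classical
  set δ : ℝ := η / 2 with hδ
  have hδ0 : 0 < δ := by rw [hδ]; positivity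
  have hA := quad_le (fun i j ε => Real.log ‖RSr (π i) (π j) (1 + ε)‖) (by
    intro i j
    by_cases hij : i = j
    · subst hij
      simpa using rs_self_log (h i)
    · simpa [hij] using rs_pair_log (hne i j hij)) hδ0
  have hB := quad_le (fun k l ε => ip ε (bH (ρ k)) (bH (ρ l))) (by
    intro k l
    have h1 := ip_bH (ρ k) (ρ l)
    by_cases hkl : k = l
    · subst hkl
      have h2 : (ρ k).inner (ρ k) = 1 := hρ k
      rw [h2] at h1
      simpa using h1
    · rw [hor k l hkl] at h1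
      simpa [hkl] using h1) hδ0
  have hE := small_sum (fun i k ε => Real.log ‖LWr (π i) (ρ k) (1 + ε)‖ -
    ip ε (aH (π i)) (bH (ρ k))) (fun i k => (lw_est (h i) (ρ k)).2) hδ0
  filter_upwards [hA, hB, hE, LL_tendsto.eventually_gt_atTop 0, self_mem_nhdsWithin] with
    ε hA hB hE hL hε x y
  have hε' : (0 : ℝ) < ε := hε
  set X : ℝ := ∑ i, x i ^ 2 with hX
  set Y : ℝ := ∑ k, y k ^ 2 with hY
  have hX0 : 0 ≤ X := Finset.sum_nonneg fun i _ => sq_nonneg _
  have hY0 : 0 ≤ Y := Finset.sum_nonneg fun i _ => sq_nonneg _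
  have h1 := ip_sum_sum (K := K) Finset.univ Finset.univ (f := fun i => aH (π i))
    (f' := fun k => bH (ρ k)) (fun i _ => L2.aH (h i)) (fun k _ => L2.bH (ρ k)) x y hε'
  have h2 := ip_cs (K := K) (L2.sum Finset.univ (f := fun i => aH (π i))
    (fun i _ => L2.aH (h i)) fun i => (x i : ℂ)) (L2.sum Finset.univ (f := fun k => bH (ρ k))
    (fun k _ => L2.bH (ρ k)) fun k => (y k : ℂ)) hε'
  rw [h1] at h2
  have h3 := (ip_aa_le π h x hε').trans (hA x)
  have h4 : ip ε (fun p => ∑ k, (y k : ℂ) * bH (ρ k) p) (fun p => ∑ k, (y k : ℂ) * bH (ρ k) p) ≤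
      (1 + δ) * Y * LL ε := by
    rw [ip_sum_sum (K := K) Finset.univ Finset.univ (fun k _ => L2.bH (ρ k))
      (fun k _ => L2.bH (ρ k)) y y hε']
    exact hB y
  have h5 : (∑ i, ∑ k, x i * y k * ip ε (aH (π i)) (bH (ρ k))) ^ 2 ≤
      ((1 + δ) * (Real.sqrt X * Real.sqrt Y) * LL ε) ^ 2 := by
    refine h2.trans ?_
    have h6 : ((1 + δ) * (Real.sqrt X * Real.sqrt Y) * LL ε) ^ 2 =
        ((1 + δ) * X * LL ε) * ((1 + δ) * Y * LL ε) := by
      rw [mul_pow, mul_pow, mul_pow, Real.sq_sqrt hX0, Real.sq_sqrt hY0]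
      ring
    rw [h6]
    exact mul_le_mul h3 h4 (ip_self_nonneg _ _) (by positivity)
  have h6 : |∑ i, ∑ k, x i * y k * ip ε (aH (π i)) (bH (ρ k))| ≤
      (1 + δ) * (Real.sqrt X * Real.sqrt Y) * LL ε :=
    abs_le_of_sq_le_sq h5 (by positivity)
  have h7 := bil_le (fun i k => Real.log ‖LWr (π i) (ρ k) (1 + ε)‖ -
    ip ε (aH (π i)) (bH (ρ k))) x y hE
  have h8 : ∑ i, ∑ k, x i * y k * Real.log ‖LWr (π i) (ρ k) (1 + ε)‖ =
      ∑ i, ∑ k, x i * y k * ip ε (aH (π i)) (bH (ρ k)) +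
      ∑ i, ∑ k, x i * y k * (Real.log ‖LWr (π i) (ρ k) (1 + ε)‖ -
        ip ε (aH (π i)) (bH (ρ k))) := by
    rw [← Finset.sum_add_distrib]
    refine Finset.sum_congr rfl fun i _ => ?_
    rw [← Finset.sum_add_distrib]
    refine Finset.sum_congr rfl fun k _ => ?_
    ring
  rw [h8]
  refine (abs_add_le _ _).trans ((add_le_add h6 h7).trans (le_of_eq ?_))
  rw [← hX, ← hY, hδ]
  ring

/-- the matrix of the orders is a contraction -/
theorem orders_le {κ κ' : Type} [Fintype κ] [Fintype κ'] (π : κ → Params K)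
    (h : ∀ i, (π i).IsCuspidal) (hne : ∀ i j, i ≠ j → HasOrd (RS (π i) (π j)) 1 0)
    (ρ : κ' → WRep K) (hρ : ∀ k, (ρ k).IsIrr) (hor : ∀ k l, k ≠ l → (ρ k).inner (ρ l) = 0)
    (m : κ → κ' → ℤ) (hm : ∀ i k, HasOrd (LW (π i) (ρ k)) 1 (m i k)) (x : κ → ℝ) (y : κ' → ℝ) :
    |∑ i, ∑ k, x i * y k * m i k| ≤ Real.sqrt (∑ i, x i ^ 2) * Real.sqrt (∑ k, y k ^ 2) := by
  set Z : ℝ := Real.sqrt (∑ i, x i ^ 2) * Real.sqrt (∑ k, y k ^ 2) with hZ
  have hZ0 : 0 ≤ Z := by rw [hZ]; positivity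
  refine le_of_forall_pos_le_add fun δ hδ => ?_
  obtain ⟨η, hη, hη2⟩ : ∃ η : ℝ, 0 < η ∧ (1 + η) * Z + η * Z ≤ Z + δ := by
    refine ⟨δ / (2 * (Z + 1)), by positivity, ?_⟩
    have h1 : δ / (2 * (Z + 1)) * (2 * Z) ≤ δ := by
      rw [div_mul_eq_mul_div, div_le_iff₀ (by positivity)]
      nlinarith
    linarith
  have hE := small_sum (fun i k ε => Real.log ‖LWr (π i) (ρ k) (1 + ε)‖ + m i k * LL ε)
    (fun i k => lw_ord_log (hm i k)) hη
  obtain ⟨ε, h1, h2, h3⟩ := ((contraction π h hne ρ hρ hor hη).and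
    (hE.and (LL_tendsto.eventually_gt_atTop 0))).exists
  have h4 := h1 x y
  have h5 := bil_le (fun i k => Real.log ‖LWr (π i) (ρ k) (1 + ε)‖ + m i k * LL ε) x y h2
  have h6 : (∑ i, ∑ k, x i * y k * (m i k : ℝ)) * LL ε =
      ∑ i, ∑ k, x i * y k * (Real.log ‖LWr (π i) (ρ k) (1 + ε)‖ + m i k * LL ε) -
      ∑ i, ∑ k, x i * y k * Real.log ‖LWr (π i) (ρ k) (1 + ε)‖ := by
    rw [Finset.sum_mul, ← Finset.sum_sub_distrib]
    refine Finset.sum_congr rfl fun i _ => ?_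
    rw [Finset.sum_mul, ← Finset.sum_sub_distrib]
    refine Finset.sum_congr rfl fun k _ => ?_
    ring
  have h7 : |∑ i, ∑ k, x i * y k * (m i k : ℝ)| * LL ε ≤ (Z + δ) * LL ε := by
    rw [← abs_of_pos h3, ← abs_mul, abs_of_pos h3, h6]
    refine (abs_sub _ _).trans ((add_le_add h5 h4).trans ?_)
    rw [← hZ]
    calc η * LL ε * Z + (1 + η) * Z * LL ε = ((1 + η) * Z + η * Z) * LL ε := by ring
      _ ≤ (Z + δ) * LL ε := mul_le_mul_of_nonneg_right hη2 h3.le
  exact le_of_mul_le_mul_right h7 h3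

theorem int_sq_sum_le {κ : Type} [Fintype κ] (m : κ → ℤ)
    (h : (∑ k, (m k : ℝ) ^ 2) ≤ Real.sqrt (∑ k, (m k : ℝ) ^ 2)) : ∑ k, m k ^ 2 ≤ 1 := by
  have h0 : 0 ≤ ∑ k, (m k : ℝ) ^ 2 := Finset.sum_nonneg fun _ _ => sq_nonneg _
  have h1 : ∑ k, (m k : ℝ) ^ 2 ≤ 1 := by
    by_contra hc
    rw [not_le] at hc
    have h2 := Real.sq_sqrt h0
    have h3 : 1 < Real.sqrt (∑ k, (m k : ℝ) ^ 2) := by
      rw [Real.lt_sqrt zero_le_one]
      simpa using hc
    nlinarith
  exact_mod_cast h1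

/-- **The orders form a signed partial permutation matrix.** -/
theorem orders {κ κ' : Type} [Fintype κ] [Fintype κ'] (π : κ → Params K)
    (h : ∀ i, (π i).IsCuspidal) (hne : ∀ i j, i ≠ j → HasOrd (RS (π i) (π j)) 1 0)
    (ρ : κ' → WRep K) (hρ : ∀ k, (ρ k).IsIrr) (hor : ∀ k l, k ≠ l → (ρ k).inner (ρ l) = 0)
    (m : κ → κ' → ℤ) (hm : ∀ i k, HasOrd (LW (π i) (ρ k)) 1 (m i k)) :
    (∀ i, ∑ k, m i k ^ 2 ≤ 1) ∧ ∀ k, ∑ i, m i k ^ 2 ≤ 1 := by
  classical
  have key := orders_le π h hne ρ hρ hor m hm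
  constructor
  · intro i
    apply int_sq_sum_le
    have h1 := key (fun j => if j = i then 1 else 0) (fun k => m i k)
    have e1 : ∑ j, ∑ k, (if j = i then (1 : ℝ) else 0) * (m i k : ℝ) * (m j k : ℝ) =
        ∑ k, (m i k : ℝ) ^ 2 := by
      rw [Finset.sum_eq_single i]
      · refine Finset.sum_congr rfl fun k _ => ?_
        rw [if_pos rfl]; ring
      · intro j _ hj
        refine Finset.sum_eq_zero fun k _ => ?_
        rw [if_neg hj]; ring
      · intro h; exact absurd (Finset.mem_univ i) h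
    have e2 : ∑ j, (if j = i then (1 : ℝ) else 0) ^ 2 = 1 := by
      rw [Finset.sum_eq_single i]
      · rw [if_pos rfl]; norm_num
      · intro j _ hj
        rw [if_neg hj]; norm_num
      · intro h; exact absurd (Finset.mem_univ i) h
    rw [e1, e2, Real.sqrt_one, one_mul] at h1
    exact (le_abs_self _).trans h1
  · intro k
    apply int_sq_sum_le (fun i => m i k)
    have h1 := key (fun i => m i k) (fun l => if l = k then 1 else 0)
    have e1 : ∑ i, ∑ l, (m i k : ℝ) * (if l = k then (1 : ℝ) else 0) * (m i l : ℝ) =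
        ∑ i, (m i k : ℝ) ^ 2 := by
      refine Finset.sum_congr rfl fun i _ => ?_
      rw [Finset.sum_eq_single k]
      · rw [if_pos rfl]; ring
      · intro j _ hj
        rw [if_neg hj]; ring
      · intro h; exact absurd (Finset.mem_univ k) h
    have e2 : ∑ l, (if l = k then (1 : ℝ) else 0) ^ 2 = 1 := by
      rw [Finset.sum_eq_single k]
      · rw [if_pos rfl]; norm_num
      · intro j _ hj
        rw [if_neg hj]; norm_num
      · intro h; exact absurd (Finset.mem_univ k) h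
    rw [e1, e2, Real.sqrt_one, mul_one] at h1
    exact (le_abs_self _).trans h1

end

end Pool.Agent.N172.CW
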