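import Mathlib

/-!
# The logarithm of an Euler product
-/

set_option autoImplicit false

namespace Pool.Agent.N172.CW

open Complex Filter Topology

/-- **The logarithm of an Euler product.** -/
theorem euler_log {X ι : Type*} [Fintype ι] (z : X → ι → ℂ) (hz : ∀ x l, ‖z x l‖ < 1)
    (hs : Summable fun q : X × ℕ => ‖∑ l, z q.1 l ^ (q.2 + 1)‖ / ((q.2 : ℝ) + 1)) :
    ∏' x, ∏ l, (1 - z x l)⁻¹ ≠ 0 ∧ Real.log ‖∏' x, ∏ l, (1 - z x l)⁻¹‖ =
      ∑' q : X × ℕ, (∑ l, z q.1 l ^ (q.2 + 1)).re / ((q.2 : ℝ) + 1) := by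
  set F : X × ℕ → ℂ := fun q => (∑ l, z q.1 l ^ (q.2 + 1)) / ((q.2 : ℂ) + 1) with hF
  have hFn : ∀ q, ‖F q‖ = ‖∑ l, z q.1 l ^ (q.2 + 1)‖ / ((q.2 : ℝ) + 1) := by
    intro q
    rw [hF]
    simp only
    rw [norm_div]
    congr 1
    have : ((q.2 : ℂ) + 1) = (((q.2 : ℝ) + 1 : ℝ) : ℂ) := by push_cast; rfl
    rw [this, Complex.norm_real, Real.norm_of_nonneg (by positivity)]
  have hFs : Summable F := Summable.of_norm (by simpa only [hFn] using hs)
  set g : X → ℂ := fun x => ∑ l, -Complex.log (1 - z x l) with hg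
  have h1 : ∀ x l, HasSum (fun m : ℕ => z x l ^ (m + 1) / ((m : ℂ) + 1))
      (-Complex.log (1 - z x l)) := by
    intro x l
    have h2 := Complex.hasSum_taylorSeries_neg_log (hz x l)
    have h3 := (hasSum_nat_add_iff' 1).2 h2
    simp only [Finset.sum_range_one, pow_zero, Nat.cast_zero, div_zero, sub_zero] at h3
    refine h3.congr_fun fun m => ?_
    push_cast
    rfl
  have h2 : ∀ x, HasSum (fun m : ℕ => F (x, m)) (g x) := by
    intro x
    have h3 := hasSum_sum (f := fun l (m : ℕ) => z x l ^ (m + 1) / ((m : ℂ) + 1))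
      (s := Finset.univ) (fun l _ => h1 x l)
    refine h3.congr_fun fun m => ?_
    rw [hF]
    simp only
    rw [Finset.sum_div]
  have h3 : HasSum g (∑' q, F q) := hFs.hasSum.prod_fiberwise h2
  have h4 : HasProd (fun x => ∏ l, (1 - z x l)⁻¹) (cexp (∑' q, F q)) := by
    have h5 := h3.cexp
    refine h5.congr_fun fun x => ?_
    rw [Function.comp_apply, hg]
    simp only
    rw [Complex.exp_sum]
    refine Finset.prod_congr rfl fun l _ => ?_
    rw [Complex.exp_neg, Complex.exp_log]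
    intro h0
    have h6 : z x l = 1 := (sub_eq_zero.1 h0).symm
    have h7 := hz x l
    rw [h6, norm_one] at h7
    exact lt_irrefl _ h7
  rw [h4.tprod_eq]
  refine ⟨Complex.exp_ne_zero _, ?_⟩
  rw [Complex.norm_exp, Real.log_exp]
  have h5 := Complex.hasSum_re hFs.hasSum
  rw [← h5.tsum_eq]
  refine tsum_congr fun q => ?_
  rw [hF]
  simp only
  have : ((q.2 : ℂ) + 1) = (((q.2 : ℝ) + 1 : ℝ) : ℂ) := by push_cast; rfl
  rw [this, Complex.div_ofReal_re]

/-- **Convergence of the product implies convergence of the series**, if the coefficients are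
nonnegative. -/
theorem euler_summable {X ι : Type*} [Fintype ι] (z : X → ι → ℂ) (hz : ∀ x l, ‖z x l‖ < 1)
    (r : X × ℕ → ℝ) (hr : ∀ q, 0 ≤ r q)
    (hzr : ∀ q : X × ℕ, ∑ l, z q.1 l ^ (q.2 + 1) = (r q : ℂ))
    (hm : Multipliable fun x => ∏ l, (1 - z x l)⁻¹) :
    Summable fun q : X × ℕ => r q / ((q.2 : ℝ) + 1) := by
  set f : X × ℕ → ℝ := fun q => r q / ((q.2 : ℝ) + 1) with hf
  have hf0 : ∀ q, 0 ≤ f q := fun q => div_nonneg (hr q) (by positivity)
  have h1 : ∀ x l, HasSum (fun m : ℕ => z x l ^ (m + 1) / ((m : ℂ) + 1))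
      (-Complex.log (1 - z x l)) := by
    intro x l
    have h2 := Complex.hasSum_taylorSeries_neg_log (hz x l)
    have h3 := (hasSum_nat_add_iff' 1).2 h2
    simp only [Finset.sum_range_one, pow_zero, Nat.cast_zero, div_zero, sub_zero] at h3
    refine h3.congr_fun fun m => ?_
    push_cast
    rfl
  have h2 : ∀ x, HasSum (fun m : ℕ => ((f (x, m) : ℝ) : ℂ)) (∑ l, -Complex.log (1 - z x l)) := by
    intro x
    have h3 := hasSum_sum (f := fun l (m : ℕ) => z x l ^ (m + 1) / ((m : ℂ) + 1))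
      (s := Finset.univ) (fun l _ => h1 x l)
    refine h3.congr_fun fun m => ?_
    rw [hf]
    simp only
    rw [← Finset.sum_div, hzr (x, m)]
    push_cast
    rfl
  set g : X → ℝ := fun x => ∑' m : ℕ, f (x, m) with hg
  have h3 : ∀ x, HasSum (fun m : ℕ => f (x, m)) (g x) := by
    intro x
    have h4 := Complex.hasSum_re (h2 x)
    simp only [Complex.ofReal_re] at h4
    exact h4.summable.hasSum
  have h4 : ∀ x, ‖∏ l, (1 - z x l)⁻¹‖ = Real.exp (g x) := by
    intro x
    have h5 : ∏ l, (1 - z x l)⁻¹ = cexp (∑ l, -Complex.log (1 - z x l)) := by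
      rw [Complex.exp_sum]
      refine Finset.prod_congr rfl fun l _ => ?_
      rw [Complex.exp_neg, Complex.exp_log]
      intro h0
      have h6 : z x l = 1 := (sub_eq_zero.1 h0).symm
      have h7 := hz x l
      rw [h6, norm_one] at h7
      exact lt_irrefl _ h7
    rw [h5, Complex.norm_exp]
    congr 1
    have h6 := Complex.hasSum_re (h2 x)
    simp only [Complex.ofReal_re] at h6
    exact h6.unique (h3 x)
  have hg0 : ∀ x, 0 ≤ g x := fun x => tsum_nonneg fun m => hf0 _
  obtain ⟨a, ha⟩ := hm.norm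
  have h5 : ∀ s : Finset X, Real.exp (∑ x ∈ s, g x) ≤ a := by
    have hmono : Monotone fun s : Finset X => Real.exp (∑ x ∈ s, g x) := fun s t hst =>
      Real.exp_le_exp.2 (Finset.sum_le_sum_of_subset_of_nonneg hst fun x _ _ => hg0 x)
    refine hmono.ge_of_tendsto ?_
    have h6 : Tendsto (fun s : Finset X => ∏ x ∈ s, ‖∏ l, (1 - z x l)⁻¹‖) atTop (𝓝 a) := by
      simpa [HasProd] using ha
    refine h6.congr fun s => ?_
    rw [Real.exp_sum]
    exact Finset.prod_congr rfl fun x _ => h4 x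
  have hgs : Summable g := by
    refine summable_of_sum_le hg0 (c := Real.log a) fun s => ?_
    have h6 := h5 s
    rw [← Real.log_exp (∑ x ∈ s, g x)]
    exact Real.log_le_log (Real.exp_pos _) h6
  exact (summable_prod_of_nonneg hf0).2 ⟨fun x => (h3 x).summable, hgs⟩

end Pool.Agent.N172.CW
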