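import Pool.Agent.N172.HS.Sp
import Pool.Agent.N172.CW.Eul

/-!
# Cuspidal representations of `GL_n` and representations of the Weil group: definitions
-/

set_option autoImplicit false

namespace Pool.Agent.N172.CW

open NumberField Complex Filter Topology IsDedekindDomain
open Pool.Agent.N172.HS (WRep)
open scoped ComplexConjugate

/-- The Satake parameters `α_{v,1}, …, α_{v,n}` of an irreducible representation `π` of `GL_n` of the
adeles of the number field `K` at the primes `v` (they are zero at the primes where `π` is ramified). -/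
structure Params (K : Type) [Field K] [NumberField K] where
  n : ℕ
  α : HeightOneSpectrum (𝓞 K) → Fin n → ℂ

variable {K : Type} [Field K] [NumberField K]

/-- The Euler product `L(s, π × π'~) = ∏_v ∏_{i,j} (1 - α_{v,i} conj(α'_{v,j}) Nv^{-s})⁻¹` of Rankin and
Selberg. -/
noncomputable def RS (π π' : Params K) (s : ℂ) : ℂ :=
  ∏' v : HeightOneSpectrum (𝓞 K), ∏ l : Fin π.n × Fin π'.n,
    (1 - π.α v l.1 * conj (π'.α v l.2) * (Ideal.absNorm v.asIdeal : ℂ) ^ (-s))⁻¹

/-- The function `L` has the order `m` at `s₀`, seen from the right: `L(s₀ + ε) ε^{-m}` tends to a number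
`c ≠ 0` for `ε → 0+`. If `L` is meromorphic at `s₀`, this is the order of `L` at `s₀`. -/
def HasOrd (L : ℂ → ℂ) (s₀ : ℂ) (m : ℤ) : Prop :=
  ∃ c : ℂ, c ≠ 0 ∧ Tendsto (fun ε : ℝ => L (s₀ + (ε : ℂ)) * (ε : ℂ) ^ (-m)) (𝓝[>] 0) (𝓝 c)

/-- The theorem of Jacquet and Shalika for a unitary cuspidal representation `π` of `GL_n`:
`|α_{v,j}| ≤ Nv^{1/2}`, the Euler product `L(s, π × π~)` converges for `s > 1`, and it has a simple pole
at `s = 1`. -/
structure Params.IsCuspidal (π : Params K) : Prop where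
  le : ∀ v j, ‖π.α v j‖ ^ 2 ≤ Ideal.absNorm v.asIdeal
  conv : ∀ s : ℝ, 1 < s → Multipliable fun v : HeightOneSpectrum (𝓞 K) =>
    ∏ l : Fin π.n × Fin π.n,
      (1 - π.α v l.1 * conj (π.α v l.2) * (Ideal.absNorm v.asIdeal : ℂ) ^ (-(s : ℂ)))⁻¹
  pole : HasOrd (RS π π) 1 (-1)

/-- The degree of the residue field of the prime `w` of `F` over the residue field of the prime
`w ∩ 𝓞 K` of `K`. -/
noncomputable def rd (K : Type) {F : Type} [Field K] [NumberField K] [Field F] [NumberField F]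
    [Algebra K F] (w : HeightOneSpectrum (𝓞 F)) : ℕ :=
  Ideal.inertiaDeg' (w.under (𝓞 K)).asIdeal w.asIdeal

/-- The Euler product `L(s, π × Ind χ) = ∏_w ∏_j (1 - α_{v,j}^f χ(w) Nw^{-s})⁻¹` over the primes `w` of
`F`, with the prime `v` of `K` below `w` and the degree `f` of the residue field of `w` over that of `v`;
`Ind χ` is the representation of the Weil group of `K` induced from the Hecke character `χ` of `F`. -/
noncomputable def LInd (π : Params K) {F : Type} [Field F] [NumberField F] [Algebra K F]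
    (χ : Ideal (𝓞 F) →*₀ ℂ) (s : ℂ) : ℂ :=
  ∏' w : HeightOneSpectrum (𝓞 F), ∏ j : Fin π.n,
    (1 - π.α (w.under (𝓞 K)) j ^ rd K w * χ w.asIdeal * (Ideal.absNorm w.asIdeal : ℂ) ^ (-s))⁻¹

/-- The Euler product `L(s, π × ρ) = ∏_j L(s, π × Ind χ_j)^{c_j}` for `ρ = ∑ c_j Ind χ_j`. -/
noncomputable def LW (π : Params K) (ρ : WRep K) (s : ℂ) : ℂ :=
  ∏ j, LInd π (ρ.χ j) s ^ ρ.c j

/-- The dimension `∑ c_j [F_j : K]` of `ρ = ∑ c_j Ind χ_j`. -/
noncomputable def dim (ρ : WRep K) : ℤ := ∑ j, ρ.c j * Module.finrank K (ρ.F j)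

end Pool.Agent.N172.CW
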