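import Pool.Agent.N172.CW.Tw

/-!
# Reduction to the primes of degree one
-/

set_option autoImplicit false
set_option linter.unusedSectionVars false
set_option linter.deprecated false

namespace Pool.Agent.N172.CW

open NumberField Complex Filter Topology IsDedekindDomain
open Pool.Agent.W540.BE (nm two_le_nm)
open Pool.Agent.N172.HS (IsHecke WRep EH EV EV_EH exists_vx absNorm_vx vx_injective pc hv norm_pc_le)
open Pool.Agent.W353.TP (HX sysH push res LL)
open Pool.Agent.W353.NF (vx)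
open Pool.Agent.H921R2.TatePole (hom_ext_of_ker)
open scoped ComplexConjugate

/-- Cauchy's inequality for weighted series -/
theorem cs_tsum {I : Type*} {f g w : I → ℝ} (hw : ∀ i, 0 ≤ w i)
    (hf : Summable fun i => f i ^ 2 * w i) (hg : Summable fun i => g i ^ 2 * w i) :
    Summable (fun i => f i * g i * w i) ∧
      (∑' i, f i * g i * w i) ^ 2 ≤ (∑' i, f i ^ 2 * w i) * (∑' i, g i ^ 2 * w i) := by
  have h1 : Summable (fun i => f i * g i * w i) := by
    refine Summable.of_norm_bounded (hf.add hg) fun i => ?_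
    rw [Real.norm_eq_abs, abs_mul, abs_of_nonneg (hw i), ← add_mul]
    refine mul_le_mul_of_nonneg_right ?_ (hw i)
    rw [abs_mul]
    nlinarith [sq_nonneg (|f i| - |g i|), sq_abs (f i), sq_abs (g i), sq_nonneg (f i),
      sq_nonneg (g i)]
  refine ⟨h1, ?_⟩
  refine le_of_tendsto_of_tendsto' (Tendsto.pow h1.hasSum 2) (Tendsto.mul hf.hasSum hg.hasSum)
    fun s => ?_
  have h2 := Finset.sum_mul_sq_le_sq_mul_sq s (fun i => f i * Real.sqrt (w i))
    (fun i => g i * Real.sqrt (w i))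
  have e1 : ∀ i, f i * Real.sqrt (w i) * (g i * Real.sqrt (w i)) = f i * g i * w i := by
    intro i
    have := Real.mul_self_sqrt (hw i)
    calc f i * Real.sqrt (w i) * (g i * Real.sqrt (w i)) =
        f i * g i * (Real.sqrt (w i) * Real.sqrt (w i)) := by ring
      _ = _ := by rw [this]
  have e2 : ∀ u : I → ℝ, ∀ i, (u i * Real.sqrt (w i)) ^ 2 = u i ^ 2 * w i := by
    intro u i
    rw [mul_pow, Real.sq_sqrt (hw i)]
  simp only [e1, e2] at h2
  exact h2

section

variable {K F : Type} [Field K] [NumberField K] [Field F] [NumberField F] [Algebra K F]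

/-- the weight of a prime of degree one -/
noncomputable def wH (ε : ℝ) (x : HX K) : ℝ := ((x.1 : ℕ) : ℝ) ^ (-(1 + ε))

theorem wH_nonneg (ε : ℝ) (x : HX K) : 0 ≤ wH ε x := by
  unfold wH
  positivity

theorem EH_def (ε : ℝ) (φ : HX K → ℝ) : EH K ε φ = ∑' x, φ x * wH ε x := rfl

theorem wt_vx (ε : ℝ) (x : HX K) : wt (1 + ε) (vx x, 0) = wH ε x := by
  unfold wt tt wH
  have h1 : nm K (vx x) = (x.1 : ℕ) := absNorm_vx x
  simp only [zero_add, pow_one, Nat.cast_zero, div_one, h1]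

/-- the sum of the Satake parameters at the primes of degree one -/
noncomputable def aH (π : Params K) (x : HX K) : ℂ := ∑ j, π.α (vx x) j

theorem pw_vx (π : Params K) (x : HX K) : pw π (vx x) 1 = aH π x := by
  unfold pw aH
  exact Finset.sum_congr rfl fun j _ => pow_one _

theorem inj_vx0 : Function.Injective (fun x : HX K => ((vx x, 0) : HeightOneSpectrum (𝓞 K) × ℕ)) :=
  fun _ _ h => vx_injective (Prod.ext_iff.1 h).1

/-- restriction of a prime of degree one -/
noncomputable def dnH (y : HX F) : HX K := ⟨y.1, res K y.2⟩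

theorem under_vx (y : HX F) : (vx y).under (𝓞 K) = vx (dnH (K := K) y) := by
  apply HeightOneSpectrum.ext
  change (RingHom.ker y.2).comap (algebraMap (𝓞 K) (𝓞 F)) = RingHom.ker (res K y.2)
  rw [RingHom.comap_ker]
  rfl

theorem rd_vx (y : HX F) : rd K (vx y) = 1 := by
  have h1 := nm_under (K := K) (vx y)
  rw [under_vx] at h1
  have h2 : nm F (vx y) = (y.1 : ℕ) := absNorm_vx y
  have h3 : nm K (vx (dnH (K := K) y)) = (y.1 : ℕ) := absNorm_vx _
  rw [h2, h3] at h1
  have h4 := y.1.2.two_le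
  exact (Nat.pow_right_injective h4 (by simpa using h1.symm) : rd K (vx y) = 1)

theorem fib_aux (p : Nat.Primes) (u : 𝓞 K →+* ZMod (p : ℕ)) (ψ : 𝓞 F →+* ZMod (p : ℕ))
    (h : res K ψ = u) :
    (⟨(⟨p, res K ψ⟩ : HX K), ⟨ψ, rfl⟩⟩ :
      Σ x : HX K, {ψ : 𝓞 F →+* ZMod (x.1 : ℕ) // res K ψ = x.2}) =
      ⟨(⟨p, u⟩ : HX K), ⟨ψ, h⟩⟩ := by
  subst h
  rfl

/-- the extensions of the primes of degree one -/
noncomputable def fibEquiv (K F : Type) [Field K] [NumberField K] [Field F] [NumberField F]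
    [Algebra K F] :
    (Σ x : HX K, {ψ : 𝓞 F →+* ZMod (x.1 : ℕ) // res K ψ = x.2}) ≃ HX F where
  toFun z := ⟨z.1.1, z.2.1⟩
  invFun y := ⟨⟨y.1, res K y.2⟩, ⟨y.2, rfl⟩⟩
  left_inv z := fib_aux z.1.1 z.1.2 z.2.1 z.2.2
  right_inv _ := rfl

theorem tsum_push {h : HX F → ℝ} (hs : Summable h) :
    ∑' y, h y = ∑' x : HX K, push K h x := by
  classical
  rw [← (fibEquiv K F).tsum_eq h]
  have h1 : Summable fun z => h (fibEquiv K F z) := (fibEquiv K F).summable_iff.2 hs
  have h2 : ∀ x : HX K, Summable fun ψ : {ψ : 𝓞 F →+* ZMod (x.1 : ℕ) // res K ψ = x.2} =>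
      h (fibEquiv K F ⟨x, ψ⟩) := fun x => (hasSum_fintype _).summable
  rw [h1.tsum_sigma' h2]
  refine tsum_congr fun x => ?_
  rw [tsum_fintype]
  unfold push
  exact (Finset.sum_subtype (p := fun ψ : 𝓞 F →+* ZMod (x.1 : ℕ) => res K ψ = x.2)
    (Finset.univ.filter fun ψ : 𝓞 F →+* ZMod (x.1 : ℕ) => res K ψ = x.2) (fun ψ => by simp)
    (fun ψ => h ⟨x.1, ψ⟩)).symm

end

end Pool.Agent.N172.CW
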