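import Pool.Agent.N172.CW.Tem

/-!
# Induced representations, and matching at the primes of degree one
-/

set_option autoImplicit false
set_option linter.unusedSectionVars false
set_option linter.deprecated false

namespace Pool.Agent.N172.CW

open NumberField Complex Filter Topology IsDedekindDomain Asymptotics
open Pool.Agent.N172.HS (IsHecke WRep EH EV EV_EH vx_injective pc hv Bdd StNvq finset_isLittleO
  LL_not_littleO above finsum_above)
open Pool.Agent.W353.TP (HX sysH push res LL LL_tendsto bdd_isLittleO)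
open Pool.Agent.W353.NF (vx)
open scoped ComplexConjugate

/-- The representation of the Weil group of `K` induced from the representation `ρ = ∑ c_j Ind χ_j` of
the Weil group of `L`, for an extension `L` of `K`. -/
noncomputable def Ind (K : Type) {L : Type} [Field K] [NumberField K] [Field L] [NumberField L]
    [Algebra K L] (ρ : WRep L) : WRep K where
  r := ρ.r
  F := ρ.F
  fld := ρ.fld
  nf := ρ.nf
  alg := fun j => ((algebraMap L (ρ.F j)).comp (algebraMap K L)).toAlgebra
  𝔣 := ρ.𝔣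
  k := ρ.k
  t := ρ.t
  χ := ρ.χ
  hecke := ρ.hecke
  c := ρ.c

section

variable {K L : Type} [Field K] [NumberField K] [Field L] [NumberField L] [Algebra K L]

theorem res_res {F : Type} [Field F] [NumberField F] [Algebra L F] [Algebra K F]
    (hst : ∀ a : K, algebraMap K F a = algebraMap L F (algebraMap K L a)) {p : ℕ}
    (φ : 𝓞 F →+* ZMod p) : res K φ = res K (res L φ) := by
  apply RingHom.ext
  intro a
  change φ (algebraMap (𝓞 K) (𝓞 F) a) = φ (algebraMap (𝓞 L) (𝓞 F) (algebraMap (𝓞 K) (𝓞 L) a))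
  congr 1
  apply RingOfIntegers.ext
  exact hst (a : K)

theorem push_push {F : Type} [Field F] [NumberField F] [Algebra L F] [Algebra K F]
    (hst : ∀ a : K, algebraMap K F a = algebraMap L F (algebraMap K L a)) (h : HX F → ℂ)
    (x : HX K) : push K h x = push K (push L h) x := by
  classical
  unfold push
  rw [← Finset.sum_fiberwise_of_maps_to (s := Finset.univ.filter
    (fun φ : 𝓞 F →+* ZMod (x.1 : ℕ) => res K φ = x.2)) (t := Finset.univ.filter
    (fun ψ : 𝓞 L →+* ZMod (x.1 : ℕ) => res K ψ = x.2)) (g := fun φ => res L φ)]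
  · refine Finset.sum_congr rfl fun ψ hψ => ?_
    rw [Finset.mem_filter] at hψ
    refine Finset.sum_congr ?_ fun _ _ => rfl
    ext φ
    simp only [Finset.mem_filter, Finset.mem_univ, true_and]
    constructor
    · rintro ⟨_, h2⟩
      exact h2
    · intro h2
      refine ⟨?_, h2⟩
      rw [res_res (K := K) (L := L) hst φ, h2]
      exact hψ.2
  · intro φ hφ
    rw [Finset.mem_filter] at hφ ⊢
    refine ⟨Finset.mem_univ _, ?_⟩
    rw [← res_res (K := K) (L := L) hst φ]
    exact hφ.2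

theorem pc_comp (ρ : WRep L) (j : Fin ρ.r) (x : HX K) :
    @pc K (ρ.F j) _ _ (ρ.fld j) (ρ.nf j) ((algebraMap L (ρ.F j)).comp (algebraMap K L)).toAlgebra
      (ρ.χ j) x = push K (fun y : HX L => pc L (ρ.χ j) y) x := by
  letI : Algebra K (ρ.F j) := ((algebraMap L (ρ.F j)).comp (algebraMap K L)).toAlgebra
  exact push_push (K := K) (L := L) (F := ρ.F j) (fun a => rfl) (hv (ρ.χ j)) x

theorem tH_Ind (ρ : WRep L) (x : HX K) : (Ind K ρ).tH x = push K ρ.tH x := by
  classical
  have h2 : (Ind K ρ).tH x = ∑ j : Fin ρ.r, (ρ.c j : ℂ) *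
      @pc K (ρ.F j) _ _ (ρ.fld j) (ρ.nf j)
        ((algebraMap L (ρ.F j)).comp (algebraMap K L)).toAlgebra (ρ.χ j) x := rfl
  rw [h2]
  simp only [pc_comp]
  unfold push WRep.tH
  rw [Finset.sum_comm]
  refine Finset.sum_congr rfl fun j _ => ?_
  rw [Finset.mul_sum]

open Classical in
/-- the number of primes of degree one above a prime -/
theorem card_push (x : HX K) : (Finset.univ.filter
    (fun ψ : 𝓞 L →+* ZMod (x.1 : ℕ) => res K ψ = x.2)).card ≤ Module.finrank K L := by
  set S : Finset (𝓞 L →+* ZMod (x.1 : ℕ)) :=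
    Finset.univ.filter (fun ψ : 𝓞 L →+* ZMod (x.1 : ℕ) => res K ψ = x.2) with hS
  have h3 : (S.image fun ψ => vx (⟨x.1, ψ⟩ : HX L)).card ≤ Module.finrank K L := by
    refine card_under _ (vx x) fun w hw => ?_
    rw [Finset.mem_image] at hw
    obtain ⟨ψ, hψ, rfl⟩ := hw
    rw [hS, Finset.mem_filter] at hψ
    rw [under_vx]
    unfold dnH
    simp only
    rw [hψ.2]
  rwa [Finset.card_image_of_injOn] at h3
  intro ψ _ ψ' _ h
  have h4 := vx_injective h
  exact eq_of_heq (Sigma.ext_iff.1 h4).2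

/-- the primes of degree one above -/
theorem vx_above {x : HX K} {ψ : 𝓞 L →+* ZMod (x.1 : ℕ)} (h : res K ψ = x.2) :
    vx (⟨x.1, ψ⟩ : HX L) ∈ above L (vx x) := by
  refine ⟨?_, ?_⟩
  · have h5 : (vx (⟨x.1, ψ⟩ : HX L)).asIdeal.comap (algebraMap (𝓞 K) (𝓞 L)) =
        RingHom.ker (res K ψ) := by
      unfold res
      rw [← RingHom.comap_ker]
      rfl
    rw [h5, h]
    rfl
  · rw [Pool.Agent.N172.HS.absNorm_vx, Pool.Agent.N172.HS.absNorm_vx]

/-- The representation `ρ` of the Weil group of `L` matches (the dual of) `π` at the primes of `L` of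
degree one above the primes outside `E`. -/
def Matches (π : Params K) (ρ : WRep L) (E : Set (HeightOneSpectrum (𝓞 K))) : Prop :=
  ∀ v, v ∉ E → ∀ w ∈ above L v, ∑ j, π.α v j = conj (ρ.trace w)

/-- off the exceptional set, the dual of the trace of the induced representation is a multiple -/
theorem bH_Ind {π : Params K} {ρ : WRep L} {E : Set (HeightOneSpectrum (𝓞 K))}
    (h : Matches π ρ E) {x : HX K} (hx : vx x ∉ E) :
    ∃ k : ℕ, k ≤ Module.finrank K L ∧ bH (Ind K ρ) x = k * aH π x := by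
  classical
  refine ⟨_, card_push (K := K) (L := L) x, ?_⟩
  unfold bH
  rw [tH_Ind]
  unfold push
  rw [map_sum]
  have h1 : ∀ ψ ∈ Finset.univ.filter (fun ψ : 𝓞 L →+* ZMod (x.1 : ℕ) => res K ψ = x.2),
      conj (ρ.tH (⟨x.1, ψ⟩ : HX L)) = aH π x := by
    intro ψ hψ
    rw [Finset.mem_filter] at hψ
    rw [← ρ.trace_vx, ← h _ hx _ (vx_above hψ.2)]
    rfl
  rw [Finset.sum_congr rfl h1, Finset.sum_const, nsmul_eq_mul]

theorem norm_bH_Ind {ρ : WRep L} {d : ℝ} (hd0 : 0 ≤ d) (hd : ∀ w, ‖ρ.trace w‖ ≤ d) (x : HX K) :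
    ‖bH (Ind K ρ) x‖ ≤ Module.finrank K L * d := by
  classical
  unfold bH
  rw [Complex.norm_conj, tH_Ind]
  have hc := card_push (K := K) (L := L) x
  unfold push
  refine (norm_sum_le _ _).trans ?_
  have h1 : ∀ ψ ∈ Finset.univ.filter (fun ψ : 𝓞 L →+* ZMod (x.1 : ℕ) => res K ψ = x.2),
      ‖ρ.tH (⟨x.1, ψ⟩ : HX L)‖ ≤ d := by
    intro ψ _
    rw [← ρ.trace_vx]
    exact hd _
  refine (Finset.sum_le_sum h1).trans ?_
  rw [Finset.sum_const, nsmul_eq_mul]
  exact mul_le_mul_of_nonneg_right (by exact_mod_cast hc) hd0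

end

end Pool.Agent.N172.CW
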