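import Pool.Agent.N172.CW.Des

/-!
# Lower bounds for the inner products
-/

set_option autoImplicit false
set_option linter.unusedSectionVars false
set_option linter.deprecated false

namespace Pool.Agent.N172.CW

open NumberField Complex Filter Topology IsDedekindDomain Asymptotics
open Pool.Agent.N172.HS (IsHecke WRep EH EV EV_EH vx_injective pc hv Bdd StNvq finset_isLittleO
  LL_not_littleO above finsum_above)
open Pool.Agent.W353.TP (HX sysH push res LL LL_tendsto bdd_isLittleO)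
open Pool.Agent.W353.NF (vx)
open scoped ComplexConjugate

theorem point_in {a b : ℂ} {g s k : ℝ} (hg : 1 ≤ g) (hs : 0 < s) (hk0 : 0 ≤ k) (hk : k ≤ g)
    (h : b = k * a) :
    (1 / g + s / (2 * g ^ 2)) * ‖b‖ ^ 2 - s / 2 * ‖a‖ ^ 2 ≤ (a * conj b).re := by
  have hg0 : 0 < g := by linarith
  have e1 : (a * conj b).re = k * ‖a‖ ^ 2 := by
    rw [h, map_mul, Complex.conj_ofReal, show a * ((k : ℂ) * conj a) = (k : ℂ) * (a * conj a) by ring,
      Complex.re_ofReal_mul, Complex.mul_conj, Complex.ofReal_re, Complex.normSq_eq_norm_sq]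
  have e2 : ‖b‖ ^ 2 = k ^ 2 * ‖a‖ ^ 2 := by
    rw [h, norm_mul, Complex.norm_real, Real.norm_of_nonneg hk0, mul_pow]
  rw [e1, e2]
  have h1 : 0 ≤ k - (1 / g + s / (2 * g ^ 2)) * k ^ 2 + s / 2 := by
    have h2 : k - (1 / g + s / (2 * g ^ 2)) * k ^ 2 + s / 2 =
        k * (g - k) / g + s / 2 * ((g - k) * (g + k) / g ^ 2) := by
      field_simp
      ring
    rw [h2]
    have h3 : 0 ≤ g - k := by linarith
    positivity
  nlinarith [mul_nonneg h1 (sq_nonneg ‖a‖)]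

theorem point_all {a b : ℂ} {s : ℝ} (hs : 0 < s) :
    -(s / 2 * ‖a‖ ^ 2) - 1 / (2 * s) * ‖b‖ ^ 2 ≤ (a * conj b).re := by
  have h1 : |(a * conj b).re| ≤ ‖a‖ * ‖b‖ := by
    refine (Complex.abs_re_le_norm _).trans ?_
    rw [norm_mul, Complex.norm_conj]
  have h2 := (abs_le.1 h1).1
  have h3 : ‖a‖ * ‖b‖ ≤ s / 2 * ‖a‖ ^ 2 + 1 / (2 * s) * ‖b‖ ^ 2 := by
    have h4 : s / 2 * ‖a‖ ^ 2 + 1 / (2 * s) * ‖b‖ ^ 2 - ‖a‖ * ‖b‖ =
        (s * ‖a‖ - ‖b‖) ^ 2 / (2 * s) := by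
      field_simp
      ring
    have h5 : 0 ≤ (s * ‖a‖ - ‖b‖) ^ 2 / (2 * s) := by positivity
    linarith
  linarith

section

variable {K : Type} [Field K] [NumberField K]

theorem ip_lower {a b : HX K → ℂ} (ha : L2 a) (hb : L2 b) {S : Set (HX K)} {g s D : ℝ}
    (hg : 1 ≤ g) (hs : 0 < s) (hD : ∀ x, ‖b x‖ ≤ D)
    (hk : ∀ x, x ∉ S → ∃ k : ℝ, 0 ≤ k ∧ k ≤ g ∧ b x = k * a x) {ε : ℝ} (hε : 0 < ε) :
    (1 / g + s / (2 * g ^ 2)) * ip ε b b - s / 2 * ip ε a a -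
      (1 / g + s / (2 * g ^ 2) + 1 / (2 * s)) * D ^ 2 * EH K ε (ind S) ≤ ip ε a b := by
  have hg0 : 0 < g := by linarith
  have h1 : HasSum (fun x => ‖b x‖ ^ 2 * wH ε x) (ip ε b b) := by
    rw [ip_self]; exact (hb ε hε).hasSum
  have h2 : HasSum (fun x => ‖a x‖ ^ 2 * wH ε x) (ip ε a a) := by
    rw [ip_self]; exact (ha ε hε).hasSum
  have h3 : HasSum (fun x => ind S x * wH ε x) (EH K ε (ind S)) := by
    rw [EH_def]
    refine Summable.hasSum ?_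
    refine Summable.of_nonneg_of_le (fun x => mul_nonneg (ind_nonneg _ x) (wH_nonneg ε x))
      (fun x => ?_) (wH_summable (K := K) hε)
    exact mul_le_of_le_one_left (wH_nonneg ε x) (ind_le _ x)
  have h4 : HasSum (fun x => (a x * conj (b x)).re * wH ε x) (ip ε a b) := by
    rw [ip_def]; exact (ha.summable hb hε).hasSum
  refine hasSum_le (fun x => ?_) (((h1.mul_left (1 / g + s / (2 * g ^ 2))).sub
    (h2.mul_left (s / 2))).sub (h3.mul_left ((1 / g + s / (2 * g ^ 2) + 1 / (2 * s)) * D ^ 2))) h4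
  have e1 : (1 / g + s / (2 * g ^ 2)) * (‖b x‖ ^ 2 * wH ε x) - s / 2 * (‖a x‖ ^ 2 * wH ε x) -
      (1 / g + s / (2 * g ^ 2) + 1 / (2 * s)) * D ^ 2 * (ind S x * wH ε x) =
      ((1 / g + s / (2 * g ^ 2)) * ‖b x‖ ^ 2 - s / 2 * ‖a x‖ ^ 2 -
      (1 / g + s / (2 * g ^ 2) + 1 / (2 * s)) * D ^ 2 * ind S x) * wH ε x := by ring
  rw [e1]
  refine mul_le_mul_of_nonneg_right ?_ (wH_nonneg ε x)
  by_cases hx : x ∈ S
  · have e2 : ind S x = 1 := if_pos hx
    rw [e2]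
    have h5 := point_all (a := a x) (b := b x) hs
    have h6 : ‖b x‖ ^ 2 ≤ D ^ 2 := pow_le_pow_left₀ (norm_nonneg _) (hD x) 2
    have h7 : (1 / g + s / (2 * g ^ 2) + 1 / (2 * s)) * ‖b x‖ ^ 2 ≤
        (1 / g + s / (2 * g ^ 2) + 1 / (2 * s)) * D ^ 2 :=
      mul_le_mul_of_nonneg_left h6 (by positivity)
    nlinarith
  · have e2 : ind S x = 0 := if_neg hx
    rw [e2, mul_zero, sub_zero]
    obtain ⟨k, hk0, hk1, hk2⟩ := hk x hx
    exact point_in hg hs hk0 hk1 hk2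

/-- The upper density of the set `E` of primes is at most `δ`. -/
def DensLE (E : Set (HeightOneSpectrum (𝓞 K))) (δ : ℝ) : Prop :=
  ∀ η : ℝ, 0 < η → ∀ᶠ ε : ℝ in 𝓝[>] 0,
    ∑' v : E, (Ideal.absNorm v.1.asIdeal : ℝ) ^ (-(1 + ε)) ≤ (δ + η) * Real.log (1 / ε)

theorem densLE_EH {E : Set (HeightOneSpectrum (𝓞 K))} {δ : ℝ} (h : DensLE E δ) {η : ℝ}
    (hη : 0 < η) : ∀ᶠ ε : ℝ in 𝓝[>] 0, EH K ε (ind {x | vx x ∈ E}) ≤ (δ + η) * LL ε := by
  classical
  set g : HeightOneSpectrum (𝓞 K) → ℝ := fun v => if v ∈ E then 1 else 0 with hg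
  have hg1 : ∀ v, |g v| ≤ 1 := fun v => by
    rw [hg]; simp only; split_ifs <;> norm_num
  have h1 : (fun ε => EV K ε g - EH K ε (fun x => g (vx x))) =o[𝓝[>] 0] LL := by
    apply bdd_isLittleO
    refine ⟨1 * Module.finrank ℚ K * Pool.Agent.H921R2.TatePole.C0, ?_⟩
    filter_upwards [self_mem_nhdsWithin] with ε hε
    exact EV_EH hg1 hε
  filter_upwards [(isLittleO_iff.1 h1) (half_pos hη), h (η / 2) (half_pos hη),
    LL_tendsto.eventually_gt_atTop 0] with ε h2 h3 h4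
  have e1 : (fun x : HX K => g (vx x)) = ind {x | vx x ∈ E} := by
    funext x
    rfl
  have e2 : EV K ε g = ∑' v : E, (Ideal.absNorm v.1.asIdeal : ℝ) ^ (-(1 + ε)) := by
    rw [tsum_subtype E (fun v : HeightOneSpectrum (𝓞 K) =>
      (Ideal.absNorm v.asIdeal : ℝ) ^ (-(1 + ε)))]
    refine tsum_congr fun v => ?_
    rw [hg]
    simp only [Set.indicator]
    split_ifs
    · rw [one_mul]; rfl
    · rw [zero_mul]
  rw [e1, e2, Real.norm_eq_abs, Real.norm_of_nonneg h4.le] at h2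
  have h5 := (abs_le.1 h2).1
  have h6 : Real.log (1 / ε) = LL ε := rfl
  rw [h6] at h3
  linarith

end

end Pool.Agent.N172.CW
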