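import Pool.Agent.N172.CW.Des2

/-!
# The descent
-/

set_option autoImplicit false
set_option linter.unusedSectionVars false
set_option linter.deprecated false

namespace Pool.Agent.N172.CW

open NumberField Complex Filter Topology IsDedekindDomain Asymptotics
open Pool.Agent.N172.HS (IsHecke WRep EH EV EV_EH vx_injective pc hv Bdd StNvq finset_isLittleO
  LL_not_littleO above finsum_above)
open Pool.Agent.W353.TP (HX sysH push res LL LL_tendsto bdd_isLittleO)
open Pool.Agent.W353.NF (vx)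
open scoped ComplexConjugate

section

variable {K : Type} [Field K] [NumberField K]

theorem ip_aa_self {π : Params K} (h : π.IsCuspidal) {η : ℝ} (hη : 0 < η) :
    ∀ᶠ ε : ℝ in 𝓝[>] 0, ip ε (aH π) (aH π) ≤ (1 + η) * LL ε := by
  filter_upwards [(isLittleO_iff.1 (rs_self_log h)) hη, LL_tendsto.eventually_gt_atTop 0,
    self_mem_nhdsWithin] with ε h1 h2 hε
  have h7 : ip ε (aH π) (aH π) ≤ Real.log ‖RSr π π (1 + ε)‖ := by
    have h8 := ip_aa_le (κ := Unit) (fun _ => π) (fun _ => h) (fun _ => 1) hε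
    simpa using h8
  rw [Real.norm_eq_abs, Real.norm_of_nonneg h2.le] at h1
  have h3 := (abs_le.1 h1).2
  linarith

/-- the lower bound -/
theorem lower {π : Params K} (h : π.IsCuspidal) (R : WRep K)
    {E : Set (HeightOneSpectrum (𝓞 K))} {δ g s D c : ℝ} (hE : DensLE E δ) (hg : 1 ≤ g) (hs : 0 < s)
    (hD : ∀ x, ‖bH R x‖ ≤ D)
    (hk : ∀ x, vx x ∉ E → ∃ k : ℝ, 0 ≤ k ∧ k ≤ g ∧ bH R x = k * aH π x)
    (hc : c < (1 / g + s / (2 * g ^ 2)) * R.inner R - s / 2 -
      (1 / g + s / (2 * g ^ 2) + 1 / (2 * s)) * D ^ 2 * δ) :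
    ∀ᶠ ε : ℝ in 𝓝[>] 0, c * LL ε ≤ ip ε (aH π) (bH R) := by
  set C1 : ℝ := 1 / g + s / (2 * g ^ 2) with hC1
  set C2 : ℝ := (C1 + 1 / (2 * s)) * D ^ 2 with hC2
  set c0 : ℝ := C1 * R.inner R - s / 2 - C2 * δ with hc0
  have hg0 : 0 < g := by linarith
  have hC10 : 0 < C1 := by rw [hC1]; positivity
  have hC20 : 0 ≤ C2 := by rw [hC2]; positivity
  have hcc : 0 < c0 - c := by linarith
  set η : ℝ := (c0 - c) / (C1 + s / 2 + C2) with hη
  have hη0 : 0 < η := by rw [hη]; positivity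
  filter_upwards [(isLittleO_iff.1 (ip_bH R R)) hη0, ip_aa_self h hη0, densLE_EH hE hη0,
    LL_tendsto.eventually_gt_atTop 0, self_mem_nhdsWithin] with ε h1 h2 h3 h4 hε
  have h5 := ip_lower (L2.aH h) (L2.bH R) (S := {x | vx x ∈ E}) hg hs hD (fun x hx => hk x hx) hε
  rw [Real.norm_eq_abs, Real.norm_of_nonneg h4.le] at h1
  have h6 := (abs_le.1 h1).1
  have h7 : C1 * ((R.inner R - η) * LL ε) ≤ C1 * ip ε (bH R) (bH R) :=
    mul_le_mul_of_nonneg_left (by linarith) hC10.le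
  have h8 : s / 2 * ip ε (aH π) (aH π) ≤ s / 2 * ((1 + η) * LL ε) :=
    mul_le_mul_of_nonneg_left h2 (by positivity)
  have h9 : C2 * EH K ε (ind {x | vx x ∈ E}) ≤ C2 * ((δ + η) * LL ε) :=
    mul_le_mul_of_nonneg_left h3 hC20
  have h10 : c = C1 * (R.inner R - η) - s / 2 * (1 + η) - C2 * (δ + η) := by
    have e1 : C1 * (R.inner R - η) - s / 2 * (1 + η) - C2 * (δ + η) =
        c0 - η * (C1 + s / 2 + C2) := by rw [hc0]; ring
    have e2 : η * (C1 + s / 2 + C2) = c0 - c := by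
      rw [hη]
      field_simp
    rw [e1, e2]
    ring
  refine le_trans ?_ h5
  calc c * LL ε = (C1 * (R.inner R - η) - s / 2 * (1 + η) - C2 * (δ + η)) * LL ε := by rw [← h10]
    _ = C1 * ((R.inner R - η) * LL ε) - s / 2 * ((1 + η) * LL ε) - C2 * ((δ + η) * LL ε) := by ring
    _ ≤ _ := by linarith

/-- the decomposition -/
theorem decomp {π : Params K} (h : π.IsCuspidal) (R : WRep K) {q : ℕ} (τ : Fin q → WRep K)
    (hτ : ∀ k, (τ k).IsIrr) (hor : ∀ k l, k ≠ l → (τ k).inner (τ l) = 0)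
    (hdec : R.inner R = ∑ k, R.inner (τ k) ^ 2) :
    (fun ε => ip ε (aH π) (bH R) - ∑ k, (R.inner (τ k) : ℝ) * ip ε (aH π) (bH (τ k)))
      =o[𝓝[>] 0] LL := by
  classical
  set ρ' : Option (Fin q) → WRep K := fun i => i.elim R τ with hρ'
  set c : Option (Fin q) → ℝ := fun i => i.elim 1 (fun k => -(R.inner (τ k) : ℝ)) with hc
  set D : HX K → ℂ := fun x => ∑ i, (c i : ℂ) * bH (ρ' i) x with hD
  have hL : ∀ i ∈ (Finset.univ : Finset (Option (Fin q))), L2 (bH (ρ' i)) := fun i _ => L2.bH _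
  have hDL : L2 D := L2.sum Finset.univ hL fun i => (c i : ℂ)
  have h0 : ∑ i, ∑ j, c i * c j * ((ρ' i).inner (ρ' j) : ℝ) = 0 := by
    rw [Fintype.sum_option]
    simp only [Fintype.sum_option, hc, hρ', Option.elim_none, Option.elim_some]
    have e1 : ∀ k, ∑ l, -(R.inner (τ k) : ℝ) * -(R.inner (τ l) : ℝ) * ((τ k).inner (τ l) : ℝ) =
        (R.inner (τ k) : ℝ) ^ 2 := by
      intro k
      rw [Finset.sum_eq_single k]
      · have h2 : (τ k).inner (τ k) = 1 := hτ k
        rw [h2]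
        push_cast
        ring
      · intro l _ hl
        rw [hor k l (Ne.symm hl)]
        simp
      · intro hk; exact absurd (Finset.mem_univ k) hk
    have e2 : ∀ k, ((τ k).inner R : ℝ) = (R.inner (τ k) : ℝ) := fun k => by
      rw [WRep.inner_comm]
    simp only [e1, e2]
    have e3 : (R.inner R : ℝ) = ∑ k, (R.inner (τ k) : ℝ) ^ 2 := by
      rw [hdec]; push_cast; rfl
    rw [e3]
    have e4 : ∑ k, (1 : ℝ) * -(R.inner (τ k) : ℝ) * (R.inner (τ k) : ℝ) =
        -∑ k, (R.inner (τ k) : ℝ) ^ 2 := by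
      rw [← Finset.sum_neg_distrib]
      exact Finset.sum_congr rfl fun k _ => by ring
    have e5 : ∑ k, (-(R.inner (τ k) : ℝ) * 1 * (R.inner (τ k) : ℝ) + (R.inner (τ k) : ℝ) ^ 2) =
        0 := by
      refine Finset.sum_eq_zero fun k _ => ?_
      ring
    rw [e4, e5]
    ring
  have h1 : (fun ε => ip ε D D) =o[𝓝[>] 0] LL := by
    have h2 := finset_isLittleO (Finset.univ : Finset (Option (Fin q))) (fun i _ =>
      finset_isLittleO (Finset.univ : Finset (Option (Fin q)))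
        (fun j _ => (ip_bH (ρ' i) (ρ' j)).const_mul_left (c i * c j)))
    refine h2.congr' ?_ (EventuallyEq.refl _ _)
    filter_upwards [self_mem_nhdsWithin] with ε hε
    rw [hD, ip_sum_sum Finset.univ Finset.univ hL hL c c hε]
    have e1 : ∑ i, ∑ j, c i * c j * (ip ε (bH (ρ' i)) (bH (ρ' j)) -
        ((ρ' i).inner (ρ' j) : ℝ) * LL ε) = ∑ i, ∑ j, c i * c j * ip ε (bH (ρ' i)) (bH (ρ' j)) -
        (∑ i, ∑ j, c i * c j * ((ρ' i).inner (ρ' j) : ℝ)) * LL ε := by
      rw [Finset.sum_mul, ← Finset.sum_sub_distrib]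
      refine Finset.sum_congr rfl fun i _ => ?_
      rw [Finset.sum_mul, ← Finset.sum_sub_distrib]
      refine Finset.sum_congr rfl fun j _ => ?_
      ring
    rw [e1, h0, zero_mul, sub_zero]
  have h2 : (fun ε => ip ε (aH π) (aH π)) =O[𝓝[>] 0] LL := by
    refine IsBigO.of_bound 2 ?_
    filter_upwards [ip_aa_self h one_pos, LL_tendsto.eventually_gt_atTop 0] with ε h3 h4
    rw [Real.norm_of_nonneg (ip_self_nonneg ε _), Real.norm_of_nonneg h4.le]
    linarith
  have h3 : (fun ε => ip ε D (aH π)) =o[𝓝[>] 0] LL := by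
    refine cs_small h1 h2 ?_
    filter_upwards [self_mem_nhdsWithin] with ε hε
    exact ip_cs hDL (L2.aH h) hε
  refine h3.congr' ?_ (EventuallyEq.refl _ _)
  filter_upwards [self_mem_nhdsWithin] with ε hε
  rw [hD, ip_sum Finset.univ hL c (L2.aH h) hε, Fintype.sum_option]
  simp only [hc, hρ', Option.elim_none, Option.elim_some, one_mul]
  rw [ip_comm ε (bH R), sub_eq_add_neg, ← Finset.sum_neg_distrib]
  congr 1
  refine Finset.sum_congr rfl fun k _ => ?_
  rw [ip_comm ε (bH (τ k))]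
  ring

end

end Pool.Agent.N172.CW
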