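import Pool.Agent.N172.CW.Des3

/-!
# The descent: the main statements
-/

set_option autoImplicit false
set_option linter.unusedSectionVars false
set_option linter.deprecated false

namespace Pool.Agent.N172.CW

open NumberField Complex Filter Topology IsDedekindDomain Asymptotics
open Pool.Agent.N172.HS (IsHecke WRep EH EV EV_EH vx_injective pc hv Bdd StNvq finset_isLittleO
  LL_not_littleO above finsum_above)
open Pool.Agent.W353.TP (HX sysH push res LL LL_tendsto bdd_isLittleO)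
open Pool.Agent.W353.NF (vx)
open scoped ComplexConjugate

/-- `(M - e) / g - (e (1 - (M - e) / g ^ 2)) ^ (1/2)` -/
noncomputable def gain (M e g : ℝ) : ℝ := (M - e) / g - Real.sqrt (e * (1 - (M - e) / g ^ 2))

theorem exists_s {M e g c : ℝ} (he : 0 ≤ e) (hg : 1 ≤ g) (h : c < gain M e g) :
    ∃ s : ℝ, 0 < s ∧
      c < (1 / g + s / (2 * g ^ 2)) * M - s / 2 - (1 / g + s / (2 * g ^ 2) + 1 / (2 * s)) * e := by
  have hg0 : 0 < g := by linarith
  unfold gain at h
  set u : ℝ := M - e with hud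
  set w : ℝ := 1 - u / g ^ 2 with hw
  have key : ∀ s : ℝ, 0 < s → c < u / g - (s / 2 * w + e / (2 * s)) →
      c < (1 / g + s / (2 * g ^ 2)) * M - s / 2 - (1 / g + s / (2 * g ^ 2) + 1 / (2 * s)) * e := by
    intro s hs h1
    have e1 : (1 / g + s / (2 * g ^ 2)) * M - s / 2 -
        (1 / g + s / (2 * g ^ 2) + 1 / (2 * s)) * e = u / g - (s / 2 * w + e / (2 * s)) := by
      rw [hw, hud]
      field_simp
      ring
    rw [e1]
    exact h1
  rcases le_or_gt w 0 with hq | hq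
  · have h2 : Real.sqrt (e * w) = 0 := Real.sqrt_eq_zero_of_nonpos
      (mul_nonpos_of_nonneg_of_nonpos he hq)
    rw [h2, sub_zero] at h
    have h3 : 0 < u / g - c := by linarith
    refine ⟨(e + 1) / (u / g - c), by positivity, key _ (by positivity) ?_⟩
    have h4 : (e + 1) / (u / g - c) / 2 * w ≤ 0 := mul_nonpos_of_nonneg_of_nonpos (by positivity) hq
    have h5 : e / (2 * ((e + 1) / (u / g - c))) < u / g - c := by
      have e2 : e / (2 * ((e + 1) / (u / g - c))) = (e / (2 * (e + 1))) * (u / g - c) := by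
        field_simp
      rw [e2]
      have h6 : e / (2 * (e + 1)) < 1 := by
        rw [div_lt_one (by positivity)]
        linarith
      nlinarith
    linarith
  · rcases he.eq_or_lt with he0 | he0
    · rw [← he0, zero_mul, Real.sqrt_zero, sub_zero] at h
      have h3 : 0 < u / g - c := by linarith
      refine ⟨(u / g - c) / w, by positivity, key _ (by positivity) ?_⟩
      rw [← he0, zero_div, add_zero]
      have e2 : (u / g - c) / w / 2 * w = (u / g - c) / 2 := by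
        field_simp
      rw [e2]
      linarith
    · have h2 : 0 < e / w := by positivity
      have h3 : 0 < Real.sqrt (e / w) := Real.sqrt_pos.2 h2
      refine ⟨Real.sqrt (e / w), h3, key _ h3 ?_⟩
      have h4 : Real.sqrt (e / w) * Real.sqrt (e / w) = e / w := Real.mul_self_sqrt h2.le
      have h5 : Real.sqrt (e * w) = Real.sqrt (e / w) * w := by
        rw [show e * w = (e / w) * w ^ 2 by field_simp, Real.sqrt_mul h2.le, Real.sqrt_sq hq.le]
      have h6 : e / (2 * Real.sqrt (e / w)) = Real.sqrt (e / w) * w / 2 := by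
        rw [div_eq_div_iff (by positivity) (by norm_num)]
        have h7 : e = Real.sqrt (e / w) * Real.sqrt (e / w) * w := by
          rw [h4]
          field_simp
        calc e * 2 = (Real.sqrt (e / w) * Real.sqrt (e / w) * w) * 2 := by rw [← h7]
          _ = _ := by ring
      rw [h6]
      rw [h5] at h
      linarith

theorem gain_one {e : ℝ} (he : 0 ≤ e) : gain 1 e 1 = 1 - 2 * e := by
  unfold gain
  rw [show e * (1 - (1 - e) / 1 ^ 2) = e ^ 2 by ring, Real.sqrt_sq he]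
  ring

section

variable {K L : Type} [Field K] [NumberField K] [Field L] [NumberField L] [Algebra K L]

/-- **The descent, for the sizes.** -/
theorem descent {π : Params K} (h : π.IsCuspidal) (ρ : WRep L) {d δ : ℝ}
    (hd : ∀ w, ‖ρ.trace w‖ ≤ d) (hd0 : 0 ≤ d) (hδ : 0 ≤ δ) {E : Set (HeightOneSpectrum (𝓞 K))}
    (hE : DensLE E δ) (hM : Matches π ρ E) {q : ℕ} (τ : Fin q → WRep K)
    (hτ : ∀ k, (τ k).IsIrr) (hor : ∀ k l, k ≠ l → (τ k).inner (τ l) = 0)
    (hdec : (Ind K ρ).inner (Ind K ρ) = ∑ k, (Ind K ρ).inner (τ k) ^ 2) {c : ℝ}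
    (hc : c < gain ((Ind K ρ).inner (Ind K ρ)) ((Module.finrank K L * d) ^ 2 * δ)
      (Module.finrank K L)) :
    ∀ᶠ ε : ℝ in 𝓝[>] 0, c * LL ε ≤
      ∑ k, ((Ind K ρ).inner (τ k) : ℝ) * Real.log ‖LWr π (τ k) (1 + ε)‖ := by
  classical
  have hfd : FiniteDimensional K L := Module.Finite.of_restrictScalars_finite ℚ K L
  have hg1 : 1 ≤ (Module.finrank K L : ℝ) := by
    exact_mod_cast Module.finrank_pos (R := K) (M := L)
  have he0 : 0 ≤ (Module.finrank K L * d) ^ 2 * δ := by positivity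
  obtain ⟨c', hc1, hc2⟩ := exists_between hc
  obtain ⟨s, hs, hs1⟩ := exists_s he0 hg1 hc2
  have hlow := lower h (Ind K ρ) hE hg1 hs (norm_bH_Ind hd0 hd) (fun x hx => by
    obtain ⟨k, hk, hk1⟩ := bH_Ind hM hx
    exact ⟨k, Nat.cast_nonneg k, by exact_mod_cast hk, by rw [hk1]; push_cast; rfl⟩)
    (by rw [mul_assoc _ _ δ]; exact hs1)
  have h1 := decomp h (Ind K ρ) τ hτ hor hdec
  have h2 : (fun ε => ∑ k, ((Ind K ρ).inner (τ k) : ℝ) * (Real.log ‖LWr π (τ k) (1 + ε)‖ -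
      ip ε (aH π) (bH (τ k)))) =o[𝓝[>] 0] LL :=
    finset_isLittleO Finset.univ fun k _ => (lw_est h (τ k)).2.const_mul_left _
  filter_upwards [hlow, (isLittleO_iff.1 (h1.sub h2)) (show 0 < c' - c by linarith),
    LL_tendsto.eventually_gt_atTop 0] with ε h3 h4 h5
  rw [Real.norm_eq_abs, Real.norm_of_nonneg h5.le] at h4
  have h6 := (abs_le.1 h4).2
  have e1 : ∑ k, ((Ind K ρ).inner (τ k) : ℝ) * (Real.log ‖LWr π (τ k) (1 + ε)‖ -
      ip ε (aH π) (bH (τ k))) = ∑ k, ((Ind K ρ).inner (τ k) : ℝ) *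
        Real.log ‖LWr π (τ k) (1 + ε)‖ -
      ∑ k, ((Ind K ρ).inner (τ k) : ℝ) * ip ε (aH π) (bH (τ k)) := by
    rw [← Finset.sum_sub_distrib]
    exact Finset.sum_congr rfl fun k _ => by ring
  rw [e1] at h6
  linarith

/-- **The descent, for the orders.** -/
theorem descent_ord {π : Params K} (h : π.IsCuspidal) (ρ : WRep L) {d δ : ℝ}
    (hd : ∀ w, ‖ρ.trace w‖ ≤ d) (hd0 : 0 ≤ d) (hδ : 0 ≤ δ) {E : Set (HeightOneSpectrum (𝓞 K))}
    (hE : DensLE E δ) (hM : Matches π ρ E) {q : ℕ} (τ : Fin q → WRep K)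
    (hτ : ∀ k, (τ k).IsIrr) (hor : ∀ k l, k ≠ l → (τ k).inner (τ l) = 0)
    (hdec : (Ind K ρ).inner (Ind K ρ) = ∑ k, (Ind K ρ).inner (τ k) ^ 2)
    (hc : 0 < gain ((Ind K ρ).inner (Ind K ρ)) ((Module.finrank K L * d) ^ 2 * δ)
      (Module.finrank K L))
    (r : Fin q → ℤ) (hr : ∀ k, HasOrd (LW π (τ k)) 1 (r k)) :
    ∃ k, (r k = 1 ∨ r k = -1) ∧
      gain ((Ind K ρ).inner (Ind K ρ)) ((Module.finrank K L * d) ^ 2 * δ)
        (Module.finrank K L) ≤ -((Ind K ρ).inner (τ k) * r k : ℤ) ∧ (∀ l, l ≠ k → r l = 0) ∧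
      ∀ η : ℝ, 0 < η → DensZero {v | η ≤ ‖∑ j, π.α v j + r k * conj ((τ k).trace v)‖} := by
  classical
  have h2 : (fun ε => ∑ k, ((Ind K ρ).inner (τ k) : ℝ) * (Real.log ‖LWr π (τ k) (1 + ε)‖ +
      r k * LL ε)) =o[𝓝[>] 0] LL :=
    finset_isLittleO Finset.univ fun k _ => (lw_ord_log (hr k)).const_mul_left _
  have h3 : gain ((Ind K ρ).inner (Ind K ρ)) ((Module.finrank K L * d) ^ 2 * δ)
      (Module.finrank K L) ≤ -(∑ k, ((Ind K ρ).inner (τ k) : ℝ) * r k) := by
    refine le_of_forall_lt fun c hcc => ?_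
    obtain ⟨c', hc1, hc2⟩ := exists_between hcc
    have h0 := descent h ρ hd hd0 hδ hE hM τ hτ hor hdec hc2
    obtain ⟨ε, h4, h5, h6⟩ := (h0.and (((isLittleO_iff.1 h2) (show 0 < c' - c by linarith)).and
      (LL_tendsto.eventually_gt_atTop 0))).exists
    rw [Real.norm_eq_abs, Real.norm_of_nonneg h6.le] at h5
    have h7 := (abs_le.1 h5).2
    have e1 : ∑ k, ((Ind K ρ).inner (τ k) : ℝ) * (Real.log ‖LWr π (τ k) (1 + ε)‖ + r k * LL ε) =
        ∑ k, ((Ind K ρ).inner (τ k) : ℝ) * Real.log ‖LWr π (τ k) (1 + ε)‖ +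
        (∑ k, ((Ind K ρ).inner (τ k) : ℝ) * r k) * LL ε := by
      rw [Finset.sum_mul, ← Finset.sum_add_distrib]
      exact Finset.sum_congr rfl fun k _ => by ring
    rw [e1] at h7
    have h8 : c * LL ε ≤ -(∑ k, ((Ind K ρ).inner (τ k) : ℝ) * r k) * LL ε := by nlinarith
    by_contra hcon
    rw [not_lt] at hcon
    -- equality would force a contradiction with a larger constant
    obtain ⟨c'', hc3, hc4⟩ := exists_between hc2
    have h9 := descent h ρ hd hd0 hδ hE hM τ hτ hor hdec hc4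
    obtain ⟨ε', h10, h11, h12⟩ := (h9.and (((isLittleO_iff.1 h2)
      (show 0 < (c'' - c) / 2 by linarith)).and (LL_tendsto.eventually_gt_atTop 0))).exists
    rw [Real.norm_eq_abs, Real.norm_of_nonneg h12.le] at h11
    have h13 := (abs_le.1 h11).2
    have e2 : ∑ k, ((Ind K ρ).inner (τ k) : ℝ) * (Real.log ‖LWr π (τ k) (1 + ε')‖ + r k * LL ε') =
        ∑ k, ((Ind K ρ).inner (τ k) : ℝ) * Real.log ‖LWr π (τ k) (1 + ε')‖ +
        (∑ k, ((Ind K ρ).inner (τ k) : ℝ) * r k) * LL ε' := by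
      rw [Finset.sum_mul, ← Finset.sum_add_distrib]
      exact Finset.sum_congr rfl fun k _ => by ring
    rw [e2] at h13
    have h14 : (c'' + c) / 2 * LL ε' ≤ -(∑ k, ((Ind K ρ).inner (τ k) : ℝ) * r k) * LL ε' := by
      nlinarith
    have h15 := le_of_mul_le_mul_right h14 h12
    linarith
  have h4 : ∃ k, r k ≠ 0 := by
    by_contra hcon
    push Not at hcon
    have h5 : ∑ k, ((Ind K ρ).inner (τ k) : ℝ) * r k = 0 :=
      Finset.sum_eq_zero fun k _ => by rw [hcon k]; simp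
    linarith
  obtain ⟨k, hk0⟩ := h4
  have h5 := (orders (κ := Unit) (κ' := Fin q) (fun _ => π) (fun _ => h)
    (fun i j hij => absurd (Subsingleton.elim i j) hij) τ hτ hor (fun _ l => r l)
    (fun _ l => hr l)).1 ()
  have hz : ∀ l, l ≠ k → r l = 0 := by
    intro l hl
    by_contra hl0
    have h6 : r k ^ 2 + r l ^ 2 ≤ ∑ l, r l ^ 2 := by
      have h7 := Finset.sum_le_sum_of_subset_of_nonneg (f := fun l => r l ^ 2)
        (Finset.subset_univ ({k, l} : Finset (Fin q))) (fun i _ _ => sq_nonneg _)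
      rw [Finset.sum_pair (Ne.symm hl)] at h7
      exact h7
    have h8 : 0 < r k ^ 2 := by positivity
    have h9 : 0 < r l ^ 2 := by positivity
    omega
  refine ⟨k, ord_abs h (hτ k) (hr k) hk0, ?_, hz, fun η hη =>
    partner_dens h (hτ k) (hr k) hk0 hη⟩
  refine h3.trans (le_of_eq ?_)
  rw [Finset.sum_eq_single k (fun l _ hl => by rw [hz l hl]; simp)
    (fun hk => absurd (Finset.mem_univ k) hk)]
  push_cast
  rfl

/-- **Strong multiplicity one, for the sizes.** -/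
theorem smo {π : Params K} (h : π.IsCuspidal) (ρ : WRep K) (hρ : ρ.IsIrr) {d δ : ℝ}
    (hd : ∀ v, ‖ρ.trace v‖ ≤ d) (hδ : 0 ≤ δ) {E : Set (HeightOneSpectrum (𝓞 K))}
    (hE : DensLE E δ) (hM : ∀ v, v ∉ E → ∑ j, π.α v j = conj (ρ.trace v)) {c : ℝ}
    (hc : c < 1 - 2 * d ^ 2 * δ) :
    ∀ᶠ ε : ℝ in 𝓝[>] 0, c * LL ε ≤ Real.log ‖LWr π ρ (1 + ε)‖ := by
  obtain ⟨c', hc1, hc2⟩ := exists_between hc
  have h1 : ρ.inner ρ = 1 := hρ
  have hlow := lower h ρ hE (g := 1) (s := 1) (D := d) (c := c') le_rfl one_pos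
    (fun x => by
      unfold bH
      rw [Complex.norm_conj, ← ρ.trace_vx]
      exact hd _)
    (fun x hx => ⟨1, zero_le_one, le_rfl, by
      unfold bH aH
      rw [← ρ.trace_vx, ← hM _ hx]
      simp⟩)
    (by
      rw [h1]
      push_cast
      nlinarith)
  filter_upwards [hlow, (isLittleO_iff.1 (lw_est h ρ).2) (show 0 < c' - c by linarith),
    LL_tendsto.eventually_gt_atTop 0] with ε h3 h4 h5
  rw [Real.norm_eq_abs, Real.norm_of_nonneg h5.le] at h4
  have h6 := (abs_le.1 h4).1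
  linarith

/-- **Strong multiplicity one, for the order.** -/
theorem smo_ord {π : Params K} (h : π.IsCuspidal) (ρ : WRep K) (hρ : ρ.IsIrr) {d δ : ℝ}
    (hd : ∀ v, ‖ρ.trace v‖ ≤ d) (hδ : 0 ≤ δ) {E : Set (HeightOneSpectrum (𝓞 K))}
    (hE : DensLE E δ) (hM : ∀ v, v ∉ E → ∑ j, π.α v j = conj (ρ.trace v))
    (hc : 2 * d ^ 2 * δ < 1) {r : ℤ} (hr : HasOrd (LW π ρ) 1 r) :
    r = -1 ∧ ∀ η : ℝ, 0 < η → DensZero {v | η ≤ ‖∑ j, π.α v j - conj (ρ.trace v)‖} := by
  obtain ⟨c, hc1, hc2⟩ := exists_between (show (0 : ℝ) < 1 - 2 * d ^ 2 * δ by linarith)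
  have h0 := smo h ρ hρ hd hδ hE hM hc2
  obtain ⟨ε, h4, h5, h6⟩ := (h0.and (((isLittleO_iff.1 (lw_ord_log hr)) (half_pos hc1)).and
    (LL_tendsto.eventually_gt_atTop 0))).exists
  rw [Real.norm_eq_abs, Real.norm_of_nonneg h6.le] at h5
  have h7 := (abs_le.1 h5).2
  have h8 : (r : ℝ) * LL ε ≤ -(c / 2) * LL ε := by linarith
  have h9 := le_of_mul_le_mul_right h8 h6
  have h10 : (r : ℝ) < 0 := by linarith
  have h11 : r < 0 := by exact_mod_cast h10
  have h12 : r = -1 := by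
    rcases ord_abs h hρ hr h11.ne with h13 | h13
    · omega
    · exact h13
  refine ⟨h12, fun η hη => ?_⟩
  have h13 := partner_dens h hρ hr h11.ne hη
  rw [h12] at h13
  convert h13 using 6
  push_cast
  ring

end

end Pool.Agent.N172.CW
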