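import Pool.Agent.N172.CW.Des4

/-!
# The norm of the restriction
-/

set_option autoImplicit false
set_option linter.unusedSectionVars false
set_option linter.deprecated false

namespace Pool.Agent.N172.CW

open NumberField Complex Filter Topology IsDedekindDomain Asymptotics
open Pool.Agent.N172.HS (IsHecke WRep EH EV EV_EH vx_injective pc hv Bdd StNvq finset_isLittleO
  LL_not_littleO above finsum_above)
open Pool.Agent.W353.TP (HX sysH push res LL LL_tendsto bdd_isLittleO)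
open Pool.Agent.W353.NF (vx)
open scoped ComplexConjugate

section

variable {K L : Type} [Field K] [NumberField K] [Field L] [NumberField L] [Algebra K L]

theorem restr_ip {κ : Type} [Fintype κ] (π : κ → Params K) (h : ∀ i, (π i).IsCuspidal)
    (ρ : κ → WRep L) {d : κ → ℝ} (hd0 : ∀ i, 0 ≤ d i) (hd : ∀ i w, ‖(ρ i).trace w‖ ≤ d i)
    {E : Set (HeightOneSpectrum (𝓞 K))} (hM : ∀ i, Matches (π i) (ρ i) E)
    (c : κ → ℝ) {ε : ℝ} (hε : 0 < ε) :
    ip ε (fun z => ∑ i, (c i : ℂ) * bH (ρ i) z) (fun z => ∑ i, (c i : ℂ) * bH (ρ i) z) ≤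
      Module.finrank K L * ip ε (fun x => ∑ i, (c i : ℂ) * aH (π i) x)
        (fun x => ∑ i, (c i : ℂ) * aH (π i) x) +
      Module.finrank K L * (∑ i, |c i| * d i) ^ 2 * EH K ε (ind {x | vx x ∈ E}) := by
  classical
  set Y : HX L → ℂ := fun z => ∑ i, (c i : ℂ) * bH (ρ i) z with hY
  set X : HX K → ℂ := fun x => ∑ i, (c i : ℂ) * aH (π i) x with hX
  set B : ℝ := ∑ i, |c i| * d i with hB
  set g : ℝ := (Module.finrank K L : ℝ) with hg
  have hg0 : 0 ≤ g := Nat.cast_nonneg _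
  have hB0 : 0 ≤ B := Finset.sum_nonneg fun i _ => mul_nonneg (abs_nonneg _) (hd0 i)
  have hYL : L2 Y := L2.sum Finset.univ (fun i _ => L2.bH (ρ i)) fun i => (c i : ℂ)
  have hXL : L2 X := L2.sum Finset.univ (fun i _ => L2.aH (h i)) fun i => (c i : ℂ)
  have hYB : ∀ z, ‖Y z‖ ≤ B := by
    intro z
    refine (norm_sum_le _ _).trans (Finset.sum_le_sum fun i _ => ?_)
    rw [norm_mul, Complex.norm_real, Real.norm_eq_abs]
    refine mul_le_mul_of_nonneg_left ?_ (abs_nonneg _)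
    unfold bH
    rw [Complex.norm_conj, ← (ρ i).trace_vx]
    exact hd i _
  have hpt : ∀ x : HX K, push K (fun z : HX L => ‖Y z‖ ^ 2 * wH ε z) x ≤
      g * (‖X x‖ ^ 2 * wH ε x) + g * B ^ 2 * (ind {x | vx x ∈ E} x * wH ε x) := by
    intro x
    have hw := wH_nonneg ε x
    have hcard : ((Finset.univ.filter
        (fun ψ : 𝓞 L →+* ZMod (x.1 : ℕ) => res K ψ = x.2)).card : ℝ) ≤ g := by
      exact Nat.cast_le.2 (card_push (K := K) (L := L) x)
    unfold push
    by_cases hx : vx x ∈ E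
    · have e1 : ind {x | vx x ∈ E} x = 1 := if_pos hx
      rw [e1, one_mul]
      have h1 : ∀ ψ ∈ Finset.univ.filter (fun ψ : 𝓞 L →+* ZMod (x.1 : ℕ) => res K ψ = x.2),
          ‖Y ⟨x.1, ψ⟩‖ ^ 2 * wH ε (⟨x.1, ψ⟩ : HX L) ≤ B ^ 2 * wH ε x := fun ψ _ =>
        mul_le_mul_of_nonneg_right (pow_le_pow_left₀ (norm_nonneg _) (hYB _) 2) hw
      refine (Finset.sum_le_sum h1).trans ?_
      rw [Finset.sum_const, nsmul_eq_mul]
      have h2 : 0 ≤ g * (‖X x‖ ^ 2 * wH ε x) := by positivity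
      have h3 := mul_le_mul_of_nonneg_right hcard (show 0 ≤ B ^ 2 * wH ε x by positivity)
      linarith
    · have e1 : ind {x | vx x ∈ E} x = 0 := if_neg hx
      rw [e1, zero_mul, mul_zero, add_zero]
      have h1 : ∀ ψ ∈ Finset.univ.filter (fun ψ : 𝓞 L →+* ZMod (x.1 : ℕ) => res K ψ = x.2),
          ‖Y ⟨x.1, ψ⟩‖ ^ 2 * wH ε (⟨x.1, ψ⟩ : HX L) = ‖X x‖ ^ 2 * wH ε x := by
        intro ψ hψ
        rw [Finset.mem_filter] at hψ
        have h2 : Y ⟨x.1, ψ⟩ = X x := by
          rw [hY, hX]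
          refine Finset.sum_congr rfl fun i _ => ?_
          congr 1
          unfold bH
          rw [← (ρ i).trace_vx, ← hM i _ hx _ (vx_above hψ.2)]
          rfl
        rw [h2]
        rfl
      rw [Finset.sum_congr rfl h1, Finset.sum_const, nsmul_eq_mul]
      exact mul_le_mul_of_nonneg_right hcard (by positivity)
  have hs1 : Summable fun x : HX K => g * (‖X x‖ ^ 2 * wH ε x) := (hXL ε hε).mul_left g
  have hs2 : Summable fun x : HX K => ind {x | vx x ∈ E} x * wH ε x := by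
    refine Summable.of_nonneg_of_le (fun x => mul_nonneg (ind_nonneg _ x) (wH_nonneg ε x))
      (fun x => ?_) (wH_summable (K := K) hε)
    exact mul_le_of_le_one_left (wH_nonneg ε x) (ind_le _ x)
  have hs3 := hs1.add (hs2.mul_left (g * B ^ 2))
  have hs4 : Summable fun x : HX K => push K (fun z : HX L => ‖Y z‖ ^ 2 * wH ε z) x := by
    refine Summable.of_nonneg_of_le (fun x => ?_) hpt hs3
    unfold push
    exact Finset.sum_nonneg fun ψ _ => mul_nonneg (sq_nonneg _) (wH_nonneg ε _)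
  rw [ip_self, ip_self, tsum_push (K := K) (hYL ε hε), EH_def, ← tsum_mul_left, ← tsum_mul_left,
    ← hs1.tsum_add (hs2.mul_left (g * B ^ 2))]
  exact hs4.tsum_le_tsum hpt hs3

/-- **The norm of the restriction.** -/
theorem restr_norm {κ : Type} [Fintype κ] (π : κ → Params K) (h : ∀ i, (π i).IsCuspidal)
    (hne : ∀ i j, i ≠ j → HasOrd (RS (π i) (π j)) 1 0) (ρ : κ → WRep L) {δ : ℝ}
    {d : κ → ℝ} (hd0 : ∀ i, 0 ≤ d i) (hd : ∀ i w, ‖(ρ i).trace w‖ ≤ d i)
    {E : Set (HeightOneSpectrum (𝓞 K))} (hE : DensLE E δ)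
    (hM : ∀ i, Matches (π i) (ρ i) E) (c : κ → ℝ) :
    ∑ i, ∑ j, c i * c j * ((ρ i).inner (ρ j) : ℝ) ≤
      Module.finrank K L * (∑ i, c i ^ 2 + (∑ i, |c i| * d i) ^ 2 * δ) := by
  classical
  set g : ℝ := (Module.finrank K L : ℝ) with hg
  set B : ℝ := ∑ i, |c i| * d i with hB
  set C : ℝ := ∑ i, c i ^ 2 with hC
  set Q : ℝ := ∑ i, ∑ j, c i * c j * ((ρ i).inner (ρ j) : ℝ) with hQ
  have hg0 : 0 ≤ g := Nat.cast_nonneg _
  have hC0 : 0 ≤ C := Finset.sum_nonneg fun i _ => sq_nonneg _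
  refine le_of_forall_pos_le_add fun θ hθ => ?_
  set η : ℝ := θ / (1 + g * C + g * B ^ 2) with hη
  have hη0 : 0 < η := by rw [hη]; positivity
  have hη1 : η * (1 + g * C + g * B ^ 2) = θ := by
    rw [hη]
    field_simp
  have hA := quad_le (fun i j ε => Real.log ‖RSr (π i) (π j) (1 + ε)‖) (by
    intro i j
    by_cases hij : i = j
    · subst hij
      simpa using rs_self_log (h i)
    · simpa [hij] using rs_pair_log (hne i j hij)) hη0
  have hY : (fun ε => ip ε (fun z => ∑ i, (c i : ℂ) * bH (ρ i) z)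
      (fun z => ∑ i, (c i : ℂ) * bH (ρ i) z) - Q * LL ε) =o[𝓝[>] 0] LL := by
    have h2 := finset_isLittleO (Finset.univ : Finset κ) (fun i _ =>
      finset_isLittleO (Finset.univ : Finset κ)
        (fun j _ => (ip_bH (ρ i) (ρ j)).const_mul_left (c i * c j)))
    refine h2.congr' ?_ (EventuallyEq.refl _ _)
    filter_upwards [self_mem_nhdsWithin] with ε hε
    rw [ip_sum_sum Finset.univ Finset.univ (fun i _ => L2.bH (ρ i)) (fun i _ => L2.bH (ρ i)) c c hε,
      hQ, Finset.sum_mul, ← Finset.sum_sub_distrib]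
    refine Finset.sum_congr rfl fun i _ => ?_
    rw [Finset.sum_mul, ← Finset.sum_sub_distrib]
    refine Finset.sum_congr rfl fun j _ => ?_
    ring
  obtain ⟨ε, h1, h2, h3, h4, hε⟩ := (hA.and (((isLittleO_iff.1 hY) hη0).and
    ((densLE_EH hE hη0).and ((LL_tendsto.eventually_gt_atTop 0).and self_mem_nhdsWithin)))).exists
  have hε' : (0 : ℝ) < ε := hε
  rw [Real.norm_eq_abs, Real.norm_of_nonneg h4.le] at h2
  have h5 := (abs_le.1 h2).1
  have h6 := restr_ip π h ρ hd0 hd hM c hε'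
  have h7 := (ip_aa_le π h c hε').trans (h1 c)
  rw [← hg, ← hB] at h6
  have h8 : g * ip ε (fun x => ∑ i, (c i : ℂ) * aH (π i) x)
      (fun x => ∑ i, (c i : ℂ) * aH (π i) x) ≤ g * ((1 + η) * C * LL ε) :=
    mul_le_mul_of_nonneg_left h7 hg0
  have h9 : g * B ^ 2 * EH K ε (ind {x | vx x ∈ E}) ≤ g * B ^ 2 * ((δ + η) * LL ε) :=
    mul_le_mul_of_nonneg_left h3 (by positivity)
  have h10 : Q * LL ε ≤ (g * (C + B ^ 2 * δ) + θ) * LL ε := by
    rw [← hη1]
    nlinarith
  exact le_of_mul_le_mul_right h10 h4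

end

end Pool.Agent.N172.CW
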