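import Pool.Agent.N172.CW.Deg

/-!
# The logarithm of a twisted L-function as a sum over the primes of degree one
-/

set_option autoImplicit false
set_option linter.unusedSectionVars false
set_option linter.deprecated false

namespace Pool.Agent.N172.CW

open NumberField Complex Filter Topology IsDedekindDomain
open Pool.Agent.W540.BE (nm two_le_nm)
open Pool.Agent.N172.HS (IsHecke WRep EH EV EV_EH exists_vx absNorm_vx vx_injective pc hv norm_pc_le
  norm_hv_le Bdd)
open Pool.Agent.W353.TP (HX sysH push res LL)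
open Pool.Agent.W353.NF (vx)
open scoped ComplexConjugate

section

variable {K F : Type} [Field K] [NumberField K] [Field F] [NumberField F] [Algebra K F]

theorem wH_summable {ε : ℝ} (hε : 0 < ε) : Summable fun x : HX K => wH ε x :=
  (sysH K).summable (-(1 + ε)) (by linarith)

variable {π : Params K}

theorem aH_summable (h : π.IsCuspidal) {ε : ℝ} (hε : 0 < ε) :
    Summable fun x : HX K => ‖aH π x‖ ^ 2 * wH ε x := by
  refine ((rs_summable h (s := 1 + ε) (by linarith)).comp_injective inj_vx0).congr fun x => ?_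
  simp only [Function.comp_apply]
  rw [wt_vx, zero_add, pw_vx]

theorem af_summable (h : π.IsCuspidal) {f : HX K → ℂ} (hf : Bdd f) {ε : ℝ} (hε : 0 < ε) :
    Summable fun x : HX K => (aH π x * f x).re * wH ε x := by
  obtain ⟨b, hb0, hb⟩ := hf
  refine Summable.of_norm_bounded ((aH_summable h hε).add ((wH_summable hε).mul_left (b ^ 2)))
    fun x => ?_
  rw [Real.norm_eq_abs, abs_mul, abs_of_nonneg (wH_nonneg ε x), ← add_mul]
  refine mul_le_mul_of_nonneg_right ?_ (wH_nonneg ε x)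
  refine (Complex.abs_re_le_norm _).trans ?_
  rw [norm_mul]
  have h1 := hb x
  have h2 : ‖f x‖ ^ 2 ≤ b ^ 2 := pow_le_pow_left₀ (norm_nonneg _) h1 2
  nlinarith [sq_nonneg (‖aH π x‖ - ‖f x‖), sq_nonneg ‖aH π x‖, sq_nonneg ‖f x‖]

open Classical in
/-- the indicator function of the bad terms -/
noncomputable def bad (q : HeightOneSpectrum (𝓞 F) × ℕ) : ℝ :=
  if q.2 = 0 ∧ (nm F q.1).Prime then 0 else 1

theorem bad_nonneg (q : HeightOneSpectrum (𝓞 F) × ℕ) : 0 ≤ bad q := by
  unfold bad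
  split_ifs <;> norm_num

theorem bad_le (q : HeightOneSpectrum (𝓞 F) × ℕ) : bad q ≤ 1 := by
  unfold bad
  split_ifs <;> norm_num

theorem bad_sq (q : HeightOneSpectrum (𝓞 F) × ℕ) : bad q ^ 2 = bad q := by
  unfold bad
  split_ifs <;> norm_num

variable (F) in
/-- the bad terms are few -/
theorem bad_bound : ∃ C : ℝ, 0 ≤ C ∧ ∀ ε : ℝ, 0 < ε →
    ∑' q : HeightOneSpectrum (𝓞 F) × ℕ, bad q * wt (1 + ε) q ≤ C := by
  classical
  set np : HeightOneSpectrum (𝓞 F) → ℝ := fun w => if (nm F w).Prime then 0 else 1 with hnp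
  have hnp0 : ∀ w, 0 ≤ np w := fun w => by
    rw [hnp]; simp only; split_ifs <;> norm_num
  have hnp1 : ∀ w, |np w| ≤ 1 := fun w => by
    rw [hnp]; simp only; split_ifs <;> norm_num
  have hs2 : Summable fun w : HeightOneSpectrum (𝓞 F) => (nm F w : ℝ) ^ (-2 : ℝ) :=
    (Pool.Agent.H341R2.sysK F).summable (-2) (by norm_num)
  set β : HeightOneSpectrum (𝓞 F) × ℕ → ℝ := fun q =>
    (nm F q.1 : ℝ) ^ (-2 : ℝ) * (2 * (1 / 2 : ℝ) ^ q.2) with hβ
  have hβ0 : ∀ q, 0 ≤ β q := fun q => by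
    rw [hβ]; simp only; positivity
  have hβs : Summable β := hs2.mul_of_nonneg (summable_geometric_two.mul_left 2)
    (fun w => by positivity) (fun m => by positivity)
  set C : ℝ := 1 * Module.finrank ℚ F * Pool.Agent.H921R2.TatePole.C0 with hC
  have hEV : ∀ ε : ℝ, 0 < ε → EV F ε np ≤ C := by
    intro ε hε
    have h1 := EV_EH (K := F) hnp1 hε
    have h2 : EH F ε (fun x => np (vx x)) = 0 := by
      rw [EH_def]
      have h3 : ∀ x : HX F, np (vx x) * wH ε x = 0 := by
        intro x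
        have h4 : (nm F (vx x)).Prime := by
          have : nm F (vx x) = (x.1 : ℕ) := absNorm_vx x
          rw [this]
          exact x.1.2
        rw [hnp]
        simp only
        rw [if_pos h4, zero_mul]
      simp only [h3, tsum_zero]
    rw [h2, sub_zero] at h1
    exact (le_abs_self _).trans h1
  have hEV0 : ∀ ε : ℝ, 0 ≤ EV F ε np := fun ε =>
    tsum_nonneg fun w => mul_nonneg (hnp0 w) (by positivity)
  refine ⟨C + ∑' q, β q, add_nonneg ((hEV0 1).trans (hEV 1 one_pos)) (tsum_nonneg hβ0),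
    fun ε hε => ?_⟩
  have hs : 1 < 1 + ε := by linarith
  set α₀ : HeightOneSpectrum (𝓞 F) × ℕ → ℝ := fun q =>
    if q.2 = 0 then np q.1 * tt q.1 (1 + ε) else 0 with hα
  have hsupp : Function.support α₀ ⊆
      Set.range (fun w : HeightOneSpectrum (𝓞 F) => ((w, 0) : HeightOneSpectrum (𝓞 F) × ℕ)) := by
    intro q hq
    rw [Function.mem_support, hα] at hq
    simp only at hq
    split_ifs at hq with h1
    · exact ⟨q.1, Prod.ext rfl h1.symm⟩
    · exact absurd rfl hq
  have hinj : Function.Injective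
      (fun w : HeightOneSpectrum (𝓞 F) => ((w, 0) : HeightOneSpectrum (𝓞 F) × ℕ)) :=
    fun _ _ h => (Prod.ext_iff.1 h).1
  have hαe : ∀ w : HeightOneSpectrum (𝓞 F), α₀ (w, 0) = np w * tt w (1 + ε) := fun w => by
    rw [hα]
    simp only [if_true]
  have htt : Summable fun v : HeightOneSpectrum (𝓞 F) => tt v (1 + ε) :=
    (Pool.Agent.H341R2.sysK F).summable (-(1 + ε)) (by linarith)
  have hnps : Summable fun w : HeightOneSpectrum (𝓞 F) => np w * tt w (1 + ε) := by
    refine Summable.of_nonneg_of_le (fun w => mul_nonneg (hnp0 w) (tt_pos _ _).le) (fun w => ?_) htt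
    exact mul_le_of_le_one_left (tt_pos _ _).le ((le_abs_self _).trans (hnp1 w))
  have hαs : Summable α₀ := by
    rw [← hinj.summable_iff]
    · exact hnps.congr fun w => (hαe w).symm
    · intro q hq
      by_contra h
      exact hq (hsupp h)
  have hαt : ∑' q, α₀ q = EV F ε np := by
    rw [← hinj.tsum_eq hsupp]
    exact tsum_congr fun w => hαe w
  have hle : ∀ q : HeightOneSpectrum (𝓞 F) × ℕ, bad q * wt (1 + ε) q ≤ α₀ q + β q := by
    intro q
    by_cases h0 : q.2 = 0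
    · have h1 : α₀ q = bad q * wt (1 + ε) q := by
        obtain ⟨w, m⟩ := q
        simp only at h0
        subst h0
        rw [hαe, hnp]
        unfold bad wt
        simp only [true_and, zero_add, pow_one, Nat.cast_zero, div_one]
      rw [h1]
      linarith [hβ0 q]
    · have h1 : α₀ q = 0 := by
        rw [hα]
        simp only
        rw [if_neg h0]
      rw [h1, zero_add]
      refine (mul_le_of_le_one_left (wt_nonneg _ _) (bad_le q)).trans ?_
      rw [hβ]
      unfold wt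
      simp only
      have h2 : (nm F q.1 : ℝ) ^ (-(1 + ε)) ≤ (nm F q.1 : ℝ) ^ (-1 : ℝ) :=
        Real.rpow_le_rpow_of_exponent_le (one_lt_nm q.1).le (by linarith)
      have h3 : tt q.1 (1 + ε) ^ (q.2 + 1) ≤ ((nm F q.1 : ℝ) ^ (-1 : ℝ)) ^ (q.2 + 1) :=
        pow_le_pow_left₀ (tt_pos _ _).le h2 _
      have h4 : (nm F q.1 : ℝ) ^ (-1 : ℝ) ≤ 1 / 2 := by
        rw [Real.rpow_neg_one, one_div]
        exact inv_anti₀ (by norm_num) (by exact_mod_cast two_le_nm q.1)
      obtain ⟨m, hm⟩ : ∃ m, q.2 = m + 1 := ⟨q.2 - 1, by omega⟩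
      have h5 : ((nm F q.1 : ℝ) ^ (-1 : ℝ)) ^ (q.2 + 1) ≤
          (nm F q.1 : ℝ) ^ (-2 : ℝ) * (2 * (1 / 2 : ℝ) ^ q.2) := by
        rw [hm, show m + 1 + 1 = 2 + m by ring, pow_add]
        have h6 : ((nm F q.1 : ℝ) ^ (-1 : ℝ)) ^ 2 = (nm F q.1 : ℝ) ^ (-2 : ℝ) := by
          rw [← Real.rpow_natCast, ← Real.rpow_mul (Nat.cast_nonneg _)]
          norm_num
        rw [h6]
        refine mul_le_mul_of_nonneg_left ?_ (by positivity)
        calc ((nm F q.1 : ℝ) ^ (-1 : ℝ)) ^ m ≤ (1 / 2 : ℝ) ^ m :=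
              pow_le_pow_left₀ (by positivity) h4 _
          _ = 2 * (1 / 2 : ℝ) ^ (m + 1) := by rw [pow_succ]; ring
      refine (div_le_self (pow_nonneg (tt_pos _ _).le _) (by
        have : (0 : ℝ) ≤ q.2 := Nat.cast_nonneg _
        linarith)).trans (h3.trans h5)
  have hbs : Summable fun q : HeightOneSpectrum (𝓞 F) × ℕ => bad q * wt (1 + ε) q :=
    Summable.of_nonneg_of_le (fun q => mul_nonneg (bad_nonneg q) (wt_nonneg _ _)) hle
      (hαs.add hβs)
  calc ∑' q : HeightOneSpectrum (𝓞 F) × ℕ, bad q * wt (1 + ε) q ≤ ∑' q, (α₀ q + β q) :=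
        hbs.tsum_le_tsum hle (hαs.add hβs)
    _ = EV F ε np + ∑' q, β q := by rw [hαs.tsum_add hβs, hαt]
    _ ≤ C + ∑' q, β q := by linarith [hEV ε hε]

variable {χ : Ideal (𝓞 F) →*₀ ℂ}

theorem term_vx (y : HX F) : term π χ (vx y, 0) = aH π (dnH (K := K) y) * hv χ y := by
  unfold term
  simp only [zero_add, one_mul, pow_one]
  rw [under_vx, rd_vx, pw_vx]
  rfl

/-- the sum over the good terms -/
theorem good_sum (h : π.IsCuspidal) (hχ : ∀ 𝔞, ‖χ 𝔞‖ ≤ 1) {ε : ℝ} (hε : 0 < ε) :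
    ∑' q : HeightOneSpectrum (𝓞 F) × ℕ, (1 - bad q) * ((term π χ q).re * wt (1 + ε) q) =
      EH K ε (fun x => (aH π x * pc K χ x).re) := by
  classical
  have hs : 1 < 1 + ε := by linarith
  set G : HeightOneSpectrum (𝓞 F) × ℕ → ℝ := fun q =>
    (1 - bad q) * ((term π χ q).re * wt (1 + ε) q) with hG
  have hsupp : Function.support G ⊆
      Set.range (fun y : HX F => ((vx y, 0) : HeightOneSpectrum (𝓞 F) × ℕ)) := by
    intro q hq
    rw [Function.mem_support, hG] at hq
    have h1 : 1 - bad q ≠ 0 := left_ne_zero_of_mul hq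
    unfold bad at h1
    split_ifs at h1 with h2
    · obtain ⟨y, hy⟩ := exists_vx q.1 h2.2
      exact ⟨y, Prod.ext hy h2.1.symm⟩
    · exact absurd (sub_self _) h1
  have hGe : ∀ y : HX F, G (vx y, 0) = (aH π (dnH (K := K) y) * hv χ y).re * wH ε y := by
    intro y
    have h1 : bad ((vx y, 0) : HeightOneSpectrum (𝓞 F) × ℕ) = 0 := by
      unfold bad
      have : nm F (vx y) = (y.1 : ℕ) := absNorm_vx y
      rw [if_pos ⟨rfl, by rw [this]; exact y.1.2⟩]
    rw [hG]
    simp only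
    rw [h1, sub_zero, one_mul, term_vx, wt_vx]
  have hGs : Summable G := by
    refine Summable.of_norm_bounded (term_summable h hχ hs) fun q => ?_
    rw [hG]
    simp only
    rw [Real.norm_eq_abs, abs_mul, abs_mul, abs_of_nonneg (wt_nonneg _ _)]
    have h1 : |1 - bad q| ≤ 1 := by
      rw [abs_of_nonneg (by linarith [bad_le q])]
      linarith [bad_nonneg q]
    refine (mul_le_of_le_one_left (mul_nonneg (abs_nonneg _) (wt_nonneg _ _)) h1).trans ?_
    exact mul_le_mul_of_nonneg_right (Complex.abs_re_le_norm _) (wt_nonneg _ _)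
  have hs2 : Summable fun y : HX F => (aH π (dnH (K := K) y) * hv χ y).re * wH ε y :=
    (hGs.comp_injective (inj_vx0 (K := F))).congr fun y => hGe y
  rw [← (inj_vx0 (K := F)).tsum_eq hsupp]
  have e1 : (∑' y : HX F, G (vx y, 0)) =
      ∑' y : HX F, (aH π (dnH (K := K) y) * hv χ y).re * wH ε y := tsum_congr hGe
  rw [e1, tsum_push (K := K) hs2, EH_def]
  refine tsum_congr fun x => ?_
  unfold pc push
  rw [Finset.mul_sum, Complex.re_sum, Finset.sum_mul]
  refine Finset.sum_congr rfl fun ψ hψ => ?_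
  rw [Finset.mem_filter] at hψ
  have e2 : dnH (K := K) (⟨x.1, ψ⟩ : HX F) = x := by
    unfold dnH
    simp only
    rw [hψ.2]
  change (aH π (dnH (K := K) (⟨x.1, ψ⟩ : HX F)) * hv χ ⟨x.1, ψ⟩).re *
    wH ε (⟨x.1, ψ⟩ : HX F) = (aH π x * hv χ ⟨x.1, ψ⟩).re * wH ε x
  rw [e2]
  rfl

/-- **The logarithm of `L(s, π × Ind χ)` near `s = 1`.** -/
theorem ind_est (π : Params K) (h : π.IsCuspidal) (hχ : ∀ 𝔞, ‖χ 𝔞‖ ≤ 1) :
    ∃ C : ℝ, 0 ≤ C ∧ ∀ ε : ℝ, 0 < ε →
      |Real.log ‖LIndr π χ (1 + ε)‖ - EH K ε (fun x => (aH π x * pc K χ x).re)| ≤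
        C * Real.sqrt (Real.log ‖RSr π π (1 + ε)‖) := by
  obtain ⟨C₂, hC₂, hb⟩ := bad_bound F
  refine ⟨Module.finrank K F * Real.sqrt C₂, by positivity, fun ε hε => ?_⟩
  have hs : 1 < 1 + ε := by linarith
  rw [(ind_log h hχ hs).2, ← good_sum h hχ hε]
  have hT : Summable fun q : HeightOneSpectrum (𝓞 F) × ℕ => (term π χ q).re * wt (1 + ε) q := by
    refine Summable.of_norm_bounded (term_summable h hχ hs) fun q => ?_
    rw [Real.norm_eq_abs, abs_mul, abs_of_nonneg (wt_nonneg _ _)]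
    exact mul_le_mul_of_nonneg_right (Complex.abs_re_le_norm _) (wt_nonneg _ _)
  have hG : Summable fun q : HeightOneSpectrum (𝓞 F) × ℕ =>
      (1 - bad q) * ((term π χ q).re * wt (1 + ε) q) := by
    refine Summable.of_norm_bounded hT.norm fun q => ?_
    rw [norm_mul, Real.norm_eq_abs (1 - bad q), abs_of_nonneg (by linarith [bad_le q])]
    exact mul_le_of_le_one_left (norm_nonneg _) (by linarith [bad_nonneg q])
  rw [← hT.tsum_sub hG]
  set f : HeightOneSpectrum (𝓞 F) × ℕ → ℝ := fun q =>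
    ‖pw π (q.1.under (𝓞 K)) ((q.2 + 1) * rd K q.1)‖ with hf
  obtain ⟨hup1, hup2⟩ := up_summable (F := F) h hs
  have hbs : Summable fun q : HeightOneSpectrum (𝓞 F) × ℕ => bad q ^ 2 * wt (1 + ε) q := by
    refine Summable.of_nonneg_of_le (fun q => mul_nonneg (sq_nonneg _) (wt_nonneg _ _))
      (fun q => ?_) (wt_summable (F := F) hs)
    rw [bad_sq]
    exact mul_le_of_le_one_left (wt_nonneg _ _) (bad_le q)
  obtain ⟨hc1, hc2⟩ := cs_tsum (f := f) (g := bad) (w := wt (1 + ε)) (wt_nonneg _) hup1 hbs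
  have h1 : ∀ q : HeightOneSpectrum (𝓞 F) × ℕ,
      ‖(term π χ q).re * wt (1 + ε) q - (1 - bad q) * ((term π χ q).re * wt (1 + ε) q)‖ ≤
        f q * bad q * wt (1 + ε) q := by
    intro q
    have e1 : (term π χ q).re * wt (1 + ε) q - (1 - bad q) * ((term π χ q).re * wt (1 + ε) q) =
        (term π χ q).re * bad q * wt (1 + ε) q := by ring
    rw [e1, Real.norm_eq_abs, abs_mul, abs_mul, abs_of_nonneg (wt_nonneg _ _),
      abs_of_nonneg (bad_nonneg q)]
    refine mul_le_mul_of_nonneg_right (mul_le_mul_of_nonneg_right ?_ (bad_nonneg q))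
      (wt_nonneg _ _)
    exact (Complex.abs_re_le_norm _).trans (norm_term_le hχ q)
  have h2 := tsum_of_norm_bounded hc1.hasSum h1
  rw [Real.norm_eq_abs] at h2
  refine h2.trans ?_
  have hX0 : 0 ≤ ∑' q, f q * bad q * wt (1 + ε) q := tsum_nonneg fun q =>
    mul_nonneg (mul_nonneg (norm_nonneg _) (bad_nonneg q)) (wt_nonneg _ _)
  have hR0 : 0 ≤ Real.log ‖RSr π π (1 + ε)‖ := by
    rw [rs_log_self h hs]
    exact tsum_nonneg fun q => mul_nonneg (sq_nonneg _) (wt_nonneg _ _)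
  have h3 : (∑' q : HeightOneSpectrum (𝓞 F) × ℕ, bad q ^ 2 * wt (1 + ε) q) ≤ C₂ := by
    have := hb ε hε
    simpa only [bad_sq] using this
  have h4 : (∑' q, f q * bad q * wt (1 + ε) q) ^ 2 ≤
      (Module.finrank K F * Real.sqrt C₂ * Real.sqrt (Real.log ‖RSr π π (1 + ε)‖)) ^ 2 := by
    refine hc2.trans ?_
    rw [mul_pow, mul_pow, Real.sq_sqrt hC₂, Real.sq_sqrt hR0]
    calc (∑' q, f q ^ 2 * wt (1 + ε) q) * ∑' q, bad q ^ 2 * wt (1 + ε) q ≤
        ((Module.finrank K F : ℝ) ^ 2 * Real.log ‖RSr π π (1 + ε)‖) * C₂ :=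
          mul_le_mul hup2 h3 (tsum_nonneg fun q => mul_nonneg (sq_nonneg _) (wt_nonneg _ _))
            (by positivity)
      _ = _ := by ring
  exact le_of_sq_le_sq h4 (by positivity)

end

end Pool.Agent.N172.CW
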