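import Pool.Agent.N172.CW.Des5

/-!
# Orthogonality at the primes of degree one, under the hypothesis H
-/

set_option autoImplicit false
set_option linter.unusedSectionVars false
set_option linter.deprecated false

namespace Pool.Agent.N172.CW

open NumberField Complex Filter Topology IsDedekindDomain Asymptotics
open Pool.Agent.W540.BE (nm two_le_nm)
open Pool.Agent.N172.HS (IsHecke WRep EH EV EV_EH exists_vx absNorm_vx vx_injective pc hv Bdd
  StNvq finset_isLittleO LL_not_littleO above finsum_above)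
open Pool.Agent.W353.TP (HX sysH push res LL LL_tendsto bdd_isLittleO)
open Pool.Agent.W353.NF (vx)
open scoped ComplexConjugate

section

variable {K : Type} [Field K] [NumberField K]

/-- The hypothesis H of Rudnick and Sarnak: the sum of `|∑_j α_{v,j}^m|^2 / (m Nv^m)` over the powers
`v^m` of the primes `v` of `K` for which `Nv^m` is not a prime number converges. -/
def Params.HypH (π : Params K) : Prop :=
  Summable fun q : HeightOneSpectrum (𝓞 K) × ℕ =>
    if (Ideal.absNorm q.1.asIdeal ^ (q.2 + 1)).Prime then (0 : ℝ) else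
      ‖∑ j, π.α q.1 j ^ (q.2 + 1)‖ ^ 2 /
        (((q.2 : ℝ) + 1) * (Ideal.absNorm q.1.asIdeal : ℝ) ^ (q.2 + 1))

/-- the terms at the bad prime powers -/
noncomputable def hb (π : Params K) (q : HeightOneSpectrum (𝓞 K) × ℕ) : ℝ :=
  if (Ideal.absNorm q.1.asIdeal ^ (q.2 + 1)).Prime then (0 : ℝ) else
      ‖∑ j, π.α q.1 j ^ (q.2 + 1)‖ ^ 2 /
        (((q.2 : ℝ) + 1) * (Ideal.absNorm q.1.asIdeal : ℝ) ^ (q.2 + 1))

theorem hb_nonneg (π : Params K) (q : HeightOneSpectrum (𝓞 K) × ℕ) : 0 ≤ hb π q := by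
  unfold hb
  split_ifs
  · exact le_rfl
  · positivity

theorem bad_hb (π : Params K) {ε : ℝ} (hε : 0 < ε) (q : HeightOneSpectrum (𝓞 K) × ℕ) :
    bad q * (‖pw π q.1 (q.2 + 1)‖ ^ 2 * wt (1 + ε) q) ≤ hb π q := by
  by_cases h : (Ideal.absNorm q.1.asIdeal ^ (q.2 + 1)).Prime
  · have h1 : q.2 = 0 := by
      by_contra h2
      exact (Nat.Prime.not_prime_pow (x := Ideal.absNorm q.1.asIdeal) (n := q.2 + 1)
        (by omega)) h
    have h3 : bad q = 0 := by
      unfold bad
      rw [h1, zero_add, pow_one] at h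
      exact if_pos ⟨h1, h⟩
    rw [h3, zero_mul]
    exact hb_nonneg π q
  · have h1 : hb π q = ‖pw π q.1 (q.2 + 1)‖ ^ 2 *
        (((nm K q.1 : ℝ) ^ (q.2 + 1))⁻¹ / ((q.2 : ℝ) + 1)) := by
      unfold hb pw
      rw [if_neg h]
      change _ / (_ * (nm K q.1 : ℝ) ^ (q.2 + 1)) = _
      rw [div_eq_mul_inv, mul_inv, div_eq_mul_inv]
      ring
    have hwt : wt (1 + ε) q ≤ ((nm K q.1 : ℝ) ^ (q.2 + 1))⁻¹ / ((q.2 : ℝ) + 1) := by
      unfold wt
      refine div_le_div_of_nonneg_right ?_ (by positivity)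
      rw [← inv_pow]
      refine pow_le_pow_left₀ (tt_pos _ _).le ?_ _
      unfold tt
      rw [← Real.rpow_neg_one]
      exact Real.rpow_le_rpow_of_exponent_le (one_lt_nm q.1).le (by linarith)
    rw [h1]
    refine (mul_le_of_le_one_left (mul_nonneg (sq_nonneg _) (wt_nonneg _ _)) (bad_le q)).trans ?_
    exact mul_le_mul_of_nonneg_left hwt (sq_nonneg _)

/-- the sum over the good terms -/
theorem good_pair {π π' : Params K} (h : π.IsCuspidal) (h' : π'.IsCuspidal) {ε : ℝ} (hε : 0 < ε) :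
    ∑' q : HeightOneSpectrum (𝓞 K) × ℕ, (1 - bad q) *
      ((pw π q.1 (q.2 + 1) * conj (pw π' q.1 (q.2 + 1))).re * wt (1 + ε) q) =
      ip ε (aH π) (aH π') := by
  classical
  have hs : 1 < 1 + ε := by linarith
  set G : HeightOneSpectrum (𝓞 K) × ℕ → ℝ := fun q =>
    (1 - bad q) * ((pw π q.1 (q.2 + 1) * conj (pw π' q.1 (q.2 + 1))).re * wt (1 + ε) q) with hG
  have hsupp : Function.support G ⊆
      Set.range (fun y : HX K => ((vx y, 0) : HeightOneSpectrum (𝓞 K) × ℕ)) := by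
    intro q hq
    rw [Function.mem_support, hG] at hq
    have h1 : 1 - bad q ≠ 0 := left_ne_zero_of_mul hq
    unfold bad at h1
    split_ifs at h1 with h2
    · obtain ⟨y, hy⟩ := exists_vx q.1 h2.2
      exact ⟨y, Prod.ext hy h2.1.symm⟩
    · exact absurd (sub_self _) h1
  have hGe : ∀ y : HX K, G (vx y, 0) = (aH π y * conj (aH π' y)).re * wH ε y := by
    intro y
    have h1 : bad ((vx y, 0) : HeightOneSpectrum (𝓞 K) × ℕ) = 0 := by
      unfold bad
      have : nm K (vx y) = (y.1 : ℕ) := absNorm_vx y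
      rw [if_pos ⟨rfl, by rw [this]; exact y.1.2⟩]
    rw [hG]
    simp only
    rw [h1, sub_zero, one_mul, wt_vx, zero_add, pw_vx, pw_vx]
  rw [← (inj_vx0 (K := K)).tsum_eq hsupp, ip_def]
  exact tsum_congr hGe

/-- **The logarithm of `L(s, π × π'~)` and the primes of degree one.** -/
theorem pair_est {π π' : Params K} (h : π.IsCuspidal) (h' : π'.IsCuspidal) (H : π.HypH)
    (H' : π'.HypH) : ∃ C : ℝ, ∀ ε : ℝ, 0 < ε →
      |Real.log ‖RSr π π' (1 + ε)‖ - ip ε (aH π) (aH π')| ≤ C := by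
  refine ⟨∑' q, (hb π q + hb π' q), fun ε hε => ?_⟩
  have hs : 1 < 1 + ε := by linarith
  have H1 : Summable (hb π) := H
  have H2 : Summable (hb π') := H'
  have hT := rs_summable_pair h h' hs
  rw [(rs_log h h' hs).2, ← good_pair h h' hε]
  set T : HeightOneSpectrum (𝓞 K) × ℕ → ℝ := fun q =>
    (pw π q.1 (q.2 + 1) * conj (pw π' q.1 (q.2 + 1))).re * wt (1 + ε) q with hTd
  have hGs : Summable fun q => (1 - bad q) * T q := by
    refine Summable.of_norm_bounded hT.norm fun q => ?_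
    rw [norm_mul]
    refine mul_le_of_le_one_left (norm_nonneg _) ?_
    rw [Real.norm_eq_abs, abs_of_nonneg (by linarith [bad_le q])]
    linarith [bad_nonneg q]
  have e1 : ∑' q, T q - ∑' q, (1 - bad q) * T q = ∑' q, bad q * T q := by
    rw [← hT.tsum_sub hGs]
    exact tsum_congr fun q => by ring
  rw [e1, ← Real.norm_eq_abs]
  refine tsum_of_norm_bounded (H1.add H2).hasSum fun q => ?_
  rw [norm_mul, Real.norm_of_nonneg (bad_nonneg q), hTd]
  simp only
  rw [Real.norm_eq_abs, abs_mul, abs_of_nonneg (wt_nonneg _ _)]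
  have h3 := abs_re_mul_le (pw π q.1 (q.2 + 1)) (pw π' q.1 (q.2 + 1))
  have h4 : bad q * (|(pw π q.1 (q.2 + 1) * conj (pw π' q.1 (q.2 + 1))).re| * wt (1 + ε) q) ≤
      bad q * (‖pw π q.1 (q.2 + 1)‖ ^ 2 * wt (1 + ε) q) +
        bad q * (‖pw π' q.1 (q.2 + 1)‖ ^ 2 * wt (1 + ε) q) := by
    rw [← mul_add, ← add_mul]
    exact mul_le_mul_of_nonneg_left (mul_le_mul_of_nonneg_right h3 (wt_nonneg _ _)) (bad_nonneg q)
  exact h4.trans (add_le_add (bad_hb π hε q) (bad_hb π' hε q))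

/-- a bounded function of `ε` is small -/
theorem const_littleO (C : ℝ) : (fun _ : ℝ => C) =o[𝓝[>] 0] LL := by
  apply bdd_isLittleO
  refine ⟨|C|, Eventually.of_forall fun ε => le_rfl⟩

theorem ip_aa_ort {κ : Type} [DecidableEq κ] (π : κ → Params K) (h : ∀ i, (π i).IsCuspidal)
    (H : ∀ i, (π i).HypH) (hne : ∀ i j, i ≠ j → HasOrd (RS (π i) (π j)) 1 0) (i j : κ) :
    (fun ε => ip ε (aH (π i)) (aH (π j)) - (if i = j then 1 else 0) * LL ε) =o[𝓝[>] 0] LL := by
  obtain ⟨C, hC⟩ := pair_est (h i) (h j) (H i) (H j)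
  have h1 : (fun ε => Real.log ‖RSr (π i) (π j) (1 + ε)‖ - ip ε (aH (π i)) (aH (π j)))
      =o[𝓝[>] 0] LL := by
    apply bdd_isLittleO
    refine ⟨C, ?_⟩
    filter_upwards [self_mem_nhdsWithin] with ε hε
    exact hC ε hε
  have h2 : (fun ε => Real.log ‖RSr (π i) (π j) (1 + ε)‖ - (if i = j then 1 else 0) * LL ε)
      =o[𝓝[>] 0] LL := by
    by_cases hij : i = j
    · subst hij
      simpa using rs_self_log (h i)
    · simpa [hij] using rs_pair_log (hne i j hij)
  refine (h2.sub h1).congr_left fun ε => ?_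
  ring

end

end Pool.Agent.N172.CW
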