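import Pool.Agent.N172.CW.Fr1

/-!
# Functions on the primes of degree one of `K` and of `L`
-/

set_option autoImplicit false
set_option linter.unusedSectionVars false
set_option linter.unusedVariables false
set_option linter.deprecated false

namespace Pool.Agent.N172.CW

open NumberField Complex Filter Topology IsDedekindDomain Asymptotics
open Pool.Agent.W540.BE (nm two_le_nm)
open Pool.Agent.N172.HS (IsHecke WRep EH EV EV_EH exists_vx absNorm_vx vx_injective pc hv Bdd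
  StNvq finset_isLittleO LL_not_littleO above finsum_above)
open Pool.Agent.W353.TP (HX sysH push res LL LL_tendsto bdd_isLittleO)
open Pool.Agent.W353.NF (vx)
open Pool.Agent.H921R2.TatePole (hom_ext_of_ker)
open scoped ComplexConjugate

section

variable {K L : Type} [Field K] [NumberField K] [Field L] [NumberField L] [Algebra K L]

theorem wH_le_one {ε : ℝ} (hε : 0 < ε) (x : HX K) : wH ε x ≤ 1 := by
  unfold wH
  refine Real.rpow_le_one_of_one_le_of_nonpos ?_ (by linarith)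
  exact_mod_cast x.1.2.one_lt.le

theorem dnH_fib {x : HX K} {ψ : 𝓞 L →+* ZMod (x.1 : ℕ)} (h : res K ψ = x.2) :
    dnH (K := K) (⟨x.1, ψ⟩ : HX L) = x := by
  unfold dnH
  simp only
  rw [h]

open Classical in
theorem mem_fib {x : HX K} {ψ : 𝓞 L →+* ZMod (x.1 : ℕ)}
    (h : ψ ∈ Finset.univ.filter (fun ψ : 𝓞 L →+* ZMod (x.1 : ℕ) => res K ψ = x.2)) :
    res K ψ = x.2 := (Finset.mem_filter.1 h).2

theorem tsum_fib {h : HX L → ℝ} (x : HX K) :
    ∑' ψ : {ψ : 𝓞 L →+* ZMod (x.1 : ℕ) // res K ψ = x.2}, h (fibEquiv K L ⟨x, ψ⟩) =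
      push K h x := by
  classical
  rw [tsum_fintype]
  unfold push
  exact (Finset.sum_subtype (p := fun ψ : 𝓞 L →+* ZMod (x.1 : ℕ) => res K ψ = x.2)
    (Finset.univ.filter fun ψ : 𝓞 L →+* ZMod (x.1 : ℕ) => res K ψ = x.2) (fun ψ => by simp)
    (fun ψ => h ⟨x.1, ψ⟩)).symm

/-- summability over the fibres -/
theorem summable_of_push {h : HX L → ℝ} (h0 : ∀ y, 0 ≤ h y)
    (hs : Summable fun x : HX K => push K h x) : Summable h := by
  classical
  have h1 : Summable fun z => h (fibEquiv K L z) := by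
    refine (summable_sigma_of_nonneg fun z => h0 _).2
      ⟨fun x => (hasSum_fintype _).summable, hs.congr fun x => ?_⟩
    exact (tsum_fib x).symm
  exact (fibEquiv K L).summable_iff.1 h1

theorem summable_push {h : HX L → ℝ} (hs : Summable h) : Summable fun x : HX K => push K h x := by
  classical
  have h1 : Summable fun z => h (fibEquiv K L z) := (fibEquiv K L).summable_iff.2 hs
  exact h1.sigma.congr fun x => tsum_fib x

open Classical in
theorem push_comp (X : HX K → ℂ) (ε : ℝ) (x : HX K) :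
    push K (fun z : HX L => ‖X (dnH (K := K) z)‖ ^ 2 * wH ε z) x =
      (Finset.univ.filter (fun ψ : 𝓞 L →+* ZMod (x.1 : ℕ) => res K ψ = x.2)).card *
        (‖X x‖ ^ 2 * wH ε x) := by
  unfold push
  rw [← nsmul_eq_mul, ← Finset.sum_const]
  refine Finset.sum_congr rfl fun ψ hψ => ?_
  change ‖X (dnH (K := K) (⟨x.1, ψ⟩ : HX L))‖ ^ 2 * wH ε (⟨x.1, ψ⟩ : HX L) = _
  rw [dnH_fib (mem_fib hψ)]
  rfl

theorem push_comp_le (X : HX K → ℂ) (ε : ℝ) (x : HX K) :
    push K (fun z : HX L => ‖X (dnH (K := K) z)‖ ^ 2 * wH ε z) x ≤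
      Module.finrank K L * (‖X x‖ ^ 2 * wH ε x) := by
  rw [push_comp]
  exact mul_le_mul_of_nonneg_right (Nat.cast_le.2 (card_push (K := K) (L := L) x))
    (mul_nonneg (sq_nonneg _) (wH_nonneg _ _))

theorem L2.comp {X : HX K → ℂ} (hX : L2 X) : L2 (fun z : HX L => X (dnH (K := K) z)) := by
  intro ε hε
  refine summable_of_push (K := K) (fun z => mul_nonneg (sq_nonneg _) (wH_nonneg _ _)) ?_
  refine Summable.of_nonneg_of_le (fun x => ?_) (fun x => push_comp_le X ε x)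
    ((hX ε hε).mul_left _)
  unfold push
  exact Finset.sum_nonneg fun ψ _ => mul_nonneg (sq_nonneg _) (wH_nonneg _ _)

theorem ip_comp_le {X : HX K → ℂ} (hX : L2 X) {ε : ℝ} (hε : 0 < ε) :
    ip ε (fun z : HX L => X (dnH (K := K) z)) (fun z : HX L => X (dnH (K := K) z)) ≤
      Module.finrank K L * ip ε X X := by
  rw [ip_self, ip_self, tsum_push (K := K) (hX.comp (L := L) ε hε), ← tsum_mul_left]
  exact (summable_push (K := K) (hX.comp (L := L) ε hε)).tsum_le_tsum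
    (fun x => push_comp_le X ε x) ((hX ε hε).mul_left _)

theorem norm_push_le (W : HX L → ℂ) (ε : ℝ) (x : HX K) :
    ‖push K W x‖ ^ 2 * wH ε x ≤
      Module.finrank K L * push K (fun z : HX L => ‖W z‖ ^ 2 * wH ε z) x := by
  classical
  have hc := card_push (K := K) (L := L) x
  unfold push
  set S := Finset.univ.filter (fun ψ : 𝓞 L →+* ZMod (x.1 : ℕ) => res K ψ = x.2) with hS
  have h1 : ‖∑ ψ ∈ S, W ⟨x.1, ψ⟩‖ ^ 2 ≤ (∑ ψ ∈ S, ‖W ⟨x.1, ψ⟩‖) ^ 2 :=
    pow_le_pow_left₀ (norm_nonneg _) (norm_sum_le _ _) 2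
  have h2 : (∑ ψ ∈ S, ‖W ⟨x.1, ψ⟩‖) ^ 2 ≤ S.card * ∑ ψ ∈ S, ‖W ⟨x.1, ψ⟩‖ ^ 2 :=
    sq_sum_le_card_mul_sum_sq
  have h3 : (S.card : ℝ) * ∑ ψ ∈ S, ‖W ⟨x.1, ψ⟩‖ ^ 2 ≤
      Module.finrank K L * ∑ ψ ∈ S, ‖W ⟨x.1, ψ⟩‖ ^ 2 :=
    mul_le_mul_of_nonneg_right (Nat.cast_le.2 hc) (Finset.sum_nonneg fun _ _ => sq_nonneg _)
  have h4 : ∑ ψ ∈ S, ‖W ⟨x.1, ψ⟩‖ ^ 2 * wH ε (⟨x.1, ψ⟩ : HX L) =
      (∑ ψ ∈ S, ‖W ⟨x.1, ψ⟩‖ ^ 2) * wH ε x := by
    rw [Finset.sum_mul]
    rfl
  rw [h4, ← mul_assoc]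
  exact mul_le_mul_of_nonneg_right (h1.trans (h2.trans h3)) (wH_nonneg ε x)

theorem L2.push {W : HX L → ℂ} (hW : L2 W) : L2 (push K W) := by
  intro ε hε
  exact Summable.of_nonneg_of_le (fun x => mul_nonneg (sq_nonneg _) (wH_nonneg _ _))
    (fun x => norm_push_le W ε x) ((summable_push (K := K) (hW ε hε)).mul_left _)

theorem ip_push_le {W : HX L → ℂ} (hW : L2 W) {ε : ℝ} (hε : 0 < ε) :
    ip ε (Pool.Agent.W353.TP.push K W) (Pool.Agent.W353.TP.push K W) ≤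
      Module.finrank K L * ip ε W W := by
  rw [ip_self, ip_self, tsum_push (K := K) (hW ε hε), ← tsum_mul_left]
  exact (hW.push ε hε).tsum_le_tsum (fun x => norm_push_le W ε x)
    ((summable_push (K := K) (hW ε hε)).mul_left _)

/-- the adjunction -/
theorem ip_adj {X : HX K → ℂ} (hX : L2 X) {W : HX L → ℂ} (hW : L2 W) {ε : ℝ} (hε : 0 < ε) :
    ip ε (fun z : HX L => X (dnH (K := K) z)) W = ip ε X (Pool.Agent.W353.TP.push K W) := by
  rw [ip_def, tsum_push (K := K) ((hX.comp (L := L)).summable hW hε), ip_def]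
  refine tsum_congr fun x => ?_
  unfold Pool.Agent.W353.TP.push
  rw [map_sum, Finset.mul_sum, Complex.re_sum, Finset.sum_mul]
  refine Finset.sum_congr rfl fun ψ hψ => ?_
  change (X (dnH (K := K) (⟨x.1, ψ⟩ : HX L)) * conj (W ⟨x.1, ψ⟩)).re * wH ε (⟨x.1, ψ⟩ : HX L) = _
  rw [dnH_fib (mem_fib hψ)]
  rfl

/-- finitely many values do not matter -/
theorem ip_change {φ φ' ψ : HX K → ℂ} (hφ : L2 φ) (hφ' : L2 φ') (hψ : L2 ψ) {Z : Set (HX K)}
    (hZ : Z.Finite) (h : ∀ x, x ∉ Z → φ x = φ' x) :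
    ∃ C : ℝ, ∀ ε : ℝ, 0 < ε → |ip ε φ ψ - ip ε φ' ψ| ≤ C := by
  refine ⟨∑ x ∈ hZ.toFinset, ‖φ x - φ' x‖ * ‖ψ x‖, fun ε hε => ?_⟩
  rw [ip_def, ip_def, ← (hφ.summable hψ hε).tsum_sub (hφ'.summable hψ hε)]
  have h1 : ∀ x, (φ x * conj (ψ x)).re * wH ε x - (φ' x * conj (ψ x)).re * wH ε x =
      ((φ x - φ' x) * conj (ψ x)).re * wH ε x := by
    intro x
    rw [sub_mul (φ x), Complex.sub_re, sub_mul]
  rw [tsum_congr h1, tsum_eq_sum (s := hZ.toFinset) (fun x hx => by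
    rw [h x (fun hx' => hx (hZ.mem_toFinset.2 hx')), sub_self, zero_mul, Complex.zero_re,
      zero_mul])]
  refine (Finset.abs_sum_le_sum_abs _ _).trans (Finset.sum_le_sum fun x _ => ?_)
  rw [abs_mul, abs_of_nonneg (wH_nonneg ε x)]
  refine (mul_le_of_le_one_right (abs_nonneg _) (wH_le_one hε x)).trans ?_
  refine (Complex.abs_re_le_norm _).trans ?_
  rw [norm_mul, Complex.norm_conj]

theorem fin_dn {E : Set (HeightOneSpectrum (𝓞 K))} (hE : E.Finite) :
    {x : HX K | vx x ∈ E}.Finite := hE.preimage vx_injective.injOn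

theorem fin_up {Z : Set (HX K)} (hZ : Z.Finite) : {z : HX L | dnH (K := K) z ∈ Z}.Finite := by
  refine hZ.preimage' fun x _ => ?_
  refine (Set.finite_range (fun ψ : 𝓞 L →+* ZMod (x.1 : ℕ) => (⟨x.1, ψ⟩ : HX L))).subset ?_
  intro z hz
  have h1 : dnH (K := K) z = x := hz
  subst h1
  exact ⟨z.2, rfl⟩

/-- the primes above a prime of degree one -/
theorem finsum_push (f : HeightOneSpectrum (𝓞 L) → ℂ) (x : HX K) :
    ∑ᶠ w ∈ above L (vx x), f w = push K (fun z : HX L => f (vx z)) x := by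
  classical
  unfold push
  set S : Set (HeightOneSpectrum (𝓞 L)) := above L (vx x) with hS
  have hfact : Fact (x.1 : ℕ).Prime := ⟨x.1.2⟩
  set T : Finset (𝓞 L →+* ZMod (x.1 : ℕ)) :=
    Finset.univ.filter (fun ψ : 𝓞 L →+* ZMod (x.1 : ℕ) => res K ψ = x.2) with hT
  have himg : S = (fun ψ : 𝓞 L →+* ZMod (x.1 : ℕ) => vx (⟨x.1, ψ⟩ : HX L)) '' (T : Set _) := by
    ext w
    constructor
    · rintro ⟨h1, h2⟩
      have h2' : Ideal.absNorm w.asIdeal = (x.1 : ℕ) := h2.trans (absNorm_vx x)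
      obtain ⟨y, hy⟩ := exists_vx w (by rw [h2']; exact x.1.2)
      have h3 : (y.1 : ℕ) = x.1 := by
        rw [← absNorm_vx y, hy, h2']
      obtain ⟨q, φ⟩ := y
      have h4 : q = x.1 := Subtype.ext h3
      subst h4
      refine ⟨φ, ?_, hy⟩
      rw [hT, Finset.mem_coe, Finset.mem_filter]
      refine ⟨Finset.mem_univ _, ?_⟩
      apply hom_ext_of_ker
      have h5 : RingHom.ker (res K φ) = w.asIdeal.comap (algebraMap (𝓞 K) (𝓞 L)) := by
        unfold res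
        rw [← RingHom.comap_ker, ← hy]
        rfl
      rw [h5, h1]
      rfl
    · rintro ⟨ψ, hψ, rfl⟩
      rw [hT, Finset.mem_coe, Finset.mem_filter] at hψ
      exact vx_above hψ.2
  have hinj : Set.InjOn (fun ψ : 𝓞 L →+* ZMod (x.1 : ℕ) => vx (⟨x.1, ψ⟩ : HX L)) (T : Set _) := by
    intro φ _ ψ _ h
    apply hom_ext_of_ker
    exact congrArg HeightOneSpectrum.asIdeal h
  rw [himg, finsum_mem_image hinj, finsum_mem_coe_finset]

end

end Pool.Agent.N172.CW
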