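import Pool.Agent.N172.CW.Fr2

/-!
# Weak base change and weak automorphic induction: norms and reciprocity
-/

set_option autoImplicit false
set_option linter.unusedSectionVars false
set_option linter.unusedVariables false
set_option linter.deprecated false

namespace Pool.Agent.N172.CW

open NumberField Complex Filter Topology IsDedekindDomain Asymptotics
open Pool.Agent.W540.BE (nm two_le_nm)
open Pool.Agent.N172.HS (IsHecke WRep EH EV EV_EH exists_vx absNorm_vx vx_injective pc hv Bdd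
  StNvq finset_isLittleO LL_not_littleO above finsum_above)
open Pool.Agent.W353.TP (HX sysH push res LL LL_tendsto bdd_isLittleO)
open Pool.Agent.W353.NF (vx)
open scoped ComplexConjugate

section

variable {K L : Type} [Field K] [NumberField K] [Field L] [NumberField L] [Algebra K L]

/-- The sum `∑ n_k σ_k` of representations over `L` is a weak base change of `π`: the traces agree at
the primes of `L` of degree one over `K`, with the exception of those above a finite set. -/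
def BaseChange {κ : Type} [Fintype κ] (π : Params K) (σ : κ → Params L) (n : κ → ℝ) : Prop :=
  ∃ E : Set (HeightOneSpectrum (𝓞 K)), E.Finite ∧ ∀ v, v ∉ E → ∀ w ∈ above L v,
    ∑ j, π.α v j = ∑ k, (n k : ℂ) * ∑ j, (σ k).α w j

/-- The sum `∑ m_i π_i` of representations over `K` is a weak automorphic induction of `σ`: at almost
all primes `v` the trace is the sum of the traces of `σ` at the primes of `L` of degree one above `v`. -/
def Induction {κ : Type} [Fintype κ] (σ : Params L) (π : κ → Params K) (m : κ → ℝ) : Prop :=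
  ∃ E : Set (HeightOneSpectrum (𝓞 K)), E.Finite ∧ ∀ v, v ∉ E →
    ∑ᶠ w ∈ above L v, ∑ j, σ.α w j = ∑ i, (m i : ℂ) * ∑ j, (π i).α v j

variable {κ κ' : Type} [Fintype κ] [Fintype κ']

theorem bc_dn {π : Params K} {σ : κ → Params L} {n : κ → ℝ} (h : BaseChange π σ n) :
    ∃ Z : Set (HX L), Z.Finite ∧ ∀ z, z ∉ Z →
      ∑ k, (n k : ℂ) * aH (σ k) z = aH π (dnH (K := K) z) := by
  obtain ⟨E, hE, h1⟩ := h
  refine ⟨_, fin_up (K := K) (L := L) (fin_dn hE), fun z hz => ?_⟩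
  have h2 : vx (dnH (K := K) z) ∉ E := hz
  have h3 : vx z ∈ above L (vx (dnH (K := K) z)) :=
    vx_above (K := K) (L := L) (x := dnH (K := K) z) (ψ := z.2) rfl
  exact (h1 _ h2 _ h3).symm

theorem ai_push {σ : Params L} {π : κ → Params K} {m : κ → ℝ} (h : Induction σ π m) :
    ∃ Z : Set (HX K), Z.Finite ∧ ∀ x, x ∉ Z →
      ∑ i, (m i : ℂ) * aH (π i) x = push K (aH σ) x := by
  obtain ⟨E, hE, h1⟩ := h
  refine ⟨_, fin_dn hE, fun x hx => ?_⟩
  have h2 := h1 (vx x) hx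
  rw [finsum_push] at h2
  exact h2.symm

theorem comb_L2 {κ : Type} [Fintype κ] (π : κ → Params K) (h : ∀ i, (π i).IsCuspidal) (c : κ → ℝ) :
    L2 (fun x => ∑ i, (c i : ℂ) * aH (π i) x) :=
  L2.sum Finset.univ (fun i _ => L2.aH (h i)) fun i => (c i : ℂ)

theorem ip_comb [DecidableEq κ] (π : κ → Params K) (h : ∀ i, (π i).IsCuspidal)
    (H : ∀ i, (π i).HypH) (hne : ∀ i j, i ≠ j → HasOrd (RS (π i) (π j)) 1 0) (a b : κ → ℝ) :
    (fun ε => ip ε (fun x => ∑ i, (a i : ℂ) * aH (π i) x) (fun x => ∑ i, (b i : ℂ) * aH (π i) x) -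
      (∑ i, a i * b i) * LL ε) =o[𝓝[>] 0] LL := by
  have h2 := finset_isLittleO (Finset.univ : Finset κ) (fun i _ =>
    finset_isLittleO (Finset.univ : Finset κ)
      (fun j _ => (ip_aa_ort π h H hne i j).const_mul_left (a i * b j)))
  refine h2.congr' ?_ (EventuallyEq.refl _ _)
  filter_upwards [self_mem_nhdsWithin] with ε hε
  rw [ip_sum_sum Finset.univ Finset.univ (fun i _ => L2.aH (h i)) (fun i _ => L2.aH (h i)) a b hε,
    Finset.sum_mul, ← Finset.sum_sub_distrib]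
  refine Finset.sum_congr rfl fun i _ => ?_
  have e1 : a i * b i * LL ε = ∑ j, a i * b j * ((if i = j then 1 else 0) * LL ε) := by
    rw [Finset.sum_eq_single i]
    · rw [if_pos rfl, one_mul]
    · intro j _ hj
      rw [if_neg (Ne.symm hj), zero_mul, mul_zero]
    · intro hi
      exact absurd (Finset.mem_univ i) hi
  rw [e1, ← Finset.sum_sub_distrib]
  refine Finset.sum_congr rfl fun j _ => ?_
  ring

theorem comb_le [DecidableEq κ] (π : κ → Params K) (h : ∀ i, (π i).IsCuspidal)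
    (hne : ∀ i j, i ≠ j → HasOrd (RS (π i) (π j)) 1 0) (c : κ → ℝ) {η : ℝ} (hη : 0 < η) :
    ∀ᶠ ε : ℝ in 𝓝[>] 0, ip ε (fun x => ∑ i, (c i : ℂ) * aH (π i) x)
      (fun x => ∑ i, (c i : ℂ) * aH (π i) x) ≤ (1 + η) * (∑ i, c i ^ 2) * LL ε := by
  have hA := quad_le (fun i j ε => Real.log ‖RSr (π i) (π j) (1 + ε)‖) (by
    intro i j
    by_cases hij : i = j
    · subst hij
      simpa using rs_self_log (h i)
    · simpa [hij] using rs_pair_log (hne i j hij)) hη
  filter_upwards [hA, self_mem_nhdsWithin] with ε h1 hε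
  exact (ip_aa_le π h c hε).trans (h1 c)

theorem le_of_asym {A B : ℝ → ℝ} {a b g C : ℝ}
    (hA : (fun ε => A ε - a * LL ε) =o[𝓝[>] 0] LL)
    (hB : ∀ η : ℝ, 0 < η → ∀ᶠ ε : ℝ in 𝓝[>] 0, B ε ≤ (1 + η) * b * LL ε) (hg : 0 ≤ g)
    (hb : 0 ≤ b) (hAB : ∀ ε : ℝ, 0 < ε → A ε ≤ g * B ε + C) : a ≤ g * b := by
  refine le_of_forall_pos_le_add fun θ hθ => ?_
  set η : ℝ := θ / (2 + g * b) with hη
  have hη0 : 0 < η := by rw [hη]; positivity
  have hη1 : η * (2 + g * b) = θ := by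
    rw [hη]
    field_simp
  obtain ⟨ε, h1, h2, h3, h4, hε⟩ := (((isLittleO_iff.1 hA) hη0).and ((hB η hη0).and
    (((isLittleO_iff.1 (const_littleO C)) hη0).and ((LL_tendsto.eventually_gt_atTop 0).and
      self_mem_nhdsWithin)))).exists
  rw [Real.norm_eq_abs, Real.norm_of_nonneg h4.le] at h1 h3
  have h5 := (abs_le.1 h1).1
  have h6 := (abs_le.1 h3).2
  have h7 := hAB ε hε
  have h8 := mul_le_mul_of_nonneg_left h2 hg
  have h9 : a * LL ε ≤ (g * b + θ) * LL ε := by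
    rw [← hη1]
    nlinarith
  exact le_of_mul_le_mul_right h9 h4

/-- **The norm of the base change.** -/
theorem bc_norm [DecidableEq κ] [DecidableEq κ'] (π : κ → Params K) (h : ∀ i, (π i).IsCuspidal)
    (hne : ∀ i j, i ≠ j → HasOrd (RS (π i) (π j)) 1 0) (σ : κ' → Params L)
    (hσ : ∀ k, (σ k).IsCuspidal) (Hσ : ∀ k, (σ k).HypH)
    (hneσ : ∀ k l, k ≠ l → HasOrd (RS (σ k) (σ l)) 1 0) (n : κ → κ' → ℝ)
    (hn : ∀ i, BaseChange (π i) σ (n i)) (c : κ → ℝ) :
    ∑ k, (∑ i, c i * n i k) ^ 2 ≤ Module.finrank K L * ∑ i, c i ^ 2 := by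
  choose Z hZ hZ1 using fun i => bc_dn (hn i)
  set X : HX K → ℂ := fun x => ∑ i, (c i : ℂ) * aH (π i) x with hX
  set N : κ' → ℝ := fun k => ∑ i, c i * n i k with hN
  set Y : HX L → ℂ := fun z => ∑ k, (N k : ℂ) * aH (σ k) z with hY
  have hXL : L2 X := comb_L2 π h c
  have hYL : L2 Y := comb_L2 σ hσ N
  have hYX : ∀ z, z ∉ ⋃ i, Z i → Y z = X (dnH (K := K) z) := by
    intro z hz
    rw [Set.mem_iUnion, not_exists] at hz
    rw [hY, hX, hN]
    simp only
    have e1 : ∀ k, ((∑ i, c i * n i k : ℝ) : ℂ) * aH (σ k) z =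
        ∑ i, (c i : ℂ) * ((n i k : ℂ) * aH (σ k) z) := by
      intro k
      push_cast
      rw [Finset.sum_mul]
      exact Finset.sum_congr rfl fun i _ => by ring
    rw [Finset.sum_congr rfl fun k _ => e1 k, Finset.sum_comm]
    refine Finset.sum_congr rfl fun i _ => ?_
    rw [← Finset.mul_sum, hZ1 i z (hz i)]
  have hZf : (⋃ i, Z i).Finite := Set.finite_iUnion hZ
  obtain ⟨C₁, hC₁⟩ := ip_change hYL (hXL.comp (L := L)) hYL hZf hYX
  obtain ⟨C₂, hC₂⟩ := ip_change hYL (hXL.comp (L := L)) (hXL.comp (L := L)) hZf hYX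
  have hA := ip_comb σ hσ Hσ hneσ N N
  have e2 : ∑ k, N k * N k = ∑ k, N k ^ 2 := Finset.sum_congr rfl fun k _ => (sq _).symm
  rw [e2] at hA
  refine le_of_asym (C := C₁ + C₂) hA (fun η hη => comb_le π h hne c hη) (Nat.cast_nonneg _)
    (Finset.sum_nonneg fun i _ => sq_nonneg _) (fun ε hε => ?_)
  have h1 := (abs_le.1 (hC₁ ε hε)).2
  have h2 := (abs_le.1 (hC₂ ε hε)).2
  rw [ip_comm ε Y (fun z : HX L => X (dnH (K := K) z))] at h2
  have h3 := ip_comp_le (L := L) hXL hε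
  linarith

/-- **The norm of the automorphic induction.** -/
theorem ai_norm [DecidableEq κ] [DecidableEq κ'] (π : κ → Params K) (h : ∀ i, (π i).IsCuspidal)
    (H : ∀ i, (π i).HypH) (hne : ∀ i j, i ≠ j → HasOrd (RS (π i) (π j)) 1 0) (σ : κ' → Params L)
    (hσ : ∀ k, (σ k).IsCuspidal)
    (hneσ : ∀ k l, k ≠ l → HasOrd (RS (σ k) (σ l)) 1 0) (m : κ' → κ → ℝ)
    (hm : ∀ k, Induction (σ k) π (m k)) (c : κ' → ℝ) :
    ∑ i, (∑ k, c k * m k i) ^ 2 ≤ Module.finrank K L * ∑ k, c k ^ 2 := by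
  classical
  choose Z hZ hZ1 using fun k => ai_push (hm k)
  set W : HX L → ℂ := fun z => ∑ k, (c k : ℂ) * aH (σ k) z with hW
  set M : κ → ℝ := fun i => ∑ k, c k * m k i with hM
  set Y : HX K → ℂ := fun x => ∑ i, (M i : ℂ) * aH (π i) x with hY
  have hWL : L2 W := comb_L2 σ hσ c
  have hYL : L2 Y := comb_L2 π h M
  have hYW : ∀ x, x ∉ ⋃ k, Z k → Y x = push K W x := by
    intro x hx
    rw [Set.mem_iUnion, not_exists] at hx
    have e0 : push K W x = ∑ k, (c k : ℂ) * push K (aH (σ k)) x := by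
      rw [hW]
      unfold push
      rw [Finset.sum_comm]
      exact Finset.sum_congr rfl fun k _ => (Finset.mul_sum _ _ _).symm
    rw [e0, hY, hM]
    simp only
    have e1 : ∀ i, ((∑ k, c k * m k i : ℝ) : ℂ) * aH (π i) x =
        ∑ k, (c k : ℂ) * ((m k i : ℂ) * aH (π i) x) := by
      intro i
      push_cast
      rw [Finset.sum_mul]
      exact Finset.sum_congr rfl fun k _ => by ring
    rw [Finset.sum_congr rfl fun i _ => e1 i, Finset.sum_comm]
    refine Finset.sum_congr rfl fun k _ => ?_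
    rw [← Finset.mul_sum, hZ1 k x (hx k)]
  have hZf : (⋃ k, Z k).Finite := Set.finite_iUnion hZ
  obtain ⟨C₁, hC₁⟩ := ip_change hYL (hWL.push (K := K)) hYL hZf hYW
  obtain ⟨C₂, hC₂⟩ := ip_change hYL (hWL.push (K := K)) (hWL.push (K := K)) hZf hYW
  have hA := ip_comb π h H hne M M
  have e2 : ∑ i, M i * M i = ∑ i, M i ^ 2 := Finset.sum_congr rfl fun i _ => (sq _).symm
  rw [e2] at hA
  refine le_of_asym (C := C₁ + C₂) hA (fun η hη => comb_le σ hσ hneσ c hη) (Nat.cast_nonneg _)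
    (Finset.sum_nonneg fun i _ => sq_nonneg _) (fun ε hε => ?_)
  have h1 := (abs_le.1 (hC₁ ε hε)).2
  have h2 := (abs_le.1 (hC₂ ε hε)).2
  rw [ip_comm ε Y (push K W)] at h2
  have h3 := ip_push_le (K := K) hWL hε
  linarith

theorem aH_single [DecidableEq κ] (π : κ → Params K) (i : κ) (x : HX K) :
    ∑ j, (((if j = i then 1 else 0 : ℝ)) : ℂ) * aH (π j) x = aH (π i) x := by
  rw [Finset.sum_eq_single i]
  · rw [if_pos rfl, Complex.ofReal_one, one_mul]
  · intro j _ hj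
    rw [if_neg hj, Complex.ofReal_zero, zero_mul]
  · intro hi
    exact absurd (Finset.mem_univ i) hi

/-- **Reciprocity.** -/
theorem recip [DecidableEq κ] [DecidableEq κ'] (π : κ → Params K) (h : ∀ i, (π i).IsCuspidal)
    (H : ∀ i, (π i).HypH) (hne : ∀ i j, i ≠ j → HasOrd (RS (π i) (π j)) 1 0) (σ : κ' → Params L)
    (hσ : ∀ k, (σ k).IsCuspidal) (Hσ : ∀ k, (σ k).HypH)
    (hneσ : ∀ k l, k ≠ l → HasOrd (RS (σ k) (σ l)) 1 0) (i : κ) (k : κ') {n : κ' → ℝ} {m : κ → ℝ}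
    (hn : BaseChange (π i) σ n) (hm : Induction (σ k) π m) : n k = m i := by
  classical
  obtain ⟨Z, hZ, hZ1⟩ := bc_dn hn
  obtain ⟨Z', hZ', hZ1'⟩ := ai_push hm
  have hXL := L2.aH (h i)
  have hWL := L2.aH (hσ k)
  obtain ⟨C₁, hC₁⟩ := ip_change (comb_L2 σ hσ n) (hXL.comp (L := L)) hWL hZ hZ1
  obtain ⟨C₂, hC₂⟩ := ip_change (comb_L2 π h m) (hWL.push (K := K)) hXL hZ' hZ1'
  have hA := ip_comb σ hσ Hσ hneσ n (fun l => if l = k then 1 else 0)
  have hB := ip_comb π h H hne m (fun l => if l = i then 1 else 0)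
  simp only [aH_single] at hA hB
  have e1 : ∑ l, n l * (if l = k then (1 : ℝ) else 0) = n k := by simp
  have e2 : ∑ l, m l * (if l = i then (1 : ℝ) else 0) = m i := by simp
  rw [e1] at hA
  rw [e2] at hB
  by_contra hnm
  have h0 : n k - m i ≠ 0 := sub_ne_zero.2 hnm
  have hD : (fun ε => ip ε (fun x => ∑ l, (n l : ℂ) * aH (σ l) x) (aH (σ k)) -
      ip ε (fun x => ∑ l, (m l : ℂ) * aH (π l) x) (aH (π i))) =o[𝓝[>] 0] LL := by
    apply bdd_isLittleO
    refine ⟨C₁ + C₂, ?_⟩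
    filter_upwards [self_mem_nhdsWithin] with ε hε
    have h1 := hC₁ ε hε
    have h2 := hC₂ ε hε
    rw [ip_adj hXL hWL hε, ip_comm ε (aH (π i))] at h1
    have h3 := abs_sub_le (ip ε (fun x => ∑ l, (n l : ℂ) * aH (σ l) x) (aH (σ k)))
      (ip ε (push K (aH (σ k))) (aH (π i)))
      (ip ε (fun x => ∑ l, (m l : ℂ) * aH (π l) x) (aH (π i)))
    rw [abs_sub_comm (ip ε (push K (aH (σ k))) (aH (π i)))] at h3
    linarith
  have hE : (fun ε => (n k - m i) * LL ε) =o[𝓝[>] 0] LL := by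
    refine ((hD.sub hA).add hB).congr_left fun ε => ?_
    ring
  exact h0 (LL_not_littleO hE)

end

end Pool.Agent.N172.CW
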