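import Pool.Agent.N172.CW.Fr1

/-!
# Weighted inner products, and the orthogonality of cuspidal representations at all prime powers
-/

set_option autoImplicit false
set_option linter.unusedSectionVars false
set_option linter.unusedVariables false
set_option linter.deprecated false

namespace Pool.Agent.N172.CW

open NumberField Complex Filter Topology IsDedekindDomain Asymptotics
open Pool.Agent.W540.BE (nm two_le_nm)
open Pool.Agent.N172.HS (finset_isLittleO LL_not_littleO)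
open Pool.Agent.W353.TP (LL LL_tendsto bdd_isLittleO)
open scoped ComplexConjugate

section abstract

variable {I : Type*} {w : ℝ → I → ℝ}

/-- square summable functions -/
def SQ (w : ℝ → I → ℝ) (φ : I → ℂ) : Prop :=
  ∀ ε : ℝ, 0 < ε → Summable fun x => ‖φ x‖ ^ 2 * w ε x

/-- the inner product -/
noncomputable def jp (w : ℝ → I → ℝ) (ε : ℝ) (φ ψ : I → ℂ) : ℝ :=
  ∑' x, (φ x * conj (ψ x)).re * w ε x

theorem SQ.summable (hw : ∀ ε x, 0 ≤ w ε x) {φ ψ : I → ℂ} (h : SQ w φ) (h' : SQ w ψ) {ε : ℝ}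
    (hε : 0 < ε) : Summable fun x => (φ x * conj (ψ x)).re * w ε x := by
  refine Summable.of_norm_bounded ((h ε hε).add (h' ε hε)) fun x => ?_
  rw [Real.norm_eq_abs, abs_mul, abs_of_nonneg (hw ε x), ← add_mul]
  exact mul_le_mul_of_nonneg_right (abs_re_mul_le _ _) (hw ε x)

theorem SQ.add (hw : ∀ ε x, 0 ≤ w ε x) {φ ψ : I → ℂ} (h : SQ w φ) (h' : SQ w ψ) :
    SQ w (fun x => φ x + ψ x) := by
  intro ε hε
  refine Summable.of_nonneg_of_le (fun x => mul_nonneg (sq_nonneg _) (hw _ _)) (fun x => ?_)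
    (((h ε hε).add (h' ε hε)).mul_left 2)
  rw [← add_mul, ← mul_assoc]
  refine mul_le_mul_of_nonneg_right ?_ (hw _ _)
  have h1 := norm_add_le (φ x) (ψ x)
  have h2 := pow_le_pow_left₀ (norm_nonneg _) h1 2
  nlinarith [sq_nonneg (‖φ x‖ - ‖ψ x‖)]

theorem SQ.smul {φ : I → ℂ} (h : SQ w φ) (c : ℂ) : SQ w (fun x => c * φ x) := by
  intro ε hε
  refine ((h ε hε).mul_left (‖c‖ ^ 2)).congr fun x => ?_
  rw [norm_mul, mul_pow, mul_assoc]

theorem SQ.zero : SQ w (fun _ => (0 : ℂ)) := by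
  intro ε hε
  simpa using summable_zero

theorem SQ.sum (hw : ∀ ε x, 0 ≤ w ε x) {κ : Type*} (T : Finset κ) {f : κ → I → ℂ}
    (h : ∀ k ∈ T, SQ w (f k)) (c : κ → ℂ) : SQ w (fun x => ∑ k ∈ T, c k * f k x) := by
  classical
  induction T using Finset.induction_on with
  | empty => simpa using SQ.zero (w := w)
  | insert a s ha ih =>
    have h1 := (h a (Finset.mem_insert_self a s)).smul (c a)
    have h2 := ih fun k hk => h k (Finset.mem_insert_of_mem hk)
    have h3 := SQ.add hw h1 h2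
    simpa only [Finset.sum_insert ha] using h3

theorem jp_comm (ε : ℝ) (φ ψ : I → ℂ) : jp w ε φ ψ = jp w ε ψ φ := by
  unfold jp
  refine tsum_congr fun x => ?_
  have : ψ x * conj (φ x) = conj (φ x * conj (ψ x)) := by
    rw [map_mul, Complex.conj_conj, mul_comm]
  rw [this, Complex.conj_re]

theorem jp_self (ε : ℝ) (φ : I → ℂ) : jp w ε φ φ = ∑' x, ‖φ x‖ ^ 2 * w ε x := by
  unfold jp
  refine tsum_congr fun x => ?_
  rw [Complex.mul_conj, Complex.ofReal_re, Complex.normSq_eq_norm_sq]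

theorem jp_add (hw : ∀ ε x, 0 ≤ w ε x) {φ φ' ψ : I → ℂ} (h : SQ w φ) (h' : SQ w φ')
    (hψ : SQ w ψ) {ε : ℝ} (hε : 0 < ε) :
    jp w ε (fun x => φ x + φ' x) ψ = jp w ε φ ψ + jp w ε φ' ψ := by
  unfold jp
  rw [← (SQ.summable hw h hψ hε).tsum_add (SQ.summable hw h' hψ hε)]
  refine tsum_congr fun x => ?_
  rw [add_mul, Complex.add_re, add_mul]

theorem jp_smul {φ ψ : I → ℂ} (c : ℝ) (ε : ℝ) :
    jp w ε (fun x => (c : ℂ) * φ x) ψ = c * jp w ε φ ψ := by
  unfold jp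
  rw [← tsum_mul_left]
  refine tsum_congr fun x => ?_
  rw [mul_assoc, Complex.re_ofReal_mul, mul_assoc]

theorem jp_sum (hw : ∀ ε x, 0 ≤ w ε x) {κ : Type*} (T : Finset κ) {f : κ → I → ℂ}
    (h : ∀ k ∈ T, SQ w (f k)) (c : κ → ℝ) {ψ : I → ℂ} (hψ : SQ w ψ) {ε : ℝ} (hε : 0 < ε) :
    jp w ε (fun x => ∑ k ∈ T, (c k : ℂ) * f k x) ψ = ∑ k ∈ T, c k * jp w ε (f k) ψ := by
  classical
  induction T using Finset.induction_on with
  | empty =>
    simp only [Finset.sum_empty]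
    unfold jp
    simp
  | insert a s ha ih =>
    have h1 := (h a (Finset.mem_insert_self a s)).smul (c a : ℂ)
    have h2 := ih fun k hk => h k (Finset.mem_insert_of_mem hk)
    have h3 : SQ w (fun x => ∑ k ∈ s, (c k : ℂ) * f k x) :=
      SQ.sum hw s (fun k hk => h k (Finset.mem_insert_of_mem hk)) fun k => (c k : ℂ)
    rw [Finset.sum_insert ha, ← h2, ← jp_smul, ← jp_add hw h1 h3 hψ hε]
    congr 1
    funext x
    rw [Finset.sum_insert ha]

/-- the double sum -/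
theorem jp_sum_sum (hw : ∀ ε x, 0 ≤ w ε x) {κ κ' : Type*} (T : Finset κ) (T' : Finset κ')
    {f : κ → I → ℂ} {f' : κ' → I → ℂ} (h : ∀ k ∈ T, SQ w (f k)) (h' : ∀ k ∈ T', SQ w (f' k))
    (c : κ → ℝ) (c' : κ' → ℝ) {ε : ℝ} (hε : 0 < ε) :
    jp w ε (fun x => ∑ k ∈ T, (c k : ℂ) * f k x) (fun x => ∑ k ∈ T', (c' k : ℂ) * f' k x) =
      ∑ k ∈ T, ∑ l ∈ T', c k * c' l * jp w ε (f k) (f' l) := by
  rw [jp_sum hw T h c (SQ.sum hw T' h' fun k => (c' k : ℂ)) hε]
  refine Finset.sum_congr rfl fun k hk => ?_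
  rw [jp_comm, jp_sum hw T' h' c' (h k hk) hε, Finset.mul_sum]
  refine Finset.sum_congr rfl fun l _ => ?_
  rw [jp_comm ε (f' l)]
  ring

/-- orthonormal families -/
theorem jp_comb (hw : ∀ ε x, 0 ≤ w ε x) {κ : Type} [Fintype κ] [DecidableEq κ] {f : κ → I → ℂ}
    (hf : ∀ i, SQ w (f i))
    (ho : ∀ i j, (fun ε => jp w ε (f i) (f j) - (if i = j then 1 else 0) * LL ε) =o[𝓝[>] 0] LL)
    (a b : κ → ℝ) :
    (fun ε => jp w ε (fun x => ∑ i, (a i : ℂ) * f i x) (fun x => ∑ i, (b i : ℂ) * f i x) -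
      (∑ i, a i * b i) * LL ε) =o[𝓝[>] 0] LL := by
  have h2 := finset_isLittleO (Finset.univ : Finset κ) (fun i _ =>
    finset_isLittleO (Finset.univ : Finset κ)
      (fun j _ => (ho i j).const_mul_left (a i * b j)))
  refine h2.congr' ?_ (EventuallyEq.refl _ _)
  filter_upwards [self_mem_nhdsWithin] with ε hε
  rw [jp_sum_sum hw Finset.univ Finset.univ (fun i _ => hf i) (fun i _ => hf i) a b hε,
    Finset.sum_mul, ← Finset.sum_sub_distrib]
  refine Finset.sum_congr rfl fun i _ => ?_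
  have e1 : a i * b i * LL ε = ∑ j, a i * b j * ((if i = j then 1 else 0) * LL ε) := by
    rw [Finset.sum_eq_single i]
    · rw [if_pos rfl, one_mul]
    · intro j _ hj
      rw [if_neg (Ne.symm hj), zero_mul, mul_zero]
    · intro hi
      exact absurd (Finset.mem_univ i) hi
  rw [e1, ← Finset.sum_sub_distrib]
  refine Finset.sum_congr rfl fun j _ => ?_
  ring

end abstract

/-- comparison of two asymptotic formulas -/
theorem le_of_asym2 {A B : ℝ → ℝ} {a b g : ℝ}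
    (hA : (fun ε => A ε - a * LL ε) =o[𝓝[>] 0] LL)
    (hB : (fun ε => B ε - b * LL ε) =o[𝓝[>] 0] LL) (hg : 0 ≤ g)
    (hAB : ∀ ε : ℝ, 0 < ε → A ε ≤ g * B ε) : a ≤ g * b := by
  refine le_of_forall_pos_le_add fun θ hθ => ?_
  set η : ℝ := θ / (1 + g) with hη
  have hη0 : 0 < η := by rw [hη]; positivity
  have hη1 : η * (1 + g) = θ := by
    rw [hη]
    field_simp
  obtain ⟨ε, h1, h2, h4, hε⟩ := (((isLittleO_iff.1 hA) hη0).and (((isLittleO_iff.1 hB) hη0).and
    ((LL_tendsto.eventually_gt_atTop 0).and self_mem_nhdsWithin))).exists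
  rw [Real.norm_eq_abs, Real.norm_of_nonneg h4.le] at h1 h2
  have h5 := (abs_le.1 h1).1
  have h6 := (abs_le.1 h2).2
  have h7 := hAB ε hε
  have h8 : B ε ≤ (b + η) * LL ε := by linarith
  have h9 := mul_le_mul_of_nonneg_left h8 hg
  have h10 : a * LL ε ≤ (g * b + θ) * LL ε := by
    rw [← hη1]
    nlinarith
  exact le_of_mul_le_mul_right h10 h4

section

variable {K : Type} [Field K] [NumberField K]

/-- the weights of the prime powers -/
noncomputable def wK (ε : ℝ) (q : HeightOneSpectrum (𝓞 K) × ℕ) : ℝ := wt (1 + ε) q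

theorem wK_nonneg (ε : ℝ) (q : HeightOneSpectrum (𝓞 K) × ℕ) : 0 ≤ wK ε q := wt_nonneg _ _

theorem wK_le {ε : ℝ} (hε : 0 < ε) (q : HeightOneSpectrum (𝓞 K) × ℕ) : wK ε q ≤ wt 1 q := by
  unfold wK wt
  refine div_le_div_of_nonneg_right (pow_le_pow_left₀ (tt_pos _ _).le ?_ _) (by positivity)
  unfold tt
  exact Real.rpow_le_rpow_of_exponent_le (one_lt_nm q.1).le (by linarith)

open Classical in
/-- the power sums off the exceptional set -/
noncomputable def cpw (E : Set (HeightOneSpectrum (𝓞 K))) (π : Params K)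
    (q : HeightOneSpectrum (𝓞 K) × ℕ) : ℂ := if q.1 ∈ E then 0 else pw π q.1 (q.2 + 1)

theorem norm_cpw_le (E : Set (HeightOneSpectrum (𝓞 K))) (π : Params K)
    (q : HeightOneSpectrum (𝓞 K) × ℕ) : ‖cpw E π q‖ ≤ ‖pw π q.1 (q.2 + 1)‖ := by
  unfold cpw
  split_ifs
  · rw [norm_zero]; exact norm_nonneg _
  · exact le_rfl

theorem cpw_sq (E : Set (HeightOneSpectrum (𝓞 K))) {π : Params K} (h : π.IsCuspidal) :
    SQ wK (cpw E π) := by
  intro ε hε
  refine Summable.of_nonneg_of_le (fun q => mul_nonneg (sq_nonneg _) (wK_nonneg _ _)) (fun q => ?_)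
    (rs_summable h (s := 1 + ε) (by linarith))
  exact mul_le_mul_of_nonneg_right (pow_le_pow_left₀ (norm_nonneg _) (norm_cpw_le E π q) 2)
    (wt_nonneg _ _)

theorem exists_rho (s : Finset ℝ) (h : ∀ x ∈ s, x < 1) : ∃ ρ : ℝ, 0 ≤ ρ ∧ ρ < 1 ∧ ∀ x ∈ s, x ≤ ρ := by
  classical
  induction s using Finset.induction_on with
  | empty => exact ⟨0, le_rfl, one_pos, by simp⟩
  | insert a s ha ih =>
    obtain ⟨ρ, h0, h1, h2⟩ := ih fun x hx => h x (Finset.mem_insert_of_mem hx)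
    refine ⟨max a ρ, le_max_of_le_right h0, max_lt (h a (Finset.mem_insert_self a s)) h1, ?_⟩
    intro x hx
    rcases Finset.mem_insert.1 hx with rfl | hx
    · exact le_max_left _ _
    · exact le_max_of_le_right (h2 x hx)

open Classical in
/-- the terms at finitely many primes -/
theorem fin_terms {E : Set (HeightOneSpectrum (𝓞 K))} (hE : E.Finite) {π : Params K}
    (hlt : ∀ v j, ‖π.α v j‖ ^ 2 < Ideal.absNorm v.asIdeal) :
    Summable fun q : HeightOneSpectrum (𝓞 K) × ℕ =>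
      if q.1 ∈ E then ‖pw π q.1 (q.2 + 1)‖ ^ 2 * wt 1 q else 0 := by
  obtain ⟨ρ, h0, h1, h2⟩ := exists_rho ((hE.toFinset ×ˢ (Finset.univ : Finset (Fin π.n))).image
    (fun l => ‖π.α l.1 l.2‖ ^ 2 / nm K l.1)) (by
      intro x hx
      rw [Finset.mem_image] at hx
      obtain ⟨l, _, rfl⟩ := hx
      rw [div_lt_one (nm_pos l.1)]
      exact hlt l.1 l.2)
  have hb : ∀ v ∈ E, ∀ j, ‖π.α v j‖ ^ 2 ≤ ρ * nm K v := by
    intro v hv j
    rw [← div_le_iff₀ (nm_pos v)]
    refine h2 _ (Finset.mem_image.2 ⟨(v, j), ?_, rfl⟩)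
    rw [Finset.mem_product]
    exact ⟨hE.mem_toFinset.2 hv, Finset.mem_univ _⟩
  have hs1 : Summable fun v : HeightOneSpectrum (𝓞 K) => if v ∈ E then (1 : ℝ) else 0 := by
    refine summable_of_ne_finset_zero (s := hE.toFinset) fun v hv => ?_
    rw [if_neg fun h => hv (hE.mem_toFinset.2 h)]
  have hs2 : Summable fun m : ℕ => (π.n : ℝ) ^ 2 * (ρ * ρ ^ m) :=
    ((summable_geometric_of_lt_one h0 h1).mul_left ρ).mul_left _
  refine Summable.of_nonneg_of_le (fun q => ?_) (fun q => ?_)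
    (hs1.mul_of_nonneg hs2 (fun v => by
      change (0 : ℝ) ≤ if v ∈ E then (1 : ℝ) else 0
      split_ifs <;> norm_num) (fun m => by positivity))
  · split_ifs
    · exact mul_nonneg (sq_nonneg _) (wt_nonneg _ _)
    · exact le_rfl
  · by_cases hq : q.1 ∈ E
    · rw [if_pos hq, if_pos hq, one_mul]
      have hN := nm_pos q.1
      have h3 : ‖pw π q.1 (q.2 + 1)‖ ^ 2 ≤ (π.n : ℝ) ^ 2 * (ρ * nm K q.1) ^ (q.2 + 1) := by
        have h4 : ‖pw π q.1 (q.2 + 1)‖ ≤ π.n * Real.sqrt (ρ * nm K q.1) ^ (q.2 + 1) := by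
          unfold pw
          refine (norm_sum_le _ _).trans ?_
          calc ∑ j, ‖π.α q.1 j ^ (q.2 + 1)‖ ≤
              ∑ _j : Fin π.n, Real.sqrt (ρ * nm K q.1) ^ (q.2 + 1) := by
                refine Finset.sum_le_sum fun j _ => ?_
                rw [norm_pow]
                exact pow_le_pow_left₀ (norm_nonneg _) (Real.le_sqrt_of_sq_le (hb q.1 hq j)) _
            _ = _ := by
                rw [Finset.sum_const, Finset.card_univ, Fintype.card_fin, nsmul_eq_mul]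
        have h5 := pow_le_pow_left₀ (norm_nonneg _) h4 2
        rwa [mul_pow, ← pow_mul, mul_comm (q.2 + 1) 2, pow_mul,
          Real.sq_sqrt (mul_nonneg h0 hN.le)] at h5
      have h6 : wt 1 q ≤ ((nm K q.1 : ℝ) ^ (q.2 + 1))⁻¹ := by
        unfold wt tt
        rw [Real.rpow_neg_one, inv_pow]
        refine div_le_self (by positivity) ?_
        have : (0 : ℝ) ≤ q.2 := Nat.cast_nonneg _
        linarith
      calc ‖pw π q.1 (q.2 + 1)‖ ^ 2 * wt 1 q ≤
          ((π.n : ℝ) ^ 2 * (ρ * nm K q.1) ^ (q.2 + 1)) * ((nm K q.1 : ℝ) ^ (q.2 + 1))⁻¹ :=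
            mul_le_mul h3 h6 (wt_nonneg _ _) (by positivity)
        _ = (π.n : ℝ) ^ 2 * (ρ * ρ ^ q.2) := by
            rw [mul_pow, ← pow_succ']
            field_simp
    · rw [if_neg hq, if_neg hq, zero_mul]

/-- **The inner product off the exceptional set.** -/
theorem cpw_est {E : Set (HeightOneSpectrum (𝓞 K))} (hE : E.Finite) {π π' : Params K}
    (h : π.IsCuspidal) (h' : π'.IsCuspidal)
    (hlt : ∀ v j, ‖π.α v j‖ ^ 2 < Ideal.absNorm v.asIdeal)
    (hlt' : ∀ v j, ‖π'.α v j‖ ^ 2 < Ideal.absNorm v.asIdeal) :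
    ∃ C : ℝ, ∀ ε : ℝ, 0 < ε →
      |Real.log ‖RSr π π' (1 + ε)‖ - jp wK ε (cpw E π) (cpw E π')| ≤ C := by
  classical
  have H1 := fin_terms hE hlt
  have H2 := fin_terms hE hlt'
  refine ⟨∑' q : HeightOneSpectrum (𝓞 K) × ℕ,
    ((if q.1 ∈ E then ‖pw π q.1 (q.2 + 1)‖ ^ 2 * wt 1 q else 0) +
      (if q.1 ∈ E then ‖pw π' q.1 (q.2 + 1)‖ ^ 2 * wt 1 q else 0)), fun ε hε => ?_⟩
  · have hs : 1 < 1 + ε := by linarith
    have hT := rs_summable_pair h h' hs
    have hC := SQ.summable wK_nonneg (cpw_sq E h) (cpw_sq E h') hε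
    rw [(rs_log h h' hs).2]
    unfold jp
    rw [← hT.tsum_sub hC, ← Real.norm_eq_abs]
    refine tsum_of_norm_bounded (H1.add H2).hasSum fun q => ?_
    by_cases hq : q.1 ∈ E
    · rw [if_pos hq, if_pos hq]
      have e1 : cpw E π q = 0 := if_pos hq
      rw [e1, zero_mul, Complex.zero_re, zero_mul, sub_zero, Real.norm_eq_abs, abs_mul,
        abs_of_nonneg (wt_nonneg _ _), ← add_mul]
      exact mul_le_mul (abs_re_mul_le _ _) (wK_le hε q) (wt_nonneg _ _) (by positivity)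
    · rw [if_neg hq, if_neg hq]
      have e1 : cpw E π q = pw π q.1 (q.2 + 1) := if_neg hq
      have e2 : cpw E π' q = pw π' q.1 (q.2 + 1) := if_neg hq
      rw [e1, e2]
      unfold wK
      rw [sub_self, norm_zero, add_zero]

theorem cpw_ort {κ : Type} [DecidableEq κ] {E : Set (HeightOneSpectrum (𝓞 K))} (hE : E.Finite)
    (π : κ → Params K) (h : ∀ i, (π i).IsCuspidal)
    (hlt : ∀ i v j, ‖(π i).α v j‖ ^ 2 < Ideal.absNorm v.asIdeal)
    (hne : ∀ i j, i ≠ j → HasOrd (RS (π i) (π j)) 1 0) (i j : κ) :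
    (fun ε => jp wK ε (cpw E (π i)) (cpw E (π j)) - (if i = j then 1 else 0) * LL ε)
      =o[𝓝[>] 0] LL := by
  obtain ⟨C, hC⟩ := cpw_est hE (h i) (h j) (hlt i) (hlt j)
  have h1 : (fun ε => Real.log ‖RSr (π i) (π j) (1 + ε)‖ - jp wK ε (cpw E (π i)) (cpw E (π j)))
      =o[𝓝[>] 0] LL := by
    apply bdd_isLittleO
    refine ⟨C, ?_⟩
    filter_upwards [self_mem_nhdsWithin] with ε hε
    exact hC ε hε
  have h2 : (fun ε => Real.log ‖RSr (π i) (π j) (1 + ε)‖ - (if i = j then 1 else 0) * LL ε)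
      =o[𝓝[>] 0] LL := by
    by_cases hij : i = j
    · subst hij
      simpa using rs_self_log (h i)
    · simpa [hij] using rs_pair_log (hne i j hij)
  refine (h2.sub h1).congr_left fun ε => ?_
  ring

end

end Pool.Agent.N172.CW
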