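import Pool.Agent.N172.CW.Fu1

/-!
# The prime powers of `L` above the prime powers of `K`
-/

set_option autoImplicit false
set_option linter.unusedSectionVars false
set_option linter.unusedVariables false
set_option linter.deprecated false

namespace Pool.Agent.N172.CW

open NumberField Complex Filter Topology IsDedekindDomain Asymptotics
open Pool.Agent.W540.BE (nm two_le_nm)
open Pool.Agent.N172.HS (finset_isLittleO LL_not_littleO)
open Pool.Agent.W353.TP (LL LL_tendsto bdd_isLittleO)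
open scoped ComplexConjugate

section

variable {K L : Type} [Field K] [NumberField K] [Field L] [NumberField L] [Algebra K L]

theorem fin_fib (q : HeightOneSpectrum (𝓞 K) × ℕ) :
    {q' : HeightOneSpectrum (𝓞 L) × ℕ | dn K q' = q}.Finite := by
  classical
  by_contra h
  obtain ⟨t, ht, hc⟩ := Set.Infinite.exists_subset_card_eq h (Module.finrank K L + 1)
  have h1 := card_dn (K := K) (F := L) t q
  have h2 : t.filter (fun i => dn K i = q) = t :=
    Finset.filter_true_of_mem (fun i hi => ht (Finset.mem_coe.2 hi))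
  rw [h2, hc] at h1
  omega

/-- the prime powers of `L` above a prime power of `K` -/
noncomputable def fibF (q : HeightOneSpectrum (𝓞 K) × ℕ) : Finset (HeightOneSpectrum (𝓞 L) × ℕ) :=
  (fin_fib (L := L) q).toFinset

theorem mem_fibF {q : HeightOneSpectrum (𝓞 K) × ℕ} {q' : HeightOneSpectrum (𝓞 L) × ℕ} :
    q' ∈ fibF (L := L) q ↔ dn K q' = q := (fin_fib q).mem_toFinset

theorem fib_inj (q : HeightOneSpectrum (𝓞 K) × ℕ) :
    Set.InjOn (fun q' : HeightOneSpectrum (𝓞 L) × ℕ => q'.1) (fibF (L := L) q : Set _) := by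
  intro a ha b hb h
  rw [Finset.mem_coe, mem_fibF] at ha hb
  have h2 := dn_two (K := K) a
  have h3 := dn_two (K := K) b
  rw [ha] at h2
  rw [hb] at h3
  have h4 : a.1 = b.1 := h
  rw [← h4] at h3
  have h6 := Nat.eq_of_mul_eq_mul_right (rd_pos (K := K) a.1) (h2.symm.trans h3)
  exact Prod.ext h4 (by omega)

theorem sum_rd_le (q : HeightOneSpectrum (𝓞 K) × ℕ) :
    ∑ q' ∈ fibF (L := L) q, rd K q'.1 ≤ Module.finrank K L := by
  classical
  have hm : q.1.asIdeal.IsMaximal := q.1.isMaximal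
  rw [← Ideal.sum_ramification_inertia (𝓞 L) K L (p := q.1.asIdeal) q.1.ne_bot]
  have h1 : ∑ q' ∈ fibF (L := L) q, rd K q'.1 =
      ∑ P ∈ (fibF (L := L) q).image (fun q' => q'.1.asIdeal), Ideal.inertiaDeg' q.1.asIdeal P := by
    rw [Finset.sum_image]
    · refine Finset.sum_congr rfl fun q' hq' => ?_
      rw [mem_fibF] at hq'
      unfold rd
      have h2 : q'.1.under (𝓞 K) = q.1 := by rw [← hq']; rfl
      rw [h2]
    · intro a ha b hb h
      exact fib_inj q ha hb (HeightOneSpectrum.ext h)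
  have h2 : (fibF (L := L) q).image (fun q' => q'.1.asIdeal) ⊆
      IsDedekindDomain.primesOverFinset q.1.asIdeal (𝓞 L) := by
    intro P hP
    rw [Finset.mem_image] at hP
    obtain ⟨q', hq', rfl⟩ := hP
    rw [mem_fibF] at hq'
    rw [IsDedekindDomain.mem_primesOverFinset_iff q.1.ne_bot]
    refine ⟨q'.1.isPrime, ⟨?_⟩⟩
    rw [← hq']
    rfl
  rw [h1]
  refine (Finset.sum_le_sum_of_subset h2).trans (Finset.sum_le_sum fun P hP => ?_)
  rw [IsDedekindDomain.mem_primesOverFinset_iff q.1.ne_bot] at hP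
  have hPp : P.IsPrime := hP.1
  have hPl : P.LiesOver q.1.asIdeal := hP.2
  exact Nat.le_mul_of_pos_left _
    (Nat.pos_of_ne_zero (Ideal.IsDedekindDomain.ramificationIdx'_ne_zero_of_liesOver P q.1.ne_bot))

theorem tsum_fib_aux (h : HeightOneSpectrum (𝓞 L) × ℕ → ℝ) (q : HeightOneSpectrum (𝓞 K) × ℕ) :
    ∑' x : {x : HeightOneSpectrum (𝓞 L) × ℕ // dn K x = q}, h x.1 =
      ∑ q' ∈ fibF (L := L) q, h q' := by
  have : Fintype {x : HeightOneSpectrum (𝓞 L) × ℕ // dn K x = q} :=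
    @Fintype.ofFinite _ (fin_fib (L := L) q)
  rw [tsum_fintype]
  exact (Finset.sum_subtype (fibF (L := L) q) (fun x => mem_fibF) h).symm

theorem summable_fibF {h : HeightOneSpectrum (𝓞 L) × ℕ → ℝ} (hs : Summable h) :
    Summable fun q : HeightOneSpectrum (𝓞 K) × ℕ => ∑ q' ∈ fibF (L := L) q, h q' := by
  have h1 : Summable fun z => h (Equiv.sigmaFiberEquiv (dn K (F := L)) z) :=
    (Equiv.sigmaFiberEquiv (dn K (F := L))).summable_iff.2 hs
  exact h1.sigma.congr fun q => tsum_fib_aux h q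

theorem tsum_fibF {h : HeightOneSpectrum (𝓞 L) × ℕ → ℝ} (hs : Summable h) :
    ∑' q', h q' = ∑' q : HeightOneSpectrum (𝓞 K) × ℕ, ∑ q' ∈ fibF (L := L) q, h q' := by
  rw [← (Equiv.sigmaFiberEquiv (dn K (F := L))).tsum_eq h]
  have h1 : Summable fun z => h (Equiv.sigmaFiberEquiv (dn K (F := L)) z) :=
    (Equiv.sigmaFiberEquiv (dn K (F := L))).summable_iff.2 hs
  rw [h1.tsum_sigma]
  exact tsum_congr fun q => tsum_fib_aux h q

/-- the weights -/
theorem wK_dn (ε : ℝ) (q' : HeightOneSpectrum (𝓞 L) × ℕ) :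
    wK ε q' = rd K q'.1 * wK ε (dn K q') := wt_dn _ _

/-- the pull back -/
noncomputable def up (L : Type) [Field L] [NumberField L] [Algebra K L]
    (X : HeightOneSpectrum (𝓞 K) × ℕ → ℂ) (q' : HeightOneSpectrum (𝓞 L) × ℕ) : ℂ := X (dn K q')

/-- the push forward -/
noncomputable def dw (K : Type) [Field K] [NumberField K] [Algebra K L]
    (W : HeightOneSpectrum (𝓞 L) × ℕ → ℂ) (q : HeightOneSpectrum (𝓞 K) × ℕ) : ℂ :=
  ∑ q' ∈ fibF (L := L) q, (rd K q'.1 : ℂ) * W q'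

theorem up_fib (X : HeightOneSpectrum (𝓞 K) × ℕ → ℂ) (ε : ℝ) (q : HeightOneSpectrum (𝓞 K) × ℕ) :
    ∑ q' ∈ fibF (L := L) q, ‖up L X q'‖ ^ 2 * wK ε q' ≤
      Module.finrank K L * (‖X q‖ ^ 2 * wK ε q) := by
  have h1 : ∀ q' ∈ fibF (L := L) q, ‖up L X q'‖ ^ 2 * wK ε q' =
      (rd K q'.1 : ℝ) * (‖X q‖ ^ 2 * wK ε q) := by
    intro q' hq'
    rw [mem_fibF] at hq'
    rw [wK_dn (K := K)]
    unfold up
    rw [hq']
    ring
  rw [Finset.sum_congr rfl h1, ← Finset.sum_mul]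
  refine mul_le_mul_of_nonneg_right ?_ (mul_nonneg (sq_nonneg _) (wK_nonneg _ _))
  exact_mod_cast sum_rd_le (L := L) q

theorem SQ.up {X : HeightOneSpectrum (𝓞 K) × ℕ → ℂ} (hX : SQ wK X) : SQ wK (up L X) := by
  classical
  intro ε hε
  obtain ⟨h1, _⟩ := fiber_bound (dn K (F := L)) (Module.finrank K L)
    (fun s j => card_dn (K := K) (F := L) s j) (g := fun q => ‖X q‖ ^ 2 * wK ε q)
    (fun q => mul_nonneg (sq_nonneg _) (wK_nonneg _ _)) (hX ε hε)
  refine Summable.of_nonneg_of_le (fun q' => mul_nonneg (sq_nonneg _) (wK_nonneg _ _))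
    (fun q' => ?_) (h1.mul_left (Module.finrank K L : ℝ))
  rw [wK_dn (K := K)]
  unfold Pool.Agent.N172.CW.up
  have h5 : (rd K q'.1 : ℝ) ≤ Module.finrank K L := by exact_mod_cast rd_le (K := K) q'.1
  have h6 : 0 ≤ ‖X (dn K q')‖ ^ 2 * wK ε (dn K q') := mul_nonneg (sq_nonneg _) (wK_nonneg _ _)
  calc ‖X (dn K q')‖ ^ 2 * (rd K q'.1 * wK ε (dn K q')) =
      rd K q'.1 * (‖X (dn K q')‖ ^ 2 * wK ε (dn K q')) := by ring
    _ ≤ _ := mul_le_mul_of_nonneg_right h5 h6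

theorem jp_up_le {X : HeightOneSpectrum (𝓞 K) × ℕ → ℂ} (hX : SQ wK X) {ε : ℝ} (hε : 0 < ε) :
    jp wK ε (up L X) (up L X) ≤ Module.finrank K L * jp wK ε X X := by
  rw [jp_self, jp_self, tsum_fibF (K := K) (SQ.up (L := L) hX ε hε), ← tsum_mul_left]
  exact (summable_fibF (K := K) (SQ.up (L := L) hX ε hε)).tsum_le_tsum
    (fun q => up_fib X ε q) ((hX ε hε).mul_left _)

theorem dw_fib (W : HeightOneSpectrum (𝓞 L) × ℕ → ℂ) (ε : ℝ) (q : HeightOneSpectrum (𝓞 K) × ℕ) :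
    ‖dw K W q‖ ^ 2 * wK ε q ≤
      Module.finrank K L * ∑ q' ∈ fibF (L := L) q, ‖W q'‖ ^ 2 * wK ε q' := by
  have h1 : ‖dw K W q‖ ≤ ∑ q' ∈ fibF (L := L) q, (rd K q'.1 : ℝ) * ‖W q'‖ := by
    unfold dw
    refine (norm_sum_le _ _).trans (Finset.sum_le_sum fun q' _ => ?_)
    rw [norm_mul, Complex.norm_natCast]
  have h2 : (∑ q' ∈ fibF (L := L) q, (rd K q'.1 : ℝ) * ‖W q'‖) ^ 2 ≤
      (∑ q' ∈ fibF (L := L) q, (rd K q'.1 : ℝ)) *
        ∑ q' ∈ fibF (L := L) q, (rd K q'.1 : ℝ) * ‖W q'‖ ^ 2 := by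
    have h3 := Finset.sum_mul_sq_le_sq_mul_sq (fibF (L := L) q)
      (fun q' => Real.sqrt (rd K q'.1)) (fun q' => Real.sqrt (rd K q'.1) * ‖W q'‖)
    have e1 : ∀ q' : HeightOneSpectrum (𝓞 L) × ℕ,
        Real.sqrt (rd K q'.1) * (Real.sqrt (rd K q'.1) * ‖W q'‖) = (rd K q'.1 : ℝ) * ‖W q'‖ := by
      intro q'
      rw [← mul_assoc, Real.mul_self_sqrt (Nat.cast_nonneg _)]
    have e2 : ∀ q' : HeightOneSpectrum (𝓞 L) × ℕ,
        (Real.sqrt (rd K q'.1)) ^ 2 = (rd K q'.1 : ℝ) := fun q' =>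
      Real.sq_sqrt (Nat.cast_nonneg _)
    have e3 : ∀ q' : HeightOneSpectrum (𝓞 L) × ℕ,
        (Real.sqrt (rd K q'.1) * ‖W q'‖) ^ 2 = (rd K q'.1 : ℝ) * ‖W q'‖ ^ 2 := fun q' => by
      rw [mul_pow, e2]
    simp only [e1, e2, e3] at h3
    exact h3
  have h4 : (∑ q' ∈ fibF (L := L) q, (rd K q'.1 : ℝ)) ≤ Module.finrank K L := by
    exact_mod_cast sum_rd_le (L := L) q
  have h5 : 0 ≤ ∑ q' ∈ fibF (L := L) q, (rd K q'.1 : ℝ) * ‖W q'‖ ^ 2 :=
    Finset.sum_nonneg fun _ _ => mul_nonneg (Nat.cast_nonneg _) (sq_nonneg _)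
  have h6 : ‖dw K W q‖ ^ 2 ≤ Module.finrank K L *
      ∑ q' ∈ fibF (L := L) q, (rd K q'.1 : ℝ) * ‖W q'‖ ^ 2 :=
    (pow_le_pow_left₀ (norm_nonneg _) h1 2).trans (h2.trans (mul_le_mul_of_nonneg_right h4 h5))
  have h7 : ∑ q' ∈ fibF (L := L) q, ‖W q'‖ ^ 2 * wK ε q' =
      (∑ q' ∈ fibF (L := L) q, (rd K q'.1 : ℝ) * ‖W q'‖ ^ 2) * wK ε q := by
    rw [Finset.sum_mul]
    refine Finset.sum_congr rfl fun q' hq' => ?_
    rw [mem_fibF] at hq'
    rw [wK_dn (K := K), hq']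
    ring
  rw [h7, ← mul_assoc]
  exact mul_le_mul_of_nonneg_right h6 (wK_nonneg _ _)

theorem SQ.dw {W : HeightOneSpectrum (𝓞 L) × ℕ → ℂ} (hW : SQ wK W) : SQ wK (dw K W) := by
  intro ε hε
  exact Summable.of_nonneg_of_le (fun q => mul_nonneg (sq_nonneg _) (wK_nonneg _ _))
    (fun q => dw_fib W ε q) ((summable_fibF (K := K) (hW ε hε)).mul_left _)

theorem jp_dw_le {W : HeightOneSpectrum (𝓞 L) × ℕ → ℂ} (hW : SQ wK W) {ε : ℝ} (hε : 0 < ε) :
    jp wK ε (dw K W) (dw K W) ≤ Module.finrank K L * jp wK ε W W := by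
  rw [jp_self, jp_self, tsum_fibF (K := K) (hW ε hε), ← tsum_mul_left]
  exact (SQ.dw (K := K) hW ε hε).tsum_le_tsum (fun q => dw_fib W ε q)
    ((summable_fibF (K := K) (hW ε hε)).mul_left _)

/-- **The adjunction.** -/
theorem jp_adj {X : HeightOneSpectrum (𝓞 K) × ℕ → ℂ} (hX : SQ wK X)
    {W : HeightOneSpectrum (𝓞 L) × ℕ → ℂ} (hW : SQ wK W) {ε : ℝ} (hε : 0 < ε) :
    jp wK ε (up L X) W = jp wK ε X (dw K W) := by
  unfold jp
  rw [tsum_fibF (K := K) (SQ.summable wK_nonneg (SQ.up (L := L) hX) hW hε)]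
  refine tsum_congr fun q => ?_
  unfold Pool.Agent.N172.CW.dw
  rw [map_sum, Finset.mul_sum, Complex.re_sum, Finset.sum_mul]
  refine Finset.sum_congr rfl fun q' hq' => ?_
  rw [mem_fibF] at hq'
  rw [wK_dn (K := K)]
  unfold Pool.Agent.N172.CW.up
  rw [hq', map_mul, Complex.conj_natCast]
  have e1 : X q * ((rd K q'.1 : ℂ) * conj (W q')) =
      (((rd K q'.1 : ℝ)) : ℂ) * (X q * conj (W q')) := by
    push_cast
    ring
  rw [e1, Complex.re_ofReal_mul]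
  ring

end

end Pool.Agent.N172.CW
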