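import Pool.Agent.N172.CW.Fu2

/-!
# Weak base change and weak automorphic induction at all prime powers
-/

set_option autoImplicit false
set_option linter.unusedSectionVars false
set_option linter.unusedVariables false
set_option linter.deprecated false

namespace Pool.Agent.N172.CW

open NumberField Complex Filter Topology IsDedekindDomain Asymptotics
open Pool.Agent.W540.BE (nm two_le_nm)
open Pool.Agent.N172.HS (finset_isLittleO LL_not_littleO)
open Pool.Agent.W353.TP (LL LL_tendsto bdd_isLittleO)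
open scoped ComplexConjugate

section

variable {K L : Type} [Field K] [NumberField K] [Field L] [NumberField L] [Algebra K L]

/-- The formal sum `∑ n_k σ_k` of representations over `L` is the base change of `π` outside `E`: at the
primes `w` of `L` above the primes `v` of `K` outside `E` its Satake parameters are the powers
`α_{v,j} ^ f` with the exponent `f = [w : v]`, that is, all power sums are the same. -/
def BC (E : Set (HeightOneSpectrum (𝓞 K))) {κ : Type} [Fintype κ] (π : Params K)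
    (σ : κ → Params L) (n : κ → ℝ) : Prop :=
  ∀ w : HeightOneSpectrum (𝓞 L), w.under (𝓞 K) ∉ E → ∀ m : ℕ, 0 < m →
    ∑ j, (π.α (w.under (𝓞 K)) j ^ rd K w) ^ m = ∑ k, (n k : ℂ) * ∑ j, (σ k).α w j ^ m

/-- The formal sum `∑ m_i π_i` of representations over `K` is the automorphic induction of `σ` outside
`E`: the logarithm of its Euler factor at `v` is the sum of the logarithms of the Euler factors of `σ` at
the primes `w` above `v`, for all `v` outside `E`; that is, the power sum of exponent `k` is the sum over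
the `w` with `[w : v] ∣ k` of `[w : v]` times the power sum of `σ` at `w` of exponent `k / [w : v]`. -/
def AI (E : Set (HeightOneSpectrum (𝓞 K))) {κ : Type} [Fintype κ] (σ : Params L)
    (π : κ → Params K) (m : κ → ℝ) : Prop :=
  ∀ v : HeightOneSpectrum (𝓞 K), v ∉ E → ∀ k : ℕ, 0 < k →
    ∑ i, (m i : ℂ) * ∑ j, (π i).α v j ^ k =
      ∑ᶠ w ∈ {w : HeightOneSpectrum (𝓞 L) | w.under (𝓞 K) = v ∧ rd K w ∣ k},
        (rd K w : ℂ) * ∑ j, σ.α w j ^ (k / rd K w)

/-- The Euler product `L(s, π × π'~ × Ind_L^K 1)`, with the factors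
`∏_{i,j} (1 - (α_{v,i} conj(α'_{v,j})) ^ f Nw ^ (-s))⁻¹` for the primes `w` of `L`, with the prime `v` of
`K` below `w` and `f = [w : v]`. -/
noncomputable def RSL (L : Type) [Field L] [NumberField L] [Algebra K L] (π π' : Params K)
    (s : ℂ) : ℂ :=
  ∏' w : HeightOneSpectrum (𝓞 L), ∏ l : Fin π.n × Fin π'.n,
    (1 - (π.α (w.under (𝓞 K)) l.1 * conj (π'.α (w.under (𝓞 K)) l.2)) ^ rd K w *
      (Ideal.absNorm w.asIdeal : ℂ) ^ (-s))⁻¹

/-- the primes above the exceptional set -/
def EL (L : Type) [Field L] [NumberField L] [Algebra K L] (E : Set (HeightOneSpectrum (𝓞 K))) :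
    Set (HeightOneSpectrum (𝓞 L)) := {w | w.under (𝓞 K) ∈ E}

theorem EL_fin {E : Set (HeightOneSpectrum (𝓞 K))} (hE : E.Finite) : (EL L E).Finite := by
  classical
  refine hE.preimage' (f := fun w : HeightOneSpectrum (𝓞 L) => w.under (𝓞 K)) fun v _ => ?_
  by_contra h
  obtain ⟨t, ht, hc⟩ := Set.Infinite.exists_subset_card_eq h (Module.finrank K L + 1)
  have h1 := card_under (K := K) (F := L) t v fun w hw => ht (Finset.mem_coe.2 hw)
  omega

theorem bc_up {E : Set (HeightOneSpectrum (𝓞 K))} {κ : Type} [Fintype κ] {π : Params K}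
    {σ : κ → Params L} {n : κ → ℝ} (h : BC E π σ n) :
    up L (cpw E π) = fun q' => ∑ k, (n k : ℂ) * cpw (EL L E) (σ k) q' := by
  classical
  funext q'
  unfold up
  by_cases hq : q'.1.under (𝓞 K) ∈ E
  · have e1 : cpw E π (dn K q') = 0 := if_pos hq
    have e2 : ∀ k, cpw (EL L E) (σ k) q' = 0 := fun k => if_pos hq
    simp only [e1, e2, mul_zero, Finset.sum_const_zero]
  · have e1 : cpw E π (dn K q') = pw π (q'.1.under (𝓞 K)) ((dn K q').2 + 1) := if_neg hq
    have e2 : ∀ k, cpw (EL L E) (σ k) q' = pw (σ k) q'.1 (q'.2 + 1) := fun k => if_neg hq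
    simp only [e1, e2]
    have h1 := h q'.1 hq (q'.2 + 1) (Nat.succ_pos _)
    unfold pw
    rw [← h1, dn_two]
    refine Finset.sum_congr rfl fun j _ => ?_
    rw [← pow_mul, mul_comm]

theorem ai_dw {E : Set (HeightOneSpectrum (𝓞 K))} {κ : Type} [Fintype κ] {σ : Params L}
    {π : κ → Params K} {m : κ → ℝ} (h : AI E σ π m) :
    dw K (cpw (EL L E) σ) = fun q => ∑ i, (m i : ℂ) * cpw E (π i) q := by
  classical
  funext q
  unfold dw
  have hun : ∀ q' ∈ fibF (L := L) q, q'.1.under (𝓞 K) = q.1 := by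
    intro q' hq'
    rw [mem_fibF] at hq'
    rw [← hq']
    rfl
  by_cases hq : q.1 ∈ E
  · have e2 : ∀ i, cpw E (π i) q = 0 := fun i => if_pos hq
    simp only [e2, mul_zero, Finset.sum_const_zero]
    refine Finset.sum_eq_zero fun q' hq' => ?_
    have e1 : cpw (EL L E) σ q' = 0 := by
      refine if_pos ?_
      change q'.1.under (𝓞 K) ∈ E
      rw [hun q' hq']
      exact hq
    rw [e1, mul_zero]
  · have e2 : ∀ i, cpw E (π i) q = pw (π i) q.1 (q.2 + 1) := fun i => if_neg hq
    simp only [e2]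
    have h1 := h q.1 hq (q.2 + 1) (Nat.succ_pos _)
    unfold pw
    rw [h1]
    set S : Set (HeightOneSpectrum (𝓞 L)) :=
      {w : HeightOneSpectrum (𝓞 L) | w.under (𝓞 K) = q.1 ∧ rd K w ∣ q.2 + 1} with hS
    have himg : S = (fun q' : HeightOneSpectrum (𝓞 L) × ℕ => q'.1) '' (fibF (L := L) q : Set _) := by
      ext w
      constructor
      · rintro ⟨h2, h3⟩
        obtain ⟨c, hc⟩ := h3
        have hc0 : 0 < c := by
          rcases Nat.eq_zero_or_pos c with h4 | h4
          · rw [h4, mul_zero] at hc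
            omega
          · exact h4
        refine ⟨(w, c - 1), ?_, rfl⟩
        rw [Finset.mem_coe, mem_fibF]
        unfold dn
        simp only
        refine Prod.ext h2 ?_
        simp only
        have h5 : c - 1 + 1 = c := by omega
        rw [h5, mul_comm c, ← hc]
        omega
      · rintro ⟨q', hq', rfl⟩
        rw [Finset.mem_coe] at hq'
        refine ⟨hun q' hq', ?_⟩
        rw [mem_fibF] at hq'
        have h6 := dn_two (K := K) q'
        rw [hq'] at h6
        rw [h6]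
        exact dvd_mul_left _ _
    rw [himg, finsum_mem_image (fib_inj (L := L) q), finsum_mem_coe_finset]
    refine Finset.sum_congr rfl fun q' hq' => ?_
    have e1 : cpw (EL L E) σ q' = pw σ q'.1 (q'.2 + 1) := by
      refine if_neg ?_
      change ¬ q'.1.under (𝓞 K) ∈ E
      rw [hun q' hq']
      exact hq
    rw [e1]
    rw [mem_fibF] at hq'
    have h6 := dn_two (K := K) q'
    rw [hq'] at h6
    have h7 : (q.2 + 1) / rd K q'.1 = q'.2 + 1 := by
      rw [h6]
      exact Nat.mul_div_cancel _ (rd_pos (K := K) q'.1)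
    rw [h7]
    rfl

variable {π π' : Params K}

/-- the L-function at real points -/
noncomputable def RSLr (L : Type) [Field L] [NumberField L] [Algebra K L] (π π' : Params K)
    (s : ℝ) : ℂ := RSL L π π' (s : ℂ)

/-- **The logarithm of `L(s, π × π'~ × Ind 1)`.** -/
theorem rsl_log (h : π.IsCuspidal) (h' : π'.IsCuspidal) {s : ℝ} (hs : 1 < s) :
    (Summable fun q : HeightOneSpectrum (𝓞 L) × ℕ =>
      (pw π (dn K q).1 ((dn K q).2 + 1) * conj (pw π' (dn K q).1 ((dn K q).2 + 1))).re * wt s q) ∧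
    Real.log ‖RSLr L π π' s‖ = ∑' q : HeightOneSpectrum (𝓞 L) × ℕ,
      (pw π (dn K q).1 ((dn K q).2 + 1) * conj (pw π' (dn K q).1 ((dn K q).2 + 1))).re *
        wt s q := by
  have hdn : ∀ q : HeightOneSpectrum (𝓞 L) × ℕ, (dn K q).2 + 1 = (q.2 + 1) * rd K q.1 :=
    fun q => dn_two q
  have hsum : ∀ q : HeightOneSpectrum (𝓞 L) × ℕ, ∑ l : Fin π.n × Fin π'.n,
      ((π.α (q.1.under (𝓞 K)) l.1 * conj (π'.α (q.1.under (𝓞 K)) l.2)) ^ rd K q.1 *
        (Ideal.absNorm q.1.asIdeal : ℂ) ^ (-(s : ℂ))) ^ (q.2 + 1) =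
      pw π (dn K q).1 ((dn K q).2 + 1) * conj (pw π' (dn K q).1 ((dn K q).2 + 1)) *
        ((tt q.1 s ^ (q.2 + 1) : ℝ) : ℂ) := by
    intro q
    rw [cpow_tt, hdn]
    have h4 : (dn K q).1 = q.1.under (𝓞 K) := rfl
    rw [h4]
    unfold pw
    rw [map_sum, Finset.sum_mul_sum, Finset.sum_mul, ← Finset.univ_product_univ,
      Finset.sum_product]
    refine Finset.sum_congr rfl fun i _ => ?_
    rw [Finset.sum_mul]
    refine Finset.sum_congr rfl fun j _ => ?_
    rw [mul_pow, ← pow_mul, mul_pow, map_pow, mul_comm (rd K q.1)]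
    push_cast
    rfl
  have hu := (up_summable (F := L) h hs).1
  have hu' := (up_summable (F := L) h' hs).1
  have hsm : Summable fun q : HeightOneSpectrum (𝓞 L) × ℕ =>
      ‖pw π (dn K q).1 ((dn K q).2 + 1) * conj (pw π' (dn K q).1 ((dn K q).2 + 1))‖ * wt s q := by
    refine Summable.of_nonneg_of_le (fun q => mul_nonneg (norm_nonneg _) (wt_nonneg _ _))
      (fun q => ?_) (hu.add hu')
    rw [hdn, ← add_mul]
    exact mul_le_mul_of_nonneg_right (norm_mul_le _ _) (wt_nonneg s q)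
  have h1 := euler_log (fun (w : HeightOneSpectrum (𝓞 L)) (l : Fin π.n × Fin π'.n) =>
    (π.α (w.under (𝓞 K)) l.1 * conj (π'.α (w.under (𝓞 K)) l.2)) ^ rd K w *
      (Ideal.absNorm w.asIdeal : ℂ) ^ (-(s : ℂ))) (fun w l => by
      have h5 := norm_lt h h' hs (w.under (𝓞 K)) l
      rw [cpow_tt, norm_mul, Complex.norm_real, Real.norm_of_nonneg (tt_pos _ s).le] at h5
      rw [cpow_tt, norm_mul, norm_pow, Complex.norm_real, Real.norm_of_nonneg (tt_pos w s).le,
        tt_under (K := K), ← mul_pow]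
      exact pow_lt_one₀ (mul_nonneg (norm_nonneg _) (tt_pos _ _).le) h5 (rd_pos (K := K) w).ne')
      (by
      refine hsm.congr fun q => ?_
      rw [hsum, norm_mul (pw π (dn K q).1 ((dn K q).2 + 1) *
        conj (pw π' (dn K q).1 ((dn K q).2 + 1))), Complex.norm_real,
        Real.norm_of_nonneg (pow_nonneg (tt_pos _ _).le _), mul_div_assoc]
      rfl)
  refine ⟨?_, h1.2.trans (tsum_congr fun q => ?_)⟩
  · refine Summable.of_norm_bounded hsm fun q => ?_
    rw [Real.norm_eq_abs, abs_mul, abs_of_nonneg (wt_nonneg _ _)]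
    exact mul_le_mul_of_nonneg_right (Complex.abs_re_le_norm _) (wt_nonneg _ _)
  · rw [hsum, Complex.re_mul_ofReal, mul_div_assoc]
    rfl

/-- **The inner product over `L`.** -/
theorem rsl_est {E : Set (HeightOneSpectrum (𝓞 K))} (hE : E.Finite)
    (h : π.IsCuspidal) (h' : π'.IsCuspidal)
    (hlt : ∀ v j, ‖π.α v j‖ ^ 2 < Ideal.absNorm v.asIdeal)
    (hlt' : ∀ v j, ‖π'.α v j‖ ^ 2 < Ideal.absNorm v.asIdeal) :
    ∃ C : ℝ, ∀ ε : ℝ, 0 < ε →
      |Real.log ‖RSLr L π π' (1 + ε)‖ - jp wK ε (up L (cpw E π)) (up L (cpw E π'))| ≤ C := by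
  classical
  set F : HeightOneSpectrum (𝓞 K) × ℕ → ℝ := fun q =>
    (if q.1 ∈ E then ‖pw π q.1 (q.2 + 1)‖ ^ 2 * wt 1 q else 0) +
      (if q.1 ∈ E then ‖pw π' q.1 (q.2 + 1)‖ ^ 2 * wt 1 q else 0) with hF
  have hFs : Summable F := (fin_terms hE hlt).add (fin_terms hE hlt')
  have hF0 : ∀ q, 0 ≤ F q := by
    intro q
    rw [hF]
    simp only
    have h1 := wt_nonneg 1 q
    split_ifs <;> positivity
  obtain ⟨hG, _⟩ := fiber_bound (dn K (F := L)) (Module.finrank K L)
    (fun s j => card_dn (K := K) (F := L) s j) hF0 hFs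
  have hGs : Summable fun q' : HeightOneSpectrum (𝓞 L) × ℕ =>
      (Module.finrank K L : ℝ) * F (dn K q') := hG.mul_left _
  refine ⟨∑' q' : HeightOneSpectrum (𝓞 L) × ℕ, (Module.finrank K L : ℝ) * F (dn K q'),
    fun ε hε => ?_⟩
  have hs : 1 < 1 + ε := by linarith
  obtain ⟨hT, hlog⟩ := rsl_log (L := L) h h' hs
  have hC := SQ.summable wK_nonneg (SQ.up (L := L) (cpw_sq E h)) (SQ.up (L := L) (cpw_sq E h')) hε
  rw [hlog]
  unfold jp
  rw [← hT.tsum_sub hC, ← Real.norm_eq_abs]
  refine tsum_of_norm_bounded hGs.hasSum fun q' => ?_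
  unfold up
  by_cases hq : (dn K q').1 ∈ E
  · have e1 : cpw E π (dn K q') = 0 := if_pos hq
    rw [e1, zero_mul, Complex.zero_re, zero_mul, sub_zero, Real.norm_eq_abs, abs_mul,
      abs_of_nonneg (wt_nonneg _ _)]
    have h5 : (rd K q'.1 : ℝ) ≤ Module.finrank K L := by exact_mod_cast rd_le (K := K) q'.1
    have h6 : wt (1 + ε) q' ≤ Module.finrank K L * wt 1 (dn K q') := by
      rw [wt_dn (K := K)]
      exact mul_le_mul h5 (wK_le hε _) (wt_nonneg _ _) (Nat.cast_nonneg _)
    have h7 : F (dn K q') = (‖pw π (dn K q').1 ((dn K q').2 + 1)‖ ^ 2 +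
        ‖pw π' (dn K q').1 ((dn K q').2 + 1)‖ ^ 2) * wt 1 (dn K q') := by
      rw [hF]
      simp only
      rw [if_pos hq, if_pos hq]
      ring
    rw [h7]
    calc |(pw π (dn K q').1 ((dn K q').2 + 1) * conj (pw π' (dn K q').1 ((dn K q').2 + 1))).re| *
        wt (1 + ε) q' ≤ (‖pw π (dn K q').1 ((dn K q').2 + 1)‖ ^ 2 +
        ‖pw π' (dn K q').1 ((dn K q').2 + 1)‖ ^ 2) * (Module.finrank K L * wt 1 (dn K q')) :=
          mul_le_mul (abs_re_mul_le _ _) h6 (wt_nonneg _ _) (by positivity)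
      _ = _ := by ring
  · have e1 : cpw E π (dn K q') = pw π (dn K q').1 ((dn K q').2 + 1) := if_neg hq
    have e2 : cpw E π' (dn K q') = pw π' (dn K q').1 ((dn K q').2 + 1) := if_neg hq
    rw [e1, e2]
    unfold wK
    rw [sub_self, norm_zero]
    exact mul_nonneg (Nat.cast_nonneg _) (hF0 _)

end

end Pool.Agent.N172.CW
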