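import Pool.Agent.N172.CW.Fu3

/-!
# Norms and reciprocity
-/

set_option autoImplicit false
set_option linter.unusedSectionVars false
set_option linter.unusedVariables false
set_option linter.deprecated false

namespace Pool.Agent.N172.CW

open NumberField Complex Filter Topology IsDedekindDomain Asymptotics
open Pool.Agent.N172.HS (finset_isLittleO LL_not_littleO)
open Pool.Agent.W353.TP (LL LL_tendsto bdd_isLittleO)
open scoped ComplexConjugate

section

variable {K L : Type} [Field K] [NumberField K] [Field L] [NumberField L] [Algebra K L]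
variable {κ κ' : Type} [Fintype κ] [Fintype κ'] [DecidableEq κ] [DecidableEq κ']

/-- the combination over `K` -/
noncomputable def cX (E : Set (HeightOneSpectrum (𝓞 K))) {κ : Type} [Fintype κ]
    (π : κ → Params K) (c : κ → ℝ) (q : HeightOneSpectrum (𝓞 K) × ℕ) : ℂ :=
  ∑ i, (c i : ℂ) * cpw E (π i) q

theorem cX_sq (E : Set (HeightOneSpectrum (𝓞 K))) {κ : Type} [Fintype κ] (π : κ → Params K)
    (h : ∀ i, (π i).IsCuspidal) (c : κ → ℝ) : SQ wK (cX E π c) :=
  SQ.sum wK_nonneg Finset.univ (fun i _ => cpw_sq E (h i)) fun i => (c i : ℂ)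

theorem cX_asym {E : Set (HeightOneSpectrum (𝓞 K))} (hE : E.Finite) (π : κ → Params K)
    (h : ∀ i, (π i).IsCuspidal) (hlt : ∀ i v j, ‖(π i).α v j‖ ^ 2 < Ideal.absNorm v.asIdeal)
    (hne : ∀ i j, i ≠ j → HasOrd (RS (π i) (π j)) 1 0) (a b : κ → ℝ) :
    (fun ε => jp wK ε (cX E π a) (cX E π b) - (∑ i, a i * b i) * LL ε) =o[𝓝[>] 0] LL :=
  jp_comb wK_nonneg (fun i => cpw_sq E (h i)) (cpw_ort hE π h hlt hne) a b

theorem up_cX (E : Set (HeightOneSpectrum (𝓞 K))) (π : κ → Params K) (c : κ → ℝ)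
    (σ : κ' → Params L) (n : κ → κ' → ℝ) (hn : ∀ i, BC E (π i) σ (n i)) :
    up L (cX E π c) = cX (EL L E) σ (fun k => ∑ i, c i * n i k) := by
  funext q'
  have h1 : up L (cX E π c) q' = ∑ i, (c i : ℂ) * up L (cpw E (π i)) q' := rfl
  rw [h1]
  simp only [bc_up (hn _)]
  unfold cX
  have e1 : ∀ k, ((∑ i, c i * n i k : ℝ) : ℂ) * cpw (EL L E) (σ k) q' =
      ∑ i, (c i : ℂ) * ((n i k : ℂ) * cpw (EL L E) (σ k) q') := by
    intro k
    push_cast
    rw [Finset.sum_mul]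
    exact Finset.sum_congr rfl fun i _ => by ring
  rw [Finset.sum_congr rfl fun k _ => e1 k, Finset.sum_comm]
  exact Finset.sum_congr rfl fun i _ => Finset.mul_sum _ _ _

theorem dw_cX (E : Set (HeightOneSpectrum (𝓞 K))) (π : κ → Params K) (σ : κ' → Params L)
    (c : κ' → ℝ) (m : κ' → κ → ℝ) (hm : ∀ k, AI E (σ k) π (m k)) :
    dw K (cX (EL L E) σ c) = cX E π (fun i => ∑ k, c k * m k i) := by
  funext q
  have h1 : dw K (cX (EL L E) σ c) q = ∑ k, (c k : ℂ) * dw K (cpw (EL L E) (σ k)) q := by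
    unfold dw cX
    simp only [Finset.mul_sum]
    rw [Finset.sum_comm]
    refine Finset.sum_congr rfl fun k _ => Finset.sum_congr rfl fun q' _ => ?_
    ring
  rw [h1]
  simp only [ai_dw (hm _)]
  unfold cX
  have e1 : ∀ i, ((∑ k, c k * m k i : ℝ) : ℂ) * cpw E (π i) q =
      ∑ k, (c k : ℂ) * ((m k i : ℂ) * cpw E (π i) q) := by
    intro i
    push_cast
    rw [Finset.sum_mul]
    exact Finset.sum_congr rfl fun k _ => by ring
  rw [Finset.sum_congr rfl fun i _ => e1 i, Finset.sum_comm]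
  exact Finset.sum_congr rfl fun k _ => Finset.mul_sum _ _ _

variable {E : Set (HeightOneSpectrum (𝓞 K))} (hE : E.Finite) (π : κ → Params K)
  (h : ∀ i, (π i).IsCuspidal) (hlt : ∀ i v j, ‖(π i).α v j‖ ^ 2 < Ideal.absNorm v.asIdeal)
  (hne : ∀ i j, i ≠ j → HasOrd (RS (π i) (π j)) 1 0)
  (σ : κ' → Params L) (hσ : ∀ k, (σ k).IsCuspidal)
  (hltσ : ∀ k w j, ‖(σ k).α w j‖ ^ 2 < Ideal.absNorm w.asIdeal)
  (hneσ : ∀ k l, k ≠ l → HasOrd (RS (σ k) (σ l)) 1 0)

include hE h hlt hne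

/-- **The norm of the base change.** -/
theorem bcn (hσ : ∀ k, (σ k).IsCuspidal)
    (hltσ : ∀ k w j, ‖(σ k).α w j‖ ^ 2 < Ideal.absNorm w.asIdeal)
    (hneσ : ∀ k l, k ≠ l → HasOrd (RS (σ k) (σ l)) 1 0) (n : κ → κ' → ℝ)
    (hn : ∀ i, BC E (π i) σ (n i)) (c : κ → ℝ) :
    ∑ k, (∑ i, c i * n i k) ^ 2 ≤ Module.finrank K L * ∑ i, c i ^ 2 := by
  have hA := cX_asym (EL_fin (L := L) hE) σ hσ hltσ hneσ (fun k => ∑ i, c i * n i k)
    (fun k => ∑ i, c i * n i k)
  have hB := cX_asym hE π h hlt hne c c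
  simp only [← sq] at hA hB
  refine le_of_asym2 hA hB (Nat.cast_nonneg _) fun ε hε => ?_
  rw [← up_cX E π c σ n hn]
  exact jp_up_le (cX_sq E π h c) hε

/-- **The norm of the automorphic induction.** -/
theorem ain (hσ : ∀ k, (σ k).IsCuspidal)
    (hltσ : ∀ k w j, ‖(σ k).α w j‖ ^ 2 < Ideal.absNorm w.asIdeal)
    (hneσ : ∀ k l, k ≠ l → HasOrd (RS (σ k) (σ l)) 1 0) (m : κ' → κ → ℝ)
    (hm : ∀ k, AI E (σ k) π (m k)) (c : κ' → ℝ) :
    ∑ i, (∑ k, c k * m k i) ^ 2 ≤ Module.finrank K L * ∑ k, c k ^ 2 := by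
  have hB := cX_asym (EL_fin (L := L) hE) σ hσ hltσ hneσ c c
  have hA := cX_asym hE π h hlt hne (fun i => ∑ k, c k * m k i) (fun i => ∑ k, c k * m k i)
  simp only [← sq] at hA hB
  refine le_of_asym2 hA hB (Nat.cast_nonneg _) fun ε hε => ?_
  rw [← dw_cX E π σ c m hm]
  exact jp_dw_le (cX_sq (EL L E) σ hσ c) hε

omit hE h hlt hne in
theorem cX_single (E : Set (HeightOneSpectrum (𝓞 K))) (π : κ → Params K) (i : κ) :
    cX E π (fun l => if l = i then 1 else 0) = cpw E (π i) := by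
  funext q
  unfold cX
  rw [Finset.sum_eq_single i]
  · beta_reduce
    rw [if_pos rfl, Complex.ofReal_one, one_mul]
  · intro j _ hj
    beta_reduce
    rw [if_neg hj, Complex.ofReal_zero, zero_mul]
  · intro hi
    exact absurd (Finset.mem_univ i) hi

/-- **Reciprocity.** -/
theorem rcp (hσ : ∀ k, (σ k).IsCuspidal)
    (hltσ : ∀ k w j, ‖(σ k).α w j‖ ^ 2 < Ideal.absNorm w.asIdeal)
    (hneσ : ∀ k l, k ≠ l → HasOrd (RS (σ k) (σ l)) 1 0) (i : κ) (k : κ') {n : κ' → ℝ} {m : κ → ℝ}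
    (hn : BC E (π i) σ n) (hm : AI E (σ k) π m) : n k = m i := by
  have hA := cX_asym (EL_fin (L := L) hE) σ hσ hltσ hneσ n (fun l => if l = k then 1 else 0)
  have hB := cX_asym hE π h hlt hne (fun l => if l = i then 1 else 0) m
  rw [cX_single] at hA hB
  have e1 : ∑ l, n l * (if l = k then (1 : ℝ) else 0) = n k := by simp
  have e2 : ∑ l, (if l = i then (1 : ℝ) else 0) * m l = m i := by simp
  rw [e1] at hA
  rw [e2] at hB
  have hn' : up L (cpw E (π i)) = cX (EL L E) σ n := bc_up hn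
  have hm' : dw K (cpw (EL L E) (σ k)) = cX E π m := ai_dw hm
  rw [← hn'] at hA
  rw [← hm'] at hB
  have hE' : (fun ε => (n k - m i) * LL ε) =o[𝓝[>] 0] LL := by
    refine (hB.sub hA).congr' ?_ (EventuallyEq.refl _ _)
    filter_upwards [self_mem_nhdsWithin] with ε hε
    rw [jp_adj (cpw_sq E (h i)) (cpw_sq (EL L E) (hσ k)) hε]
    ring
  exact sub_eq_zero.1 (LL_not_littleO hE')

omit [Fintype κ] [Fintype κ'] [DecidableEq κ] [DecidableEq κ'] hne in
theorem rsl_jp (i j : κ) :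
    (fun ε => Real.log ‖RSLr L (π i) (π j) (1 + ε)‖ -
      jp wK ε (up L (cpw E (π i))) (up L (cpw E (π j)))) =o[𝓝[>] 0] LL := by
  obtain ⟨C, hC⟩ := rsl_est (L := L) hE (h i) (h j) (hlt i) (hlt j)
  apply bdd_isLittleO
  refine ⟨C, ?_⟩
  filter_upwards [self_mem_nhdsWithin] with ε hε
  exact hC ε hε

/-- **The size of `L(s, π_i × π_j~ × Ind 1)`.** -/
theorem rsl_size (hσ : ∀ k, (σ k).IsCuspidal)
    (hltσ : ∀ k w j, ‖(σ k).α w j‖ ^ 2 < Ideal.absNorm w.asIdeal)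
    (hneσ : ∀ k l, k ≠ l → HasOrd (RS (σ k) (σ l)) 1 0) (n : κ → κ' → ℝ)
    (hn : ∀ i, BC E (π i) σ (n i)) (i j : κ) :
    (fun ε => Real.log ‖RSLr L (π i) (π j) (1 + ε)‖ - (∑ k, n i k * n j k) * LL ε)
      =o[𝓝[>] 0] LL := by
  have h1 := rsl_jp (L := L) hE π h hlt i j
  have h2 := cX_asym (EL_fin (L := L) hE) σ hσ hltσ hneσ (n i) (n j)
  have e1 : up L (cpw E (π i)) = cX (EL L E) σ (n i) := bc_up (hn i)
  have e2 : up L (cpw E (π j)) = cX (EL L E) σ (n j) := bc_up (hn j)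
  rw [← e1, ← e2] at h2
  refine (h1.add h2).congr_left fun ε => ?_
  ring

/-- **The matrix of the orders.** -/
theorem rsl_matrix (r : κ → κ → ℤ) (hr : ∀ i j, HasOrd (RSL L (π i) (π j)) 1 (r i j))
    (c : κ → ℝ) : 0 ≤ -∑ i, ∑ j, c i * c j * (r i j : ℝ) ∧
      -∑ i, ∑ j, c i * c j * (r i j : ℝ) ≤ Module.finrank K L * ∑ i, c i ^ 2 := by
  have hup : ∀ ε, 0 < ε → jp wK ε (up L (cX E π c)) (up L (cX E π c)) =
      ∑ i, ∑ j, c i * c j * jp wK ε (up L (cpw E (π i))) (up L (cpw E (π j))) := by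
    intro ε hε
    have h1 : up L (cX E π c) = fun q' => ∑ i, (c i : ℂ) * up L (cpw E (π i)) q' := rfl
    rw [h1]
    exact jp_sum_sum wK_nonneg Finset.univ Finset.univ
      (fun i _ => SQ.up (L := L) (cpw_sq E (h i))) (fun i _ => SQ.up (L := L) (cpw_sq E (h i))) c c hε
  have hA : (fun ε => jp wK ε (up L (cX E π c)) (up L (cX E π c)) -
      (-∑ i, ∑ j, c i * c j * (r i j : ℝ)) * LL ε) =o[𝓝[>] 0] LL := by
    have h2 := finset_isLittleO (Finset.univ : Finset κ) (fun i _ =>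
      finset_isLittleO (Finset.univ : Finset κ) (fun j _ =>
        (((hr i j).log).sub (rsl_jp (L := L) hE π h hlt i j)).const_mul_left (c i * c j)))
    refine h2.congr' ?_ (EventuallyEq.refl _ _)
    filter_upwards [self_mem_nhdsWithin] with ε hε
    rw [hup ε hε, neg_mul, sub_neg_eq_add, Finset.sum_mul, ← Finset.sum_add_distrib]
    refine Finset.sum_congr rfl fun i _ => ?_
    rw [Finset.sum_mul, ← Finset.sum_add_distrib]
    refine Finset.sum_congr rfl fun j _ => ?_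
    have e3 : RSLr L (π i) (π j) (1 + ε) = RSL L (π i) (π j) (1 + (ε : ℂ)) := by
      unfold RSLr
      push_cast
      rfl
    rw [e3]
    ring
  constructor
  · have h0 : (fun ε => (fun _ : ℝ => (0 : ℝ)) ε - 0 * LL ε) =o[𝓝[>] 0] LL := by
      simp only [zero_mul, sub_zero]
      exact isLittleO_zero _ _
    have h1 := le_of_asym2 h0 hA zero_le_one fun ε hε => by
      rw [one_mul, jp_self]
      exact tsum_nonneg fun q => mul_nonneg (sq_nonneg _) (wK_nonneg _ _)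
    rwa [one_mul] at h1
  · have hB := cX_asym hE π h hlt hne c c
    simp only [← sq] at hB
    exact le_of_asym2 hA hB (Nat.cast_nonneg _) fun ε hε => jp_up_le (cX_sq E π h c) hε

end

end Pool.Agent.N172.CW
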