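import Pool.Agent.N172.CW.Fu4

/-!
# Formal automorphic induction
-/

set_option autoImplicit false
set_option linter.unusedSectionVars false
set_option linter.unusedVariables false
set_option linter.deprecated false

namespace Pool.Agent.N172.CW

open NumberField Complex Filter Topology IsDedekindDomain Asymptotics
open Pool.Agent.W540.BE (nm two_le_nm)
open Pool.Agent.N172.HS (finset_isLittleO LL_not_littleO above)
open Pool.Agent.W353.TP (LL LL_tendsto bdd_isLittleO)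
open scoped ComplexConjugate

section abstract

variable {I : Type*} {w : ℝ → I → ℝ}

theorem jp_add_smul (hw : ∀ ε x, 0 ≤ w ε x) {φ ψ : I → ℂ} (h : SQ w φ) (h' : SQ w ψ) (c : ℝ)
    {ε : ℝ} (hε : 0 < ε) :
    jp w ε (fun x => φ x + (c : ℂ) * ψ x) (fun x => φ x + (c : ℂ) * ψ x) =
      jp w ε φ φ + 2 * c * jp w ε φ ψ + c ^ 2 * jp w ε ψ ψ := by
  have h1 : SQ w (fun x => (c : ℂ) * ψ x) := h'.smul _
  have h2 : SQ w (fun x => φ x + (c : ℂ) * ψ x) := SQ.add hw h h1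
  rw [jp_add hw h h1 h2 hε, jp_smul, jp_comm ε φ, jp_add hw h h1 h hε, jp_smul, jp_comm ε ψ
    (fun x => φ x + (c : ℂ) * ψ x), jp_add hw h h1 h' hε, jp_smul, jp_comm ε ψ φ]
  ring

/-- the distance to an orthonormal family -/
theorem jp_dist (hw : ∀ ε x, 0 ≤ w ε x) {κ : Type} [Fintype κ] [DecidableEq κ] {f : κ → I → ℂ}
    (hf : ∀ i, SQ w (f i))
    (ho : ∀ i j, (fun ε => jp w ε (f i) (f j) - (if i = j then 1 else 0) * LL ε) =o[𝓝[>] 0] LL)
    {g : I → ℂ} (hg : SQ w g) {M : ℝ} (hM : (fun ε => jp w ε g g - M * LL ε) =o[𝓝[>] 0] LL)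
    {c : κ → ℝ} (hc : ∀ i, (fun ε => jp w ε (f i) g - c i * LL ε) =o[𝓝[>] 0] LL) :
    (fun ε => jp w ε (fun x => ∑ i, (c i : ℂ) * f i x + ((-1 : ℝ) : ℂ) * g x)
      (fun x => ∑ i, (c i : ℂ) * f i x + ((-1 : ℝ) : ℂ) * g x) - (M - ∑ i, c i ^ 2) * LL ε)
      =o[𝓝[>] 0] LL := by
  have h1 := jp_comb hw hf ho c c
  simp only [← sq] at h1
  have h2 : (fun ε => ∑ i, c i * (jp w ε (f i) g - c i * LL ε)) =o[𝓝[>] 0] LL :=
    finset_isLittleO Finset.univ fun i _ => (hc i).const_mul_left _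
  have hX : SQ w (fun x => ∑ i, (c i : ℂ) * f i x) :=
    SQ.sum hw Finset.univ (fun i _ => hf i) fun i => (c i : ℂ)
  refine ((h1.sub (h2.const_mul_left 2)).add hM).congr' ?_ (EventuallyEq.refl _ _)
  filter_upwards [self_mem_nhdsWithin] with ε hε
  rw [jp_add_smul hw hX hg (-1) hε, jp_sum hw Finset.univ (fun i _ => hf i) c hg hε]
  have e2 : ∑ i, c i * (jp w ε (f i) g - c i * LL ε) =
      ∑ i, c i * jp w ε (f i) g - (∑ i, c i ^ 2) * LL ε := by
    rw [Finset.sum_mul, ← Finset.sum_sub_distrib]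
    exact Finset.sum_congr rfl fun i _ => by ring
  rw [e2]
  ring

theorem jp_self_nonneg (hw : ∀ ε x, 0 ≤ w ε x) (ε : ℝ) (φ : I → ℂ) : 0 ≤ jp w ε φ φ := by
  rw [jp_self]
  exact tsum_nonneg fun q => mul_nonneg (sq_nonneg _) (hw _ _)

theorem nonneg_of_asym {A : ℝ → ℝ} {a : ℝ} (hA : (fun ε => A ε - a * LL ε) =o[𝓝[>] 0] LL)
    (h : ∀ ε : ℝ, 0 < ε → 0 ≤ A ε) : 0 ≤ a := by
  have h0 : (fun ε => (fun _ : ℝ => (0 : ℝ)) ε - 0 * LL ε) =o[𝓝[>] 0] LL := by
    simp only [zero_mul, sub_zero]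
    exact isLittleO_zero _ _
  have h1 := le_of_asym2 h0 hA zero_le_one fun ε hε => by
    rw [one_mul]
    exact h ε hε
  rwa [one_mul] at h1

end abstract

section

variable {K : Type} [Field K] [NumberField K]

/-- The Satake parameters are bounded by `Nv^{1/2}`, and the Euler product `L(s, Π × Π~)` converges for
`s > 1`. -/
structure Params.IsConv (π : Params K) : Prop where
  lt : ∀ v j, ‖π.α v j‖ ^ 2 < Ideal.absNorm v.asIdeal
  conv : ∀ s : ℝ, 1 < s → Multipliable fun v : HeightOneSpectrum (𝓞 K) =>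
    ∏ l : Fin π.n × Fin π.n,
      (1 - π.α v l.1 * conj (π.α v l.2) * (Ideal.absNorm v.asIdeal : ℂ) ^ (-(s : ℂ)))⁻¹

variable {π : Params K}

theorem conv_norm_lt (h : π.IsConv) {s : ℝ} (hs : 1 < s)
    (v : HeightOneSpectrum (𝓞 K)) (l : Fin π.n × Fin π.n) :
    ‖π.α v l.1 * conj (π.α v l.2) * (Ideal.absNorm v.asIdeal : ℂ) ^ (-(s : ℂ))‖ < 1 := by
  rw [cpow_tt, norm_mul, norm_mul, Complex.norm_conj, Complex.norm_real,
    Real.norm_of_nonneg (tt_pos v s).le]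
  have h1 : ‖π.α v l.1‖ * ‖π.α v l.2‖ ≤ nm K v := by
    have h2 : ‖π.α v l.1‖ ^ 2 ≤ (nm K v : ℝ) := (h.lt v l.1).le
    have h3 : ‖π.α v l.2‖ ^ 2 ≤ (nm K v : ℝ) := (h.lt v l.2).le
    nlinarith [sq_nonneg (‖π.α v l.1‖ - ‖π.α v l.2‖)]
  exact (mul_le_mul_of_nonneg_right h1 (tt_pos v s).le).trans_lt (nm_mul_tt hs)

theorem conv_summable (h : π.IsConv) {s : ℝ} (hs : 1 < s) :
    Summable fun q : HeightOneSpectrum (𝓞 K) × ℕ => ‖pw π q.1 (q.2 + 1)‖ ^ 2 * wt s q := by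
  have h1 := euler_summable (fun (v : HeightOneSpectrum (𝓞 K)) (l : Fin π.n × Fin π.n) =>
    π.α v l.1 * conj (π.α v l.2) * (Ideal.absNorm v.asIdeal : ℂ) ^ (-(s : ℂ)))
    (conv_norm_lt h hs) (fun q => ‖pw π q.1 (q.2 + 1)‖ ^ 2 * tt q.1 s ^ (q.2 + 1))
    (fun q => mul_nonneg (sq_nonneg _) (pow_nonneg (tt_pos _ _).le _)) (fun q => by
      rw [sum_pow, Complex.mul_conj, Complex.normSq_eq_norm_sq]
      push_cast
      rfl) (h.conv s hs)
  refine h1.congr fun q => ?_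
  unfold wt
  rw [mul_div_assoc]

theorem conv_log (h : π.IsConv) {s : ℝ} (hs : 1 < s) :
    Real.log ‖RSr π π s‖ = ∑' q : HeightOneSpectrum (𝓞 K) × ℕ,
      ‖pw π q.1 (q.2 + 1)‖ ^ 2 * wt s q := by
  have h1 := euler_log (fun (v : HeightOneSpectrum (𝓞 K)) (l : Fin π.n × Fin π.n) =>
    π.α v l.1 * conj (π.α v l.2) * (Ideal.absNorm v.asIdeal : ℂ) ^ (-(s : ℂ)))
    (conv_norm_lt h hs) (by
      refine (conv_summable h hs).congr fun q => ?_
      rw [sum_pow, norm_mul, Complex.norm_real,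
        Real.norm_of_nonneg (pow_nonneg (tt_pos _ _).le _), Complex.mul_conj,
        Complex.normSq_eq_norm_sq, Complex.norm_real, Real.norm_of_nonneg (sq_nonneg _)]
      unfold wt
      rw [mul_div_assoc])
  refine h1.2.trans (tsum_congr fun q => ?_)
  rw [sum_pow, Complex.re_mul_ofReal, mul_div_assoc, Complex.mul_conj, Complex.ofReal_re,
    Complex.normSq_eq_norm_sq]
  rfl

theorem conv_cpw_sq (E : Set (HeightOneSpectrum (𝓞 K))) (h : π.IsConv) : SQ wK (cpw E π) := by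
  intro ε hε
  refine Summable.of_nonneg_of_le (fun q => mul_nonneg (sq_nonneg _) (wK_nonneg _ _)) (fun q => ?_)
    (conv_summable h (s := 1 + ε) (by linarith))
  exact mul_le_mul_of_nonneg_right (pow_le_pow_left₀ (norm_nonneg _) (norm_cpw_le E π q) 2)
    (wt_nonneg _ _)

theorem conv_size {E : Set (HeightOneSpectrum (𝓞 K))} (hE : E.Finite) (h : π.IsConv) {M : ℤ}
    (hM : HasOrd (RS π π) 1 (-M)) :
    (fun ε => jp wK ε (cpw E π) (cpw E π) - (M : ℝ) * LL ε) =o[𝓝[>] 0] LL := by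
  classical
  have H1 := fin_terms hE h.lt
  have h1 : (fun ε => Real.log ‖RSr π π (1 + ε)‖ - jp wK ε (cpw E π) (cpw E π))
      =o[𝓝[>] 0] LL := by
    apply bdd_isLittleO
    refine ⟨∑' q : HeightOneSpectrum (𝓞 K) × ℕ,
      (if q.1 ∈ E then ‖pw π q.1 (q.2 + 1)‖ ^ 2 * wt 1 q else 0), ?_⟩
    filter_upwards [self_mem_nhdsWithin] with ε hε'
    have hε : (0 : ℝ) < ε := hε'
    have hs : 1 < 1 + ε := by linarith
    rw [conv_log h hs, jp_self, ← (conv_summable h hs).tsum_sub (conv_cpw_sq E h ε hε),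
      ← Real.norm_eq_abs]
    refine tsum_of_norm_bounded H1.hasSum fun q => ?_
    by_cases hq : q.1 ∈ E
    · rw [if_pos hq]
      have e1 : cpw E π q = 0 := if_pos hq
      rw [e1, norm_zero, zero_pow two_ne_zero, zero_mul, sub_zero,
        Real.norm_of_nonneg (mul_nonneg (sq_nonneg _) (wt_nonneg _ _))]
      exact mul_le_mul_of_nonneg_left (wK_le hε q) (sq_nonneg _)
    · rw [if_neg hq]
      have e1 : cpw E π q = pw π q.1 (q.2 + 1) := if_neg hq
      rw [e1]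
      unfold wK
      rw [sub_self, norm_zero]
  have h2 : (fun ε => Real.log ‖RSr π π (1 + ε)‖ - (M : ℝ) * LL ε) =o[𝓝[>] 0] LL := by
    refine hM.log.congr_left fun ε => ?_
    rw [RSr_eq]
    push_cast
    ring
  refine (h2.sub h1).congr_left fun ε => ?_
  ring

open Classical in
/-- a function on the prime powers which is small in the mean square is small at almost all primes -/
theorem dens_pp {E : Set (HeightOneSpectrum (𝓞 K))} (hE : E.Finite)
    {φ : HeightOneSpectrum (𝓞 K) × ℕ → ℂ} (hφ : SQ wK φ)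
    (h : (fun ε => jp wK ε φ φ) =o[𝓝[>] 0] LL) {δ : ℝ} (hδ : 0 < δ)
    {f : HeightOneSpectrum (𝓞 K) → ℂ} (hf : ∀ v, v ∉ E → f v = φ (v, 0)) :
    DensZero {v | δ ≤ ‖f v‖} := by
  unfold DensZero
  have h1 : (fun ε => (δ ^ 2)⁻¹ * jp wK ε φ φ + (hE.toFinset.card : ℝ)) =o[𝓝[>] 0] LL :=
    (h.const_mul_left _).add (const_littleO _)
  refine IsBigO.trans_isLittleO (IsBigO.of_bound 1 ?_) h1
  filter_upwards [self_mem_nhdsWithin] with ε hε'
  have hε : (0 : ℝ) < ε := hε'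
  have h0 : 0 ≤ ∑' v : {v : HeightOneSpectrum (𝓞 K) | δ ≤ ‖f v‖},
      (Ideal.absNorm v.1.asIdeal : ℝ) ^ (-(1 + ε)) := tsum_nonneg fun v => by positivity
  have hw : ∀ v : HeightOneSpectrum (𝓞 K), wK ε (v, 0) = (nm K v : ℝ) ^ (-(1 + ε)) := by
    intro v
    unfold wK wt tt
    simp only [zero_add, pow_one, Nat.cast_zero, div_one]
  rw [one_mul, Real.norm_of_nonneg h0, Real.norm_of_nonneg
    (add_nonneg (mul_nonneg (by positivity) (jp_self_nonneg wK_nonneg ε φ)) (Nat.cast_nonneg _)),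
    tsum_subtype {v : HeightOneSpectrum (𝓞 K) | δ ≤ ‖f v‖} (fun v : HeightOneSpectrum (𝓞 K) =>
      (Ideal.absNorm v.asIdeal : ℝ) ^ (-(1 + ε))), jp_self]
  have hinj : Function.Injective
      (fun v : HeightOneSpectrum (𝓞 K) => ((v, 0) : HeightOneSpectrum (𝓞 K) × ℕ)) :=
    fun _ _ h => (Prod.ext_iff.1 h).1
  have hs1 : Summable fun v : HeightOneSpectrum (𝓞 K) =>
      (δ ^ 2)⁻¹ * (‖φ (v, 0)‖ ^ 2 * wK ε (v, 0)) :=
    ((hφ ε hε).comp_injective hinj).mul_left _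
  have hs2 : Summable fun v : HeightOneSpectrum (𝓞 K) => if v ∈ E then (1 : ℝ) else 0 := by
    refine summable_of_ne_finset_zero (s := hE.toFinset) fun v hv => ?_
    rw [if_neg fun h => hv (hE.mem_toFinset.2 h)]
  have hle : ∀ v : HeightOneSpectrum (𝓞 K),
      Set.indicator {v : HeightOneSpectrum (𝓞 K) | δ ≤ ‖f v‖} (fun v : HeightOneSpectrum (𝓞 K) =>
        (Ideal.absNorm v.asIdeal : ℝ) ^ (-(1 + ε))) v ≤
      (δ ^ 2)⁻¹ * (‖φ (v, 0)‖ ^ 2 * wK ε (v, 0)) + (if v ∈ E then (1 : ℝ) else 0) := by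
    intro v
    have hN : (nm K v : ℝ) ^ (-(1 + ε)) ≤ 1 :=
      Real.rpow_le_one_of_one_le_of_nonpos (one_lt_nm v).le (by linarith)
    have hp : 0 ≤ (δ ^ 2)⁻¹ * (‖φ (v, 0)‖ ^ 2 * wK ε (v, 0)) :=
      mul_nonneg (by positivity) (mul_nonneg (sq_nonneg _) (wK_nonneg _ _))
    by_cases hv : v ∈ E
    · rw [if_pos hv]
      refine (Set.indicator_le_self' (fun _ _ => by positivity) v).trans ?_
      change (nm K v : ℝ) ^ (-(1 + ε)) ≤ _
      linarith
    · rw [if_neg hv, add_zero]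
      by_cases hd : δ ≤ ‖f v‖
      · rw [Set.indicator_of_mem (show v ∈ {v : HeightOneSpectrum (𝓞 K) | δ ≤ ‖f v‖} from hd),
          ← hf v hv, hw, ← mul_assoc]
        change (nm K v : ℝ) ^ (-(1 + ε)) ≤ _
        refine le_mul_of_one_le_left (by positivity) ?_
        rw [inv_mul_eq_div, one_le_div (by positivity)]
        exact pow_le_pow_left₀ hδ.le hd 2
      · rw [Set.indicator_of_notMem
          (show v ∉ {v : HeightOneSpectrum (𝓞 K) | δ ≤ ‖f v‖} from hd)]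
        exact hp
  have hs3 : Summable (Set.indicator {v : HeightOneSpectrum (𝓞 K) | δ ≤ ‖f v‖}
      (fun v : HeightOneSpectrum (𝓞 K) => (Ideal.absNorm v.asIdeal : ℝ) ^ (-(1 + ε)))) :=
    Summable.of_nonneg_of_le (fun v => Set.indicator_nonneg (fun _ _ => by positivity) v) hle
      (hs1.add hs2)
  refine (hs3.tsum_le_tsum hle (hs1.add hs2)).trans ?_
  rw [hs1.tsum_add hs2]
  refine add_le_add ?_ ?_
  · rw [tsum_mul_left]
    refine mul_le_mul_of_nonneg_left ?_ (by positivity)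
    exact Summable.tsum_le_tsum_of_inj (fun v : HeightOneSpectrum (𝓞 K) => ((v, 0) :
      HeightOneSpectrum (𝓞 K) × ℕ)) hinj (fun q _ => mul_nonneg (sq_nonneg _) (wK_nonneg _ _))
      (fun v => le_rfl) ((hφ ε hε).comp_injective hinj) (hφ ε hε)
  · rw [tsum_eq_sum (s := hE.toFinset) (fun v hv => if_neg fun h => hv (hE.mem_toFinset.2 h))]
    refine (Finset.sum_le_sum fun v _ => ?_).trans (le_of_eq (by
      rw [Finset.sum_const, nsmul_eq_mul, mul_one]))
    split_ifs <;> norm_num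

end

end Pool.Agent.N172.CW
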