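import Pool.Agent.N172.CW.Fu5

/-!
# Formal automorphic induction: the inequality of Bessel
-/

set_option autoImplicit false
set_option linter.unusedSectionVars false
set_option linter.unusedVariables false
set_option linter.deprecated false

namespace Pool.Agent.N172.CW

open NumberField Complex Filter Topology IsDedekindDomain Asymptotics
open Pool.Agent.N172.HS (finset_isLittleO LL_not_littleO above)
open Pool.Agent.W353.TP (LL LL_tendsto bdd_isLittleO)
open scoped ComplexConjugate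

section

variable {K L : Type} [Field K] [NumberField K] [Field L] [NumberField L] [Algebra K L]
variable {κ κ' : Type} [Fintype κ] [Fintype κ'] [DecidableEq κ] [DecidableEq κ']

/-- the inner product with the formal automorphic induction -/
theorem ind_adj {E : Set (HeightOneSpectrum (𝓞 K))} (hE : E.Finite) (π : κ → Params K)
    (h : ∀ i, (π i).IsCuspidal) (σ : κ' → Params L) (hσ : ∀ k, (σ k).IsCuspidal)
    (hltσ : ∀ k w j, ‖(σ k).α w j‖ ^ 2 < Ideal.absNorm w.asIdeal)
    (hneσ : ∀ k l, k ≠ l → HasOrd (RS (σ k) (σ l)) 1 0) (n : κ → κ' → ℝ)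
    (hn : ∀ i, BC E (π i) σ (n i)) (k : κ') {P : Params K}
    (hAI : AI E (σ k) (fun _ : Unit => P) (fun _ => 1)) (i : κ) :
    (fun ε => jp wK ε (cpw E (π i)) (cpw E P) - n i k * LL ε) =o[𝓝[>] 0] LL := by
  have hA := cX_asym (EL_fin (L := L) hE) σ hσ hltσ hneσ (n i) (fun l => if l = k then 1 else 0)
  rw [cX_single] at hA
  have e1 : ∑ l, n i l * (if l = k then (1 : ℝ) else 0) = n i k := by simp
  rw [e1] at hA
  have hn' : up L (cpw E (π i)) = cX (EL L E) σ (n i) := bc_up (hn i)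
  rw [← hn'] at hA
  have hP : dw K (cpw (EL L E) (σ k)) = cpw E P := by
    rw [ai_dw hAI]
    funext q
    simp
  refine hA.congr' ?_ (EventuallyEq.refl _ _)
  filter_upwards [self_mem_nhdsWithin] with ε hε
  rw [jp_adj (cpw_sq E (h i)) (cpw_sq (EL L E) (hσ k)) hε, hP]

/-- **The inequality of Bessel for the formal automorphic induction.** -/
theorem ind_final {E : Set (HeightOneSpectrum (𝓞 K))} (hE : E.Finite) (π : κ → Params K)
    (h : ∀ i, (π i).IsCuspidal) (hlt : ∀ i v j, ‖(π i).α v j‖ ^ 2 < Ideal.absNorm v.asIdeal)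
    (hne : ∀ i j, i ≠ j → HasOrd (RS (π i) (π j)) 1 0)
    (σ : κ' → Params L) (hσ : ∀ k, (σ k).IsCuspidal)
    (hltσ : ∀ k w j, ‖(σ k).α w j‖ ^ 2 < Ideal.absNorm w.asIdeal)
    (hneσ : ∀ k l, k ≠ l → HasOrd (RS (σ k) (σ l)) 1 0) (n : κ → κ' → ℝ)
    (hn : ∀ i, BC E (π i) σ (n i)) (k : κ') {P : Params K} (hP : P.IsConv) {M : ℤ}
    (hM : HasOrd (RS P P) 1 (-M)) (hAI : AI E (σ k) (fun _ : Unit => P) (fun _ => 1)) :
    ∑ i, n i k ^ 2 ≤ M ∧ (∑ i, n i k ^ 2 = M → ∀ δ : ℝ, 0 < δ →
      DensZero {v | δ ≤ ‖∑ i, (n i k : ℂ) * ∑ j, (π i).α v j - ∑ j, P.α v j‖}) := by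
  classical
  have h1 := jp_dist wK_nonneg (fun i => cpw_sq E (h i)) (cpw_ort hE π h hlt hne)
    (conv_cpw_sq E hP) (conv_size hE hP hM)
    (c := fun i => n i k) (fun i => ind_adj hE π h σ hσ hltσ hneσ n hn k hAI i)
  constructor
  · have h2 := nonneg_of_asym h1 fun ε _ => jp_self_nonneg wK_nonneg ε _
    linarith
  · intro hS δ hδ
    rw [hS, sub_self] at h1
    have h3 : (fun ε => jp wK ε
        (fun x => ∑ i, (n i k : ℂ) * cpw E (π i) x + ((-1 : ℝ) : ℂ) * cpw E P x)
        (fun x => ∑ i, (n i k : ℂ) * cpw E (π i) x + ((-1 : ℝ) : ℂ) * cpw E P x))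
        =o[𝓝[>] 0] LL := by
      refine h1.congr_left fun ε => ?_
      ring
    refine dens_pp hE (SQ.add wK_nonneg (cX_sq E π h fun i => n i k)
      ((conv_cpw_sq E hP).smul _)) h3 hδ fun v hv => ?_
    have e1 : ∀ i, cpw E (π i) (v, 0) = ∑ j, (π i).α v j := by
      intro i
      have e2 : cpw E (π i) (v, 0) = pw (π i) v (0 + 1) := if_neg hv
      rw [e2]
      unfold pw
      simp
    have e3 : cpw E P (v, 0) = ∑ j, P.α v j := by
      have e2 : cpw E P (v, 0) = pw P v (0 + 1) := if_neg hv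
      rw [e2]
      unfold pw
      simp
    unfold cX
    simp only [e1, e3]
    push_cast
    ring

end

end Pool.Agent.N172.CW
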