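import Pool.Agent.N172.CW.Fu6

/-!
# The sizes as limits
-/

set_option autoImplicit false
set_option linter.unusedSectionVars false
set_option linter.unusedVariables false
set_option linter.deprecated false

namespace Pool.Agent.N172.CW

open NumberField Complex Filter Topology IsDedekindDomain Asymptotics
open Pool.Agent.N172.HS (finset_isLittleO LL_not_littleO above)
open Pool.Agent.W353.TP (LL LL_tendsto bdd_isLittleO)
open scoped ComplexConjugate

section

variable {K L : Type} [Field K] [NumberField K] [Field L] [NumberField L] [Algebra K L]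
variable {κ κ' : Type} [Fintype κ] [Fintype κ'] [DecidableEq κ] [DecidableEq κ']

theorem tendsto_quot {u : ℝ → ℝ} {c : ℝ} (h : (fun ε => u ε - c * LL ε) =o[𝓝[>] 0] LL) :
    Tendsto (fun ε => u ε / Real.log (1 / ε)) (𝓝[>] 0) (𝓝 c) := by
  have h1 := h.tendsto_div_nhds_zero
  have h2 := h1.add_const c
  rw [zero_add] at h2
  refine h2.congr' ?_
  filter_upwards [LL_tendsto.eventually_gt_atTop 0] with ε h3
  have h4 : LL ε ≠ 0 := h3.ne'
  change (u ε - c * LL ε) / LL ε + c = u ε / LL ε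
  field_simp
  ring

theorem RSLr_eq (π π' : Params K) (ε : ℝ) : RSLr L π π' (1 + ε) = RSL L π π' (1 + (ε : ℂ)) := by
  unfold RSLr
  push_cast
  rfl

/-- the size and the order -/
theorem rsl_final {E : Set (HeightOneSpectrum (𝓞 K))} (hE : E.Finite) (π : κ → Params K)
    (h : ∀ i, (π i).IsCuspidal) (hlt : ∀ i v j, ‖(π i).α v j‖ ^ 2 < Ideal.absNorm v.asIdeal)
    (hne : ∀ i j, i ≠ j → HasOrd (RS (π i) (π j)) 1 0)
    (σ : κ' → Params L) (hσ : ∀ k, (σ k).IsCuspidal)
    (hltσ : ∀ k w j, ‖(σ k).α w j‖ ^ 2 < Ideal.absNorm w.asIdeal)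
    (hneσ : ∀ k l, k ≠ l → HasOrd (RS (σ k) (σ l)) 1 0) (n : κ → κ' → ℝ)
    (hn : ∀ i, BC E (π i) σ (n i)) (i j : κ) :
    Tendsto (fun ε : ℝ => Real.log ‖RSL L (π i) (π j) (1 + (ε : ℂ))‖ / Real.log (1 / ε))
      (𝓝[>] 0) (𝓝 (∑ k, n i k * n j k)) ∧
    ∀ r : ℤ, HasOrd (RSL L (π i) (π j)) 1 r → (r : ℝ) = -∑ k, n i k * n j k := by
  have h1 := rsl_size hE π h hlt hne σ hσ hltσ hneσ n hn i j
  constructor
  · have h2 := tendsto_quot h1
    simp only [RSLr_eq] at h2
    exact h2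
  · intro r hr
    have h2 := hr.log
    have h3 : (fun ε => ((r : ℝ) + ∑ k, n i k * n j k) * LL ε) =o[𝓝[>] 0] LL := by
      refine (h2.sub h1).congr_left fun ε => ?_
      rw [RSLr_eq]
      ring
    have h4 := LL_not_littleO h3
    linarith

end

end Pool.Agent.N172.CW
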