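import Pool.Agent.N172.CW.Fr3

/-!
# Base change and representations of the Weil group: reciprocity and non-vanishing
-/

set_option autoImplicit false
set_option linter.unusedSectionVars false
set_option linter.unusedVariables false
set_option linter.deprecated false

namespace Pool.Agent.N172.CW

open NumberField Complex Filter Topology IsDedekindDomain Asymptotics
open Pool.Agent.N172.HS (IsHecke WRep EH EV EV_EH exists_vx absNorm_vx vx_injective pc hv Bdd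
  StNvq finset_isLittleO LL_not_littleO above finsum_above)
open Pool.Agent.W353.TP (HX sysH push res LL LL_tendsto bdd_isLittleO)
open Pool.Agent.W353.NF (vx)
open scoped ComplexConjugate

section

variable {K L : Type} [Field K] [NumberField K] [Field L] [NumberField L] [Algebra K L]
variable {κ : Type} [Fintype κ]

theorem bH_push (ρ : WRep L) : bH (Ind K ρ) = push K (bH ρ) := by
  funext x
  unfold bH
  rw [tH_Ind]
  unfold push
  rw [map_sum]

/-- the inner products over `K` and over `L` -/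
theorem bc_weil {π : Params K} (h : π.IsCuspidal) {σ : κ → Params L}
    (hσ : ∀ k, (σ k).IsCuspidal) {n : κ → ℝ} (hn : BaseChange π σ n) (ρ : WRep L) :
    (fun ε => ip ε (aH π) (bH (Ind K ρ)) - ∑ k, n k * ip ε (aH (σ k)) (bH ρ))
      =o[𝓝[>] 0] LL := by
  obtain ⟨Z, hZ, hZ1⟩ := bc_dn hn
  have hXL := L2.aH h
  have hbL : L2 (bH ρ) := L2.bH ρ
  obtain ⟨C, hC⟩ := ip_change (comb_L2 σ hσ n) (hXL.comp (L := L)) hbL hZ hZ1
  apply bdd_isLittleO
  refine ⟨C, ?_⟩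
  filter_upwards [self_mem_nhdsWithin] with ε hε
  have h1 := hC ε hε
  have h2 : ip ε (fun z => ∑ k, (n k : ℂ) * aH (σ k) z) (bH ρ) =
      ∑ k, n k * ip ε (aH (σ k)) (bH ρ) :=
    ip_sum Finset.univ (fun k _ => L2.aH (hσ k)) n hbL hε
  rw [bH_push, ← ip_adj hXL hbL hε, ← h2, abs_sub_comm]
  exact h1

/-- **Reciprocity for the sizes.** -/
theorem bc_sizes {π : Params K} (h : π.IsCuspidal) {σ : κ → Params L}
    (hσ : ∀ k, (σ k).IsCuspidal) {n : κ → ℝ} (hn : BaseChange π σ n) (ρ : WRep L)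
    {q : ℕ} (τ : Fin q → WRep K) (hτ : ∀ k, (τ k).IsIrr)
    (hor : ∀ k l, k ≠ l → (τ k).inner (τ l) = 0)
    (hdec : (Ind K ρ).inner (Ind K ρ) = ∑ k, (Ind K ρ).inner (τ k) ^ 2) :
    (fun ε => ∑ k, ((Ind K ρ).inner (τ k) : ℝ) * Real.log ‖LWr π (τ k) (1 + ε)‖ -
      ∑ k, n k * Real.log ‖LWr (σ k) ρ (1 + ε)‖) =o[𝓝[>] 0] LL := by
  have h1 := decomp h (Ind K ρ) τ hτ hor hdec
  have h2 : (fun ε => ∑ k, ((Ind K ρ).inner (τ k) : ℝ) * (Real.log ‖LWr π (τ k) (1 + ε)‖ -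
      ip ε (aH π) (bH (τ k)))) =o[𝓝[>] 0] LL :=
    finset_isLittleO Finset.univ fun k _ => (lw_est h (τ k)).2.const_mul_left _
  have h3 : (fun ε => ∑ k, n k * (Real.log ‖LWr (σ k) ρ (1 + ε)‖ -
      ip ε (aH (σ k)) (bH ρ))) =o[𝓝[>] 0] LL :=
    finset_isLittleO Finset.univ fun k _ => (lw_est (hσ k) ρ).2.const_mul_left _
  have h4 := bc_weil h hσ hn ρ
  refine (((h2.sub h1).add h4).sub h3).congr_left fun ε => ?_
  simp only [mul_sub, Finset.sum_sub_distrib]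
  ring

/-- **Reciprocity for the orders.** -/
theorem bc_orders {π : Params K} (h : π.IsCuspidal) {σ : κ → Params L}
    (hσ : ∀ k, (σ k).IsCuspidal) {n : κ → ℝ} (hn : BaseChange π σ n) (ρ : WRep L)
    {q : ℕ} (τ : Fin q → WRep K) (hτ : ∀ k, (τ k).IsIrr)
    (hor : ∀ k l, k ≠ l → (τ k).inner (τ l) = 0)
    (hdec : (Ind K ρ).inner (Ind K ρ) = ∑ k, (Ind K ρ).inner (τ k) ^ 2)
    {r : Fin q → ℤ} (hr : ∀ k, HasOrd (LW π (τ k)) 1 (r k)) {a : κ → ℤ}
    (ha : ∀ k, HasOrd (LW (σ k) ρ) 1 (a k)) :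
    ∑ k, ((Ind K ρ).inner (τ k) : ℝ) * r k = ∑ k, n k * a k := by
  have h1 := bc_sizes h hσ hn ρ τ hτ hor hdec
  have h2 : (fun ε => ∑ k, ((Ind K ρ).inner (τ k) : ℝ) * (Real.log ‖LWr π (τ k) (1 + ε)‖ +
      r k * LL ε)) =o[𝓝[>] 0] LL :=
    finset_isLittleO Finset.univ fun k _ => (lw_ord_log (hr k)).const_mul_left _
  have h3 : (fun ε => ∑ k, n k * (Real.log ‖LWr (σ k) ρ (1 + ε)‖ + a k * LL ε))
      =o[𝓝[>] 0] LL :=
    finset_isLittleO Finset.univ fun k _ => (lw_ord_log (ha k)).const_mul_left _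
  have h4 : (fun ε => (∑ k, ((Ind K ρ).inner (τ k) : ℝ) * r k - ∑ k, n k * a k) * LL ε)
      =o[𝓝[>] 0] LL := by
    refine ((h2.sub h3).sub h1).congr_left fun ε => ?_
    simp only [mul_add, Finset.sum_add_distrib]
    have e1 : ∑ k, ((Ind K ρ).inner (τ k) : ℝ) * (r k * LL ε) =
        (∑ k, ((Ind K ρ).inner (τ k) : ℝ) * r k) * LL ε := by
      rw [Finset.sum_mul]
      exact Finset.sum_congr rfl fun k _ => by ring
    have e2 : ∑ k, n k * (a k * LL ε) = (∑ k, n k * a k) * LL ε := by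
      rw [Finset.sum_mul]
      exact Finset.sum_congr rfl fun k _ => by ring
    rw [e1, e2]
    ring
  exact sub_eq_zero.1 (LL_not_littleO h4)

/-- at most one order is not zero -/
theorem one_order {π : Params K} (h : π.IsCuspidal) {q : ℕ} (τ : Fin q → WRep K)
    (hτ : ∀ k, (τ k).IsIrr) (hor : ∀ k l, k ≠ l → (τ k).inner (τ l) = 0) {r : Fin q → ℤ}
    (hr : ∀ k, HasOrd (LW π (τ k)) 1 (r k)) {k : Fin q} (hk0 : r k ≠ 0) :
    (r k = 1 ∨ r k = -1) ∧ (∀ l, l ≠ k → r l = 0) ∧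
      ∀ η : ℝ, 0 < η → DensZero {v | η ≤ ‖∑ j, π.α v j + r k * conj ((τ k).trace v)‖} := by
  classical
  have h5 := (orders (κ := Unit) (κ' := Fin q) (fun _ => π) (fun _ => h)
    (fun i j hij => absurd (Subsingleton.elim i j) hij) τ hτ hor (fun _ l => r l)
    (fun _ l => hr l)).1 ()
  have hz : ∀ l, l ≠ k → r l = 0 := by
    intro l hl
    by_contra hl0
    have h6 : r k ^ 2 + r l ^ 2 ≤ ∑ l, r l ^ 2 := by
      have h7 := Finset.sum_le_sum_of_subset_of_nonneg (f := fun l => r l ^ 2)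
        (Finset.subset_univ ({k, l} : Finset (Fin q))) (fun i _ _ => sq_nonneg _)
      rw [Finset.sum_pair (Ne.symm hl)] at h7
      exact h7
    have h8 : 0 < r k ^ 2 := by positivity
    have h9 : 0 < r l ^ 2 := by positivity
    omega
  exact ⟨ord_abs h (hτ k) (hr k) hk0, hz, fun η hη => partner_dens h (hτ k) (hr k) hk0 hη⟩

/-- **The partner, and non-vanishing.** -/
theorem bc_final {π : Params K} (h : π.IsCuspidal) {σ : κ → Params L}
    (hσ : ∀ k, (σ k).IsCuspidal) {n : κ → ℝ} (hn : BaseChange π σ n) (ρ : WRep L)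
    {q : ℕ} (τ : Fin q → WRep K) (hτ : ∀ k, (τ k).IsIrr)
    (hor : ∀ k l, k ≠ l → (τ k).inner (τ l) = 0)
    (hdec : (Ind K ρ).inner (Ind K ρ) = ∑ k, (Ind K ρ).inner (τ k) ^ 2)
    {r : Fin q → ℤ} (hr : ∀ k, HasOrd (LW π (τ k)) 1 (r k)) {a : κ → ℤ}
    (ha : ∀ k, HasOrd (LW (σ k) ρ) 1 (a k)) (hm : ∀ k, (Ind K ρ).inner (τ k) ≠ 0) :
    (∑ k, n k * a k = 0 → ∀ k, r k = 0) ∧
    (∑ k, n k * a k ≠ 0 → ∃ k, (r k = 1 ∨ r k = -1) ∧
      ((Ind K ρ).inner (τ k) : ℝ) * r k = ∑ k, n k * a k ∧ (∀ l, l ≠ k → r l = 0) ∧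
      ∀ η : ℝ, 0 < η → DensZero {v | η ≤ ‖∑ j, π.α v j + r k * conj ((τ k).trace v)‖}) := by
  classical
  have h1 := bc_orders h hσ hn ρ τ hτ hor hdec hr ha
  have key : ∀ k, r k ≠ 0 → ((Ind K ρ).inner (τ k) : ℝ) * r k = ∑ k, n k * a k := by
    intro k hk
    have h2 := (one_order h τ hτ hor hr hk).2.1
    rw [← h1]
    rw [Finset.sum_eq_single k (fun l _ hl => by rw [h2 l hl]; simp)
      (fun hk => absurd (Finset.mem_univ k) hk)]
  constructor
  · intro h0 k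
    by_contra hk
    have h2 := key k hk
    rw [h0] at h2
    have h3 : ((Ind K ρ).inner (τ k) : ℝ) ≠ 0 := by exact_mod_cast hm k
    have h4 : (r k : ℝ) ≠ 0 := by exact_mod_cast hk
    exact mul_ne_zero h3 h4 h2
  · intro h0
    have h2 : ∃ k, r k ≠ 0 := by
      by_contra hcon
      push Not at hcon
      apply h0
      rw [← h1]
      exact Finset.sum_eq_zero fun k _ => by rw [hcon k]; simp
    obtain ⟨k, hk⟩ := h2
    obtain ⟨h3, h4, h5⟩ := one_order h τ hτ hor hr hk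
    exact ⟨k, h3, key k hk, h4, h5⟩

/-- **No zeros.** -/
theorem bc_nozero {π : Params K} (h : π.IsCuspidal) {σ : κ → Params L}
    (hσ : ∀ k, (σ k).IsCuspidal) {n : κ → ℝ} (hn : BaseChange π σ n) (ρ : WRep L)
    {q : ℕ} (τ : Fin q → WRep K) (hτ : ∀ k, (τ k).IsIrr)
    (hor : ∀ k l, k ≠ l → (τ k).inner (τ l) = 0)
    (hdec : (Ind K ρ).inner (Ind K ρ) = ∑ k, (Ind K ρ).inner (τ k) ^ 2)
    {r : Fin q → ℤ} (hr : ∀ k, HasOrd (LW π (τ k)) 1 (r k)) {a : κ → ℤ}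
    (ha : ∀ k, HasOrd (LW (σ k) ρ) 1 (a k)) (hm : ∀ k, 0 < (Ind K ρ).inner (τ k))
    (hn0 : ∀ k, 0 ≤ n k) (ha0 : ∀ k, a k ≤ 0) (k : Fin q) : r k = 0 ∨ r k = -1 := by
  classical
  by_cases hk : r k = 0
  · exact Or.inl hk
  · right
    have h1 := bc_orders h hσ hn ρ τ hτ hor hdec hr ha
    obtain ⟨h3, h4, h5⟩ := one_order h τ hτ hor hr hk
    have h6 : ((Ind K ρ).inner (τ k) : ℝ) * r k = ∑ k, n k * a k := by
      rw [← h1]
      rw [Finset.sum_eq_single k (fun l _ hl => by rw [h4 l hl]; simp)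
        (fun hk => absurd (Finset.mem_univ k) hk)]
    have h7 : ∑ k, n k * (a k : ℝ) ≤ 0 := Finset.sum_nonpos fun l _ =>
      mul_nonpos_of_nonneg_of_nonpos (hn0 l) (by exact_mod_cast ha0 l)
    rcases h3 with h8 | h8
    · exfalso
      rw [h8] at h6
      have h9 : (0 : ℝ) < ((Ind K ρ).inner (τ k) : ℝ) := by exact_mod_cast hm k
      push_cast at h6
      linarith
    · exact h8

end

end Pool.Agent.N172.CW
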