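import Pool.Agent.N172.CW.Fv1

/-!
# Base change and representations of the Weil group: the inequality of Bessel
-/

set_option autoImplicit false
set_option linter.unusedSectionVars false
set_option linter.unusedVariables false
set_option linter.deprecated false

namespace Pool.Agent.N172.CW

open NumberField Complex Filter Topology IsDedekindDomain Asymptotics
open Pool.Agent.N172.HS (IsHecke WRep EH EV EV_EH exists_vx absNorm_vx vx_injective pc hv Bdd
  StNvq finset_isLittleO LL_not_littleO above finsum_above)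
open Pool.Agent.W353.TP (HX sysH push res LL LL_tendsto bdd_isLittleO)
open Pool.Agent.W353.NF (vx)
open scoped ComplexConjugate

section

variable {K L : Type} [Field K] [NumberField K] [Field L] [NumberField L] [Algebra K L]
variable {κ κ' : Type} [Fintype κ] [Fintype κ']

/-- the inner product with the induced representation -/
theorem bc_z {π : Params K} (h : π.IsCuspidal) {σ : κ' → Params L}
    (hσ : ∀ k, (σ k).IsCuspidal) {n : κ' → ℝ} (hn : BaseChange π σ n) (ρ : WRep L)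
    {a : κ' → ℤ} (ha : ∀ k, HasOrd (LW (σ k) ρ) 1 (a k)) :
    (fun ε => ip ε (aH π) (bH (Ind K ρ)) + (∑ k, n k * a k) * LL ε) =o[𝓝[>] 0] LL := by
  have h1 := bc_weil h hσ hn ρ
  have h3 : (fun ε => ∑ k, n k * (Real.log ‖LWr (σ k) ρ (1 + ε)‖ -
      ip ε (aH (σ k)) (bH ρ))) =o[𝓝[>] 0] LL :=
    finset_isLittleO Finset.univ fun k _ => (lw_est (hσ k) ρ).2.const_mul_left _
  have h4 : (fun ε => ∑ k, n k * (Real.log ‖LWr (σ k) ρ (1 + ε)‖ + a k * LL ε))
      =o[𝓝[>] 0] LL :=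
    finset_isLittleO Finset.univ fun k _ => (lw_ord_log (ha k)).const_mul_left _
  refine ((h1.sub h3).add h4).congr_left fun ε => ?_
  simp only [mul_sub, mul_add, Finset.sum_sub_distrib, Finset.sum_add_distrib]
  have e2 : ∑ k, n k * (a k * LL ε) = (∑ k, n k * a k) * LL ε := by
    rw [Finset.sum_mul]
    exact Finset.sum_congr rfl fun k _ => by ring
  rw [e2]
  ring

variable [DecidableEq κ]

/-- **The distance.** -/
theorem bc_dist (π : κ → Params K) (h : ∀ i, (π i).IsCuspidal)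
    (hne : ∀ i j, i ≠ j → HasOrd (RS (π i) (π j)) 1 0) (R : WRep K) {N : κ → ℝ}
    (hz : ∀ i, (fun ε => ip ε (aH (π i)) (bH R) + N i * LL ε) =o[𝓝[>] 0] LL) {η : ℝ}
    (hη : 0 < η) : ∀ᶠ ε : ℝ in 𝓝[>] 0,
      ip ε (fun x => ∑ i, (N i : ℂ) * aH (π i) x + ((1 : ℝ) : ℂ) * bH R x)
        (fun x => ∑ i, (N i : ℂ) * aH (π i) x + ((1 : ℝ) : ℂ) * bH R x) ≤
      (R.inner R - ∑ i, N i ^ 2 + (∑ i, N i ^ 2 + 3) * η) * LL ε := by
  have h1 := comb_le π h hne N hη
  have h2 : (fun ε => ∑ i, N i * (ip ε (aH (π i)) (bH R) + N i * LL ε)) =o[𝓝[>] 0] LL :=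
    finset_isLittleO Finset.univ fun i _ => (hz i).const_mul_left _
  have h3 := ip_bH R R
  filter_upwards [h1, (isLittleO_iff.1 h2) hη, (isLittleO_iff.1 h3) hη,
    LL_tendsto.eventually_gt_atTop 0, self_mem_nhdsWithin] with ε h4 h5 h6 h7 hε'
  have hε : (0 : ℝ) < ε := hε'
  rw [Real.norm_eq_abs, Real.norm_of_nonneg h7.le] at h5 h6
  have h8 := (abs_le.1 h5).2
  have h9 := (abs_le.1 h6).2
  have e1 : ip ε (fun x => ∑ i, (N i : ℂ) * aH (π i) x) (bH R) =
      ∑ i, N i * ip ε (aH (π i)) (bH R) :=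
    ip_sum Finset.univ (fun i _ => L2.aH (h i)) N (L2.bH R) hε
  have e2 : ∑ i, N i * (ip ε (aH (π i)) (bH R) + N i * LL ε) =
      ∑ i, N i * ip ε (aH (π i)) (bH R) + (∑ i, N i ^ 2) * LL ε := by
    rw [Finset.sum_mul, ← Finset.sum_add_distrib]
    exact Finset.sum_congr rfl fun i _ => by ring
  rw [ip_add_smul (comb_L2 π h N) (L2.bH R) 1 hε, e1]
  rw [e2] at h8
  nlinarith

theorem bc_bessel (π : κ → Params K) (h : ∀ i, (π i).IsCuspidal)
    (hne : ∀ i j, i ≠ j → HasOrd (RS (π i) (π j)) 1 0) (R : WRep K) {N : κ → ℝ}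
    (hz : ∀ i, (fun ε => ip ε (aH (π i)) (bH R) + N i * LL ε) =o[𝓝[>] 0] LL) :
    ∑ i, N i ^ 2 ≤ R.inner R := by
  refine le_of_forall_pos_le_add fun θ hθ => ?_
  have hS : 0 ≤ ∑ i, N i ^ 2 := Finset.sum_nonneg fun i _ => sq_nonneg _
  have h1 := bc_dist π h hne R hz (η := θ / (∑ i, N i ^ 2 + 3)) (by positivity)
  obtain ⟨ε, h2, h3⟩ := (h1.and (LL_tendsto.eventually_gt_atTop 0)).exists
  have h4 := (ip_self_nonneg ε _).trans h2
  have e1 : (∑ i, N i ^ 2 + 3) * (θ / (∑ i, N i ^ 2 + 3)) = θ := by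
    field_simp
  rw [e1] at h4
  have h5 := nonneg_of_mul_nonneg_left h4 h3
  linarith

theorem bc_dens (π : κ → Params K) (h : ∀ i, (π i).IsCuspidal)
    (hne : ∀ i j, i ≠ j → HasOrd (RS (π i) (π j)) 1 0) (R : WRep K) {N : κ → ℝ}
    (hz : ∀ i, (fun ε => ip ε (aH (π i)) (bH R) + N i * LL ε) =o[𝓝[>] 0] LL)
    (hN : ∑ i, N i ^ 2 = R.inner R) {δ : ℝ} (hδ : 0 < δ) :
    DensZero {v | δ ≤ ‖∑ i, (N i : ℂ) * ∑ j, (π i).α v j + conj (R.trace v)‖} := by
  have hS : 0 ≤ ∑ i, N i ^ 2 := Finset.sum_nonneg fun i _ => sq_nonneg _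
  have h1 : (fun ε => ip ε (fun x => ∑ i, (N i : ℂ) * aH (π i) x + ((1 : ℝ) : ℂ) * bH R x)
        (fun x => ∑ i, (N i : ℂ) * aH (π i) x + ((1 : ℝ) : ℂ) * bH R x)) =o[𝓝[>] 0] LL := by
    refine isLittleO_iff.2 fun c hc => ?_
    filter_upwards [bc_dist π h hne R hz (η := c / (∑ i, N i ^ 2 + 3)) (by positivity),
      LL_tendsto.eventually_gt_atTop 0] with ε h2 h3
    rw [Real.norm_of_nonneg (ip_self_nonneg ε _), Real.norm_of_nonneg h3.le]
    have e1 : (∑ i, N i ^ 2 + 3) * (c / (∑ i, N i ^ 2 + 3)) = c := by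
      field_simp
    rw [e1, ← hN, sub_self, zero_add] at h2
    exact h2
  apply densZero_of
  have h2 := dens_small ((comb_L2 π h N).add ((L2.bH R).smul ((1 : ℝ) : ℂ))) h1 hδ
  refine h2.congr_left fun ε => ?_
  congr 2
  ext x
  simp only [Set.mem_setOf_eq]
  have e2 : ((1 : ℝ) : ℂ) * bH R x = conj (R.trace (vx x)) := by
    unfold bH
    rw [R.trace_vx, Complex.ofReal_one, one_mul]
  rw [e2]
  rfl

end

end Pool.Agent.N172.CW
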