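import Pool.Agent.N172.CW.Fv2

/-!
# Base change to several fields
-/

set_option autoImplicit false
set_option linter.unusedSectionVars false
set_option linter.unusedVariables false
set_option linter.deprecated false

namespace Pool.Agent.N172.CW

open NumberField Complex Filter Topology IsDedekindDomain Asymptotics
open Pool.Agent.N172.HS (IsHecke WRep EH EV EV_EH exists_vx absNorm_vx vx_injective pc hv Bdd
  StNvq finset_isLittleO LL_not_littleO above finsum_above)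
open Pool.Agent.W353.TP (HX sysH push res LL LL_tendsto bdd_isLittleO)
open Pool.Agent.W353.NF (vx)
open scoped ComplexConjugate

section

variable {K : Type} [Field K] [NumberField K] {s : ℕ} {L : Fin s → Type} [∀ j, Field (L j)]
  [∀ j, NumberField (L j)] [∀ j, Algebra K (L j)]

/-- the inner product with a combination of induced representations -/
theorem multi_z {π : Params K} (h : π.IsCuspidal) {q : Fin s → ℕ}
    {σ : ∀ j, Fin (q j) → Params (L j)} (hσ : ∀ j k, (σ j k).IsCuspidal)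
    {n : ∀ j, Fin (q j) → ℝ} (hn : ∀ j, BaseChange π (σ j) (n j)) (ρ : ∀ j, WRep (L j))
    {a : ∀ j, Fin (q j) → ℤ} (ha : ∀ j k, HasOrd (LW (σ j k) (ρ j)) 1 (a j k)) (R : WRep K)
    (c : Fin s → ℝ) {E : Set (HeightOneSpectrum (𝓞 K))} (hE : E.Finite)
    (hR : ∀ v, v ∉ E → R.trace v = ∑ j, (c j : ℂ) * (Ind K (ρ j)).trace v) :
    (fun ε => ip ε (aH π) (bH R) + (∑ j, c j * ∑ k, n j k * a j k) * LL ε) =o[𝓝[>] 0] LL := by
  have h1 : (fun ε => ∑ j, c j * (ip ε (aH π) (bH (Ind K (ρ j))) +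
      (∑ k, n j k * a j k) * LL ε)) =o[𝓝[>] 0] LL :=
    finset_isLittleO Finset.univ fun j _ =>
      (bc_z h (hσ j) (hn j) (ρ j) (ha j)).const_mul_left _
  have hL : L2 (fun x => ∑ j, (c j : ℂ) * bH (Ind K (ρ j)) x) :=
    L2.sum Finset.univ (fun j _ => L2.bH _) fun j => (c j : ℂ)
  have hRe : ∀ x, x ∉ {x : HX K | vx x ∈ E} →
      bH R x = ∑ j, (c j : ℂ) * bH (Ind K (ρ j)) x := by
    intro x hx
    have h2 := hR (vx x) hx
    unfold bH
    rw [← R.trace_vx, h2, map_sum]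
    refine Finset.sum_congr rfl fun j _ => ?_
    rw [map_mul, Complex.conj_ofReal, (Ind K (ρ j)).trace_vx]
  obtain ⟨C, hC⟩ := ip_change (L2.bH R) hL (L2.aH h) (fin_dn hE) hRe
  have h3 : (fun ε => ip ε (bH R) (aH π) -
      ip ε (fun x => ∑ j, (c j : ℂ) * bH (Ind K (ρ j)) x) (aH π)) =o[𝓝[>] 0] LL := by
    apply bdd_isLittleO
    refine ⟨C, ?_⟩
    filter_upwards [self_mem_nhdsWithin] with ε hε
    exact hC ε hε
  refine (h1.add h3).congr' ?_ (EventuallyEq.refl _ _)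
  filter_upwards [self_mem_nhdsWithin] with ε hε
  rw [ip_comm ε (bH R), ip_sum Finset.univ (fun j _ => L2.bH (Ind K (ρ j))) c (L2.aH h) hε]
  have e1 : ∑ j, c j * ip ε (bH (Ind K (ρ j))) (aH π) =
      ∑ j, c j * ip ε (aH π) (bH (Ind K (ρ j))) :=
    Finset.sum_congr rfl fun j _ => by rw [ip_comm]
  rw [e1]
  simp only [mul_add, Finset.sum_add_distrib]
  have e2 : ∑ j, c j * ((∑ k, n j k * a j k) * LL ε) =
      (∑ j, c j * ∑ k, n j k * a j k) * LL ε := by
    rw [Finset.sum_mul]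
    exact Finset.sum_congr rfl fun j _ => by ring
  rw [e2]
  ring

/-- from an asymptotic formula to a limit -/
theorem tendsto_div {u : ℝ → ℝ} {c : ℝ} (h : (fun ε => u ε - c * LL ε) =o[𝓝[>] 0] LL) :
    Tendsto (fun ε => u ε / Real.log (1 / ε)) (𝓝[>] 0) (𝓝 c) := by
  have h1 := h.tendsto_div_nhds_zero
  have h2 := h1.add_const c
  rw [zero_add] at h2
  refine h2.congr' ?_
  filter_upwards [LL_tendsto.eventually_gt_atTop 0] with ε h3
  have h4 : LL ε ≠ 0 := h3.ne'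
  change (u ε - c * LL ε) / LL ε + c = u ε / LL ε
  field_simp
  ring

/-- **The result on base change and representations of the Weil group.** -/
theorem multi_final {p : ℕ} (π : Fin p → Params K) (h : ∀ i, (π i).IsCuspidal)
    (hne : ∀ i j, i ≠ j → HasOrd (RS (π i) (π j)) 1 0) {q : Fin s → ℕ}
    (σ : ∀ j, Fin (q j) → Params (L j)) (hσ : ∀ j k, (σ j k).IsCuspidal)
    (n : ∀ j, Fin p → Fin (q j) → ℝ) (hn : ∀ j i, BaseChange (π i) (σ j) (n j i))
    (ρ : ∀ j, WRep (L j)) (a : ∀ j, Fin (q j) → ℤ)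
    (ha : ∀ j k, HasOrd (LW (σ j k) (ρ j)) 1 (a j k)) (R : WRep K)
    (c : Fin s → ℝ) (E : Set (HeightOneSpectrum (𝓞 K))) (hE : E.Finite)
    (hR : ∀ v, v ∉ E → R.trace v = ∑ j, (c j : ℂ) * (Ind K (ρ j)).trace v)
    (N : Fin p → ℝ) (hN : ∀ i, N i = -∑ j, c j * ∑ k, n j i k * a j k) :
    (∀ i, Tendsto (fun ε : ℝ => Real.log ‖LW (π i) R (1 + (ε : ℂ))‖ / Real.log (1 / ε))
      (𝓝[>] 0) (𝓝 (N i))) ∧
    ∑ i, N i ^ 2 ≤ R.inner R ∧
    (∑ i, N i ^ 2 = R.inner R → ∀ η : ℝ, 0 < η →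
      DensZero {v | η ≤ ‖∑ i, (N i : ℂ) * ∑ j, (π i).α v j - conj (R.trace v)‖}) := by
  have hz : ∀ i, (fun ε => ip ε (aH (π i)) (bH R) + (-N i) * LL ε) =o[𝓝[>] 0] LL := by
    intro i
    have h1 := multi_z (h i) hσ (fun j => hn j i) ρ ha R c hE hR
    rw [hN i, neg_neg]
    exact h1
  have e1 : ∑ i, (-N i) ^ 2 = ∑ i, N i ^ 2 := Finset.sum_congr rfl fun i _ => by ring
  refine ⟨fun i => ?_, ?_, fun hS η hη => ?_⟩
  · have h1 := (lw_est (h i) R).2
    have h2 : (fun ε => Real.log ‖LWr (π i) R (1 + ε)‖ - N i * LL ε) =o[𝓝[>] 0] LL := by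
      refine (h1.add (hz i)).congr_left fun ε => ?_
      ring
    have h3 := tendsto_div h2
    simp only [LWr_eq] at h3
    exact h3
  · have h1 := bc_bessel π h hne R hz
    rwa [e1] at h1
  · have h1 := bc_dens π h hne R hz (by rw [e1, hS]) hη
    have e2 : {v | η ≤ ‖∑ i, (N i : ℂ) * ∑ j, (π i).α v j - conj (R.trace v)‖} =
        {v | η ≤ ‖∑ i, ((-N i : ℝ) : ℂ) * ∑ j, (π i).α v j + conj (R.trace v)‖} := by
      ext v
      simp only [Set.mem_setOf_eq]
      rw [← norm_neg (∑ i, (N i : ℂ) * ∑ j, (π i).α v j - conj (R.trace v))]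
      have e3 : -(∑ i, (N i : ℂ) * ∑ j, (π i).α v j - conj (R.trace v)) =
          ∑ i, ((-N i : ℝ) : ℂ) * ∑ j, (π i).α v j + conj (R.trace v) := by
        push_cast
        simp only [neg_mul, Finset.sum_neg_distrib]
        ring
      rw [e3]
    rw [e2]
    exact h1

end

end Pool.Agent.N172.CW
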