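import Pool.Agent.N172.CW.Ide

/-!
# Primes at which representations of the Weil group are close to the identity
-/

set_option autoImplicit false
set_option linter.unusedSectionVars false
set_option linter.deprecated false

namespace Pool.Agent.N172.CW

open NumberField Complex Filter Topology IsDedekindDomain Asymptotics
open Pool.Agent.N172.HS (IsHecke WRep EH vx_injective pc Bdd StNvq finset_isLittleO LL_not_littleO hv
  exists_along EH_congr EH_const_mul EH_push' eventually_HX)
open Pool.Agent.W353.TP (HX sysH push res LL LL_tendsto bdd_isLittleO card_hom_le)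
open Pool.Agent.W353.NF (vx)
open Pool.Agent.H921R2.TatePole (hom_ext_of_ker)
open scoped ComplexConjugate

section

variable {K F L : Type} [Field K] [NumberField K] [Field F] [NumberField F] [Algebra K F]
  [Field L] [NumberField L] [Algebra K L]

theorem ev_not_zero {b : 𝓞 L} (hb : b ≠ 0) : ∀ᶠ y : HX L in cofinite, y.2 b ≠ 0 := by
  have h1 : ∀ᶠ v : HeightOneSpectrum (𝓞 L) in cofinite, b ∉ v.asIdeal := by
    rw [Filter.eventually_cofinite]
    refine (Ideal.finite_factors (I := Ideal.span {b}) (by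
      rwa [Ne, Ideal.zero_eq_bot, Ideal.span_singleton_eq_bot])).subset fun v hv => ?_
    rw [Set.mem_ofPred_eq, not_not] at hv
    rw [Set.mem_ofPred_eq, Ideal.dvd_span_singleton]
    exact hv
  filter_upwards [eventually_HX h1] with y hy
  intro h
  exact hy (RingHom.mem_ker.2 h)

/-- an embedding on the rings of integers -/
noncomputable def io (τ : F →ₐ[K] L) : 𝓞 F →+* 𝓞 L := RingOfIntegers.mapRingHom (τ : F →+* L)

theorem io_coe (τ : F →ₐ[K] L) (a : 𝓞 F) : ((io τ a : 𝓞 L) : L) = τ (a : F) := rfl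

theorem io_alg (τ : F →ₐ[K] L) (a : 𝓞 K) :
    io τ (algebraMap (𝓞 K) (𝓞 F) a) = algebraMap (𝓞 K) (𝓞 L) a := by
  apply RingOfIntegers.ext
  rw [io_coe]
  exact τ.commutes (a : K)

theorem io_injective : Function.Injective (io : (F →ₐ[K] L) → (𝓞 F →+* 𝓞 L)) := by
  intro τ τ' h
  ext x
  obtain ⟨a, b, hb, rfl⟩ := IsFractionRing.div_surjective (A := 𝓞 F) x
  rw [map_div₀, map_div₀]
  have e1 : ∀ c : 𝓞 F, τ (algebraMap (𝓞 F) F c) = τ' (algebraMap (𝓞 F) F c) := fun c =>
    congrArg (fun z : 𝓞 L => (z : L)) (RingHom.congr_fun h c)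
  rw [e1, e1]

/-- the restriction of a prime of degree one along an embedding -/
noncomputable def along (τ : F →ₐ[K] L) (y : HX L) : HX F := ⟨y.1, y.2.comp (io τ)⟩

/-- **The trace of an induced representation at a completely split prime.** -/
theorem split_trace (hc : Module.finrank K F ≤ Fintype.card (F →ₐ[K] L))
    (χ : Ideal (𝓞 F) →*₀ ℂ) : ∀ᶠ y : HX L in cofinite,
      pc K χ (dnH (K := K) y) = ∑ τ : F →ₐ[K] L, hv χ (along τ y) := by
  classical
  have h1 : ∀ z : (F →ₐ[K] L) × (F →ₐ[K] L), ∀ᶠ y : HX L in cofinite,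
      z.1 ≠ z.2 → y.2.comp (io z.1) ≠ y.2.comp (io z.2) := by
    rintro ⟨τ, τ'⟩
    by_cases h : τ = τ'
    · exact Filter.Eventually.of_forall fun y hy => absurd h hy
    · have h2 : ∃ a : 𝓞 F, io τ a - io τ' a ≠ 0 := by
        by_contra hcon
        push Not at hcon
        exact h (io_injective (RingHom.ext fun a => sub_eq_zero.1 (hcon a)))
      obtain ⟨a, ha⟩ := h2
      filter_upwards [ev_not_zero ha] with y hy _ hcon
      apply hy
      rw [map_sub, sub_eq_zero]
      exact RingHom.congr_fun hcon a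
  have h2 := Filter.eventually_all.2 h1
  filter_upwards [h2] with y hy
  have hinj : Function.Injective (fun τ : F →ₐ[K] L => y.2.comp (io τ)) := by
    intro τ τ' h
    by_contra hne
    exact hy (τ, τ') hne h
  set S : Finset (𝓞 F →+* ZMod (y.1 : ℕ)) :=
    Finset.univ.filter (fun ψ : 𝓞 F →+* ZMod (y.1 : ℕ) => res K ψ = res K y.2) with hS
  have hsub : Finset.univ.image (fun τ : F →ₐ[K] L => y.2.comp (io τ)) ⊆ S := by
    intro ψ hψ
    rw [Finset.mem_image] at hψ
    obtain ⟨τ, -, rfl⟩ := hψ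
    rw [hS, Finset.mem_filter]
    refine ⟨Finset.mem_univ _, RingHom.ext fun a => ?_⟩
    change y.2 (io τ (algebraMap (𝓞 K) (𝓞 F) a)) = y.2 (algebraMap (𝓞 K) (𝓞 L) a)
    rw [io_alg]
  have hcard : S.card ≤ Module.finrank K F := by
    have h3 : (S.image fun ψ => vx (⟨y.1, ψ⟩ : HX F)).card ≤ Module.finrank K F := by
      refine card_under _ (vx (dnH (K := K) y)) fun w hw => ?_
      rw [Finset.mem_image] at hw
      obtain ⟨ψ, hψ, rfl⟩ := hw
      rw [hS, Finset.mem_filter] at hψ
      rw [under_vx]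
      unfold dnH
      simp only
      rw [hψ.2]
    rwa [Finset.card_image_of_injOn] at h3
    intro ψ _ ψ' _ h
    have h4 := vx_injective h
    exact eq_of_heq (Sigma.ext_iff.1 h4).2
  have heq : Finset.univ.image (fun τ : F →ₐ[K] L => y.2.comp (io τ)) = S := by
    apply Finset.eq_of_subset_of_card_le hsub
    rw [Finset.card_image_of_injective _ hinj, Finset.card_univ]
    exact hcard.trans hc
  have e1 : pc K χ (dnH (K := K) y) = ∑ ψ ∈ S, hv χ (⟨y.1, ψ⟩ : HX F) := rfl
  rw [e1, ← heq, Finset.sum_image fun τ _ τ' _ h => hinj h]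
  rfl

/-- the values along an embedding are the values of a Hecke character -/
theorem isHf_along {𝔣 : Ideal (𝓞 F)} {k : (F →+* ℂ) → ℤ} {t : (F →+* ℂ) → ℝ}
    {χ : Ideal (𝓞 F) →*₀ ℂ} (h : IsHecke 𝔣 k t χ) (τ : F →ₐ[K] L) :
    IsHf (fun y : HX L => hv χ (along τ y)) := by
  obtain ⟨_, _, _, ψ, hψ, hψ2⟩ := exists_along (τ : F →+* L) (io τ) (fun _ => rfl) h
  refine ⟨_, _, _, ψ, hψ, fun y => ?_⟩
  have : Fact (y.1 : ℕ).Prime := ⟨y.1.2⟩
  exact (hψ2 (y.1 : ℕ) y.2).symm

end

section

variable {K : Type} [Field K] [NumberField K]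

/-- a common splitting field -/
theorem exists_split {ι : Type} [Finite ι] (F : ι → Type) [∀ i, Field (F i)]
    [∀ i, NumberField (F i)] [∀ i, Algebra K (F i)] :
    ∃ (L : Type) (_ : Field L) (_ : NumberField L) (_ : Algebra K L),
      ∀ i, Module.finrank K (F i) ≤ Fintype.card (F i →ₐ[K] L) := by
  classical
  let M : IntermediateField K (AlgebraicClosure K) :=
    ⨆ z : Σ i, (F i →ₐ[K] AlgebraicClosure K), z.2.fieldRange
  have hfin : ∀ z : Σ i, (F i →ₐ[K] AlgebraicClosure K),
      FiniteDimensional K z.2.fieldRange := fun z => by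
    have h0 : FiniteDimensional K (F z.1) := Module.Finite.of_restrictScalars_finite ℚ K _
    exact (AlgEquiv.ofInjectiveField z.2).toLinearEquiv.finiteDimensional
  have hM : FiniteDimensional K M := IntermediateField.finiteDimensional_iSup_of_finite
  have hN : NumberField M := NumberField.of_module_finite K M
  refine ⟨M, inferInstance, hN, inferInstance, fun i => ?_⟩
  have h1 : Fintype.card (F i →ₐ[K] AlgebraicClosure K) = Module.finrank K (F i) :=
    AlgHom.card K (F i) (AlgebraicClosure K)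
  rw [← h1]
  refine Fintype.card_le_of_injective
    (fun τ => (AlgHom.codRestrict τ M.toSubalgebra (fun x => ?_) : F i →ₐ[K] M)) ?_
  · have h2 : τ.fieldRange ≤ M :=
      le_iSup (fun z : Σ i, (F i →ₐ[K] AlgebraicClosure K) => z.2.fieldRange) ⟨i, τ⟩
    exact h2 ⟨x, rfl⟩
  · intro τ τ' h
    ext x
    have h2 := AlgHom.congr_fun h x
    exact congrArg (fun z : M => (z : AlgebraicClosure K)) h2

/-- **The representations `ρ k` of the Weil group are simultaneously close to the identity at a set of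
primes of positive lower density.** -/
theorem near_id {s : ℕ} (ρ : Fin s → WRep K) {δ : ℝ} (hδ : 0 < δ) :
    ∃ κ : ℝ, 0 < κ ∧ ∀ᶠ ε : ℝ in 𝓝[>] 0,
      κ * LL ε ≤ EH K ε (ind {x | ∀ k, ‖(ρ k).tH x - dim (ρ k)‖ < δ}) := by
  classical
  let ι : Type := Σ k : Fin s, Fin (ρ k).r
  let Fc : ι → Type := fun z => (ρ z.1).F z.2
  obtain ⟨L, _, _, _, hL⟩ := exists_split (K := K) (ι := ι) Fc
  let J : Type := Σ z : ι, (Fc z →ₐ[K] L)
  have hJ : Fintype J := inferInstance
  let f : J → HX L → ℂ := fun j y => hv ((ρ j.1.1).χ j.1.2) (along j.2 y)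
  have hf : ∀ j, IsHf (f j) := fun j => isHf_along ((ρ j.1.1).hecke j.1.2) j.2
  -- the constant
  set B : ℝ := ∑ k, ∑ j, |((ρ k).c j : ℝ)| * Module.finrank K ((ρ k).F j) with hB
  have hB0 : 0 ≤ B := Finset.sum_nonneg fun k _ => Finset.sum_nonneg fun j _ => by positivity
  obtain ⟨κ, hκ, hev⟩ := near_one (L := L) hf (δ := δ / (B + 1)) (by positivity)
  set SL : Set (HX L) := {x | ∀ j, ‖f j x - 1‖ < δ / (B + 1)} with hSL
  set SK : Set (HX K) := {x | ∀ k, ‖(ρ k).tH x - dim (ρ k)‖ < δ} with hSK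
  -- the cardinality of the embeddings
  have hcard : ∀ z : ι, Fintype.card (Fc z →ₐ[K] L) = Module.finrank K (Fc z) := fun z =>
    le_antisymm (by
      rw [← Nat.card_eq_fintype_card]
      exact card_algHom_le_finrank K (Fc z) L) (hL z)
  have hsplit : ∀ᶠ y : HX L in cofinite, ∀ z : ι,
      pc K ((ρ z.1).χ z.2) (dnH (K := K) y) = ∑ τ : Fc z →ₐ[K] L, hv ((ρ z.1).χ z.2) (along τ y) :=
    Filter.eventually_all.2 fun z => split_trace (hL z) _
  have hin : ∀ᶠ y : HX L in cofinite, y ∈ SL → dnH (K := K) y ∈ SK := by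
    filter_upwards [hsplit] with y hy hyS k
    have e1 : (ρ k).tH (dnH (K := K) y) - (dim (ρ k) : ℂ) =
        ∑ j, ((ρ k).c j : ℂ) * ∑ τ : (ρ k).F j →ₐ[K] L, (hv ((ρ k).χ j) (along τ y) - 1) := by
      unfold WRep.tH dim
      push_cast
      rw [← Finset.sum_sub_distrib]
      refine Finset.sum_congr rfl fun j _ => ?_
      rw [hy ⟨k, j⟩, ← mul_sub, Finset.sum_sub_distrib, Finset.sum_const, Finset.card_univ,
        nsmul_eq_mul, mul_one]
      congr 3
      exact_mod_cast (hcard ⟨k, j⟩).symm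
    change ‖(ρ k).tH (dnH (K := K) y) - (dim (ρ k) : ℂ)‖ < δ
    rw [e1]
    have e2 : ∀ j, ‖((ρ k).c j : ℂ) * ∑ τ : (ρ k).F j →ₐ[K] L,
        (hv ((ρ k).χ j) (along τ y) - 1)‖ ≤
        |((ρ k).c j : ℝ)| * Module.finrank K ((ρ k).F j) * (δ / (B + 1)) := by
      intro j
      rw [norm_mul, Complex.norm_intCast, mul_assoc]
      refine mul_le_mul_of_nonneg_left ?_ (abs_nonneg _)
      refine (norm_sum_le _ _).trans ?_
      refine (Finset.sum_le_sum fun τ _ => (hyS ⟨⟨k, j⟩, τ⟩).le).trans ?_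
      rw [Finset.sum_const, Finset.card_univ, nsmul_eq_mul]
      have := hcard ⟨k, j⟩
      rw [← this]
    calc ‖∑ j, ((ρ k).c j : ℂ) * ∑ τ : (ρ k).F j →ₐ[K] L, (hv ((ρ k).χ j) (along τ y) - 1)‖ ≤
        ∑ j, |((ρ k).c j : ℝ)| * Module.finrank K ((ρ k).F j) * (δ / (B + 1)) :=
          (norm_sum_le _ _).trans (Finset.sum_le_sum fun j _ => e2 j)
      _ = (∑ j, |((ρ k).c j : ℝ)| * Module.finrank K ((ρ k).F j)) * (δ / (B + 1)) := by
          rw [Finset.sum_mul]
      _ ≤ B * (δ / (B + 1)) := by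
          refine mul_le_mul_of_nonneg_right ?_ (by positivity)
          exact Finset.single_le_sum (f := fun k => ∑ j, |((ρ k).c j : ℝ)| *
            Module.finrank K ((ρ k).F j)) (fun k _ => Finset.sum_nonneg fun j _ => by positivity)
            (Finset.mem_univ k)
      _ < δ := by
          rw [mul_div_assoc', div_lt_iff₀ (by positivity)]
          nlinarith
  -- transfer to `K`
  set SL' : Set (HX L) := {y | y ∈ SL ∧ dnH (K := K) y ∈ SK} with hSL'
  have h1 : (fun ε => EH L ε (ind SL) - EH L ε (ind SL')) =o[𝓝[>] 0] LL := by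
    refine EH_congr (K := L) ?_ (abs_ind SL) (abs_ind SL')
    filter_upwards [hin] with y hy
    unfold ind
    by_cases h : y ∈ SL
    · rw [if_pos h, if_pos (show y ∈ SL' from ⟨h, hy h⟩)]
    · rw [if_neg h, if_neg (fun h' : y ∈ SL' => h h'.1)]
  set D : ℝ := (Module.finrank ℚ L : ℝ) with hD
  have hD0 : 0 < D := by rw [hD]; exact_mod_cast Module.finrank_pos
  have hpush : ∀ x : HX K, push K (ind SL') x ≤ D * ind SK x := by
    intro x
    unfold push
    by_cases hx : x ∈ SK
    · have e1 : ind SK x = 1 := if_pos hx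
      rw [e1, mul_one]
      refine (Finset.sum_le_sum fun ψ _ => ind_le SL' _).trans ?_
      rw [Finset.sum_const, nsmul_eq_mul, mul_one]
      have h2 := Finset.card_filter_le (Finset.univ : Finset (𝓞 L →+* ZMod (x.1 : ℕ)))
        (fun ψ => res K ψ = x.2)
      rw [Finset.card_univ] at h2
      rw [hD]
      exact_mod_cast h2.trans (card_hom_le x.1)
    · have e1 : ind SK x = 0 := if_neg hx
      rw [e1, mul_zero]
      refine le_of_eq (Finset.sum_eq_zero fun ψ hψ => ?_)
      rw [Finset.mem_filter] at hψ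
      have e2 : dnH (K := K) (⟨x.1, ψ⟩ : HX L) = x := by
        unfold dnH
        simp only
        rw [hψ.2]
      refine if_neg fun h' => hx ?_
      have h3 := h'.2
      rwa [e2] at h3
  refine ⟨κ / 2 / D, by positivity, ?_⟩
  filter_upwards [hev, (isLittleO_iff.1 h1) (half_pos hκ), LL_tendsto.eventually_gt_atTop 0,
    self_mem_nhdsWithin] with ε h2 h3 h4 h5
  have hε : (0 : ℝ) < ε := h5
  rw [Real.norm_eq_abs, Real.norm_of_nonneg h4.le] at h3
  have h6 := (abs_le.1 h3).2
  have h7 : EH L ε (ind SL') ≤ D * EH K ε (ind SK) := by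
    rw [EH_push' (K := K) hε (abs_ind SL'), ← EH_const_mul, EH_def, EH_def]
    have hs1 : Summable fun x : HX K => push K (ind SL') x * wH ε x := by
      refine Summable.of_norm_bounded ((wH_summable (K := K) hε).mul_left D) fun x => ?_
      rw [norm_mul, Real.norm_of_nonneg (wH_nonneg ε x), Real.norm_eq_abs]
      refine mul_le_mul_of_nonneg_right ?_ (wH_nonneg ε x)
      have h9 : 0 ≤ push K (ind SL') x := Finset.sum_nonneg fun ψ _ => ind_nonneg SL' _
      rw [abs_of_nonneg h9]
      exact (hpush x).trans (mul_le_of_le_one_right hD0.le (ind_le SK x))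
    have hs2 : Summable fun x : HX K => D * ind SK x * wH ε x := by
      refine Summable.of_norm_bounded ((wH_summable (K := K) hε).mul_left D) fun x => ?_
      rw [norm_mul, Real.norm_of_nonneg (wH_nonneg ε x), Real.norm_eq_abs, abs_mul,
        abs_of_pos hD0]
      exact mul_le_mul_of_nonneg_right (mul_le_of_le_one_right hD0.le (abs_ind SK x))
        (wH_nonneg ε x)
    exact hs1.tsum_le_tsum (fun x => mul_le_mul_of_nonneg_right (hpush x) (wH_nonneg ε x)) hs2
  have h8 : κ / 2 * LL ε ≤ D * EH K ε (ind SK) := by linarith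
  rw [div_mul_eq_mul_div, div_le_iff₀ hD0]
  linarith

end

end Pool.Agent.N172.CW
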