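import Pool.Agent.N172.CW.Ord
import Pool.Agent.N172.HS.Pr

/-!
# Primes at which finitely many Hecke characters are close to one
-/

set_option autoImplicit false
set_option linter.unusedSectionVars false
set_option linter.deprecated false

namespace Pool.Agent.N172.CW

open NumberField Complex Filter Topology IsDedekindDomain Asymptotics
open Pool.Agent.N172.HS (IsHecke WRep EH vx_injective pc Bdd StNvq finset_isLittleO LL_not_littleO hv
  mulc cj mulc_apply cj_apply unitChar unitChar_apply isHecke_unit meanH_zero meanH_one norm_hv_le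
  exists_vx EH_one)
open Pool.Agent.W353.TP (HX sysH push res LL LL_tendsto bdd_isLittleO lamS_sub)
open Pool.Agent.W353.NF (vx)
open scoped ComplexConjugate

section

variable {L : Type} [Field L] [NumberField L]

/-- the values of a Hecke character at the primes of degree one -/
def IsHf (φ : HX L → ℂ) : Prop :=
  ∃ (𝔣 : Ideal (𝓞 L)) (k : (L →+* ℂ) → ℤ) (t : (L →+* ℂ) → ℝ) (ψ : Ideal (𝓞 L) →*₀ ℂ),
    IsHecke 𝔣 k t ψ ∧ ∀ x, φ x = hv ψ x

theorem IsHf.one : IsHf (fun _ : HX L => (1 : ℂ)) :=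
  ⟨_, _, _, _, isHecke_unit L, fun x => (unitChar_apply L (vx x).ne_bot).symm⟩

theorem IsHf.mul {φ φ' : HX L → ℂ} (h : IsHf φ) (h' : IsHf φ') : IsHf (fun x => φ x * φ' x) := by
  obtain ⟨_, _, _, ψ, hψ, h1⟩ := h
  obtain ⟨_, _, _, ψ', hψ', h2⟩ := h'
  exact ⟨_, _, _, _, hψ.mul hψ', fun x => by
    change φ x * φ' x = _
    rw [h1, h2]
    rfl⟩

theorem IsHf.conj {φ : HX L → ℂ} (h : IsHf φ) : IsHf (fun x => conj (φ x)) := by
  obtain ⟨_, _, _, ψ, hψ, h1⟩ := h
  exact ⟨_, _, _, _, hψ.conj, fun x => by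
    change (starRingEnd ℂ) (φ x) = _
    rw [h1]
    rfl⟩

theorem IsHf.pow {φ : HX L → ℂ} (h : IsHf φ) (n : ℕ) : IsHf (fun x => φ x ^ n) := by
  induction n with
  | zero => simpa using IsHf.one (L := L)
  | succ n ih => simpa only [pow_succ] using ih.mul h

theorem IsHf.prod {ι : Type*} (s : Finset ι) {f : ι → HX L → ℂ} (h : ∀ i, IsHf (f i)) :
    IsHf (fun x => ∏ i ∈ s, f i x) := by
  classical
  induction s using Finset.induction_on with
  | empty => simpa using IsHf.one (L := L)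
  | insert a s ha ih => simpa only [Finset.prod_insert ha] using (h a).mul ih

theorem IsHf.norm_le {φ : HX L → ℂ} (h : IsHf φ) (x : HX L) : ‖φ x‖ ≤ 1 := by
  obtain ⟨_, _, _, ψ, hψ, h1⟩ := h
  rw [h1]
  exact norm_hv_le hψ x

theorem IsHf.bdd {φ : HX L → ℂ} (h : IsHf φ) : Bdd φ := ⟨1, zero_le_one, h.norm_le⟩

/-- the mean value of a Hecke character is zero or one -/
theorem IsHf.mean {φ : HX L → ℂ} (h : IsHf φ) : ∃ g : ℝ, 0 ≤ g ∧
    (fun ε => EH L ε (fun x => (φ x).re) - g * LL ε) =o[𝓝[>] 0] LL := by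
  obtain ⟨_, _, _, ψ, hψ, h1⟩ := h
  have e : (fun x => (φ x).re) = fun x => (hv ψ x).re := by funext x; rw [h1]
  rw [e]
  by_cases h2 : ∃ 𝔠, ψ 𝔠 ≠ 0 ∧ ψ 𝔠 ≠ 1
  · refine ⟨0, le_rfl, (meanH_zero Pool.Agent.N134.HS.t_nvq hψ h2).congr_left fun ε => ?_⟩
    ring
  · push Not at h2
    refine ⟨1, zero_le_one, ?_⟩
    have h3 := meanH_one (K := L) (g := fun v => (ψ v.asIdeal).re)
      (fun v => (Complex.abs_re_le_norm _).trans (hψ.norm_le _)) (by
        filter_upwards [hψ.eventually_ne] with v hv _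
        rw [h2 _ hv, Complex.one_re])
    refine h3.congr_left fun ε => ?_
    rw [one_mul]
    rfl

theorem IsHf.gram {φ φ' : HX L → ℂ} (h : IsHf φ) (h' : IsHf φ') : ∃ g : ℝ, 0 ≤ g ∧
    (fun ε => ip ε φ φ' - g * LL ε) =o[𝓝[>] 0] LL := (h.mul h'.conj).mean

theorem IsHf.gram_self {φ : HX L → ℂ} (h : IsHf φ) :
    (fun ε => ip ε φ φ - 1 * LL ε) =o[𝓝[>] 0] LL := by
  obtain ⟨_, _, _, ψ, hψ, h1⟩ := h
  have h3 := meanH_one (K := L) (g := fun v => (ψ v.asIdeal * conj (ψ v.asIdeal)).re)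
    (fun v => by
      refine (Complex.abs_re_le_norm _).trans ?_
      rw [norm_mul, Complex.norm_conj]
      exact mul_le_one₀ (hψ.norm_le _) (norm_nonneg _) (hψ.norm_le _)) (by
      filter_upwards [hψ.eventually_ne] with v hv _
      rw [Complex.mul_conj, Complex.ofReal_re, Complex.normSq_eq_norm_sq, hψ.unit _ hv]
      norm_num)
  refine h3.congr_left fun ε => ?_
  rw [one_mul]
  congr 1
  unfold ip
  congr 1
  funext x
  rw [h1]
  rfl

/-- the mean square of a sum of characters with nonnegative coefficients -/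
theorem pos_lower {κ : Type} [Fintype κ] {f : κ → HX L → ℂ} (hf : ∀ t, IsHf (f t)) {c : κ → ℝ}
    (hc : ∀ t, 0 ≤ c t) {δ : ℝ} (hδ : 0 < δ) :
    ∀ᶠ ε : ℝ in 𝓝[>] 0, (∑ t, c t ^ 2 - δ) * LL ε ≤
      ip ε (fun x => ∑ t, (c t : ℂ) * f t x) (fun x => ∑ t, (c t : ℂ) * f t x) := by
  classical
  have hg : ∀ t u, ∃ g : ℝ, 0 ≤ g ∧ (t = u → g = 1) ∧
      (fun ε => ip ε (f t) (f u) - g * LL ε) =o[𝓝[>] 0] LL := by
    intro t u
    by_cases h : t = u
    · subst h
      exact ⟨1, zero_le_one, fun _ => rfl, (hf t).gram_self⟩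
    · obtain ⟨g, hg0, hg⟩ := (hf t).gram (hf u)
      exact ⟨g, hg0, fun h' => absurd h' h, hg⟩
  choose g hg0 hg1 hg using hg
  have h1 : (fun ε => ip ε (fun x => ∑ t, (c t : ℂ) * f t x) (fun x => ∑ t, (c t : ℂ) * f t x) -
      (∑ t, ∑ u, c t * c u * g t u) * LL ε) =o[𝓝[>] 0] LL := by
    have h2 := finset_isLittleO (Finset.univ : Finset κ) (fun t _ =>
      finset_isLittleO (Finset.univ : Finset κ) (fun u _ => (hg t u).const_mul_left (c t * c u)))
    refine h2.congr' ?_ (EventuallyEq.refl _ _)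
    filter_upwards [self_mem_nhdsWithin] with ε hε
    rw [ip_sum_sum (K := L) Finset.univ Finset.univ (fun t _ => L2.of_bdd (hf t).bdd)
      (fun t _ => L2.of_bdd (hf t).bdd) c c hε, Finset.sum_mul, ← Finset.sum_sub_distrib]
    refine Finset.sum_congr rfl fun t _ => ?_
    rw [Finset.sum_mul, ← Finset.sum_sub_distrib]
    refine Finset.sum_congr rfl fun u _ => ?_
    ring
  have h3 : ∑ t, c t ^ 2 ≤ ∑ t, ∑ u, c t * c u * g t u := by
    refine Finset.sum_le_sum fun t _ => ?_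
    have h4 : c t ^ 2 = c t * c t * g t t := by rw [hg1 t t rfl]; ring
    rw [h4]
    exact Finset.single_le_sum (f := fun u => c t * c u * g t u)
      (fun u _ => mul_nonneg (mul_nonneg (hc t) (hc u)) (hg0 t u)) (Finset.mem_univ t)
  filter_upwards [(isLittleO_iff.1 h1) hδ, LL_tendsto.eventually_gt_atTop 0] with ε h4 h5
  rw [Real.norm_eq_abs, Real.norm_of_nonneg h5.le] at h4
  have h6 := (abs_le.1 h4).1
  have h7 := mul_le_mul_of_nonneg_right h3 h5.le
  nlinarith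

open Classical in
/-- the indicator function -/
noncomputable def ind (S : Set (HX L)) (x : HX L) : ℝ := if x ∈ S then 1 else 0

theorem ind_nonneg (S : Set (HX L)) (x : HX L) : 0 ≤ ind S x := by
  unfold ind; split_ifs <;> norm_num

theorem ind_le (S : Set (HX L)) (x : HX L) : ind S x ≤ 1 := by
  unfold ind; split_ifs <;> norm_num

theorem abs_ind (S : Set (HX L)) (x : HX L) : |ind S x| ≤ 1 := by
  rw [abs_of_nonneg (ind_nonneg S x)]
  exact ind_le S x

/-- the half of `1 + z` -/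
theorem half_bound {z : ℂ} (hz : ‖z‖ ≤ 1) : ‖(1 + z) / 2‖ ^ 2 ≤ 1 ∧
    ‖z - 1‖ ^ 2 ≤ 4 * (1 - ‖(1 + z) / 2‖ ^ 2) := by
  have h1 : ‖(1 + z) / 2‖ ^ 2 = (1 + 2 * z.re + ‖z‖ ^ 2) / 4 := by
    rw [← Complex.normSq_eq_norm_sq, ← Complex.normSq_eq_norm_sq, Complex.normSq_apply,
      Complex.normSq_apply]
    simp
    ring
  have h2 : ‖z - 1‖ ^ 2 = 1 - 2 * z.re + ‖z‖ ^ 2 := by
    rw [← Complex.normSq_eq_norm_sq, ← Complex.normSq_eq_norm_sq, Complex.normSq_apply,
      Complex.normSq_apply]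
    simp
    ring
  have h3 : ‖z‖ ^ 2 ≤ 1 := pow_le_one₀ (norm_nonneg _) hz
  have h4 : z.re ≤ 1 := (Complex.re_le_norm z).trans hz
  rw [h1, h2]
  constructor <;> nlinarith

/-- **Finitely many Hecke characters are simultaneously close to one at a set of primes of positive
lower density.** -/
theorem near_one {ι : Type} [Fintype ι] {f : ι → HX L → ℂ} (hf : ∀ i, IsHf (f i)) {δ : ℝ}
    (hδ : 0 < δ) : ∃ κ : ℝ, 0 < κ ∧ ∀ᶠ ε : ℝ in 𝓝[>] 0,
      κ * LL ε ≤ EH L ε (ind {x | ∀ i, ‖f i x - 1‖ < δ}) := by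
  classical
  set S : Set (HX L) := {x | ∀ i, ‖f i x - 1‖ < δ} with hS
  obtain ⟨η, hη0, hη1, hη⟩ : ∃ η : ℝ, 0 < η ∧ η < 1 ∧ 4 * η < δ ^ 2 := by
    refine ⟨min (1 / 2) (δ ^ 2 / 8), lt_min (by norm_num) (by positivity),
      (min_le_left _ _).trans_lt (by norm_num), ?_⟩
    have := min_le_right (1 / 2 : ℝ) (δ ^ 2 / 8)
    nlinarith [sq_pos_of_pos hδ]
  -- the exponent
  obtain ⟨k, hk⟩ : ∃ k : ℕ, ((k : ℝ) + 1) ^ Fintype.card ι * (1 - η) ^ k < 1 / 4 := by
    have h1 := tendsto_pow_const_mul_const_pow_of_abs_lt_one (Fintype.card ι) (r := 1 - η)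
      (by rw [abs_of_nonneg (by linarith)]; linarith)
    have h2 := h1.comp (tendsto_add_atTop_nat 1)
    have h3 := h2.eventually_lt_const (u := (1 - η) / 4) (by linarith)
    obtain ⟨k, hk⟩ := h3.exists
    refine ⟨k, ?_⟩
    simp only [Function.comp_apply, Nat.cast_add, Nat.cast_one] at hk
    rw [pow_succ] at hk
    have h4 : 0 < 1 - η := by linarith
    have h5 : ((k : ℝ) + 1) ^ Fintype.card ι * (1 - η) ^ k * (1 - η) < 1 / 4 * (1 - η) := by
      calc _ = ((k : ℝ) + 1) ^ Fintype.card ι * ((1 - η) ^ k * (1 - η)) := by ring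
        _ < (1 - η) / 4 := hk
        _ = _ := by ring
    exact lt_of_mul_lt_mul_right h5 h4.le
  set N : ℝ := ((k : ℝ) + 1) ^ Fintype.card ι with hN
  have hN0 : 0 < N := by rw [hN]; positivity
  -- the kernel
  set b : Fin (k + 1) → ℝ := fun j => (k.choose j : ℝ) / 2 ^ k with hb
  have hb0 : ∀ j, 0 ≤ b j := fun j => by rw [hb]; positivity
  set c : (ι → Fin (k + 1)) → ℝ := fun a => ∏ i, b (a i) with hc
  have hc0 : ∀ a, 0 ≤ c a := fun a => Finset.prod_nonneg fun i _ => hb0 _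
  set g : (ι → Fin (k + 1)) → HX L → ℂ := fun a x => ∏ i, f i x ^ (a i : ℕ) with hg
  have hgf : ∀ a, IsHf (g a) := fun a => IsHf.prod Finset.univ fun i => (hf i).pow _
  have hexp : ∀ z : ℂ, ∑ j : Fin (k + 1), (b j : ℂ) * z ^ (j : ℕ) = ((1 + z) / 2) ^ k := by
    intro z
    rw [div_pow, add_comm 1 z, add_pow, Fin.sum_univ_eq_sum_range
      (fun j => (((k.choose j : ℝ) / 2 ^ k : ℝ) : ℂ) * z ^ j), Finset.sum_div]
    refine Finset.sum_congr rfl fun j _ => ?_
    push_cast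
    rw [one_pow]
    ring
  have hG : ∀ x, ∑ a, (c a : ℂ) * g a x = ∏ i, ((1 + f i x) / 2) ^ k := by
    intro x
    have h1 : ∀ i, ((1 + f i x) / 2) ^ k = ∑ j : Fin (k + 1), (b j : ℂ) * f i x ^ (j : ℕ) :=
      fun i => (hexp _).symm
    rw [Finset.prod_congr rfl fun i _ => h1 i, Finset.prod_univ_sum, Fintype.piFinset_univ]
    refine Finset.sum_congr rfl fun a _ => ?_
    rw [hc, hg]
    simp only
    rw [Finset.prod_mul_distrib]
    push_cast
    rfl
  have hc1 : ∑ a, c a = 1 := by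
    have h1 : ∑ a, c a = ∏ _i : ι, ∑ j : Fin (k + 1), b j := by
      rw [Finset.prod_univ_sum, Fintype.piFinset_univ]
    have h2 : ∑ j : Fin (k + 1), b j = 1 := by
      have h3 := hexp 1
      simp only [one_pow, mul_one] at h3
      have h4 : ((1 : ℂ) + 1) / 2 = 1 := by norm_num
      rw [h4, one_pow] at h3
      exact_mod_cast h3
    rw [h1, h2, Finset.prod_const_one]
  have hsq : 1 / N ≤ ∑ a, c a ^ 2 := by
    have h1 := sq_sum_le_card_mul_sum_sq (s := (Finset.univ : Finset (ι → Fin (k + 1)))) (f := c)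
    rw [hc1, one_pow, Finset.card_univ, Fintype.card_fun, Fintype.card_fin] at h1
    rw [div_le_iff₀ hN0, mul_comm, hN]
    exact_mod_cast h1
  -- the upper bound
  have hup : ∀ x, ‖∏ i, ((1 + f i x) / 2) ^ k‖ ^ 2 ≤ ind S x + (1 - η) ^ k := by
    intro x
    have h0 : ∀ i, ‖(1 + f i x) / 2‖ ^ 2 ≤ 1 := fun i => (half_bound ((hf i).norm_le x)).1
    have e1 : ‖∏ i, ((1 + f i x) / 2) ^ k‖ ^ 2 = ∏ i, (‖(1 + f i x) / 2‖ ^ 2) ^ k := by
      rw [norm_prod, ← Finset.prod_pow]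
      refine Finset.prod_congr rfl fun i _ => ?_
      rw [norm_pow, ← pow_mul, ← pow_mul, mul_comm]
    rw [e1]
    have h00 : ∀ i, (‖(1 + f i x) / 2‖ ^ 2) ^ k ≤ 1 := fun i => pow_le_one₀ (by positivity) (h0 i)
    by_cases hx : x ∈ S
    · have h1 : ind S x = 1 := if_pos hx
      rw [h1]
      have h2 : ∏ i, (‖(1 + f i x) / 2‖ ^ 2) ^ k ≤ 1 :=
        Finset.prod_le_one (fun i _ => by positivity) fun i _ => h00 i
      have h3 : 0 ≤ (1 - η) ^ k := pow_nonneg (by linarith) _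
      linarith
    · have h1 : ind S x = 0 := if_neg hx
      rw [h1, zero_add]
      have h2 : ∃ i, δ ≤ ‖f i x - 1‖ := by
        by_contra hcon
        push Not at hcon
        exact hx hcon
      obtain ⟨i, hi⟩ := h2
      have h3 : ‖(1 + f i x) / 2‖ ^ 2 ≤ 1 - η := by
        have h4 := (half_bound ((hf i).norm_le x)).2
        have h5 : δ ^ 2 ≤ ‖f i x - 1‖ ^ 2 := pow_le_pow_left₀ hδ.le hi 2
        linarith
      rw [← Finset.mul_prod_erase Finset.univ _ (Finset.mem_univ i)]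
      calc (‖(1 + f i x) / 2‖ ^ 2) ^ k * ∏ j ∈ Finset.univ.erase i, (‖(1 + f j x) / 2‖ ^ 2) ^ k ≤
          (1 - η) ^ k * 1 := mul_le_mul (pow_le_pow_left₀ (by positivity) h3 k)
            (Finset.prod_le_one (fun j _ => by positivity) fun j _ => h00 j)
            (Finset.prod_nonneg fun j _ => by positivity) (pow_nonneg (by linarith) _)
        _ = _ := mul_one _
  refine ⟨1 / (4 * N), by positivity, ?_⟩
  have hlow := pos_lower hgf hc0 (δ := 1 / (4 * N)) (by positivity)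
  have hlam := (isLittleO_iff.1 (lamS_sub (sysH L))) one_pos
  filter_upwards [hlow, hlam, LL_tendsto.eventually_gt_atTop 0, self_mem_nhdsWithin] with
    ε h1 h2 h3 h4
  have hε : (0 : ℝ) < ε := h4
  rw [Real.norm_eq_abs, Real.norm_of_nonneg h3.le, one_mul] at h2
  have h5 := (abs_le.1 h2).2
  have h6 : ip ε (fun x => ∑ t, (c t : ℂ) * g t x) (fun x => ∑ t, (c t : ℂ) * g t x) ≤
      EH L ε (ind S) + (1 - η) ^ k * (sysH L).lam ε := by
    have h7 : EH L ε (fun x => ind S x + (1 - η) ^ k * 1) =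
        EH L ε (ind S) + (1 - η) ^ k * (sysH L).lam ε := by
      rw [HS.EH_add hε (abs_ind S) (B' := |(1 - η) ^ k|) (fun _ => by rw [mul_one]),
        HS.EH_const_mul, EH_one]
    rw [← h7, ip_self, EH_def]
    have hsum1 : Summable fun x : HX L => ‖∑ t, (c t : ℂ) * g t x‖ ^ 2 * wH ε x :=
      L2.sum Finset.univ (fun t _ => L2.of_bdd (hgf t).bdd) (fun t => (c t : ℂ)) ε hε
    have hsum2 : Summable fun x : HX L => (ind S x + (1 - η) ^ k * 1) * wH ε x := by
      refine Summable.of_norm_bounded ((wH_summable (K := L) hε).mul_left (1 + |(1 - η) ^ k|))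
        fun x => ?_
      rw [norm_mul, Real.norm_of_nonneg (wH_nonneg ε x), Real.norm_eq_abs, mul_one]
      exact mul_le_mul_of_nonneg_right ((abs_add_le _ _).trans (add_le_add_left (abs_ind S x) _))
        (wH_nonneg ε x)
    refine hsum1.tsum_le_tsum (fun x => ?_) hsum2
    refine mul_le_mul_of_nonneg_right ?_ (wH_nonneg ε x)
    rw [hG, mul_one]
    exact hup x
  have h7 : (1 - η) ^ k * N < 1 / 4 := by rw [mul_comm]; exact hk
  have h8 : (1 - η) ^ k < 1 / (4 * N) := by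
    rw [lt_div_iff₀ (by positivity)]
    linarith
  have h9 : (sysH L).lam ε ≤ 2 * LL ε := by linarith
  have h10 : (1 - η) ^ k * (sysH L).lam ε ≤ 1 / (4 * N) * (2 * LL ε) := by
    refine mul_le_mul h8.le h9 ?_ (by positivity)
    exact Pool.Agent.W353.TP.lam_nonneg (sysH L) ε
  have h11 : (1 / N - 1 / (4 * N)) * LL ε ≤ (∑ t, c t ^ 2 - 1 / (4 * N)) * LL ε :=
    mul_le_mul_of_nonneg_right (by linarith) h3.le
  have h12 : (1 / N - 1 / (4 * N)) * LL ε - 1 / (4 * N) * (2 * LL ε) = 1 / (4 * N) * LL ε := by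
    field_simp
    ring
  linarith

end

end Pool.Agent.N172.CW
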