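import Pool.Agent.N172.CW.Est

/-!
# The inner products of functions on the primes of degree one
-/

set_option autoImplicit false
set_option linter.unusedSectionVars false
set_option linter.deprecated false

namespace Pool.Agent.N172.CW

open NumberField Complex Filter Topology IsDedekindDomain Asymptotics
open Pool.Agent.W540.BE (nm two_le_nm)
open Pool.Agent.N172.HS (IsHecke WRep EH vx_injective pc Bdd StNvq finset_isLittleO LL_not_littleO)
open Pool.Agent.W353.TP (HX sysH push res LL LL_tendsto bdd_isLittleO)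
open Pool.Agent.W353.NF (vx)
open scoped ComplexConjugate

section

variable {K : Type} [Field K] [NumberField K]

/-- square summable functions -/
def L2 (φ : HX K → ℂ) : Prop := ∀ ε : ℝ, 0 < ε → Summable fun x : HX K => ‖φ x‖ ^ 2 * wH ε x

/-- the inner product -/
noncomputable def ip (ε : ℝ) (φ ψ : HX K → ℂ) : ℝ := EH K ε (fun x => (φ x * conj (ψ x)).re)

theorem ip_def (ε : ℝ) (φ ψ : HX K → ℂ) :
    ip ε φ ψ = ∑' x, (φ x * conj (ψ x)).re * wH ε x := rfl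

theorem L2.of_bdd {φ : HX K → ℂ} (h : Bdd φ) : L2 φ := by
  intro ε hε
  obtain ⟨b, hb0, hb⟩ := h
  refine Summable.of_nonneg_of_le (fun x => mul_nonneg (sq_nonneg _) (wH_nonneg _ _)) (fun x => ?_)
    ((wH_summable (K := K) hε).mul_left (b ^ 2))
  exact mul_le_mul_of_nonneg_right (pow_le_pow_left₀ (norm_nonneg _) (hb x) 2) (wH_nonneg _ _)

theorem L2.aH {π : Params K} (h : π.IsCuspidal) : L2 (aH π) := fun _ hε => aH_summable h hε

theorem L2.conj {φ : HX K → ℂ} (h : L2 φ) : L2 (fun x => conj (φ x)) := by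
  intro ε hε
  simpa only [Complex.norm_conj] using h ε hε

theorem L2.summable {φ ψ : HX K → ℂ} (h : L2 φ) (h' : L2 ψ) {ε : ℝ} (hε : 0 < ε) :
    Summable fun x : HX K => (φ x * conj (ψ x)).re * wH ε x := by
  refine Summable.of_norm_bounded ((h ε hε).add (h' ε hε)) fun x => ?_
  rw [Real.norm_eq_abs, abs_mul, abs_of_nonneg (wH_nonneg ε x), ← add_mul]
  exact mul_le_mul_of_nonneg_right (abs_re_mul_le _ _) (wH_nonneg ε x)

theorem L2.add {φ ψ : HX K → ℂ} (h : L2 φ) (h' : L2 ψ) : L2 (fun x => φ x + ψ x) := by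
  intro ε hε
  refine Summable.of_nonneg_of_le (fun x => mul_nonneg (sq_nonneg _) (wH_nonneg _ _)) (fun x => ?_)
    (((h ε hε).add (h' ε hε)).mul_left 2)
  rw [← add_mul, ← mul_assoc]
  refine mul_le_mul_of_nonneg_right ?_ (wH_nonneg _ _)
  have h1 := norm_add_le (φ x) (ψ x)
  have h2 := pow_le_pow_left₀ (norm_nonneg _) h1 2
  nlinarith [sq_nonneg (‖φ x‖ - ‖ψ x‖)]

theorem L2.smul {φ : HX K → ℂ} (h : L2 φ) (c : ℂ) : L2 (fun x => c * φ x) := by
  intro ε hε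
  refine ((h ε hε).mul_left (‖c‖ ^ 2)).congr fun x => ?_
  rw [norm_mul, mul_pow, mul_assoc]

theorem L2.zero : L2 (fun _ : HX K => (0 : ℂ)) := L2.of_bdd ⟨0, le_rfl, fun _ => by simp⟩

theorem L2.sum {κ : Type*} (T : Finset κ) {f : κ → HX K → ℂ} (h : ∀ k ∈ T, L2 (f k))
    (c : κ → ℂ) : L2 (fun x => ∑ k ∈ T, c k * f k x) := by
  classical
  induction T using Finset.induction_on with
  | empty => simpa using L2.zero (K := K)
  | insert a s ha ih =>
    have h1 := (h a (Finset.mem_insert_self a s)).smul (c a)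
    have h2 := ih fun k hk => h k (Finset.mem_insert_of_mem hk)
    have h3 := h1.add h2
    simpa only [Finset.sum_insert ha] using h3

theorem ip_comm (ε : ℝ) (φ ψ : HX K → ℂ) : ip ε φ ψ = ip ε ψ φ := by
  rw [ip_def, ip_def]
  refine tsum_congr fun x => ?_
  have : ψ x * conj (φ x) = conj (φ x * conj (ψ x)) := by
    rw [map_mul, Complex.conj_conj, mul_comm]
  rw [this, Complex.conj_re]

theorem ip_self (ε : ℝ) (φ : HX K → ℂ) : ip ε φ φ = ∑' x, ‖φ x‖ ^ 2 * wH ε x := by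
  rw [ip_def]
  refine tsum_congr fun x => ?_
  rw [Complex.mul_conj, Complex.ofReal_re, Complex.normSq_eq_norm_sq]

theorem ip_self_nonneg (ε : ℝ) (φ : HX K → ℂ) : 0 ≤ ip ε φ φ := by
  rw [ip_self]
  exact tsum_nonneg fun x => mul_nonneg (sq_nonneg _) (wH_nonneg _ _)

theorem ip_add {φ φ' ψ : HX K → ℂ} (h : L2 φ) (h' : L2 φ') (hψ : L2 ψ) {ε : ℝ} (hε : 0 < ε) :
    ip ε (fun x => φ x + φ' x) ψ = ip ε φ ψ + ip ε φ' ψ := by
  rw [ip_def, ip_def, ip_def, ← (h.summable hψ hε).tsum_add (h'.summable hψ hε)]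
  refine tsum_congr fun x => ?_
  rw [add_mul, Complex.add_re, add_mul]

theorem ip_smul {φ ψ : HX K → ℂ} (c : ℝ) (ε : ℝ) :
    ip ε (fun x => (c : ℂ) * φ x) ψ = c * ip ε φ ψ := by
  rw [ip_def, ip_def, ← tsum_mul_left]
  refine tsum_congr fun x => ?_
  rw [mul_assoc, Complex.re_ofReal_mul, mul_assoc]

theorem ip_sum {κ : Type*} (T : Finset κ) {f : κ → HX K → ℂ} (h : ∀ k ∈ T, L2 (f k))
    (c : κ → ℝ) {ψ : HX K → ℂ} (hψ : L2 ψ) {ε : ℝ} (hε : 0 < ε) :
    ip ε (fun x => ∑ k ∈ T, (c k : ℂ) * f k x) ψ = ∑ k ∈ T, c k * ip ε (f k) ψ := by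
  classical
  induction T using Finset.induction_on with
  | empty =>
    simp only [Finset.sum_empty]
    rw [ip_def]
    simp
  | insert a s ha ih =>
    have h1 := (h a (Finset.mem_insert_self a s)).smul (c a : ℂ)
    have h2 := ih fun k hk => h k (Finset.mem_insert_of_mem hk)
    have h3 : L2 (fun x => ∑ k ∈ s, (c k : ℂ) * f k x) :=
      L2.sum s (fun k hk => h k (Finset.mem_insert_of_mem hk)) fun k => (c k : ℂ)
    rw [Finset.sum_insert ha, ← h2, ← ip_smul, ← ip_add h1 h3 hψ hε]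
    congr 1
    funext x
    rw [Finset.sum_insert ha]

/-- Cauchy's inequality -/
theorem ip_cs {φ ψ : HX K → ℂ} (h : L2 φ) (h' : L2 ψ) {ε : ℝ} (hε : 0 < ε) :
    (ip ε φ ψ) ^ 2 ≤ ip ε φ φ * ip ε ψ ψ := by
  obtain ⟨h1, h2⟩ := cs_tsum (f := fun x => ‖φ x‖) (g := fun x => ‖ψ x‖) (w := wH ε)
    (wH_nonneg ε) (h ε hε) (h' ε hε)
  rw [ip_self, ip_self]
  refine le_trans ?_ h2
  rw [ip_def]
  have h3 : ‖∑' x, (φ x * conj (ψ x)).re * wH ε x‖ ≤ ∑' x, ‖φ x‖ * ‖ψ x‖ * wH ε x :=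
    tsum_of_norm_bounded h1.hasSum fun x => by
      rw [Real.norm_eq_abs, abs_mul, abs_of_nonneg (wH_nonneg ε x)]
      refine mul_le_mul_of_nonneg_right ((Complex.abs_re_le_norm _).trans ?_) (wH_nonneg ε x)
      rw [norm_mul, Complex.norm_conj]
  rw [Real.norm_eq_abs] at h3
  rw [← sq_abs]
  exact pow_le_pow_left₀ (abs_nonneg _) h3 2

/-- the double sum -/
theorem ip_sum_sum {κ κ' : Type*} (T : Finset κ) (T' : Finset κ') {f : κ → HX K → ℂ}
    {f' : κ' → HX K → ℂ} (h : ∀ k ∈ T, L2 (f k)) (h' : ∀ k ∈ T', L2 (f' k))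
    (c : κ → ℝ) (c' : κ' → ℝ) {ε : ℝ} (hε : 0 < ε) :
    ip ε (fun x => ∑ k ∈ T, (c k : ℂ) * f k x) (fun x => ∑ k ∈ T', (c' k : ℂ) * f' k x) =
      ∑ k ∈ T, ∑ l ∈ T', c k * c' l * ip ε (f k) (f' l) := by
  rw [ip_sum T h c (L2.sum T' h' fun k => (c' k : ℂ)) hε]
  refine Finset.sum_congr rfl fun k hk => ?_
  rw [ip_comm, ip_sum T' h' c' (h k hk) hε, Finset.mul_sum]
  refine Finset.sum_congr rfl fun l _ => ?_
  rw [ip_comm ε (f' l)]
  ring

/-- the dual of the trace -/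
noncomputable def bH (ρ : WRep K) (x : HX K) : ℂ := conj (ρ.tH x)

theorem L2.bH (ρ : WRep K) : L2 (bH ρ) := (L2.of_bdd ρ.bdd).conj

theorem ip_bH (ρ σ : WRep K) :
    (fun ε => ip ε (bH ρ) (bH σ) - ρ.inner σ * LL ε) =o[𝓝[>] 0] LL := by
  have h := WRep.gram (K := K) Pool.Agent.N134.HS.t_nvq ρ σ
  refine h.congr_left fun ε => ?_
  congr 1
  unfold ip bH
  congr 1
  funext x
  rw [Complex.conj_conj, Complex.mul_re, Complex.mul_re, Complex.conj_re, Complex.conj_im,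
    Complex.conj_re, Complex.conj_im]
  ring

theorem ip_ab (π : Params K) (ρ : WRep K) (ε : ℝ) :
    ip ε (aH π) (bH ρ) = EH K ε (fun x => (aH π x * ρ.tH x).re) := by
  unfold ip bH
  congr 1
  funext x
  rw [Complex.conj_conj]

/-- **The mean square of a combination of the Hecke eigenvalues.** -/
theorem ip_aa_le {κ : Type} [Fintype κ] (π : κ → Params K) (h : ∀ i, (π i).IsCuspidal) (c : κ → ℝ)
    {ε : ℝ} (hε : 0 < ε) :
    ip ε (fun x => ∑ i, (c i : ℂ) * aH (π i) x) (fun x => ∑ i, (c i : ℂ) * aH (π i) x) ≤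
      ∑ i, ∑ j, c i * c j * Real.log ‖RSr (π i) (π j) (1 + ε)‖ := by
  have hs : 1 < 1 + ε := by linarith
  set P : HeightOneSpectrum (𝓞 K) × ℕ → ℂ := fun q => ∑ i, (c i : ℂ) * pw (π i) q.1 (q.2 + 1)
    with hP
  have h1 : ∀ q, ‖P q‖ ^ 2 * wt (1 + ε) q = ∑ i, ∑ j, c i * c j *
      ((pw (π i) q.1 (q.2 + 1) * conj (pw (π j) q.1 (q.2 + 1))).re * wt (1 + ε) q) := by
    intro q
    have e1 : ‖P q‖ ^ 2 = (P q * conj (P q)).re := by
      rw [Complex.mul_conj, Complex.ofReal_re, Complex.normSq_eq_norm_sq]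
    rw [e1, hP]
    simp only
    rw [map_sum, Finset.sum_mul_sum, Complex.re_sum, Finset.sum_mul]
    refine Finset.sum_congr rfl fun i _ => ?_
    rw [Complex.re_sum, Finset.sum_mul]
    refine Finset.sum_congr rfl fun j _ => ?_
    rw [map_mul, Complex.conj_ofReal]
    have e2 : (c i : ℂ) * pw (π i) q.1 (q.2 + 1) * ((c j : ℂ) * conj (pw (π j) q.1 (q.2 + 1))) =
        ((c i * c j : ℝ) : ℂ) * (pw (π i) q.1 (q.2 + 1) * conj (pw (π j) q.1 (q.2 + 1))) := by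
      push_cast
      ring
    rw [e2, Complex.re_ofReal_mul]
    ring
  have h2 : HasSum (fun q => ‖P q‖ ^ 2 * wt (1 + ε) q)
      (∑ i, ∑ j, c i * c j * Real.log ‖RSr (π i) (π j) (1 + ε)‖) := by
    simp only [h1]
    refine hasSum_sum fun i _ => hasSum_sum fun j _ => ?_
    rw [(rs_log (h i) (h j) hs).2]
    exact (rs_summable_pair (h i) (h j) hs).hasSum.mul_left _
  rw [← h2.tsum_eq, ip_self]
  have h3 : ∀ x : HX K, ‖∑ i, (c i : ℂ) * aH (π i) x‖ ^ 2 * wH ε x =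
      ‖P (vx x, 0)‖ ^ 2 * wt (1 + ε) (vx x, 0) := by
    intro x
    rw [wt_vx, hP]
    simp only [zero_add, pw_vx]
  have h4 : Summable fun x : HX K => ‖P (vx x, 0)‖ ^ 2 * wt (1 + ε) (vx x, 0) :=
    h2.summable.comp_injective (inj_vx0 (K := K))
  simp only [h3]
  refine Summable.tsum_le_tsum_of_inj (fun x : HX K => ((vx x, 0) :
    HeightOneSpectrum (𝓞 K) × ℕ)) inj_vx0 (fun q _ => ?_) (fun x => le_rfl) h4 h2.summable
  exact mul_nonneg (sq_nonneg _) (wt_nonneg _ _)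

end

end Pool.Agent.N172.CW
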