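import Pool.Agent.N172.CW.Twi

/-!
# The twists of an irreducible representation by the powers of the norm are not isomorphic
-/

set_option autoImplicit false
set_option linter.unusedSectionVars false
set_option linter.deprecated false

namespace Pool.Agent.N172.CW

open NumberField Complex Filter Topology IsDedekindDomain Asymptotics
open Pool.Agent.N172.HS (IsHecke WRep EH EV EV_EH vx_injective pc Bdd StNvq finset_isLittleO
  LL_not_littleO arch TotPos mulc mulc_apply mult Agree exists_comp exists_vx absNorm_vx hv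
  meanH_zero meanH_one Nm Nm_pos absNorm_span inner_le_one agree_iff eventually_HX)
open Pool.Agent.W353.TP (HX sysH push res LL LL_tendsto bdd_isLittleO Fac iL iR)
open Pool.Agent.W353.NF (vx)
open scoped ComplexConjugate TensorProduct

section

variable {K : Type} [Field K] [NumberField K]

theorem ip_add_le {φ ψ : HX K → ℂ} (h : L2 φ) (h' : L2 ψ) {ε : ℝ} (hε : 0 < ε) :
    ip ε (fun x => φ x + ψ x) (fun x => φ x + ψ x) ≤ 2 * ip ε φ φ + 2 * ip ε ψ ψ := by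
  have h1 := ip_add_smul h h' 1 hε
  have h2 := ip_add_smul h h' (-1) hε
  have h3 := ip_self_nonneg (K := K) ε (fun x => φ x + ((-1 : ℝ) : ℂ) * ψ x)
  simp only [Complex.ofReal_one, one_mul] at h1
  rw [h2] at h3
  rw [h1]
  linarith

/-- the difference of two traces -/
noncomputable def zH (ρ σ : WRep K) (s : ℝ) (x : HX K) : ℂ := bH ρ x + (s : ℂ) * bH σ x

theorem L2.zH (ρ σ : WRep K) (s : ℝ) : L2 (zH ρ σ s) := (L2.bH ρ).add ((L2.bH σ).smul _)

theorem ip_bH_one {ρ : WRep K} (h : ρ.IsIrr) :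
    (fun ε => ip ε (bH ρ) (bH ρ) - LL ε) =o[𝓝[>] 0] LL := by
  have h1 := ip_bH ρ ρ
  have h2 : ρ.inner ρ = 1 := h
  rw [h2] at h1
  refine h1.congr_left fun ε => ?_
  push_cast
  ring

theorem z_of_inner {ρ σ : WRep K} (hρ : ρ.IsIrr) (hσ : σ.IsIrr) {s : ℤ} (hs : s ^ 2 = 1)
    (h : ρ.inner σ = s) : (fun ε => ip ε (zH ρ σ (-s)) (zH ρ σ (-s))) =o[𝓝[>] 0] LL := by
  have h1 := ip_bH ρ σ
  rw [h] at h1
  have hs' : (s : ℝ) ^ 2 = 1 := by exact_mod_cast hs
  have h2 := ((ip_bH_one hρ).add (h1.const_mul_left (-2 * (s : ℝ)))).add (ip_bH_one hσ)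
  refine h2.congr' ?_ (EventuallyEq.refl _ _)
  filter_upwards [self_mem_nhdsWithin] with ε hε
  have h3 := ip_add_smul (L2.bH ρ) (L2.bH σ) (-(s : ℝ)) (ε := ε) hε
  have h4 : ip ε (zH ρ σ (-s)) (zH ρ σ (-s)) = ip ε (bH ρ) (bH ρ) +
      2 * (-(s : ℝ)) * ip ε (bH ρ) (bH σ) + (-(s : ℝ)) ^ 2 * ip ε (bH σ) (bH σ) := h3
  rw [h4]
  have h5 : (-(s : ℝ)) ^ 2 = 1 := by rw [neg_sq, hs']
  rw [h5]
  linear_combination (-2 * LL ε) * (hs' : (s : ℝ) ^ 2 = 1) * (-1)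

theorem inner_of_z {ρ σ : WRep K} (hρ : ρ.IsIrr) (hσ : σ.IsIrr) {s : ℤ} (hs : s ^ 2 = 1)
    (h : (fun ε => ip ε (zH ρ σ (-s)) (zH ρ σ (-s))) =o[𝓝[>] 0] LL) : ρ.inner σ = s := by
  apply inner_of_ip
  have hs' : (s : ℝ) ^ 2 = 1 := by exact_mod_cast hs
  have h2 := (((ip_bH_one hρ).add (ip_bH_one hσ)).sub h).const_mul_left ((s : ℝ) / 2)
  refine h2.congr' ?_ (EventuallyEq.refl _ _)
  filter_upwards [self_mem_nhdsWithin] with ε hε
  have h3 := ip_add_smul (L2.bH ρ) (L2.bH σ) (-(s : ℝ)) (ε := ε) hε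
  have h4 : ip ε (zH ρ σ (-s)) (zH ρ σ (-s)) = ip ε (bH ρ) (bH ρ) +
      2 * (-(s : ℝ)) * ip ε (bH ρ) (bH σ) + (-(s : ℝ)) ^ 2 * ip ε (bH σ) (bH σ) := h3
  rw [h4]
  have h5 : (-(s : ℝ)) ^ 2 = 1 := by rw [neg_sq, hs']
  rw [h5]
  linear_combination (ip ε (bH ρ) (bH σ)) * (hs' : (s : ℝ) ^ 2 = 1)

/-- the chain of twists -/
theorem chain {ρ : WRep K} (hρ : ρ.IsIrr) {t : ℝ} (ht : ρ.inner (tw ρ t) ≠ 0) (n : ℕ) :
    ∃ s : ℤ, s ^ 2 = 1 ∧
      (fun ε => ip ε (zH ρ (tw ρ (n * t)) (-s)) (zH ρ (tw ρ (n * t)) (-s))) =o[𝓝[>] 0] LL := by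
  have h0 : (ρ.inner (tw ρ t)) ^ 2 = 1 := by
    have h1 := inner_le_one hρ (isIrr_tw hρ t)
    have h2 : |ρ.inner (tw ρ t)| ≤ 1 := by exact_mod_cast h1
    have h3 := abs_le.1 h2
    have h4 : ρ.inner (tw ρ t) = 1 ∨ ρ.inner (tw ρ t) = -1 := by omega
    rcases h4 with h4 | h4 <;> rw [h4] <;> norm_num
  have hz := z_of_inner hρ (isIrr_tw hρ t) h0 rfl
  induction n with
  | zero =>
    refine ⟨1, by norm_num, z_of_inner hρ (isIrr_tw hρ _) (by norm_num) ?_⟩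
    apply inner_of_ip
    refine (ip_bH ρ ρ).congr_left fun ε => ?_
    have h2 : ρ.inner ρ = 1 := hρ
    rw [h2]
    congr 2
    funext x
    rw [bH_tw]
    have h3 : ph (K := K) (((0 : ℕ) : ℝ) * t) x = 1 := by
      unfold ph
      simp
    rw [h3, map_one, mul_one]
  | succ n ih =>
    obtain ⟨s, hs, hn⟩ := ih
    set s₁ : ℤ := ρ.inner (tw ρ t) with hs₁
    refine ⟨s₁ * s, by rw [mul_pow, h0, hs, one_mul], ?_⟩
    have hs1' : (s₁ : ℝ) ^ 2 = 1 := by exact_mod_cast h0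
    set U : HX K → ℂ := fun x => zH ρ (tw ρ (n * t)) (-s) x * conj (ph t x) with hU
    have hU2 : L2 U := by
      intro ε hε
      refine ((L2.zH ρ (tw ρ (n * t)) (-s)) ε hε).congr fun x => ?_
      rw [hU]
      simp only
      rw [norm_mul, Complex.norm_conj, norm_ph, mul_one]
    have e1 : zH ρ (tw ρ ((n + 1 : ℕ) * t)) (-((s₁ * s : ℤ) : ℝ)) =
        fun x => zH ρ (tw ρ t) (-s₁) x + ((s₁ : ℝ) : ℂ) * U x := by
      funext x
      rw [hU]
      unfold zH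
      simp only
      rw [bH_tw, bH_tw, bH_tw]
      have h5 : ph ((n + 1 : ℕ) * t) x = ph (n * t) x * ph t x := by
        rw [← ph_add]
        congr 1
        push_cast
        ring
      rw [h5, map_mul]
      push_cast
      ring
    have h6 : (fun ε => ip ε U U) =o[𝓝[>] 0] LL := by
      refine hn.congr_left fun ε => ?_
      exact (ip_phase _ _ _ (fun x => by rw [Complex.norm_conj, norm_ph]) ε).symm
    rw [e1]
    have h7 := (hz.const_mul_left 2).add (h6.const_mul_left 2)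
    refine IsBigO.trans_isLittleO (IsBigO.of_bound 1 ?_) h7
    filter_upwards [self_mem_nhdsWithin] with ε hε
    have h8 := ip_add_le (L2.zH ρ (tw ρ t) (-s₁)) (hU2.smul ((s₁ : ℝ) : ℂ)) (ε := ε) hε
    have h9 : ip ε (fun x => ((s₁ : ℝ) : ℂ) * U x) (fun x => ((s₁ : ℝ) : ℂ) * U x) =
        ip ε U U := by
      rw [ip_smul, ip_comm, ip_smul, ← mul_assoc, ← sq, hs1', one_mul]
    rw [h9] at h8
    rw [one_mul, Real.norm_of_nonneg (ip_self_nonneg ε _), Real.norm_of_nonneg (by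
      have := ip_self_nonneg ε (zH ρ (tw ρ t) (-s₁))
      have := ip_self_nonneg ε U
      positivity)]
    exact h8

/-- at most one twist agrees on a compositum -/
theorem agree_unique {F F' : Type} [Field F] [NumberField F] [Algebra K F] [Field F']
    [NumberField F'] [Algebra K F'] {𝔣 : Ideal (𝓞 F)} {k : (F →+* ℂ) → ℤ} {t : (F →+* ℂ) → ℝ}
    {χ : Ideal (𝓞 F) →*₀ ℂ} {𝔣' : Ideal (𝓞 F')} {k' : (F' →+* ℂ) → ℤ} {t' : (F' →+* ℂ) → ℝ}
    {χ' : Ideal (𝓞 F') →*₀ ℂ} (h : IsHecke 𝔣 k t χ) (h' : IsHecke 𝔣' k' t' χ')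
    (m : MaximalSpectrum (F ⊗[K] F')) {u u' : ℝ} (hA : Agree K χ (mulc χ' (nChar F' u)) m)
    (hA' : Agree K χ (mulc χ' (nChar F' u')) m) : u = u' := by
  rw [agree_iff] at hA hA'
  obtain ⟨-, -, -, -, -, hnv, -⟩ := exists_comp h h' m
  have h3 : ∀ᶠ x : HX (Fac K F F' m) in cofinite, ph u x = ph u' x := by
    filter_upwards [eventually_HX hA, eventually_HX hA', eventually_HX hnv] with x h4 h5 h6
    have hp : (Ideal.absNorm (vx x).asIdeal).Prime := by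
      rw [absNorm_vx]
      exact x.1.2
    have h4' := h4 hp
    have h5' := h5 hp
    have h6' := (h6 hp).2
    have e0 : (vx x).asIdeal = RingHom.ker x.2 := rfl
    rw [e0, RingHom.comap_ker] at h6'
    rw [e0, RingHom.comap_ker, RingHom.comap_ker, mulc_apply] at h4' h5'
    have e1 : ∀ u : ℝ, nChar F' u (RingHom.ker (x.2.comp (iR K F F' m))) = ph u x := fun u =>
      hv_nChar u (⟨x.1, x.2.comp (iR K F F' m)⟩ : HX F')
    rw [e1] at h4' h5'
    exact mul_left_cancel₀ h6' (h4'.symm.trans h5')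
  exact ph_eq h3

/-- **The twists are pairwise orthogonal.** -/
theorem inner_tw_zero {ρ : WRep K} (hρ : ρ.IsIrr) {t : ℝ} (ht : t ≠ 0) :
    ρ.inner (tw ρ t) = 0 := by
  classical
  by_contra hcon
  have h1 : ∀ n : ℕ, ρ.inner (tw ρ (n * t)) ≠ 0 := by
    intro n
    obtain ⟨s, hs, hn⟩ := chain hρ hcon n
    rw [inner_of_z hρ (isIrr_tw hρ _) hs hn]
    intro h0
    rw [h0] at hs
    norm_num at hs
  let T : Type := Σ z : Fin ρ.r × Fin ρ.r, MaximalSpectrum (ρ.F z.1 ⊗[K] ρ.F z.2)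
  have hT : Finite T := inferInstance
  have h2 : ∀ n : ℕ, ∃ z : T, Agree K (ρ.χ z.1.1) (mulc (ρ.χ z.1.2) (nChar (ρ.F z.1.2) (n * t)))
      z.2 := by
    intro n
    have h3 := h1 n
    have h4 : (∑ j : Fin ρ.r, ∑ l : Fin ρ.r, ρ.c j * ρ.c l *
        (mult K (ρ.χ j) (mulc (ρ.χ l) (nChar (ρ.F l) (n * t))) : ℤ)) ≠ 0 := h3
    obtain ⟨j, -, hj⟩ := Finset.exists_ne_zero_of_sum_ne_zero h4
    obtain ⟨l, -, hl⟩ := Finset.exists_ne_zero_of_sum_ne_zero hj
    have h5 : mult K (ρ.χ j) (mulc (ρ.χ l) (nChar (ρ.F l) (n * t))) ≠ 0 := by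
      exact_mod_cast right_ne_zero_of_mul hl
    unfold mult at h5
    have h6 := (Nat.card_ne_zero.1 h5).1
    obtain ⟨m, hm⟩ := h6
    exact ⟨⟨(j, l), m⟩, hm⟩
  choose z hz using h2
  obtain ⟨n, n', hne, hnn⟩ := Finite.exists_ne_map_eq_of_infinite z
  have hA := hz n
  have hA' := hz n'
  rw [← hnn] at hA'
  have h4 := agree_unique (ρ.hecke (z n).1.1) (ρ.hecke (z n).1.2) (z n).2 hA hA'
  have h5 : ((n : ℝ) - n') * t = 0 := by linarith
  rcases mul_eq_zero.1 h5 with h6 | h6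
  · exact hne (by exact_mod_cast sub_eq_zero.1 h6)
  · exact ht h6

/-- the twists by different powers of the norm are orthogonal -/
theorem inner_tw_ne {ρ : WRep K} (hρ : ρ.IsIrr) {t u : ℝ} (h : t ≠ u) :
    (tw ρ t).inner (tw ρ u) = 0 := by
  rw [inner_tw_tw]
  exact inner_tw_zero hρ (sub_ne_zero.2 h.symm)

/-- **At most one zero or pole on the line `Re s = 1`.** -/
theorem line_orders {π : Params K} (h : π.IsCuspidal) {ρ : WRep K} (hρ : ρ.IsIrr) {N : ℕ}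
    (t : Fin N → ℝ) (ht : Function.Injective t) (m : Fin N → ℤ)
    (hm : ∀ l, HasOrd (LW π ρ) (1 + t l * I) (m l)) : ∑ l, m l ^ 2 ≤ 1 := by
  have h1 := (orders (κ := Unit) (κ' := Fin N) (fun _ => π) (fun _ => h)
    (fun i j hij => absurd (Subsingleton.elim i j) hij) (fun l => tw ρ (t l))
    (fun l => isIrr_tw hρ _) (fun k l hkl => inner_tw_ne hρ (fun h => hkl (ht h)))
    (fun _ l => m l) (fun _ l => hasOrd_tw.2 (hm l))).1 ()
  exact h1

end

end Pool.Agent.N172.CW
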