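import Pool.Agent.N172.CW.Ip

/-!
# Orders, and the asymptotic inner products
-/

set_option autoImplicit false
set_option linter.unusedSectionVars false
set_option linter.deprecated false

namespace Pool.Agent.N172.CW

open NumberField Complex Filter Topology IsDedekindDomain Asymptotics
open Pool.Agent.N172.HS (IsHecke WRep EH vx_injective pc Bdd StNvq finset_isLittleO LL_not_littleO)
open Pool.Agent.W353.TP (HX sysH push res LL LL_tendsto bdd_isLittleO)
open Pool.Agent.W353.NF (vx)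
open scoped ComplexConjugate

theorem one_add_tendsto : Tendsto (fun ε : ℝ => 1 + ε) (𝓝[>] 0) (𝓝[>] 1) := by
  rw [tendsto_nhdsWithin_iff]
  constructor
  · have h : Continuous (fun ε : ℝ => 1 + ε) := by fun_prop
    have h0 := h.tendsto 0
    rw [add_zero] at h0
    exact h0.mono_left nhdsWithin_le_nhds
  · filter_upwards [self_mem_nhdsWithin] with ε hε
    have : (0 : ℝ) < ε := hε
    exact Set.mem_Ioi.2 (by linarith)

theorem sub_one_tendsto : Tendsto (fun s : ℝ => s - 1) (𝓝[>] 1) (𝓝[>] 0) := by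
  rw [tendsto_nhdsWithin_iff]
  constructor
  · have h : Continuous (fun s : ℝ => s - 1) := by fun_prop
    have h0 := h.tendsto 1
    rw [sub_self] at h0
    exact h0.mono_left nhdsWithin_le_nhds
  · filter_upwards [self_mem_nhdsWithin] with s hs
    have : (1 : ℝ) < s := hs
    exact Set.mem_Ioi.2 (by linarith)

theorem LL_eq (ε : ℝ) : LL ε = -Real.log ε := by
  unfold LL
  rw [one_div, Real.log_inv]

/-- **The order and the logarithm.** -/
theorem HasOrd.log {L : ℂ → ℂ} {s₀ : ℂ} {m : ℤ} (h : HasOrd L s₀ m) :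
    (fun ε : ℝ => Real.log ‖L (s₀ + (ε : ℂ))‖ + m * LL ε) =o[𝓝[>] 0] LL := by
  obtain ⟨c, hc, hL⟩ := h
  have h2 : Tendsto (fun ε : ℝ => Real.log ‖L (s₀ + (ε : ℂ)) * (ε : ℂ) ^ (-m)‖) (𝓝[>] 0)
      (𝓝 (Real.log ‖c‖)) := (hL.norm).log (norm_ne_zero_iff.2 hc)
  have hne : ∀ᶠ ε : ℝ in 𝓝[>] 0, L (s₀ + (ε : ℂ)) * (ε : ℂ) ^ (-m) ≠ 0 :=
    hL.eventually_ne hc
  obtain ⟨C, hC⟩ := h2.abs.isBoundedUnder_le
  apply bdd_isLittleO
  refine ⟨C, ?_⟩
  filter_upwards [Filter.eventually_map.1 hC, hne, self_mem_nhdsWithin] with ε h3 h4 h5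
  have hε : (0 : ℝ) < ε := h5
  have h6 : Real.log ‖L (s₀ + (ε : ℂ)) * (ε : ℂ) ^ (-m)‖ =
      Real.log ‖L (s₀ + (ε : ℂ))‖ + m * LL ε := by
    rw [norm_mul, Real.log_mul (norm_ne_zero_iff.2 (left_ne_zero_of_mul h4))
      (norm_ne_zero_iff.2 (right_ne_zero_of_mul h4)), norm_zpow, Complex.norm_real,
      Real.norm_of_nonneg hε.le, Real.log_zpow, LL_eq]
    push_cast
    ring
  rw [← h6]
  exact h3

section

variable {K : Type} [Field K] [NumberField K]

theorem rs_self_log {π : Params K} (h : π.IsCuspidal) :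
    (fun ε => Real.log ‖RSr π π (1 + ε)‖ - LL ε) =o[𝓝[>] 0] LL := by
  refine h.pole.log.congr_left fun ε => ?_
  rw [RSr_eq]
  push_cast
  ring

theorem rs_pair_log {π π' : Params K} (h : HasOrd (RS π π') 1 0) :
    (fun ε => Real.log ‖RSr π π' (1 + ε)‖) =o[𝓝[>] 0] LL := by
  refine h.log.congr_left fun ε => ?_
  rw [RSr_eq]
  push_cast
  ring

theorem lw_ord_log {π : Params K} {ρ : WRep K} {m : ℤ} (h : HasOrd (LW π ρ) 1 m) :
    (fun ε => Real.log ‖LWr π ρ (1 + ε)‖ + m * LL ε) =o[𝓝[>] 0] LL := by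
  refine h.log.congr_left fun ε => ?_
  rw [LWr_eq]

/-- the square root of a function of size `LL` is small -/
theorem sqrt_isLittleO {u : ℝ → ℝ} {c : ℝ} (h : (fun ε => u ε - c * LL ε) =o[𝓝[>] 0] LL) :
    (fun ε => Real.sqrt (u ε)) =o[𝓝[>] 0] LL := by
  rw [isLittleO_iff]
  intro δ hδ
  have h1 := (isLittleO_iff.1 h) one_pos
  have h2 : Tendsto (fun ε => δ ^ 2 * LL ε) (𝓝[>] 0) atTop := LL_tendsto.const_mul_atTop (by positivity)
  filter_upwards [h1, LL_tendsto.eventually_gt_atTop 0, h2.eventually_ge_atTop (|c| + 1)] with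
    ε h3 h4 h5
  rw [Real.norm_of_nonneg (Real.sqrt_nonneg _), Real.norm_of_nonneg h4.le]
  rw [one_mul, Real.norm_eq_abs, Real.norm_of_nonneg h4.le] at h3
  have h6 : u ε ≤ (|c| + 1) * LL ε := by
    have h7 := (abs_le.1 h3).2
    have h8 : c * LL ε ≤ |c| * LL ε := mul_le_mul_of_nonneg_right (le_abs_self c) h4.le
    linarith
  refine Real.sqrt_le_iff.2 ⟨by positivity, h6.trans ?_⟩
  calc (|c| + 1) * LL ε ≤ (δ ^ 2 * LL ε) * LL ε := mul_le_mul_of_nonneg_right h5 h4.le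
    _ = (δ * LL ε) ^ 2 := by ring

theorem eh_sum_tH (π : Params K) (h : π.IsCuspidal) (ρ : WRep K) {ε : ℝ} (hε : 0 < ε) :
    EH K ε (fun x => (aH π x * ρ.tH x).re) =
      ∑ j, (ρ.c j : ℝ) * EH K ε (fun x => (aH π x * pc K (ρ.χ j) x).re) := by
  have h1 : ∀ j, Summable fun x : HX K => (aH π x * pc K (ρ.χ j) x).re * wH ε x := fun j =>
    af_summable h ⟨Module.finrank ℚ (ρ.F j), Nat.cast_nonneg _, fun x =>
      HS.norm_pc_le (ρ.hecke j) x⟩ hε
  simp only [EH_def]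
  simp only [← tsum_mul_left]
  rw [← Summable.tsum_finsetSum (fun j _ => (h1 j).mul_left _)]
  refine tsum_congr fun x => ?_
  unfold WRep.tH
  rw [Finset.mul_sum, Complex.re_sum, Finset.sum_mul]
  refine Finset.sum_congr rfl fun j _ => ?_
  have e1 : aH π x * ((ρ.c j : ℂ) * pc K (ρ.χ j) x) =
      (((ρ.c j : ℝ)) : ℂ) * (aH π x * pc K (ρ.χ j) x) := by
    push_cast
    ring
  rw [e1, Complex.re_ofReal_mul, mul_assoc]

/-- **The logarithm of `L(s, π × ρ)` near `s = 1`.** -/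
theorem lw_est {π : Params K} (h : π.IsCuspidal) (ρ : WRep K) :
    (∀ ε : ℝ, 0 < ε → LWr π ρ (1 + ε) ≠ 0) ∧
    (fun ε => Real.log ‖LWr π ρ (1 + ε)‖ - ip ε (aH π) (bH ρ)) =o[𝓝[>] 0] LL := by
  have h0 : ∀ ε : ℝ, 0 < ε → ∀ j, LIndr π (ρ.χ j) (1 + ε) ≠ 0 := fun ε hε j =>
    (ind_log h (ρ.hecke j).norm_le (by linarith)).1
  constructor
  · intro ε hε
    unfold LWr LW
    exact Finset.prod_ne_zero_iff.2 fun j _ => zpow_ne_zero _ (h0 ε hε j)
  · choose C hC0 hC using fun j => ind_est π h (ρ.hecke j).norm_le (χ := ρ.χ j)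
    have h1 : (fun ε => Real.sqrt (Real.log ‖RSr π π (1 + ε)‖)) =o[𝓝[>] 0] LL :=
      sqrt_isLittleO (c := 1) ((rs_self_log h).congr_left fun ε => by ring)
    have h2 := h1.const_mul_left (∑ j, |(ρ.c j : ℝ)| * C j)
    refine IsBigO.trans_isLittleO (IsBigO.of_bound 1 ?_) h2
    filter_upwards [self_mem_nhdsWithin] with ε hε
    have hε' : (0 : ℝ) < ε := hε
    have e1 : Real.log ‖LWr π ρ (1 + ε)‖ = ∑ j, (ρ.c j : ℝ) * Real.log ‖LIndr π (ρ.χ j) (1 + ε)‖ := by
      unfold LWr LW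
      rw [norm_prod, Real.log_prod]
      · refine Finset.sum_congr rfl fun j _ => ?_
        rw [norm_zpow, Real.log_zpow]
        rfl
      · intro j _
        exact norm_ne_zero_iff.2 (zpow_ne_zero _ (h0 ε hε' j))
    rw [ip_ab, eh_sum_tH π h ρ hε', e1, ← Finset.sum_sub_distrib, one_mul, Real.norm_eq_abs,
      Real.norm_of_nonneg (mul_nonneg (Finset.sum_nonneg fun j _ =>
        mul_nonneg (abs_nonneg _) (hC0 j)) (Real.sqrt_nonneg _)), Finset.sum_mul]
    refine (Finset.abs_sum_le_sum_abs _ _).trans (Finset.sum_le_sum fun j _ => ?_)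
    rw [← mul_sub, abs_mul, mul_assoc]
    exact mul_le_mul_of_nonneg_left (hC j ε hε') (abs_nonneg _)

end

end Pool.Agent.N172.CW
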