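import Pool.Agent.N172.CW.Ctr
import Pool.Agent.N172.CW.Gal

/-!
# Partners
-/

set_option autoImplicit false
set_option linter.unusedSectionVars false
set_option linter.deprecated false

namespace Pool.Agent.N172.CW

open NumberField Complex Filter Topology IsDedekindDomain Asymptotics
open Pool.Agent.N172.HS (IsHecke WRep EH EV EV_EH vx_injective pc Bdd StNvq finset_isLittleO
  LL_not_littleO)
open Pool.Agent.W353.TP (HX sysH push res LL LL_tendsto bdd_isLittleO)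
open Pool.Agent.W353.NF (vx)
open scoped ComplexConjugate

/-- Cauchy's inequality and small functions -/
theorem cs_small {u v w : ℝ → ℝ} (hu : u =o[𝓝[>] 0] LL) (hv : v =O[𝓝[>] 0] LL)
    (h : ∀ᶠ ε : ℝ in 𝓝[>] 0, w ε ^ 2 ≤ u ε * v ε) : w =o[𝓝[>] 0] LL := by
  rw [isLittleO_iff]
  intro c hc
  have h1 := hu.mul_isBigO hv
  filter_upwards [(isLittleO_iff.1 h1) (pow_pos hc 2), h] with ε h2 h3
  rw [Real.norm_eq_abs, Real.norm_eq_abs] at h2 ⊢
  have h4 : w ε ^ 2 ≤ (c * |LL ε|) ^ 2 := by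
    refine h3.trans ((le_abs_self _).trans (h2.trans (le_of_eq ?_)))
    rw [abs_mul]
    ring
  exact abs_le_of_sq_le_sq h4 (by positivity)

theorem bigO_of {u : ℝ → ℝ} {c : ℝ} (h : (fun ε => u ε - c * LL ε) =o[𝓝[>] 0] LL) :
    u =O[𝓝[>] 0] LL := by
  have h1 := h.isBigO.add ((isBigO_refl LL (𝓝[>] (0 : ℝ))).const_mul_left c)
  refine h1.congr_left fun ε => ?_
  ring

section

variable {K : Type} [Field K] [NumberField K]

theorem ip_add_smul {φ ψ : HX K → ℂ} (h : L2 φ) (h' : L2 ψ) (c : ℝ) {ε : ℝ} (hε : 0 < ε) :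
    ip ε (fun x => φ x + (c : ℂ) * ψ x) (fun x => φ x + (c : ℂ) * ψ x) =
      ip ε φ φ + 2 * c * ip ε φ ψ + c ^ 2 * ip ε ψ ψ := by
  have h1 : L2 (fun x => (c : ℂ) * ψ x) := h'.smul c
  have h2 := h.add h1
  rw [ip_add h h1 h2 hε, ip_smul, ip_comm ε φ, ip_add h h1 h hε, ip_smul, ip_comm ε ψ
    (fun x => φ x + (c : ℂ) * ψ x), ip_add h h1 h' hε, ip_smul, ip_comm ε ψ φ]
  ring

/-- a function which is small in the mean square is small almost everywhere -/
theorem dens_small {φ : HX K → ℂ} (hφ : L2 φ) (h : (fun ε => ip ε φ φ) =o[𝓝[>] 0] LL) {δ : ℝ}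
    (hδ : 0 < δ) : (fun ε => EH K ε (ind {x | δ ≤ ‖φ x‖})) =o[𝓝[>] 0] LL := by
  classical
  refine IsBigO.trans_isLittleO (IsBigO.of_bound 1 ?_) (h.const_mul_left (δ ^ 2)⁻¹)
  filter_upwards [self_mem_nhdsWithin] with ε h5
  have hε : (0 : ℝ) < ε := h5
  have h0 : 0 ≤ EH K ε (ind {x | δ ≤ ‖φ x‖}) :=
    tsum_nonneg fun x => mul_nonneg (ind_nonneg _ x) (wH_nonneg ε x)
  rw [one_mul, Real.norm_of_nonneg h0, Real.norm_of_nonneg (mul_nonneg (by positivity)
    (ip_self_nonneg ε φ)), ip_self, EH_def, ← tsum_mul_left]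
  have hs1 : Summable fun x : HX K => ind {x | δ ≤ ‖φ x‖} x * wH ε x := by
    refine Summable.of_nonneg_of_le (fun x => mul_nonneg (ind_nonneg _ x) (wH_nonneg ε x))
      (fun x => ?_) (wH_summable (K := K) hε)
    exact mul_le_of_le_one_left (wH_nonneg ε x) (ind_le _ x)
  refine hs1.tsum_le_tsum (fun x => ?_) ((hφ ε hε).mul_left _)
  rw [← mul_assoc]
  refine mul_le_mul_of_nonneg_right ?_ (wH_nonneg ε x)
  by_cases hx : δ ≤ ‖φ x‖
  · have e1 : ind {x | δ ≤ ‖φ x‖} x = 1 := if_pos hx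
    rw [e1, inv_mul_eq_div, one_le_div (by positivity)]
    exact pow_le_pow_left₀ hδ.le hx 2
  · have e1 : ind {x | δ ≤ ‖φ x‖} x = 0 := if_neg hx
    rw [e1]
    positivity

/-- A set of primes of Dirichlet density zero. -/
def DensZero (P : Set (HeightOneSpectrum (𝓞 K))) : Prop :=
  (fun ε : ℝ => ∑' v : P, (Ideal.absNorm v.1.asIdeal : ℝ) ^ (-(1 + ε))) =o[𝓝[>] 0]
    fun ε : ℝ => Real.log (1 / ε)

theorem densZero_of {P : Set (HeightOneSpectrum (𝓞 K))}
    (h : (fun ε => EH K ε (ind {x | vx x ∈ P})) =o[𝓝[>] 0] LL) : DensZero P := by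
  classical
  unfold DensZero
  set g : HeightOneSpectrum (𝓞 K) → ℝ := fun v => if v ∈ P then 1 else 0 with hg
  have hg1 : ∀ v, |g v| ≤ 1 := fun v => by
    rw [hg]; simp only; split_ifs <;> norm_num
  have h1 : (fun ε => EV K ε g - EH K ε (fun x => g (vx x))) =o[𝓝[>] 0] LL := by
    apply bdd_isLittleO
    refine ⟨1 * Module.finrank ℚ K * Pool.Agent.H921R2.TatePole.C0, ?_⟩
    filter_upwards [self_mem_nhdsWithin] with ε hε
    exact EV_EH hg1 hε
  have h2 : (fun ε => EV K ε g) =o[𝓝[>] 0] LL := by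
    refine (h1.add h).congr_left fun ε => ?_
    have e1 : (fun x : HX K => g (vx x)) = ind {x | vx x ∈ P} := by
      funext x
      rfl
    rw [e1]
    ring
  refine h2.congr_left fun ε => ?_
  rw [tsum_subtype P (fun v : HeightOneSpectrum (𝓞 K) =>
    (Ideal.absNorm v.asIdeal : ℝ) ^ (-(1 + ε)))]
  refine tsum_congr fun v => ?_
  rw [hg]
  simp only [Set.indicator]
  split_ifs
  · rw [one_mul]; rfl
  · rw [zero_mul]

variable {π : Params K} {ρ : WRep K} {m : ℤ}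

/-- the difference to the partner -/
noncomputable def dH (π : Params K) (ρ : WRep K) (m : ℤ) (x : HX K) : ℂ :=
  aH π x + ((m : ℝ) : ℂ) * bH ρ x

theorem L2.dH (h : π.IsCuspidal) : L2 (dH π ρ m) := (L2.aH h).add ((L2.bH ρ).smul _)

/-- **The partner.** -/
theorem partner_dist (h : π.IsCuspidal) (hρ : ρ.IsIrr) (hm : HasOrd (LW π ρ) 1 m) (hm0 : m ≠ 0) :
    (fun ε => ip ε (dH π ρ m) (dH π ρ m)) =o[𝓝[>] 0] LL := by
  have hA := rs_self_log h
  have hB : (fun ε => ip ε (bH ρ) (bH ρ) - LL ε) =o[𝓝[>] 0] LL := by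
    have h1 := ip_bH ρ ρ
    have h2 : ρ.inner ρ = 1 := hρ
    rw [h2] at h1
    refine h1.congr_left fun ε => ?_
    push_cast
    ring
  have hM : (fun ε => ip ε (aH π) (bH ρ) + m * LL ε) =o[𝓝[>] 0] LL := by
    refine ((lw_ord_log hm).sub (lw_est h ρ).2).congr_left fun ε => ?_
    ring
  have hE := (hA.add (hM.const_mul_left (2 * (m : ℝ)))).add (hB.const_mul_left ((m : ℝ) ^ 2))
  refine IsBigO.trans_isLittleO (IsBigO.of_bound 1 ?_) hE
  filter_upwards [LL_tendsto.eventually_gt_atTop 0, self_mem_nhdsWithin] with ε h3 h5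
  have hε : (0 : ℝ) < ε := h5
  rw [one_mul, Real.norm_of_nonneg (ip_self_nonneg ε _), Real.norm_eq_abs]
  refine le_trans ?_ (le_abs_self _)
  have h6 : ip ε (dH π ρ m) (dH π ρ m) = ip ε (aH π) (aH π) + 2 * m * ip ε (aH π) (bH ρ) +
      (m : ℝ) ^ 2 * ip ε (bH ρ) (bH ρ) := ip_add_smul (L2.aH h) (L2.bH ρ) (m : ℝ) hε
  have h7 : ip ε (aH π) (aH π) ≤ Real.log ‖RSr π π (1 + ε)‖ := by
    have h8 := ip_aa_le (κ := Unit) (fun _ => π) (fun _ => h) (fun _ => 1) hε
    simpa using h8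
  have h8 : (1 : ℝ) ≤ (m : ℝ) ^ 2 := by
    have : 1 ≤ m ^ 2 := by
      have := sq_pos_of_ne_zero hm0
      omega
    exact_mod_cast this
  have h9 : LL ε ≤ (m : ℝ) ^ 2 * LL ε := le_mul_of_one_le_left h3.le h8
  rw [h6]
  nlinarith

theorem ip_bO (σ : WRep K) : (fun ε => ip ε (bH σ) (bH σ)) =O[𝓝[>] 0] LL := bigO_of (ip_bH σ σ)

/-- **The other twists of a representation with a partner.** -/
theorem partner_all (h : π.IsCuspidal) (hρ : ρ.IsIrr) (hm : HasOrd (LW π ρ) 1 m) (hm0 : m ≠ 0)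
    (σ : WRep K) :
    (fun ε => Real.log ‖LWr π σ (1 + ε)‖ + m * ρ.inner σ * LL ε) =o[𝓝[>] 0] LL := by
  have h1 := partner_dist h hρ hm hm0
  have h2 : (fun ε => ip ε (dH π ρ m) (bH σ)) =o[𝓝[>] 0] LL := by
    refine cs_small h1 (ip_bO σ) ?_
    filter_upwards [self_mem_nhdsWithin] with ε hε
    exact ip_cs (L2.dH h) (L2.bH σ) hε
  have h3 := (lw_est h σ).2
  have h4 := ((ip_bH ρ σ).const_mul_left (m : ℝ))
  have h5 := (h3.add h2).sub h4
  refine h5.congr' ?_ (EventuallyEq.refl _ _)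
  filter_upwards [self_mem_nhdsWithin] with ε hε
  have h6 : ip ε (dH π ρ m) (bH σ) = ip ε (aH π) (bH σ) + m * ip ε (bH ρ) (bH σ) := by
    unfold dH
    rw [ip_add (L2.aH h) ((L2.bH ρ).smul _) (L2.bH σ) hε, ip_smul]
  rw [h6]
  ring

theorem dH_eq (π : Params K) (ρ : WRep K) (m : ℤ) (x : HX K) :
    dH π ρ m x = ∑ j, π.α (vx x) j + m * conj (ρ.trace (vx x)) := by
  unfold dH aH bH
  rw [ρ.trace_vx]
  push_cast
  rfl

/-- **The Hecke eigenvalues of a representation with a partner.** -/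
theorem partner_dens (h : π.IsCuspidal) (hρ : ρ.IsIrr) (hm : HasOrd (LW π ρ) 1 m) (hm0 : m ≠ 0)
    {δ : ℝ} (hδ : 0 < δ) :
    DensZero {v | δ ≤ ‖∑ j, π.α v j + m * conj (ρ.trace v)‖} := by
  apply densZero_of
  have h1 := dens_small (L2.dH h) (partner_dist h hρ hm hm0) hδ
  refine h1.congr_left fun ε => ?_
  congr 2
  ext x
  simp only [Set.mem_setOf_eq]
  rw [dH_eq]

theorem ord_abs (h : π.IsCuspidal) (hρ : ρ.IsIrr) (hm : HasOrd (LW π ρ) 1 m) (hm0 : m ≠ 0) :
    m = 1 ∨ m = -1 := by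
  have h1 := (orders (κ := Unit) (κ' := Unit) (fun _ => π) (fun _ => h)
    (fun i j hij => absurd (Subsingleton.elim i j) hij) (fun _ => ρ) (fun _ => hρ)
    (fun i j hij => absurd (Subsingleton.elim i j) hij) (fun _ _ => m) (fun _ _ => hm)).1 ()
  simp only [Finset.univ_unique, Finset.sum_const, Finset.card_singleton, one_smul] at h1
  have h2 : |m| ≤ 1 := (sq_le_one_iff_abs_le_one m).1 h1
  have h3 := abs_le.1 h2
  omega

/-- **The other representations and a partner.** -/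
theorem partner_col (h : π.IsCuspidal) {π' : Params K} (h' : π'.IsCuspidal)
    (hne : HasOrd (RS π π') 1 0) (hne' : HasOrd (RS π' π) 1 0) (hρ : ρ.IsIrr)
    (hm : HasOrd (LW π ρ) 1 m) (hm0 : m ≠ 0) :
    (fun ε => Real.log ‖LWr π' ρ (1 + ε)‖) =o[𝓝[>] 0] LL := by
  have hm1 : (m : ℝ) ^ 2 = 1 := by
    rcases ord_abs h hρ hm hm0 with h1 | h1 <;> rw [h1] <;> norm_num
  rw [isLittleO_iff]
  intro c hc
  -- the constants
  obtain ⟨η, hη0, hη⟩ : ∃ η : ℝ, 0 < η ∧ (1 + η) ^ 2 + 2 * η < 1 + c ^ 2 := by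
    refine ⟨min 1 (c ^ 2 / 6), lt_min one_pos (by positivity), ?_⟩
    have h1 := min_le_left (1 : ℝ) (c ^ 2 / 6)
    have h2 := min_le_right (1 : ℝ) (c ^ 2 / 6)
    have h3 : 0 < min (1 : ℝ) (c ^ 2 / 6) := lt_min one_pos (by positivity)
    nlinarith [sq_pos_of_pos hc]
  have hc1 := contraction (κ := Bool) (κ' := Unit) (fun b => if b then π else π')
    (fun b => by cases b <;> simpa using by assumption)
    (fun i j hij => by
      cases i <;> cases j
      · exact absurd rfl hij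
      · simpa using hne'
      · simpa using hne
      · exact absurd rfl hij)
    (fun _ => ρ) (fun _ => hρ) (fun i j hij => absurd (Subsingleton.elim i j) hij) hη0
  filter_upwards [hc1, (isLittleO_iff.1 (lw_ord_log hm)) hη0,
    LL_tendsto.eventually_gt_atTop 0] with ε h1 h2 h3
  rw [Real.norm_of_nonneg h3.le, Real.norm_eq_abs] at *
  set a : ℝ := Real.log ‖LWr π ρ (1 + ε)‖ with ha
  set b : ℝ := Real.log ‖LWr π' ρ (1 + ε)‖ with hb
  have h4 := h1 (fun i => if i then a else b) (fun _ => 1)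
  simp only [Fintype.univ_bool, Finset.sum_singleton, Finset.mem_singleton, Bool.true_eq_false,
    not_false_eq_true, Finset.sum_insert, if_true, Finset.univ_unique, one_pow, mul_one,
    Finset.sum_const, Finset.card_singleton, one_smul, Real.sqrt_one] at h4
  have h5 : a * a + b * b ≤ (1 + η) * Real.sqrt (a ^ 2 + b ^ 2) * LL ε := by
    refine le_trans (le_abs_self _) ?_
    simpa [← ha, ← hb] using h4
  set R : ℝ := Real.sqrt (a ^ 2 + b ^ 2) with hR
  have hR0 : 0 ≤ R := Real.sqrt_nonneg _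
  have hR2 : R ^ 2 = a ^ 2 + b ^ 2 := Real.sq_sqrt (by positivity)
  have h6 : R ≤ (1 + η) * LL ε := by
    by_contra hcon
    rw [not_le] at hcon
    have h7 : 0 < R := lt_of_le_of_lt (by positivity) hcon
    nlinarith
  have h7 : a ^ 2 + b ^ 2 ≤ (1 + η) ^ 2 * LL ε ^ 2 := by
    rw [← hR2, ← mul_pow]
    exact pow_le_pow_left₀ hR0 h6 2
  have h8 : (1 - 2 * η) * LL ε ^ 2 ≤ a ^ 2 := by
    have h9 := abs_le.1 h2
    have h10 : a * (m : ℝ) ≤ -(1 - η) * LL ε := by
      have h11 : |(a + m * LL ε) * m| ≤ η * LL ε := by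
        rw [abs_mul]
        have h12 : |(m : ℝ)| = 1 := by
          rw [← sq_abs] at hm1
          nlinarith [abs_nonneg (m : ℝ)]
        rw [h12, mul_one]
        exact h2
      have h12 := (abs_le.1 h11).2
      nlinarith
    by_cases h11 : 0 ≤ 1 - η
    · have h12 : ((1 - η) * LL ε) ^ 2 ≤ (a * m) ^ 2 := by
        have : 0 ≤ (1 - η) * LL ε := mul_nonneg h11 h3.le
        nlinarith
      rw [mul_pow a, hm1, mul_one] at h12
      nlinarith [sq_nonneg (η * LL ε)]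
    · have : (1 - 2 * η) * LL ε ^ 2 ≤ 0 := mul_nonpos_of_nonpos_of_nonneg (by linarith)
        (sq_nonneg _)
      exact this.trans (sq_nonneg _)
  have h9 : b ^ 2 ≤ (c * LL ε) ^ 2 := by
    rw [mul_pow]
    have : 0 < LL ε ^ 2 := by positivity
    nlinarith
  exact abs_le_of_sq_le_sq h9 (by positivity)

end

end Pool.Agent.N172.CW
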