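import Pool.Agent.N172.CW.Defs

/-!
# The L-functions of Rankin and Selberg
-/

set_option autoImplicit false
set_option linter.unusedSectionVars false

namespace Pool.Agent.N172.CW

open NumberField Complex Filter Topology IsDedekindDomain
open Pool.Agent.W540.BE (nm two_le_nm)
open scoped ComplexConjugate

section

variable {K : Type} [Field K] [NumberField K]

/-- the L-function at real points -/
noncomputable def RSr (π π' : Params K) (s : ℝ) : ℂ := RS π π' (s : ℂ)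

/-- the L-function at real points -/
noncomputable def LIndr (π : Params K) {F : Type} [Field F] [NumberField F] [Algebra K F]
    (χ : Ideal (𝓞 F) →*₀ ℂ) (s : ℝ) : ℂ := LInd π χ (s : ℂ)

/-- the L-function at real points -/
noncomputable def LWr (π : Params K) (ρ : Pool.Agent.N172.HS.WRep K) (s : ℝ) : ℂ := LW π ρ (s : ℂ)

theorem RSr_eq (π π' : Params K) (ε : ℝ) : RSr π π' (1 + ε) = RS π π' (1 + (ε : ℂ)) := by
  unfold RSr
  push_cast
  rfl

theorem LWr_eq (π : Params K) (ρ : Pool.Agent.N172.HS.WRep K) (ε : ℝ) :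
    LWr π ρ (1 + ε) = LW π ρ (1 + (ε : ℂ)) := by
  unfold LWr
  push_cast
  rfl

/-- the weight of a prime -/
noncomputable def tt (v : HeightOneSpectrum (𝓞 K)) (s : ℝ) : ℝ := (nm K v : ℝ) ^ (-s)

/-- the weight of a power of a prime -/
noncomputable def wt (s : ℝ) (q : HeightOneSpectrum (𝓞 K) × ℕ) : ℝ :=
  tt q.1 s ^ (q.2 + 1) / ((q.2 : ℝ) + 1)

/-- the power sums -/
noncomputable def pw (π : Params K) (v : HeightOneSpectrum (𝓞 K)) (m : ℕ) : ℂ :=
  ∑ j, π.α v j ^ m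

theorem nm_pos (v : HeightOneSpectrum (𝓞 K)) : (0 : ℝ) < nm K v := by
  have := two_le_nm v
  exact_mod_cast (by omega : 0 < nm K v)

theorem one_lt_nm (v : HeightOneSpectrum (𝓞 K)) : (1 : ℝ) < nm K v := by
  have := two_le_nm v
  exact_mod_cast (by omega : 1 < nm K v)

theorem tt_pos (v : HeightOneSpectrum (𝓞 K)) (s : ℝ) : 0 < tt v s :=
  Real.rpow_pos_of_pos (nm_pos v) _

theorem wt_nonneg (s : ℝ) (q : HeightOneSpectrum (𝓞 K) × ℕ) : 0 ≤ wt s q :=
  div_nonneg (pow_nonneg (tt_pos _ _).le _) (by positivity)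

theorem cpow_tt (v : HeightOneSpectrum (𝓞 K)) (s : ℝ) :
    (Ideal.absNorm v.asIdeal : ℂ) ^ (-(s : ℂ)) = ((tt v s : ℝ) : ℂ) := by
  unfold tt
  rw [Complex.ofReal_cpow (nm_pos v).le]
  push_cast
  rfl

theorem nm_mul_tt {v : HeightOneSpectrum (𝓞 K)} {s : ℝ} (hs : 1 < s) :
    (nm K v : ℝ) * tt v s < 1 := by
  unfold tt
  nth_rewrite 1 [← Real.rpow_one (nm K v : ℝ)]
  rw [← Real.rpow_add (nm_pos v)]
  exact Real.rpow_lt_one_of_one_lt_of_neg (one_lt_nm v) (by linarith)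

variable {π π' : Params K}

theorem norm_lt (h : π.IsCuspidal) (h' : π'.IsCuspidal) {s : ℝ} (hs : 1 < s)
    (v : HeightOneSpectrum (𝓞 K)) (l : Fin π.n × Fin π'.n) :
    ‖π.α v l.1 * conj (π'.α v l.2) * (Ideal.absNorm v.asIdeal : ℂ) ^ (-(s : ℂ))‖ < 1 := by
  rw [cpow_tt, norm_mul, norm_mul, Complex.norm_conj, Complex.norm_real,
    Real.norm_of_nonneg (tt_pos v s).le]
  have h1 : ‖π.α v l.1‖ * ‖π'.α v l.2‖ ≤ nm K v := by
    have h2 : ‖π.α v l.1‖ ^ 2 ≤ (nm K v : ℝ) := h.le v l.1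
    have h3 : ‖π'.α v l.2‖ ^ 2 ≤ (nm K v : ℝ) := h'.le v l.2
    nlinarith [sq_nonneg (‖π.α v l.1‖ - ‖π'.α v l.2‖)]
  exact (mul_le_mul_of_nonneg_right h1 (tt_pos v s).le).trans_lt (nm_mul_tt hs)

theorem sum_pow (s : ℝ) (q : HeightOneSpectrum (𝓞 K) × ℕ) :
    ∑ l : Fin π.n × Fin π'.n, (π.α q.1 l.1 * conj (π'.α q.1 l.2) *
      (Ideal.absNorm q.1.asIdeal : ℂ) ^ (-(s : ℂ))) ^ (q.2 + 1) =
      pw π q.1 (q.2 + 1) * conj (pw π' q.1 (q.2 + 1)) * ((tt q.1 s ^ (q.2 + 1) : ℝ) : ℂ) := by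
  rw [cpow_tt]
  unfold pw
  rw [map_sum, Finset.sum_mul_sum, Finset.sum_mul, ← Finset.univ_product_univ,
    Finset.sum_product]
  refine Finset.sum_congr rfl fun i _ => ?_
  rw [Finset.sum_mul]
  refine Finset.sum_congr rfl fun j _ => ?_
  rw [mul_pow, mul_pow, map_pow]
  push_cast
  rfl

/-- the coefficients of `log L(s, π × π~)` -/
theorem rs_summable (h : π.IsCuspidal) {s : ℝ} (hs : 1 < s) :
    Summable fun q : HeightOneSpectrum (𝓞 K) × ℕ => ‖pw π q.1 (q.2 + 1)‖ ^ 2 * wt s q := by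
  have h1 := euler_summable (fun (v : HeightOneSpectrum (𝓞 K)) (l : Fin π.n × Fin π.n) =>
    π.α v l.1 * conj (π.α v l.2) * (Ideal.absNorm v.asIdeal : ℂ) ^ (-(s : ℂ)))
    (norm_lt h h hs) (fun q => ‖pw π q.1 (q.2 + 1)‖ ^ 2 * tt q.1 s ^ (q.2 + 1))
    (fun q => mul_nonneg (sq_nonneg _) (pow_nonneg (tt_pos _ _).le _)) (fun q => by
      rw [sum_pow, Complex.mul_conj, Complex.normSq_eq_norm_sq]
      push_cast
      rfl) (h.conv s hs)
  refine h1.congr fun q => ?_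
  unfold wt
  rw [mul_div_assoc]

theorem abs_re_mul_le (a b : ℂ) : |(a * conj b).re| ≤ ‖a‖ ^ 2 + ‖b‖ ^ 2 := by
  refine (Complex.abs_re_le_norm _).trans ?_
  rw [norm_mul, Complex.norm_conj]
  nlinarith [sq_nonneg (‖a‖ - ‖b‖), sq_nonneg ‖a‖, sq_nonneg ‖b‖]

theorem norm_mul_le (a b : ℂ) : ‖a * conj b‖ ≤ ‖a‖ ^ 2 + ‖b‖ ^ 2 := by
  rw [norm_mul, Complex.norm_conj]
  nlinarith [sq_nonneg (‖a‖ - ‖b‖), sq_nonneg ‖a‖, sq_nonneg ‖b‖]

/-- **The logarithm of `L(s, π × π'~)`.** -/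
theorem rs_log (h : π.IsCuspidal) (h' : π'.IsCuspidal) {s : ℝ} (hs : 1 < s) :
    RSr π π' s ≠ 0 ∧ Real.log ‖RSr π π' s‖ = ∑' q : HeightOneSpectrum (𝓞 K) × ℕ,
      (pw π q.1 (q.2 + 1) * conj (pw π' q.1 (q.2 + 1))).re * wt s q := by
  have h1 := euler_log (fun (v : HeightOneSpectrum (𝓞 K)) (l : Fin π.n × Fin π'.n) =>
    π.α v l.1 * conj (π'.α v l.2) * (Ideal.absNorm v.asIdeal : ℂ) ^ (-(s : ℂ)))
    (norm_lt h h' hs) (by
      refine Summable.of_nonneg_of_le (fun q => div_nonneg (norm_nonneg _) (by positivity))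
        (fun q => ?_) ((rs_summable h hs).add (rs_summable h' hs))
      rw [sum_pow, norm_mul, Complex.norm_real,
        Real.norm_of_nonneg (pow_nonneg (tt_pos _ _).le _), ← add_mul, mul_div_assoc]
      exact mul_le_mul_of_nonneg_right (norm_mul_le _ _) (wt_nonneg s q))
  refine ⟨h1.1, h1.2.trans (tsum_congr fun q => ?_)⟩
  rw [sum_pow, Complex.re_mul_ofReal, mul_div_assoc]
  rfl

/-- the series converges absolutely -/
theorem rs_summable_pair (h : π.IsCuspidal) (h' : π'.IsCuspidal) {s : ℝ} (hs : 1 < s) :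
    Summable fun q : HeightOneSpectrum (𝓞 K) × ℕ =>
      (pw π q.1 (q.2 + 1) * conj (pw π' q.1 (q.2 + 1))).re * wt s q := by
  refine Summable.of_norm_bounded ((rs_summable h hs).add (rs_summable h' hs)) fun q => ?_
  rw [Real.norm_eq_abs, abs_mul, abs_of_nonneg (wt_nonneg s q), ← add_mul]
  exact mul_le_mul_of_nonneg_right (abs_re_mul_le _ _) (wt_nonneg s q)

theorem rs_log_self (h : π.IsCuspidal) {s : ℝ} (hs : 1 < s) :
    Real.log ‖RSr π π s‖ = ∑' q : HeightOneSpectrum (𝓞 K) × ℕ,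
      ‖pw π q.1 (q.2 + 1)‖ ^ 2 * wt s q := by
  rw [(rs_log h h hs).2]
  refine tsum_congr fun q => ?_
  rw [Complex.mul_conj, Complex.ofReal_re, Complex.normSq_eq_norm_sq]

end

end Pool.Agent.N172.CW
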