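import Pool.Agent.N172.CW.Line

/-!
# Tempered representations
-/

set_option autoImplicit false
set_option linter.unusedSectionVars false
set_option linter.deprecated false

namespace Pool.Agent.N172.CW

open NumberField Complex Filter Topology IsDedekindDomain Asymptotics
open Pool.Agent.N172.HS (IsHecke WRep EH EV EV_EH vx_injective pc Bdd StNvq finset_isLittleO
  LL_not_littleO hv eventually_HX EH_finsupp EH_const_mul EH_add)
open Pool.Agent.W353.TP (HX sysH push res LL LL_tendsto bdd_isLittleO)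
open Pool.Agent.W353.NF (vx)
open scoped ComplexConjugate

section

variable {K : Type} [Field K] [NumberField K]

/-- The conjecture of Ramanujan holds for `π` outside of a set of primes of Dirichlet density zero:
`|α_{v,j}| ≤ 1`, that is `|α_{v,j}| = 1` at the unramified primes, as `π` is unitary. -/
def Params.Tempered (π : Params K) : Prop := DensZero {v | ∃ j, 1 < ‖π.α v j‖}

theorem EH_of_dens {P : Set (HeightOneSpectrum (𝓞 K))} (h : DensZero P) :
    (fun ε => EH K ε (ind {x | vx x ∈ P})) =o[𝓝[>] 0] LL := by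
  classical
  set g : HeightOneSpectrum (𝓞 K) → ℝ := fun v => if v ∈ P then 1 else 0 with hg
  have hg1 : ∀ v, |g v| ≤ 1 := fun v => by
    rw [hg]; simp only; split_ifs <;> norm_num
  have h1 : (fun ε => EV K ε g - EH K ε (fun x => g (vx x))) =o[𝓝[>] 0] LL := by
    apply bdd_isLittleO
    refine ⟨1 * Module.finrank ℚ K * Pool.Agent.H921R2.TatePole.C0, ?_⟩
    filter_upwards [self_mem_nhdsWithin] with ε hε
    exact EV_EH hg1 hε
  have h2 : (fun ε => EV K ε g) =o[𝓝[>] 0] LL := by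
    unfold DensZero at h
    refine h.congr_left fun ε => ?_
    rw [tsum_subtype P (fun v : HeightOneSpectrum (𝓞 K) =>
      (Ideal.absNorm v.asIdeal : ℝ) ^ (-(1 + ε)))]
    refine tsum_congr fun v => ?_
    rw [hg]
    simp only [Set.indicator]
    split_ifs
    · rw [one_mul]; rfl
    · rw [zero_mul]
  refine (h2.sub h1).congr_left fun ε => ?_
  have e1 : (fun x : HX K => g (vx x)) = ind {x | vx x ∈ P} := by
    funext x
    rfl
  rw [e1]
  ring

theorem ind_union_le (S A B : Set (HX K)) (h : ∀ x ∈ S, x ∈ A ∨ x ∈ B) (x : HX K) :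
    ind S x ≤ ind A x + ind B x := by
  by_cases hx : x ∈ S
  · have e1 : ind S x = 1 := if_pos hx
    rw [e1]
    rcases h x hx with h7 | h7
    · have e2 : ind A x = 1 := if_pos h7
      rw [e2]
      linarith [ind_nonneg B x]
    · have e2 : ind B x = 1 := if_pos h7
      rw [e2]
      linarith [ind_nonneg A x]
  · have e1 : ind S x = 0 := if_neg hx
    rw [e1]
    exact add_nonneg (ind_nonneg _ _) (ind_nonneg _ _)

theorem ind_summable (S : Set (HX K)) {ε : ℝ} (hε : 0 < ε) :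
    Summable fun x : HX K => ind S x * wH ε x := by
  refine Summable.of_nonneg_of_le (fun x => mul_nonneg (ind_nonneg _ x) (wH_nonneg ε x))
    (fun x => ?_) (wH_summable (K := K) hε)
  exact mul_le_of_le_one_left (wH_nonneg ε x) (ind_le _ x)

theorem EH_cover {S A B : Set (HX K)} (h : ∀ x ∈ S, x ∈ A ∨ x ∈ B) {ε : ℝ} (hε : 0 < ε) :
    EH K ε (ind S) ≤ EH K ε (ind A) + EH K ε (ind B) := by
  rw [← EH_add hε (abs_ind A) (abs_ind B), EH_def, EH_def]
  refine (ind_summable S hε).tsum_le_tsum (fun x => ?_)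
    (((ind_summable A hε).add (ind_summable B hε)).congr fun x => by ring)
  exact mul_le_mul_of_nonneg_right (ind_union_le S A B h x) (wH_nonneg ε x)

/-- removing a set of density zero -/
theorem EH_diff {S B : Set (HX K)} {κ : ℝ} (hκ : 0 < κ)
    (hS : ∀ᶠ ε : ℝ in 𝓝[>] 0, κ * LL ε ≤ EH K ε (ind S))
    (hB : (fun ε => EH K ε (ind B)) =o[𝓝[>] 0] LL) :
    ∀ᶠ ε : ℝ in 𝓝[>] 0, κ / 2 * LL ε ≤ EH K ε (ind (S \ B)) := by
  filter_upwards [hS, (isLittleO_iff.1 hB) (half_pos hκ), LL_tendsto.eventually_gt_atTop 0,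
    self_mem_nhdsWithin] with ε h1 h2 h3 h4
  have hε : (0 : ℝ) < ε := h4
  rw [Real.norm_eq_abs, Real.norm_of_nonneg h3.le] at h2
  have h5 := EH_cover (K := K) (S := S) (A := S \ B) (B := B) (fun x hx => by
    by_cases h : x ∈ B
    · exact Or.inr h
    · exact Or.inl ⟨hx, h⟩) hε
  have h6 := (abs_le.1 h2).2
  linarith

/-- **A gap between the Hecke eigenvalues and the traces.** -/
theorem gap_size {π : Params K} (h : π.IsCuspidal) {ρ : WRep K} (hρ : ρ.IsIrr) {S : Set (HX K)}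
    {δ κ : ℝ} (hδ0 : 0 < δ) (hκ : 0 < κ) (hev : ∀ᶠ ε : ℝ in 𝓝[>] 0, κ * LL ε ≤ EH K ε (ind S))
    (hS : ∀ x ∈ S, ∀ s : ℝ, |s| = 1 → δ ≤ ‖aH π x + (s : ℂ) * bH ρ x‖) :
    ∃ c : ℝ, c < 1 ∧ ∀ᶠ ε : ℝ in 𝓝[>] 0, |Real.log ‖LWr π ρ (1 + ε)‖| ≤ c * LL ε := by
  classical
  set e : ℝ := δ ^ 2 * κ / 8 with he
  have he0 : 0 < e := by rw [he]; positivity
  refine ⟨1 - δ ^ 2 * κ / 4, by
    have : 0 < δ ^ 2 * κ := by positivity
    linarith, ?_⟩
  filter_upwards [hev, (isLittleO_iff.1 (rs_self_log h)) he0,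
    (isLittleO_iff.1 (ip_bH_one hρ)) he0, (isLittleO_iff.1 (lw_est h ρ).2) he0,
    LL_tendsto.eventually_gt_atTop 0, self_mem_nhdsWithin] with ε h1 h2 h3 h4 h5 h6
  have hε : (0 : ℝ) < ε := h6
  rw [Real.norm_eq_abs, Real.norm_of_nonneg h5.le] at h2 h3 h4
  have key : ∀ s : ℝ, |s| = 1 → -(s * Real.log ‖LWr π ρ (1 + ε)‖) ≤
      (1 - δ ^ 2 * κ / 4) * LL ε := by
    intro s hs
    have hs2 : s ^ 2 = 1 := by rw [← sq_abs, hs, one_pow]
    have h7 := ip_add_smul (L2.aH h) (L2.bH ρ) s hε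
    have h8 : ip ε (aH π) (aH π) ≤ Real.log ‖RSr π π (1 + ε)‖ := by
      have h9 := ip_aa_le (κ := Unit) (fun _ => π) (fun _ => h) (fun _ => 1) hε
      simpa using h9
    have h9 : δ ^ 2 * EH K ε (ind S) ≤
        ip ε (fun x => aH π x + (s : ℂ) * bH ρ x) (fun x => aH π x + (s : ℂ) * bH ρ x) := by
      rw [ip_self, ← EH_const_mul, EH_def]
      refine Summable.tsum_le_tsum (fun x => ?_) (((ind_summable S hε).mul_left (δ ^ 2)).congr
        fun x => by ring) (((L2.aH h).add ((L2.bH ρ).smul (s : ℂ))) ε hε)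
      refine mul_le_mul_of_nonneg_right ?_ (wH_nonneg ε x)
      by_cases hx : x ∈ S
      · have e1 : ind S x = 1 := if_pos hx
        rw [e1, mul_one]
        exact pow_le_pow_left₀ hδ0.le (hS x hx s hs) 2
      · have e1 : ind S x = 0 := if_neg hx
        rw [e1, mul_zero]
        positivity
    have h10 : δ ^ 2 * (κ * LL ε) ≤ δ ^ 2 * EH K ε (ind S) :=
      mul_le_mul_of_nonneg_left h1 (by positivity)
    have h11 := (abs_le.1 h2).2
    have h12 := (abs_le.1 h3).2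
    have h13 : |s * (Real.log ‖LWr π ρ (1 + ε)‖ - ip ε (aH π) (bH ρ))| ≤ e * LL ε := by
      rw [abs_mul, hs, one_mul]
      exact h4
    have h14 := (abs_le.1 h13).1
    rw [hs2, one_mul] at h7
    rw [he] at h11 h12 h14
    nlinarith
  rw [abs_le]
  constructor
  · have := key 1 (abs_one)
    linarith
  · have := key (-1) (by rw [abs_neg, abs_one])
    linarith

theorem norm_smul_bH (ρ : WRep K) (x : HX K) {s : ℝ} (hs : |s| = 1) :
    ‖(s : ℂ) * bH ρ x‖ = ‖ρ.tH x‖ := by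
  unfold bH
  rw [norm_mul, Complex.norm_real, Real.norm_eq_abs, hs, one_mul, Complex.norm_conj]

/-- **Representations of large dimension.** -/
theorem tempered_size {π : Params K} (h : π.IsCuspidal) (hT : π.Tempered) {ρ : WRep K}
    (hρ : ρ.IsIrr) (hd : (π.n : ℤ) < |dim ρ|) :
    ∃ c : ℝ, c < 1 ∧ ∀ᶠ ε : ℝ in 𝓝[>] 0, |Real.log ‖LWr π ρ (1 + ε)‖| ≤ c * LL ε := by
  classical
  set d : ℝ := |(dim ρ : ℝ)| with hd'
  have hdn : (π.n : ℝ) < d := by
    rw [hd', ← Int.cast_abs]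
    exact_mod_cast hd
  set δ : ℝ := (d - π.n) / 2 with hδ
  have hδ0 : 0 < δ := by rw [hδ]; linarith
  obtain ⟨κ, hκ, hev⟩ := near_id (fun _ : Fin 1 => ρ) hδ0
  refine gap_size h hρ hδ0 (half_pos hκ) (EH_diff hκ hev (EH_of_dens hT)) fun x hx s hs => ?_
  have hTx : ∀ j, ‖π.α (vx x) j‖ ≤ 1 := by
    intro j
    by_contra hc
    exact hx.2 ⟨j, not_le.1 hc⟩
  have h10 : ‖aH π x‖ ≤ π.n := by
    unfold aH
    refine (norm_sum_le _ _).trans ?_
    refine (Finset.sum_le_sum fun j _ => hTx j).trans ?_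
    rw [Finset.sum_const, Finset.card_univ, Fintype.card_fin, nsmul_eq_mul, mul_one]
  have h11 : ‖ρ.tH x - dim ρ‖ < δ := hx.1 0
  have h12 : d - δ ≤ ‖ρ.tH x‖ := by
    have h13 : ‖(dim ρ : ℂ)‖ = d := Complex.norm_intCast _
    have h14 : ‖(dim ρ : ℂ)‖ ≤ ‖ρ.tH x‖ + ‖ρ.tH x - dim ρ‖ := by
      have : (dim ρ : ℂ) = ρ.tH x - (ρ.tH x - dim ρ) := by ring
      nth_rewrite 1 [this]
      exact norm_sub_le _ _
    linarith
  have h14 : ‖(s : ℂ) * bH ρ x‖ ≤ ‖aH π x + (s : ℂ) * bH ρ x‖ + ‖aH π x‖ := by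
    have : (s : ℂ) * bH ρ x = (aH π x + (s : ℂ) * bH ρ x) - aH π x := by ring
    nth_rewrite 1 [this]
    exact norm_sub_le _ _
  rw [norm_smul_bH ρ x hs] at h14
  have : δ = (d - δ) - π.n := by rw [hδ]; ring
  linarith

/-- A set of primes of positive lower Dirichlet density. -/
def LowerDensPos (P : Set (HeightOneSpectrum (𝓞 K))) : Prop :=
  ∃ κ : ℝ, 0 < κ ∧ ∀ᶠ ε : ℝ in 𝓝[>] 0,
    κ * Real.log (1 / ε) ≤ ∑' v : P, (Ideal.absNorm v.1.asIdeal : ℝ) ^ (-(1 + ε))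

theorem lowerDens_EH {P : Set (HeightOneSpectrum (𝓞 K))} (h : LowerDensPos P) :
    ∃ κ : ℝ, 0 < κ ∧ ∀ᶠ ε : ℝ in 𝓝[>] 0, κ * LL ε ≤ EH K ε (ind {x | vx x ∈ P}) := by
  classical
  obtain ⟨κ, hκ, hev⟩ := h
  refine ⟨κ / 2, by positivity, ?_⟩
  set g : HeightOneSpectrum (𝓞 K) → ℝ := fun v => if v ∈ P then 1 else 0 with hg
  have hg1 : ∀ v, |g v| ≤ 1 := fun v => by
    rw [hg]; simp only; split_ifs <;> norm_num
  have h1 : (fun ε => EV K ε g - EH K ε (fun x => g (vx x))) =o[𝓝[>] 0] LL := by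
    apply bdd_isLittleO
    refine ⟨1 * Module.finrank ℚ K * Pool.Agent.H921R2.TatePole.C0, ?_⟩
    filter_upwards [self_mem_nhdsWithin] with ε hε
    exact EV_EH hg1 hε
  filter_upwards [hev, (isLittleO_iff.1 h1) (half_pos hκ), LL_tendsto.eventually_gt_atTop 0] with
    ε h2 h3 h4
  rw [Real.norm_eq_abs, Real.norm_of_nonneg h4.le] at h3
  have h5 : ∑' v : P, (Ideal.absNorm v.1.asIdeal : ℝ) ^ (-(1 + ε)) = EV K ε g := by
    rw [tsum_subtype P (fun v : HeightOneSpectrum (𝓞 K) =>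
      (Ideal.absNorm v.asIdeal : ℝ) ^ (-(1 + ε)))]
    refine tsum_congr fun v => ?_
    rw [hg]
    simp only [Set.indicator]
    split_ifs
    · rw [one_mul]; rfl
    · rw [zero_mul]
  have e1 : (fun x : HX K => g (vx x)) = ind {x | vx x ∈ P} := by
    funext x
    rfl
  rw [e1] at h3
  rw [h5] at h2
  have h6 := (abs_le.1 h3).2
  have h7 : κ * LL ε ≤ EV K ε g := h2
  linarith

/-- The Hecke eigenvalues of `π` are not of finite type: for every finite set `Y` of real numbers there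
is a `δ > 0` such that the primes at which `|α_{v,1} + ⋯ + α_{v,n}|` has distance at least `δ` from `Y`
have positive lower density. This is the case if these absolute values have a continuous distribution,
for example the distribution of Sato and Tate. -/
def Params.NotFinite (π : Params K) : Prop :=
  ∀ Y : Finset ℝ, ∃ δ : ℝ, 0 < δ ∧ LowerDensPos {v | ∀ y ∈ Y, δ ≤ |‖∑ j, π.α v j‖ - y|}

/-- **Representations with finitely many absolute values of the trace.** -/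
theorem finite_size {π : Params K} (h : π.IsCuspidal) (hT : π.NotFinite) {ρ : WRep K}
    (hρ : ρ.IsIrr) {Y : Finset ℝ} (hY : ∀ x : HX K, ‖ρ.tH x‖ ∈ Y) :
    ∃ c : ℝ, c < 1 ∧ ∀ᶠ ε : ℝ in 𝓝[>] 0, |Real.log ‖LWr π ρ (1 + ε)‖| ≤ c * LL ε := by
  obtain ⟨δ, hδ0, hP⟩ := hT Y
  obtain ⟨κ, hκ, hev⟩ := lowerDens_EH hP
  refine gap_size h hρ hδ0 hκ hev fun x hx s hs => ?_
  have h1 : δ ≤ |‖aH π x‖ - ‖ρ.tH x‖| := hx _ (hY x)
  refine h1.trans ?_
  rw [← norm_smul_bH ρ x hs, ← norm_neg ((s : ℂ) * bH ρ x)]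
  refine (abs_norm_sub_norm_le _ _).trans (le_of_eq ?_)
  rw [sub_neg_eq_add]

/-- no zero and no pole -/
theorem order_zero {π : Params K} {ρ : WRep K} {c : ℝ} (hc : c < 1)
    (h : ∀ᶠ ε : ℝ in 𝓝[>] 0, |Real.log ‖LWr π ρ (1 + ε)‖| ≤ c * LL ε) {m : ℤ}
    (hm : HasOrd (LW π ρ) 1 m) : m = 0 := by
  have h1 := lw_ord_log hm
  have h2 : (0 : ℝ) < (1 - c) / 2 := by linarith
  obtain ⟨ε, h3, h4, h5⟩ := (h.and (((isLittleO_iff.1 h1) h2).and
    (LL_tendsto.eventually_gt_atTop 0))).exists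
  rw [Real.norm_eq_abs, Real.norm_of_nonneg h5.le] at h4
  have h6 : |(m : ℝ)| * LL ε ≤ ((1 - c) / 2 + c) * LL ε := by
    have h7 : |(m : ℝ) * LL ε| ≤ |Real.log ‖LWr π ρ (1 + ε)‖ + m * LL ε| +
        |Real.log ‖LWr π ρ (1 + ε)‖| := by
      have : (m : ℝ) * LL ε = (Real.log ‖LWr π ρ (1 + ε)‖ + m * LL ε) -
          Real.log ‖LWr π ρ (1 + ε)‖ := by ring
      nth_rewrite 1 [this]
      exact abs_sub _ _
    rw [abs_mul, abs_of_pos h5] at h7
    linarith
  have h7 := le_of_mul_le_mul_right h6 h5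
  have h8 : |(m : ℝ)| < 1 := by linarith
  have h9 : |m| < 1 := by
    rw [← Int.cast_abs] at h8
    exact_mod_cast h8
  exact Int.abs_lt_one_iff.1 h9

/-! ### The central character -/

/-- a Hecke character as a representation -/
noncomputable def ofChar {𝔣 : Ideal (𝓞 K)} {k : (K →+* ℂ) → ℤ} {t : (K →+* ℂ) → ℝ}
    {ω : Ideal (𝓞 K) →*₀ ℂ} (hω : IsHecke 𝔣 k t ω) : WRep K where
  r := 1
  F _ := K
  𝔣 _ := 𝔣
  k _ := k
  t _ := t
  χ _ := ω
  hecke _ := hω
  c _ := 1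

theorem pc_self (χ : Ideal (𝓞 K) →*₀ ℂ) (x : HX K) : pc K χ x = hv χ x := by
  classical
  unfold pc push
  have h1 : ∀ ψ : 𝓞 K →+* ZMod (x.1 : ℕ), res K ψ = ψ := fun ψ => by
    change ψ.comp (RingHom.id (𝓞 K)) = ψ
    exact RingHom.comp_id ψ
  simp only [h1]
  rw [Finset.sum_filter, Finset.sum_ite_eq' Finset.univ x.2]
  simp

theorem tH_ofChar {𝔣 : Ideal (𝓞 K)} {k : (K →+* ℂ) → ℤ} {t : (K →+* ℂ) → ℝ}
    {ω : Ideal (𝓞 K) →*₀ ℂ} (hω : IsHecke 𝔣 k t ω) (x : HX K) : (ofChar hω).tH x = hv ω x := by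
  change ∑ j : Fin 1, ((1 : ℤ) : ℂ) * pc K ω x = _
  rw [pc_self]
  simp

theorem dim_ofChar {𝔣 : Ideal (𝓞 K)} {k : (K →+* ℂ) → ℤ} {t : (K →+* ℂ) → ℝ}
    {ω : Ideal (𝓞 K) →*₀ ℂ} (hω : IsHecke 𝔣 k t ω) : dim (ofChar hω) = 1 := by
  change ∑ j : Fin 1, (1 : ℤ) * Module.finrank K K = _
  simp

theorem norm_prod_sub {ι : Type*} (s : Finset ι) (a : ι → ℂ) (ha : ∀ i ∈ s, ‖a i‖ ≤ 1) :
    ‖∏ i ∈ s, a i - ∏ _i ∈ s, (-1 : ℂ)‖ ≤ ∑ i ∈ s, ‖a i + 1‖ := by
  classical
  induction s using Finset.induction_on with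
  | empty => simp
  | insert j s hj ih =>
    rw [Finset.prod_insert hj, Finset.prod_insert hj, Finset.sum_insert hj]
    have h1 : a j * ∏ i ∈ s, a i - -1 * ∏ _i ∈ s, (-1 : ℂ) =
        (a j + 1) * ∏ i ∈ s, a i + (-1) * (∏ i ∈ s, a i - ∏ _i ∈ s, (-1 : ℂ)) := by ring
    rw [h1]
    refine (norm_add_le _ _).trans (add_le_add ?_ ?_)
    · rw [norm_mul, norm_prod]
      exact mul_le_of_le_one_right (norm_nonneg _) (Finset.prod_le_one
        (fun i _ => norm_nonneg _) fun i hi => ha i (Finset.mem_insert_of_mem hi))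
    · rw [norm_mul, norm_neg, norm_one, one_mul]
      exact ih fun i hi => ha i (Finset.mem_insert_of_mem hi)

/-- **No zeros, if the dimension is odd.** -/
theorem odd_case {π : Params K} (h : π.IsCuspidal) (hT : π.Tempered) (hn : Odd π.n)
    {𝔣 : Ideal (𝓞 K)} {k : (K →+* ℂ) → ℤ} {u : (K →+* ℂ) → ℝ} {ω : Ideal (𝓞 K) →*₀ ℂ}
    (hω : IsHecke 𝔣 k u ω)
    (hc : ∀ᶠ v : HeightOneSpectrum (𝓞 K) in cofinite, ∏ j, π.α v j = ω v.asIdeal)
    {ρ : WRep K} (hρ : ρ.IsIrr) (hd : dim ρ = π.n) {m : ℤ} (hm : HasOrd (LW π ρ) 1 m) :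
    m ≤ 0 := by
  classical
  by_contra hcon
  rw [not_le] at hcon
  have hm0 : m ≠ 0 := hcon.ne'
  have hm1 : m = 1 := by
    rcases ord_abs h hρ hm hm0 with h1 | h1
    · exact h1
    · omega
  subst hm1
  set n : ℝ := (π.n : ℝ) with hn'
  have hn0 : 0 ≤ n := Nat.cast_nonneg _
  obtain ⟨δ, hδ0, hδ1, hδ2⟩ : ∃ δ : ℝ, 0 < δ ∧ δ < 1 ∧ n * (2 * Real.sqrt δ) < 1 := by
    refine ⟨(1 / (2 * n + 3)) ^ 2, by positivity, ?_, ?_⟩
    · have : 1 / (2 * n + 3) < 1 := by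
        rw [div_lt_one (by positivity)]
        linarith
      exact pow_lt_one₀ (by positivity) this two_ne_zero
    · rw [Real.sqrt_sq (by positivity)]
      rw [mul_one_div, mul_div_assoc', div_lt_one (by positivity)]
      linarith
  obtain ⟨κ, hκ, hev⟩ := near_id ![ρ, ofChar hω] hδ0
  set S : Set (HX K) := {x | ∀ k : Fin 2, ‖((![ρ, ofChar hω] : Fin 2 → WRep K) k).tH x -
    dim ((![ρ, ofChar hω] : Fin 2 → WRep K) k)‖ < δ} with hS
  have hbad := dens_small (L2.dH h) (partner_dist h hρ hm hm0) hδ0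
  set B : Set (HX K) := {x | δ ≤ ‖dH π ρ 1 x‖} with hB
  have hfin : {x : HX K | ¬ ∏ j, π.α (vx x) j = ω (vx x).asIdeal}.Finite := by
    have := eventually_HX hc
    rwa [Filter.eventually_cofinite] at this
  set T : Finset (HX K) := hfin.toFinset with hTf
  set R : Set (HX K) := {x | vx x ∈ {v : HeightOneSpectrum (𝓞 K) | ∃ j, 1 < ‖π.α v j‖}} with hR
  have hevR := EH_diff hκ hev (EH_of_dens hT)
  -- the contradiction at one prime
  have hcover : ∀ x ∈ S \ R, x ∈ B ∨ x ∈ (T : Set (HX K)) := by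
    rintro x ⟨hx, hxR⟩
    by_contra hcon2
    push Not at hcon2
    obtain ⟨hxB, hxT⟩ := hcon2
    have hTx : ∀ j, ‖π.α (vx x) j‖ ≤ 1 := by
      intro j
      by_contra hc2
      exact hxR ⟨j, not_le.1 hc2⟩
    have hx0 : ‖ρ.tH x - dim ρ‖ < δ := hx 0
    have hx1 : ‖(ofChar hω).tH x - dim (ofChar hω)‖ < δ := hx 1
    rw [tH_ofChar, dim_ofChar] at hx1
    have hxB' : ‖dH π ρ 1 x‖ < δ := by
      by_contra hc2
      exact hxB (not_lt.1 hc2)
    have hprod : ∏ j, π.α (vx x) j = hv ω x := by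
      by_contra hc2
      exact hxT (Finset.mem_coe.2 ((hfin.mem_toFinset).2 hc2))
    -- the sum is close to `-n`
    have h1 : ‖(∑ j, π.α (vx x) j) + n‖ < 2 * δ := by
      have e1 : (∑ j, π.α (vx x) j) + (n : ℂ) = dH π ρ 1 x - conj (ρ.tH x - dim ρ) := by
        unfold dH aH bH
        rw [hd]
        push_cast
        rw [map_sub, Complex.conj_natCast, hn']
        push_cast
        ring
      rw [e1]
      refine (norm_sub_le _ _).trans_lt ?_
      rw [Complex.norm_conj]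
      linarith
    have h2 : ∑ j, (1 + (π.α (vx x) j).re) < 2 * δ := by
      have h3 := (Complex.re_le_norm _).trans_lt h1
      rw [Complex.add_re, Complex.re_sum, Complex.ofReal_re] at h3
      rw [Finset.sum_add_distrib, Finset.sum_const, Finset.card_univ, Fintype.card_fin,
        nsmul_eq_mul, mul_one]
      linarith
    have h3 : ∀ j, 0 ≤ 1 + (π.α (vx x) j).re := by
      intro j
      have h4 := (abs_le.1 ((Complex.abs_re_le_norm (π.α (vx x) j)).trans (hTx j))).1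
      linarith
    have h4 : ∀ j, ‖π.α (vx x) j + 1‖ ≤ 2 * Real.sqrt δ := by
      intro j
      have h5 : 1 + (π.α (vx x) j).re ≤ 2 * δ :=
        (Finset.single_le_sum (f := fun j => 1 + (π.α (vx x) j).re) (fun j _ => h3 j)
          (Finset.mem_univ j)).trans h2.le
      have h6 : ‖π.α (vx x) j + 1‖ ^ 2 = 1 + 2 * (π.α (vx x) j).re + ‖π.α (vx x) j‖ ^ 2 := by
        rw [← Complex.normSq_eq_norm_sq, ← Complex.normSq_eq_norm_sq, Complex.normSq_apply,
          Complex.normSq_apply]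
        simp
        ring
      have h7 : ‖π.α (vx x) j‖ ^ 2 ≤ 1 := pow_le_one₀ (norm_nonneg _) (hTx j)
      have h8 : ‖π.α (vx x) j + 1‖ ^ 2 ≤ (2 * Real.sqrt δ) ^ 2 := by
        rw [mul_pow, Real.sq_sqrt hδ0.le, h6]
        linarith
      exact le_of_sq_le_sq h8 (by positivity)
    have h5 := norm_prod_sub Finset.univ (fun j => π.α (vx x) j) (fun j _ => hTx j)
    have h6 : ∑ j, ‖π.α (vx x) j + 1‖ ≤ n * (2 * Real.sqrt δ) := by
      refine (Finset.sum_le_sum fun j _ => h4 j).trans ?_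
      rw [Finset.sum_const, Finset.card_univ, Fintype.card_fin, nsmul_eq_mul]
    have h7 : ∏ _j : Fin π.n, (-1 : ℂ) = -1 := by
      rw [Finset.prod_const, Finset.card_univ, Fintype.card_fin]
      exact hn.neg_one_pow
    rw [hprod, h7] at h5
    have h8 : ‖(2 : ℂ)‖ ≤ ‖hv ω x - -1‖ + ‖hv ω x - ((1 : ℤ) : ℂ)‖ := by
      have : (2 : ℂ) = (hv ω x - -1) - (hv ω x - ((1 : ℤ) : ℂ)) := by push_cast; ring
      nth_rewrite 1 [this]
      exact norm_sub_le _ _
    have h9 : ‖(2 : ℂ)‖ = 2 := by norm_num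
    linarith
  -- the densities
  have hT1 : (fun ε => EH K ε (ind (T : Set (HX K)))) =o[𝓝[>] 0] LL := by
    apply bdd_isLittleO
    refine ⟨T.card * 1, ?_⟩
    filter_upwards [self_mem_nhdsWithin] with ε hε
    exact EH_finsupp T (fun x hx => if_neg (fun h' => hx (Finset.mem_coe.1 h'))) (abs_ind _) hε
  obtain ⟨ε, h1, h2, h3, h4, h5⟩ := (hevR.and (((isLittleO_iff.1 hbad)
    (show (0 : ℝ) < κ / 8 by positivity)).and (((isLittleO_iff.1 hT1)
    (show (0 : ℝ) < κ / 8 by positivity)).and ((LL_tendsto.eventually_gt_atTop 0).and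
      (show ∀ᶠ ε : ℝ in 𝓝[>] 0, 0 < ε from self_mem_nhdsWithin))))).exists
  rw [Real.norm_eq_abs, Real.norm_of_nonneg h4.le] at h2 h3
  have h6 := EH_cover (K := K) hcover h5
  have h7 := (abs_le.1 h2).2
  have h8 := (abs_le.1 h3).2
  have h9 : κ / 2 * LL ε ≤ κ / 8 * LL ε + κ / 8 * LL ε := by linarith
  have h10 : 0 < κ * LL ε := by positivity
  linarith

end

end Pool.Agent.N172.CW
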