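import Pool.Agent.N172.CW.Rs

/-!
# The twisted L-functions
-/

set_option autoImplicit false
set_option linter.unusedSectionVars false
set_option linter.deprecated false

namespace Pool.Agent.N172.CW

open NumberField Complex Filter Topology IsDedekindDomain
open Pool.Agent.W540.BE (nm two_le_nm)
open Pool.Agent.N172.HS (IsHecke)
open scoped ComplexConjugate

/-- sums over fibres -/
theorem fiber_bound {I J : Type*} [DecidableEq J] (Φ : I → J) (C : ℕ)
    (hC : ∀ (s : Finset I) (j : J), (s.filter (fun i => Φ i = j)).card ≤ C) {g : J → ℝ}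
    (hg : ∀ j, 0 ≤ g j) (hs : Summable g) :
    Summable (fun i => g (Φ i)) ∧ ∑' i, g (Φ i) ≤ C * ∑' j, g j := by
  have h1 : ∀ s : Finset I, ∑ i ∈ s, g (Φ i) ≤ C * ∑' j, g j := by
    intro s
    rw [Finset.sum_comp g Φ]
    calc ∑ j ∈ s.image Φ, (s.filter (fun i => Φ i = j)).card • g j ≤
        ∑ j ∈ s.image Φ, (C : ℝ) * g j := by
          refine Finset.sum_le_sum fun j _ => ?_
          rw [nsmul_eq_mul]
          exact mul_le_mul_of_nonneg_right (by exact_mod_cast hC s j) (hg j)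
      _ = C * ∑ j ∈ s.image Φ, g j := by rw [Finset.mul_sum]
      _ ≤ C * ∑' j, g j := mul_le_mul_of_nonneg_left (hs.sum_le_tsum _ fun j _ => hg j)
          (Nat.cast_nonneg _)
  have h2 : Summable (fun i => g (Φ i)) := summable_of_sum_le (fun i => hg _) h1
  exact ⟨h2, h2.tsum_le_of_sum_le h1⟩

section

variable {K F : Type} [Field K] [NumberField K] [Field F] [NumberField F] [Algebra K F]

instance noZero : NoZeroSMulDivisors (𝓞 K) (𝓞 F) where
  eq_zero_or_eq_zero_of_smul_eq_zero {c x} h := by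
    rw [Algebra.smul_def, mul_eq_zero] at h
    exact h.imp_left fun h1 =>
      FaithfulSMul.algebraMap_injective (𝓞 K) (𝓞 F) (h1.trans (map_zero _).symm)

instance under_maximal (w : HeightOneSpectrum (𝓞 F)) :
    ((w.under (𝓞 K)).asIdeal).IsMaximal := (w.under (𝓞 K)).isMaximal

instance under_liesOver (w : HeightOneSpectrum (𝓞 F)) :
    w.asIdeal.LiesOver (w.under (𝓞 K)).asIdeal := ⟨rfl⟩

theorem rd_pos (w : HeightOneSpectrum (𝓞 F)) : 0 < rd K w :=
  Ideal.inertiaDeg'_pos (w.under (𝓞 K)).asIdeal w.asIdeal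

theorem nm_under (w : HeightOneSpectrum (𝓞 F)) : nm F w = nm K (w.under (𝓞 K)) ^ rd K w :=
  Ideal.absNorm_eq_pow_inertiaDeg'_of_liesOver w.asIdeal (w.under (𝓞 K)).asIdeal
    (w.under (𝓞 K)).isPrime (w.under (𝓞 K)).ne_bot

theorem rd_le (w : HeightOneSpectrum (𝓞 F)) : rd K w ≤ Module.finrank K F := by
  have := w.isPrime
  exact Ideal.inertiaDeg_le_finrank (S := 𝓞 F) (K := K) (L := F) (P := w.asIdeal)
    (hp0 := (w.under (𝓞 K)).ne_bot)

theorem card_under (s : Finset (HeightOneSpectrum (𝓞 F))) (v : HeightOneSpectrum (𝓞 K))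
    (h : ∀ w ∈ s, w.under (𝓞 K) = v) : s.card ≤ Module.finrank K F := by
  classical
  have := v.isMaximal
  refine le_trans ?_ (Ideal.card_primesOverFinset_le_finrank (R := 𝓞 K) (S := 𝓞 F) (K := K)
    (L := F) (hp0 := v.ne_bot))
  refine Finset.card_le_card_of_injOn (fun w => w.asIdeal) (fun w hw => ?_)
    (fun w _ w' _ h => HeightOneSpectrum.ext h)
  rw [Finset.mem_coe, IsDedekindDomain.mem_primesOverFinset_iff v.ne_bot]
  refine ⟨w.isPrime, ⟨?_⟩⟩
  rw [← h w hw]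
  rfl

theorem tt_under (w : HeightOneSpectrum (𝓞 F)) (s : ℝ) : tt w s = tt (w.under (𝓞 K)) s ^ rd K w := by
  unfold tt
  rw [nm_under (K := K), Nat.cast_pow, ← Real.rpow_natCast, ← Real.rpow_natCast,
    ← Real.rpow_mul (Nat.cast_nonneg _), ← Real.rpow_mul (Nat.cast_nonneg _), mul_comm]

/-- the power of the prime below -/
noncomputable def dn (K : Type) {F : Type} [Field K] [NumberField K] [Field F] [NumberField F]
    [Algebra K F] (q : HeightOneSpectrum (𝓞 F) × ℕ) : HeightOneSpectrum (𝓞 K) × ℕ :=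
  (q.1.under (𝓞 K), (q.2 + 1) * rd K q.1 - 1)

theorem dn_two (q : HeightOneSpectrum (𝓞 F) × ℕ) : (dn K q).2 + 1 = (q.2 + 1) * rd K q.1 := by
  have := Nat.mul_pos (Nat.succ_pos q.2) (rd_pos (K := K) q.1)
  unfold dn
  simp only
  have h2 : 0 < (q.2 + 1) * rd K q.1 := this
  omega

theorem wt_dn (s : ℝ) (q : HeightOneSpectrum (𝓞 F) × ℕ) : wt s q = rd K q.1 * wt s (dn K q) := by
  have h1 := dn_two (K := K) q
  have h2 : (((dn K q).2 : ℝ) + 1) = (q.2 + 1) * rd K q.1 := by exact_mod_cast h1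
  have h3 : (0 : ℝ) < rd K q.1 := by exact_mod_cast rd_pos (K := K) q.1
  unfold wt
  rw [h2, h1, tt_under (K := K), ← pow_mul, mul_comm (rd K q.1) (q.2 + 1)]
  have h4 : (dn K q).1 = q.1.under (𝓞 K) := rfl
  rw [h4]
  field_simp

theorem card_dn [DecidableEq (HeightOneSpectrum (𝓞 K) × ℕ)]
    (s : Finset (HeightOneSpectrum (𝓞 F) × ℕ)) (j : HeightOneSpectrum (𝓞 K) × ℕ) :
    (s.filter (fun i => dn K i = j)).card ≤ Module.finrank K F := by
  classical
  have h1 : ((s.filter (fun i => dn K i = j)).image Prod.fst).card ≤ Module.finrank K F := by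
    refine card_under _ j.1 fun w hw => ?_
    rw [Finset.mem_image] at hw
    obtain ⟨q, hq, rfl⟩ := hw
    rw [Finset.mem_filter] at hq
    rw [← hq.2]
    rfl
  rw [Finset.card_image_of_injOn] at h1
  · exact h1
  · intro q hq q' hq' h
    rw [Finset.mem_coe, Finset.mem_filter] at hq hq'
    have h2 := dn_two (K := K) q
    have h3 := dn_two (K := K) q'
    rw [hq.2] at h2
    rw [hq'.2] at h3
    have h4 : q.1 = q'.1 := h
    rw [← h4] at h3
    have h5 := h2.symm.trans h3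
    have h6 := Nat.eq_of_mul_eq_mul_right (rd_pos (K := K) q.1) h5
    exact Prod.ext h4 (by omega)

variable {π : Params K}

/-- the mean square of the power sums over the primes of `F` -/
theorem up_summable (h : π.IsCuspidal) {s : ℝ} (hs : 1 < s) :
    (Summable fun q : HeightOneSpectrum (𝓞 F) × ℕ =>
      ‖pw π (q.1.under (𝓞 K)) ((q.2 + 1) * rd K q.1)‖ ^ 2 * wt s q) ∧
    ∑' q : HeightOneSpectrum (𝓞 F) × ℕ,
      ‖pw π (q.1.under (𝓞 K)) ((q.2 + 1) * rd K q.1)‖ ^ 2 * wt s q ≤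
      (Module.finrank K F : ℝ) ^ 2 * Real.log ‖RSr π π s‖ := by
  classical
  set g : HeightOneSpectrum (𝓞 K) × ℕ → ℝ := fun q => ‖pw π q.1 (q.2 + 1)‖ ^ 2 * wt s q with hg
  have hg0 : ∀ j, 0 ≤ g j := fun j => mul_nonneg (sq_nonneg _) (wt_nonneg _ _)
  obtain ⟨h1, h2⟩ := fiber_bound (dn K) (Module.finrank K F)
    (fun s j => card_dn (K := K) (F := F) s j) hg0 (rs_summable h hs)
  rw [← rs_log_self h hs] at h2
  have h3 : ∀ q : HeightOneSpectrum (𝓞 F) × ℕ,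
      ‖pw π (q.1.under (𝓞 K)) ((q.2 + 1) * rd K q.1)‖ ^ 2 * wt s q ≤
      Module.finrank K F * g (dn K q) := by
    intro q
    rw [wt_dn (K := K), hg]
    simp only
    rw [dn_two (K := K)]
    have h4 : (dn K q).1 = q.1.under (𝓞 K) := rfl
    rw [h4]
    have h5 : (rd K q.1 : ℝ) ≤ Module.finrank K F := by exact_mod_cast rd_le (K := K) q.1
    have h6 : 0 ≤ ‖pw π (q.1.under (𝓞 K)) ((q.2 + 1) * rd K q.1)‖ ^ 2 * wt s (dn K q) :=
      mul_nonneg (sq_nonneg _) (wt_nonneg _ _)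
    calc ‖pw π (q.1.under (𝓞 K)) ((q.2 + 1) * rd K q.1)‖ ^ 2 * (rd K q.1 * wt s (dn K q)) =
        rd K q.1 * (‖pw π (q.1.under (𝓞 K)) ((q.2 + 1) * rd K q.1)‖ ^ 2 * wt s (dn K q)) := by
          ring
      _ ≤ _ := mul_le_mul_of_nonneg_right h5 h6
  have h4 : Summable fun q : HeightOneSpectrum (𝓞 F) × ℕ =>
      ‖pw π (q.1.under (𝓞 K)) ((q.2 + 1) * rd K q.1)‖ ^ 2 * wt s q :=
    Summable.of_nonneg_of_le (fun q => mul_nonneg (sq_nonneg _) (wt_nonneg _ _)) h3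
      (h1.mul_left _)
  refine ⟨h4, (h4.tsum_le_tsum h3 (h1.mul_left _)).trans ?_⟩
  rw [tsum_mul_left, sq, mul_assoc]
  exact mul_le_mul_of_nonneg_left h2 (Nat.cast_nonneg _)

theorem wt_summable {s : ℝ} (hs : 1 < s) :
    Summable fun q : HeightOneSpectrum (𝓞 F) × ℕ => wt s q := by
  have h1 : Summable fun v : HeightOneSpectrum (𝓞 F) => tt v s :=
    (Pool.Agent.H341R2.sysK F).summable (-s) (by linarith)
  have h2 : Summable fun m : ℕ => ((1 : ℝ) / 2) ^ m := summable_geometric_two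
  refine Summable.of_nonneg_of_le (fun q => wt_nonneg _ _) (fun q => ?_)
    (h1.mul_of_nonneg h2 (fun v => (tt_pos v s).le) (fun m => by positivity))
  unfold wt
  rw [pow_succ]
  have h3 : tt q.1 s ≤ 1 / 2 := by
    unfold tt
    have h4 : (2 : ℝ) ≤ nm F q.1 := by exact_mod_cast two_le_nm q.1
    calc (nm F q.1 : ℝ) ^ (-s) ≤ (nm F q.1 : ℝ) ^ (-1 : ℝ) :=
          Real.rpow_le_rpow_of_exponent_le (by linarith) (by linarith)
      _ ≤ 1 / 2 := by
          rw [Real.rpow_neg_one, one_div]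
          exact inv_anti₀ (by norm_num) h4
  have h5 : tt q.1 s ^ q.2 ≤ (1 / 2 : ℝ) ^ q.2 := pow_le_pow_left₀ (tt_pos _ _).le h3 _
  refine (div_le_self (mul_nonneg (pow_nonneg (tt_pos _ _).le _) (tt_pos _ _).le) (by
    have : (0 : ℝ) ≤ q.2 := Nat.cast_nonneg _
    linarith)).trans ?_
  rw [mul_comm]
  exact mul_le_mul_of_nonneg_left h5 (tt_pos _ _).le

/-- the general term of `log L(s, π × Ind χ)` -/
noncomputable def term (π : Params K) (χ : Ideal (𝓞 F) →*₀ ℂ) (q : HeightOneSpectrum (𝓞 F) × ℕ) : ℂ :=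
  pw π (q.1.under (𝓞 K)) ((q.2 + 1) * rd K q.1) * χ q.1.asIdeal ^ (q.2 + 1)

variable {χ : Ideal (𝓞 F) →*₀ ℂ}

theorem norm_term_le (hχ : ∀ 𝔞, ‖χ 𝔞‖ ≤ 1) (q : HeightOneSpectrum (𝓞 F) × ℕ) :
    ‖term π χ q‖ ≤ ‖pw π (q.1.under (𝓞 K)) ((q.2 + 1) * rd K q.1)‖ := by
  unfold term
  rw [norm_mul, norm_pow]
  exact mul_le_of_le_one_right (norm_nonneg _) (pow_le_one₀ (norm_nonneg _) (hχ _))

theorem term_summable (h : π.IsCuspidal) (hχ : ∀ 𝔞, ‖χ 𝔞‖ ≤ 1) {s : ℝ} (hs : 1 < s) :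
    Summable fun q : HeightOneSpectrum (𝓞 F) × ℕ => ‖term π χ q‖ * wt s q := by
  refine Summable.of_nonneg_of_le (fun q => mul_nonneg (norm_nonneg _) (wt_nonneg _ _))
    (fun q => ?_) ((up_summable (F := F) h hs).1.add (wt_summable (F := F) hs))
  have h1 := norm_term_le (π := π) hχ q
  have h2 : ‖pw π (q.1.under (𝓞 K)) ((q.2 + 1) * rd K q.1)‖ ≤
      ‖pw π (q.1.under (𝓞 K)) ((q.2 + 1) * rd K q.1)‖ ^ 2 + 1 := by
    nlinarith [sq_nonneg (‖pw π (q.1.under (𝓞 K)) ((q.2 + 1) * rd K q.1)‖ - 1)]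
  calc ‖term π χ q‖ * wt s q ≤
      (‖pw π (q.1.under (𝓞 K)) ((q.2 + 1) * rd K q.1)‖ ^ 2 + 1) * wt s q :=
        mul_le_mul_of_nonneg_right (h1.trans h2) (wt_nonneg _ _)
    _ = _ := by ring

theorem norm_pi_mul_tt (h : π.IsCuspidal) {s : ℝ} (hs : 1 < s) (v : HeightOneSpectrum (𝓞 K))
    (j : Fin π.n) : ‖π.α v j‖ * tt v s < 1 := by
  have h2 : ‖π.α v j‖ ^ 2 ≤ (nm K v : ℝ) := h.le v j
  have h3 := one_lt_nm v
  have h1 : ‖π.α v j‖ ≤ nm K v := by
    by_contra hc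
    rw [not_le] at hc
    nlinarith
  exact (mul_le_mul_of_nonneg_right h1 (tt_pos v s).le).trans_lt (nm_mul_tt hs)

/-- **The logarithm of `L(s, π × Ind χ)`.** -/
theorem ind_log (h : π.IsCuspidal) (hχ : ∀ 𝔞, ‖χ 𝔞‖ ≤ 1) {s : ℝ} (hs : 1 < s) :
    LIndr π χ s ≠ 0 ∧ Real.log ‖LIndr π χ s‖ =
      ∑' q : HeightOneSpectrum (𝓞 F) × ℕ, (term π χ q).re * wt s q := by
  have hsum : ∀ q : HeightOneSpectrum (𝓞 F) × ℕ, ∑ j : Fin π.n,
      (π.α (q.1.under (𝓞 K)) j ^ rd K q.1 * χ q.1.asIdeal *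
        (Ideal.absNorm q.1.asIdeal : ℂ) ^ (-(s : ℂ))) ^ (q.2 + 1) =
      term π χ q * ((tt q.1 s ^ (q.2 + 1) : ℝ) : ℂ) := by
    intro q
    rw [cpow_tt]
    unfold term pw
    rw [Finset.sum_mul, Finset.sum_mul]
    refine Finset.sum_congr rfl fun j _ => ?_
    rw [mul_pow, mul_pow, ← pow_mul, mul_comm (rd K q.1)]
    push_cast
    rfl
  have h1 := euler_log (fun (w : HeightOneSpectrum (𝓞 F)) (j : Fin π.n) =>
    π.α (w.under (𝓞 K)) j ^ rd K w * χ w.asIdeal *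
      (Ideal.absNorm w.asIdeal : ℂ) ^ (-(s : ℂ))) (fun w j => by
      rw [cpow_tt, norm_mul, norm_mul, Complex.norm_real, Real.norm_of_nonneg (tt_pos w s).le,
        norm_pow, tt_under (K := K)]
      calc ‖π.α (w.under (𝓞 K)) j‖ ^ rd K w * ‖χ w.asIdeal‖ * tt (w.under (𝓞 K)) s ^ rd K w ≤
          ‖π.α (w.under (𝓞 K)) j‖ ^ rd K w * 1 * tt (w.under (𝓞 K)) s ^ rd K w :=
            mul_le_mul_of_nonneg_right (mul_le_mul_of_nonneg_left (hχ _) (by positivity))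
              (pow_nonneg (tt_pos _ _).le _)
        _ = (‖π.α (w.under (𝓞 K)) j‖ * tt (w.under (𝓞 K)) s) ^ rd K w := by
            rw [mul_one, mul_pow]
        _ < 1 := pow_lt_one₀ (mul_nonneg (norm_nonneg _) (tt_pos _ _).le)
            (norm_pi_mul_tt h hs _ j) (rd_pos (K := K) w).ne') (by
      refine (term_summable h hχ hs).congr fun q => ?_
      rw [hsum, norm_mul, Complex.norm_real,
        Real.norm_of_nonneg (pow_nonneg (tt_pos _ _).le _), mul_div_assoc]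
      rfl)
  refine ⟨h1.1, h1.2.trans (tsum_congr fun q => ?_)⟩
  rw [hsum, Complex.re_mul_ofReal, mul_div_assoc]
  rfl

end

end Pool.Agent.N172.CW
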