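import Pool.Agent.N172.CW.Par
import Pool.Agent.N172.HS.Pq

/-!
# Twists by the powers of the norm
-/

set_option autoImplicit false
set_option linter.unusedSectionVars false
set_option linter.deprecated false

namespace Pool.Agent.N172.CW

open NumberField Complex Filter Topology IsDedekindDomain Asymptotics
open Pool.Agent.N172.HS (IsHecke WRep EH EV EV_EH vx_injective pc Bdd StNvq finset_isLittleO
  LL_not_littleO arch TotPos mulc mulc_apply mult Agree exists_comp exists_vx absNorm_vx hv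
  meanH_zero meanH_one Nm Nm_pos absNorm_span inner_le_one agree_iff)
open Pool.Agent.W353.TP (HX sysH push res LL LL_tendsto bdd_isLittleO Fac iL iR)
open Pool.Agent.W353.NF (vx)
open scoped ComplexConjugate TensorProduct

section

variable (K : Type) [Field K] [NumberField K]

open Classical in
/-- The character `𝔞 ↦ N(𝔞)^{-it}` of the ideals. -/
noncomputable def nChar (t : ℝ) : Ideal (𝓞 K) →*₀ ℂ where
  toFun 𝔞 := if 𝔞 = 0 then 0 else (Ideal.absNorm 𝔞 : ℂ) ^ (-(t * I))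
  map_zero' := if_pos rfl
  map_one' := by
    rw [if_neg one_ne_zero, Ideal.one_eq_top, Ideal.absNorm_top, Nat.cast_one, Complex.one_cpow]
  map_mul' 𝔞 𝔟 := by
    by_cases h1 : 𝔞 = 0
    · simp [h1]
    · by_cases h2 : 𝔟 = 0
      · simp [h2]
      · rw [if_neg h1, if_neg h2, if_neg (mul_ne_zero h1 h2), map_mul, Nat.cast_mul,
          Complex.natCast_mul_natCast_cpow]

theorem nChar_apply (t : ℝ) {𝔞 : Ideal (𝓞 K)} (h : 𝔞 ≠ 0) :
    nChar K t 𝔞 = (Ideal.absNorm 𝔞 : ℂ) ^ (-(t * I)) := if_neg h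

theorem norm_nat_cpow {n : ℕ} (hn : 0 < n) (t : ℝ) : ‖(n : ℂ) ^ (-(t * I))‖ = 1 := by
  rw [Complex.norm_natCast_cpow_of_pos hn]
  simp

theorem absNorm_pos {𝔞 : Ideal (𝓞 K)} (h : 𝔞 ≠ 0) : 0 < Ideal.absNorm 𝔞 :=
  Nat.pos_of_ne_zero (by rwa [Ne, Ideal.absNorm_eq_zero_iff])

theorem norm_nChar (t : ℝ) {𝔞 : Ideal (𝓞 K)} (h : 𝔞 ≠ 0) : ‖nChar K t 𝔞‖ = 1 := by
  rw [nChar_apply K t h]
  exact norm_nat_cpow (absNorm_pos K h) t

theorem log_Nm_emb {x : K} (hx : x ≠ 0) :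
    Real.log (Nm x) = ∑ σ : K →+* ℂ, Real.log ‖σ x‖ := by
  have h1 := Algebra.norm_eq_prod_embeddings ℚ ℂ x
  have h2 : ∏ σ : K →ₐ[ℚ] ℂ, σ x = ∏ σ : K →+* ℂ, σ x := by
    rw [← (RingHom.equivRatAlgHom (R := K) (S := ℂ)).prod_comp]
    rfl
  have h3 : Nm x = ‖∏ σ : K →+* ℂ, σ x‖ := by
    rw [← h2, ← h1]
    unfold Nm
    simp
  rw [h3, norm_prod, Real.log_prod]
  intro σ _
  exact norm_ne_zero_iff.2 ((map_ne_zero σ).2 hx)

theorem isHecke_nChar (t : ℝ) : IsHecke (⊤ : Ideal (𝓞 K)) (fun _ => 0) (fun _ => -t) (nChar K t) where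
  ne_bot := top_ne_bot
  supp 𝔞 h := by
    refine ⟨fun _ => ?_, fun _ h0 => ?_⟩
    · rw [Ideal.isCoprime_iff_sup_eq]
      exact sup_top_eq _
    · have := norm_nChar K t h
      rw [h0, norm_zero] at this
      exact zero_ne_one this
  unit 𝔞 h := by
    by_cases h0 : 𝔞 = 0
    · rw [h0, map_zero] at h
      exact absurd rfl h
    · exact norm_nChar K t h0
  ray x hx _ _ := by
    have hxK : (x : K) ≠ 0 := by exact_mod_cast hx
    rw [nChar_apply K t (by rwa [Ne, Ideal.zero_eq_bot, Ideal.span_singleton_eq_bot])]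
    have h2 := Nm_pos hxK
    have h3 : ((Ideal.absNorm (Ideal.span {x}) : ℕ) : ℂ) = ((Nm (x : K) : ℝ) : ℂ) := by
      rw [← absNorm_span x]
      push_cast
      rfl
    rw [h3, Complex.cpow_def_of_ne_zero (by exact_mod_cast h2.ne'), ← Complex.ofReal_log h2.le,
      log_Nm_emb K hxK]
    unfold arch
    rw [Finset.prod_congr rfl fun σ _ => by rw [zpow_zero, one_mul], ← Complex.exp_sum]
    congr 1
    push_cast
    rw [Finset.sum_mul]
    refine Finset.sum_congr rfl fun σ _ => ?_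
    ring

/-- the norm character is not trivial -/
theorem nChar_nontriv {t : ℝ} (ht : t ≠ 0) : ∃ 𝔠, nChar K t 𝔠 ≠ 0 ∧ nChar K t 𝔠 ≠ 1 := by
  by_contra hcon
  push Not at hcon
  set d : ℕ := Module.finrank ℚ K with hd
  have hd0 : 0 < d := Module.finrank_pos
  have h1 : ∀ m : ℕ, ∃ n : ℤ, t * d * Real.log ((m : ℝ) + 1) = n * (2 * Real.pi) := by
    intro m
    have hm : (((m + 1 : ℕ)) : 𝓞 K) ≠ 0 := by exact_mod_cast Nat.succ_ne_zero m
    have h2 : Ideal.span {(((m + 1 : ℕ)) : 𝓞 K)} ≠ 0 := by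
      rwa [Ne, Ideal.zero_eq_bot, Ideal.span_singleton_eq_bot]
    have h3 := hcon _ (fun h0 => by
      have := norm_nChar K t h2
      rw [h0, norm_zero] at this
      exact zero_ne_one this)
    rw [nChar_apply K t h2, Pool.Agent.Y773.absNorm_span_nat] at h3
    have h4 : (((m + 1) ^ d : ℕ) : ℂ) = (((m : ℝ) + 1 : ℝ) : ℂ) ^ d := by push_cast; rfl
    have h5 : (0 : ℝ) < (m : ℝ) + 1 := by positivity
    have h6 : (((m : ℝ) + 1 : ℝ) : ℂ) ^ d = ((((m : ℝ) + 1) ^ d : ℝ) : ℂ) := by push_cast; rfl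
    rw [h4, h6, Complex.cpow_def_of_ne_zero (by exact_mod_cast (pow_pos h5 d).ne'),
      ← Complex.ofReal_log (pow_pos h5 d).le, Real.log_pow, Complex.exp_eq_one_iff] at h3
    obtain ⟨n, hn⟩ := h3
    refine ⟨-n, ?_⟩
    have h7 := congrArg Complex.im hn
    simp at h7
    push_cast
    linarith
  -- the differences are small
  set a : ℝ := |t * d| with ha
  have ha0 : 0 < a := abs_pos.2 (mul_ne_zero ht (by exact_mod_cast hd0.ne'))
  obtain ⟨m, hm⟩ := exists_nat_gt (a / (2 * Real.pi))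
  have hpi := Real.pi_pos
  have hm0 : (0 : ℝ) < m := lt_trans (by positivity) hm
  obtain ⟨n1, h2⟩ := h1 m
  obtain ⟨n2, h3⟩ := h1 (m - 1)
  have hm1 : 0 < m := by exact_mod_cast hm0
  have h4 : (((m - 1 : ℕ)) : ℝ) + 1 = m := by
    rw [Nat.cast_sub hm1]
    push_cast
    ring
  rw [h4] at h3
  have h5 : t * d * (Real.log ((m : ℝ) + 1) - Real.log m) = ((n1 - n2 : ℤ) : ℝ) * (2 * Real.pi) := by
    push_cast
    linarith
  have h6 : 0 < Real.log ((m : ℝ) + 1) - Real.log m := by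
    rw [sub_pos]
    exact Real.log_lt_log hm0 (by linarith)
  have h7 : Real.log ((m : ℝ) + 1) - Real.log m ≤ 1 / m := by
    rw [← Real.log_div (by positivity) hm0.ne']
    have h8 := Real.log_le_sub_one_of_pos (x := ((m : ℝ) + 1) / m) (by positivity)
    refine h8.trans (le_of_eq ?_)
    field_simp
    ring
  have h8 : |t * d * (Real.log ((m : ℝ) + 1) - Real.log m)| < 2 * Real.pi := by
    rw [abs_mul, ← ha, abs_of_pos h6]
    calc a * (Real.log ((m : ℝ) + 1) - Real.log m) ≤ a * (1 / m) :=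
          mul_le_mul_of_nonneg_left h7 ha0.le
      _ < 2 * Real.pi := by
          rw [mul_one_div, div_lt_iff₀ hm0]
          rw [div_lt_iff₀ (by positivity)] at hm
          linarith
  have h9 : t * d * (Real.log ((m : ℝ) + 1) - Real.log m) ≠ 0 :=
    mul_ne_zero (mul_ne_zero ht (by exact_mod_cast hd0.ne')) h6.ne'
  rw [h5, abs_mul, abs_of_pos (by positivity : (0 : ℝ) < 2 * Real.pi)] at h8
  rw [h5] at h9
  have h10 : (n1 - n2 : ℤ) ≠ 0 := by
    intro h
    rw [h] at h9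
    simp at h9
  have h11 : (1 : ℝ) ≤ |((n1 - n2 : ℤ) : ℝ)| := by
    rw [← Int.cast_abs]
    exact_mod_cast Int.one_le_abs h10
  nlinarith

end

section

variable {K : Type} [Field K] [NumberField K]

/-- The twist `ρ ⊗ |·|^{it}`: its Frobenius traces are `N(v)^{-it} tr ρ(v)`. -/
noncomputable def tw (ρ : WRep K) (t : ℝ) : WRep K where
  r := ρ.r
  F := ρ.F
  fld := ρ.fld
  nf := ρ.nf
  alg := ρ.alg
  𝔣 j := ρ.𝔣 j * ⊤
  k j := ρ.k j + fun _ => 0
  t j := ρ.t j + fun _ => -t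
  χ j := mulc (ρ.χ j) (nChar (ρ.F j) t)
  hecke j := (ρ.hecke j).mul (isHecke_nChar (ρ.F j) t)
  c := ρ.c

theorem dim_tw (ρ : WRep K) (t : ℝ) : dim (tw ρ t) = dim ρ := rfl

/-- the phase of the norm -/
noncomputable def ph (t : ℝ) (x : HX K) : ℂ := ((x.1 : ℕ) : ℂ) ^ (-(t * I))

theorem norm_ph (t : ℝ) (x : HX K) : ‖ph t x‖ = 1 := norm_nat_cpow x.1.2.pos t

theorem ph_add (t u : ℝ) (x : HX K) : ph (t + u) x = ph t x * ph u x := by
  unfold ph
  rw [← Complex.cpow_add _ _ (by exact_mod_cast x.1.2.ne_zero)]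
  congr 1
  push_cast
  ring

theorem hv_nChar (t : ℝ) (x : HX K) : hv (nChar K t) x = ((x.1 : ℕ) : ℂ) ^ (-(t * I)) := by
  have h1 : (vx x).asIdeal ≠ 0 := (vx x).ne_bot
  have h2 : hv (nChar K t) x = nChar K t (vx x).asIdeal := rfl
  rw [h2, nChar_apply K t h1, absNorm_vx]

theorem pc_mulc {F : Type} [Field F] [NumberField F] [Algebra K F] (χ : Ideal (𝓞 F) →*₀ ℂ)
    (t : ℝ) (x : HX K) : pc K (mulc χ (nChar F t)) x = pc K χ x * ph t x := by
  unfold pc push
  rw [Finset.sum_mul]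
  refine Finset.sum_congr rfl fun ψ _ => ?_
  have h2 : hv (mulc χ (nChar F t)) (⟨x.1, ψ⟩ : HX F) =
      hv χ ⟨x.1, ψ⟩ * hv (nChar F t) ⟨x.1, ψ⟩ := rfl
  rw [h2, hv_nChar]
  rfl

theorem tH_tw (ρ : WRep K) (t : ℝ) (x : HX K) : (tw ρ t).tH x = ρ.tH x * ph t x := by
  change ∑ j : Fin ρ.r, (ρ.c j : ℂ) * pc K (mulc (ρ.χ j) (nChar (ρ.F j) t)) x = _
  unfold WRep.tH
  rw [Finset.sum_mul]
  refine Finset.sum_congr rfl fun j _ => ?_
  rw [pc_mulc]
  ring

theorem bH_tw (ρ : WRep K) (t : ℝ) (x : HX K) : bH (tw ρ t) x = bH ρ x * conj (ph t x) := by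
  unfold bH
  rw [tH_tw, map_mul]

/-- a common phase does not matter -/
theorem ip_phase (φ ψ : HX K → ℂ) (θ : HX K → ℂ) (hθ : ∀ x, ‖θ x‖ = 1) (ε : ℝ) :
    ip ε (fun x => φ x * θ x) (fun x => ψ x * θ x) = ip ε φ ψ := by
  rw [ip_def, ip_def]
  refine tsum_congr fun x => ?_
  have h1 : θ x * conj (θ x) = 1 := by
    rw [Complex.mul_conj, Complex.normSq_eq_norm_sq, hθ]
    norm_num
  have h2 : φ x * θ x * conj (ψ x * θ x) = φ x * conj (ψ x) := by
    rw [map_mul]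
    calc φ x * θ x * (conj (ψ x) * conj (θ x)) = φ x * conj (ψ x) * (θ x * conj (θ x)) := by ring
      _ = _ := by rw [h1, mul_one]
  rw [h2]

theorem inner_of_ip {ρ σ : WRep K} {g : ℤ}
    (h : (fun ε => ip ε (bH ρ) (bH σ) - g * LL ε) =o[𝓝[>] 0] LL) : ρ.inner σ = g := by
  have h1 := ip_bH ρ σ
  have h2 : (fun ε => ((g : ℝ) - ρ.inner σ) * LL ε) =o[𝓝[>] 0] LL := by
    refine (h1.sub h).congr_left fun ε => ?_
    ring
  have h3 := LL_not_littleO h2
  have h4 : (ρ.inner σ : ℝ) = g := by linarith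
  exact_mod_cast h4

theorem inner_tw (ρ σ : WRep K) (t : ℝ) : (tw ρ t).inner (tw σ t) = ρ.inner σ := by
  apply inner_of_ip
  refine (ip_bH ρ σ).congr_left fun ε => ?_
  congr 1
  have h1 : bH (tw ρ t) = fun x => bH ρ x * conj (ph t x) := by funext x; exact bH_tw ρ t x
  have h2 : bH (tw σ t) = fun x => bH σ x * conj (ph t x) := by funext x; exact bH_tw σ t x
  rw [h1, h2]
  exact (ip_phase _ _ _ (fun x => by rw [Complex.norm_conj, norm_ph]) ε).symm

theorem isIrr_tw {ρ : WRep K} (h : ρ.IsIrr) (t : ℝ) : (tw ρ t).IsIrr := by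
  unfold WRep.IsIrr at h ⊢
  rw [inner_tw]
  exact h

theorem inner_tw_tw (ρ : WRep K) (t u : ℝ) :
    (tw ρ t).inner (tw ρ u) = ρ.inner (tw ρ (u - t)) := by
  apply inner_of_ip
  refine (ip_bH ρ (tw ρ (u - t))).congr_left fun ε => ?_
  congr 1
  have h1 : bH (tw ρ t) = fun x => bH ρ x * conj (ph t x) := by funext x; exact bH_tw ρ t x
  have h2 : bH (tw ρ u) = fun x => bH (tw ρ (u - t)) x * conj (ph t x) := by
    funext x
    rw [bH_tw, bH_tw, mul_assoc, ← map_mul, ← ph_add, sub_add_cancel]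
  rw [h1, h2]
  exact (ip_phase _ _ _ (fun x => by rw [Complex.norm_conj, norm_ph]) ε).symm

/-- the L-function of the twist -/
theorem LInd_tw (π : Params K) {F : Type} [Field F] [NumberField F] [Algebra K F]
    (χ : Ideal (𝓞 F) →*₀ ℂ) (t : ℝ) (s : ℂ) :
    LInd π (mulc χ (nChar F t)) s = LInd π χ (s + t * I) := by
  unfold LInd
  refine tprod_congr fun w => Finset.prod_congr rfl fun j _ => ?_
  have h0 : ((Ideal.absNorm w.asIdeal : ℕ) : ℂ) ≠ 0 := by
    exact_mod_cast (absNorm_pos F w.ne_bot).ne'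
  have h1 : (Ideal.absNorm w.asIdeal : ℂ) ^ (-(s + t * I)) =
      (Ideal.absNorm w.asIdeal : ℂ) ^ (-(t * I)) * (Ideal.absNorm w.asIdeal : ℂ) ^ (-s) := by
    rw [← Complex.cpow_add _ _ h0]
    congr 1
    ring
  rw [mulc_apply, nChar_apply F t w.ne_bot, h1]
  congr 2
  ring

theorem LW_tw (π : Params K) (ρ : WRep K) (t : ℝ) (s : ℂ) :
    LW π (tw ρ t) s = LW π ρ (s + t * I) := by
  change ∏ j : Fin ρ.r, LInd π (mulc (ρ.χ j) (nChar (ρ.F j) t)) s ^ ρ.c j = _
  unfold LW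
  refine Finset.prod_congr rfl fun j _ => ?_
  rw [LInd_tw]

theorem hasOrd_tw {π : Params K} {ρ : WRep K} {t : ℝ} {m : ℤ} :
    HasOrd (LW π (tw ρ t)) 1 m ↔ HasOrd (LW π ρ) (1 + t * I) m := by
  unfold HasOrd
  have h : ∀ ε : ℝ, LW π (tw ρ t) (1 + (ε : ℂ)) = LW π ρ (1 + t * I + (ε : ℂ)) := by
    intro ε
    rw [LW_tw]
    congr 1
    ring
  simp only [h]

/-- two powers of the norm which agree at almost all primes of degree one are equal -/
theorem ph_eq {t u : ℝ} (h : ∀ᶠ x : HX K in cofinite, ph t x = ph u x) : t = u := by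
  by_contra hne
  have h1 : t - u ≠ 0 := sub_ne_zero.2 hne
  have h2 : ∀ᶠ v : HeightOneSpectrum (𝓞 K) in cofinite, (Ideal.absNorm v.asIdeal).Prime →
      nChar K (t - u) v.asIdeal = 1 := by
    rw [Filter.eventually_cofinite] at h ⊢
    refine (h.image vx).subset fun v hv => ?_
    rw [Set.mem_ofPred_eq] at hv
    push Not at hv
    obtain ⟨x, rfl⟩ := exists_vx v hv.1
    refine ⟨x, fun hx => hv.2 ?_, rfl⟩
    have h3 : nChar K (t - u) (vx x).asIdeal = ph (t - u) x := hv_nChar (t - u) x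
    rw [h3]
    have h4 : ph (K := K) t x = ph (t - u) x * ph u x := by rw [← ph_add, sub_add_cancel]
    rw [h4] at hx
    have h5 : ph (K := K) u x ≠ 0 := by
      intro h0
      have := norm_ph (K := K) u x
      rw [h0, norm_zero] at this
      exact zero_ne_one this
    exact mul_right_cancel₀ h5 (hx.trans (one_mul _).symm)
  have h3 := meanH_one (K := K) (g := fun v => (nChar K (t - u) v.asIdeal).re)
    (fun v => (Complex.abs_re_le_norm _).trans ((isHecke_nChar K (t - u)).norm_le _)) (by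
      filter_upwards [h2] with v hv hp
      rw [hv hp, Complex.one_re])
  have h4 := meanH_zero (K := K) Pool.Agent.N134.HS.t_nvq (isHecke_nChar K (t - u))
    (nChar_nontriv K h1)
  have h5 : (fun ε => (1 : ℝ) * LL ε) =o[𝓝[>] 0] LL := by
    refine (h4.sub h3).congr_left fun ε => ?_
    have : EH K ε (fun x => (nChar K (t - u) (vx x).asIdeal).re) =
        EH K ε (fun x => (hv (nChar K (t - u)) x).re) := rfl
    rw [this]
    ring
  exact one_ne_zero (LL_not_littleO h5)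

end

end Pool.Agent.N172.CW
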